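import Pool.Agent.Lib.MP_7b255b_nt.Cocpt

/-!
# Level: the congruence subgroups are cocompact

* `level`: two elements `γ`, `γ'` of norm `1` which are congruent modulo `m` satisfy `γ' (bar γ) = 1 + (multiple of m)`. There are finitely many classes modulo
  `m`; choose representatives `γ_1, ..., γ_r` (of norm `1`). For `g` take `γ` with `γ.hh * g ∈ Ω` (`cocpt_set`) and `i` with `γ = γ_i mod m`: `τ = (bar γ_i) γ` is
  `1` modulo `m` [`bar γ_i * γ = bar γ_i γ_i + bar γ_i (γ - γ_i)`], and `τ.hh * g = (γ_i.hh)⁻¹ * (γ.hh * g)` is in the compact set `⋃ (γ_i.hh)⁻¹ Ω`.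
* `conj_level`: `γ = 1 + n τ` (componentwise, `n = N α`), `α γ = α + zs n (α τ) = (1 + α τ (bar α)) α` because `(bar α) α = n`.

-/

set_option autoImplicit false

namespace MPkt

variable {b : ℕ}

/-- The elements of norm `1` which are congruent to `1` modulo `m`, as elements of `SL(2, ℝ)`. -/
def lev (b : ℕ) (m : ℤ) : Set G :=
  {g | ∃ γ : Ob b, γ.N = 1 ∧ (m : GaussianInt) ∣ γ.X - 1 ∧ (m : GaussianInt) ∣ γ.Y ∧ γ.hh = g}

/-- The class modulo `k`. -/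
private def Level_cls (k : ℕ) (γ : Ob b) : (ZMod k × ZMod k) × (ZMod k × ZMod k) :=
  (((γ.X.re : ZMod k), (γ.X.im : ZMod k)), ((γ.Y.re : ZMod k), (γ.Y.im : ZMod k)))

private theorem Level_dvd {m : ℤ} {x y : GaussianInt} (h1 : (x.re : ZMod m.natAbs) = (y.re : ZMod m.natAbs))
    (h2 : (x.im : ZMod m.natAbs) = (y.im : ZMod m.natAbs)) : (m : GaussianInt) ∣ y - x := by
  rw [ZMod.intCast_eq_intCast_iff_dvd_sub, Int.natAbs_dvd] at h1 h2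
  rw [Zsqrtd.intCast_dvd, Zsqrtd.re_sub, Zsqrtd.im_sub]
  exact ⟨h1, h2⟩

private theorem Level_cong {m : ℤ} {γ γ' : Ob b} (hγ' : γ'.N = 1) (h1 : (m : GaussianInt) ∣ γ.X - γ'.X)
    (h2 : (m : GaussianInt) ∣ γ.Y - γ'.Y) :
    (m : GaussianInt) ∣ (γ'.bar * γ).X - 1 ∧ (m : GaussianInt) ∣ (γ'.bar * γ).Y := by
  have h0 := Ob.bar_mul_self γ'
  have hX : (γ'.bar * γ').X = 1 := by
    rw [h0, hγ']
    change ((1 : ℤ) : GaussianInt) * (1 : Ob b).X = 1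
    rw [Ob.one_X, mul_one, Int.cast_one]
  have hY : (γ'.bar * γ').Y = 0 := by
    rw [h0, hγ']
    change ((1 : ℤ) : GaussianInt) * (1 : Ob b).Y = 0
    rw [Ob.one_Y, mul_zero]
  obtain ⟨u, hu⟩ := h1
  obtain ⟨v, hv⟩ := h2
  have hu' : γ.X = γ'.X + m * u := by rw [← hu]; ring
  have hv' : γ.Y = γ'.Y + m * v := by rw [← hv]; ring
  have hs : star (m : GaussianInt) = m := by rw [star_intCast]
  rw [Ob.mul_X] at hX
  rw [Ob.mul_Y] at hY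
  constructor
  · refine ⟨γ'.bar.X * u + b * (γ'.bar.Y * star v), ?_⟩
    rw [Ob.mul_X, hu', hv', star_add, star_mul, hs, ← hX]
    ring
  · refine ⟨γ'.bar.X * v + γ'.bar.Y * star u, ?_⟩
    rw [Ob.mul_Y, hu', hv', star_add, star_mul, hs]
    linear_combination hY

theorem level (hb : ∀ x y : ℕ, b ≠ x ^ 2 + y ^ 2) {m : ℤ} (hm : m ≠ 0) :
    ∃ Ω : Set G, IsCompact Ω ∧ ∀ g : G, ∃ γ ∈ lev b m, γ * g ∈ Ω := by
  classical
  obtain ⟨Ω₀, hΩ, hΩ'⟩ := cocpt_set hb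
  have hk : NeZero m.natAbs := ⟨Int.natAbs_ne_zero.2 hm⟩
  have hex : ∀ f : (ZMod m.natAbs × ZMod m.natAbs) × (ZMod m.natAbs × ZMod m.natAbs), ∃ γ' : Ob b,
      (∃ γ : Ob b, γ.N = 1 ∧ Level_cls m.natAbs γ = f) → γ'.N = 1 ∧ Level_cls m.natAbs γ' = f := by
    intro f
    by_cases h : ∃ γ : Ob b, γ.N = 1 ∧ Level_cls m.natAbs γ = f
    · obtain ⟨γ, hγ⟩ := h
      exact ⟨γ, fun _ => hγ⟩
    · exact ⟨1, fun h' => absurd h' h⟩
  choose rp hrp using hex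
  refine ⟨⋃ f, (fun x : G => (rp f).hh⁻¹ * x) '' Ω₀,
    isCompact_iUnion fun f => hΩ.image (continuous_const.mul continuous_id), fun g => ?_⟩
  obtain ⟨γ, hγ, hg⟩ := hΩ' g
  obtain ⟨h1, h2⟩ := hrp (Level_cls m.natAbs γ) ⟨γ, hγ, rfl⟩
  obtain ⟨γ', hγ'⟩ : ∃ γ' : Ob b, γ' = rp (Level_cls m.natAbs γ) := ⟨_, rfl⟩
  rw [← hγ'] at h1 h2
  have h3 : (γ'.X.re : ZMod m.natAbs) = (γ.X.re : ZMod m.natAbs) := congrArg (fun p => p.1.1) h2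
  have h4 : (γ'.X.im : ZMod m.natAbs) = (γ.X.im : ZMod m.natAbs) := congrArg (fun p => p.1.2) h2
  have h5 : (γ'.Y.re : ZMod m.natAbs) = (γ.Y.re : ZMod m.natAbs) := congrArg (fun p => p.2.1) h2
  have h6 : (γ'.Y.im : ZMod m.natAbs) = (γ.Y.im : ZMod m.natAbs) := congrArg (fun p => p.2.2) h2
  obtain ⟨h7, h8⟩ := Level_cong h1 (Level_dvd h3 h4) (Level_dvd h5 h6)
  have h9 : γ'.bar.N = 1 := by rw [Ob.N_bar, h1]
  have h10 : (γ'.bar * γ).N = 1 := by rw [Ob.N_mul, h9, hγ, mul_one]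
  have h11 : (γ'.bar * γ).hh = γ'.hh⁻¹ * γ.hh := by
    rw [Ob.hh_mul (by rw [h9]; exact one_pos) (by rw [hγ]; exact one_pos), Ob.hh_bar (by rw [h1]; exact one_pos)]
  refine ⟨(γ'.bar * γ).hh, ⟨γ'.bar * γ, h10, h7, h8, rfl⟩, ?_⟩
  rw [Set.mem_iUnion]
  refine ⟨Level_cls m.natAbs γ, γ.hh * g, hg, ?_⟩
  change (rp (Level_cls m.natAbs γ)).hh⁻¹ * (γ.hh * g) = _
  rw [← hγ', h11, mul_assoc]

theorem conj_level {α γ : Ob b} (hα : α.N ≠ 0) (hγ : γ.N = 1) (h1 : (α.N : GaussianInt) ∣ γ.X - 1)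
    (h2 : (α.N : GaussianInt) ∣ γ.Y) : ∃ γ' : Ob b, γ'.N = 1 ∧ α * γ = γ' * α := by
  obtain ⟨u, hu⟩ := h1
  obtain ⟨v, hv⟩ := h2
  have hu' : γ.X = 1 + α.N * u := by rw [← hu]; ring
  obtain ⟨τ, hτ⟩ : ∃ τ : Ob b, τ = ⟨u, v⟩ := ⟨_, rfl⟩
  obtain ⟨P, hP⟩ : ∃ P : Ob b, P = α * τ * α.bar := ⟨_, rfl⟩
  have hPα : P * α = Ob.zs α.N (α * τ) := by
    rw [hP, mul_assoc, Ob.bar_mul_self, Ob.mul_zs, mul_one]
  have hs : star (α.N : GaussianInt) = α.N := by rw [star_intCast]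
  have heq : α * γ = (⟨1 + P.X, P.Y⟩ : Ob b) * α := by
    have hX : (P * α).X = (α.N : GaussianInt) * (α * τ).X := by rw [hPα]; rfl
    have hY : (P * α).Y = (α.N : GaussianInt) * (α * τ).Y := by rw [hPα]; rfl
    rw [Ob.mul_X, Ob.mul_X, hτ] at hX
    rw [Ob.mul_Y, Ob.mul_Y, hτ] at hY
    ext1
    · rw [Ob.mul_X, Ob.mul_X, hu', hv, star_mul, hs]
      linear_combination -hX
    · rw [Ob.mul_Y, Ob.mul_Y, hu', hv, star_add, star_mul, hs, star_one]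
      linear_combination -hY
  refine ⟨⟨1 + P.X, P.Y⟩, ?_, heq⟩
  have h3 := congrArg Ob.N heq
  rw [Ob.N_mul, Ob.N_mul, hγ, mul_one] at h3
  have h4 : (⟨1 + P.X, P.Y⟩ : Ob b).N * α.N = 1 * α.N := by rw [← h3, one_mul]
  exact mul_right_cancel₀ hα h4

/-- `α γ = γ' α` in `SL(2, ℝ)` -/
theorem conj_lev {α : Ob b} (hα : 0 < α.N) {m : ℤ} (hm : α.N ∣ m) {g : G} (hg : g ∈ lev b m) :
    ∃ γ' ∈ Gam b, α.hh * g = γ' * α.hh := by
  obtain ⟨γ, hγ, h1, h2, rfl⟩ := hg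
  have h3 : (α.N : GaussianInt) ∣ (m : GaussianInt) := by
    obtain ⟨k, hk⟩ := hm
    exact ⟨(k : GaussianInt), by rw [hk]; push_cast; rfl⟩
  obtain ⟨γ', hγ', heq⟩ := conj_level hα.ne' hγ (h3.trans h1) (h3.trans h2)
  refine ⟨γ'.hh, Ob.hh_mem hγ', ?_⟩
  rw [← Ob.hh_mul hα (by rw [hγ]; exact one_pos), heq, Ob.hh_mul (by rw [hγ']; exact one_pos) hα]

end MPkt
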