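import Pool.Agent.Lib.MP_7b255b_nt.Hck

/-!
# Sph: spherical functions on the order

`c : Ob b → ℂ` bi-invariant under the elements of norm `1`, with `c 1 = 1`, and an eigenfunction of the Hecke operators. Good Gaussian integers `y`: coprime to
`star y` and to `b`.
* `sph_norm`: `dc`: `c α = c (em δ)` for `α` primitive of norm `|δ|^2`.
* `sph_real`: `c (em y)`: `bar (em y) = em (star y)` is primitive of the same norm, so `conj c = c`.
* `sph_one`: `c (em (y ϖ)) = c (em y) c (em ϖ)` for `y` coprime to `p = |ϖ|^2`: the eigenvalue for `α = 1`: every `β ∈ s` is primitive (`prim_of_sqfree`) of norm `p`, so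
  `λ = |s| c(em ϖ)`; for `α = em y`: `β * em y` is primitive (`prim_mul`) of norm `p |y|^2 = norm (ϖ y)`, so `|s| c(em(ϖ y)) = λ c(em y)`; `s` is not empty.
* `sph_two`: `α = em (ϖ y)`: for the one `β₀` (`one_rep`) `β₀ em (ϖ y) = γ em (star ϖ) em ϖ em y = γ zs p (em y)`, `c = c(em y)`; the others give `c(em(ϖ ϖ y))` (`prim_two`, norm `p ^ 2 |y|^2`). So
  `c(em y) + (|s| - 1) c(em(ϖ ϖ y)) = λ c(em(ϖ y)) = |s| c(em ϖ)^2 c(em y)`. With `y = 1`: `1 + (|s| - 1) c(em(ϖ ϖ)) = |s| c(em ϖ)^2`. If `|s| = 1` then `c(em ϖ)^2 = 1`.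
* `sph_main`: if `|c(em ϖ)| ≥ 1/(4p)` take `k = 1`, otherwise `1 ≤ (p+1)/(16 p^2) + p |c(em (ϖ^2))|` gives `|c(em(ϖ^2))| ≥ 1/(4p)`: `k = 2` (then `|s| > 1`, so the second
  relation gives `c(em(ϖ^2 y)) = c(em(ϖ^2)) c(em y)`); `σ` the sign. The formulas with `star ϖ` follow by `sph_norm`: same norm, primitive.

-/

set_option autoImplicit false

namespace MPkt

variable {b : ℕ}

/-- A normalised function on the order which is invariant under the elements of norm `1` on both sides. -/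
structure SphF (b : ℕ) (c : Ob b → ℂ) : Prop where
  left : ∀ γ α : Ob b, γ.N = 1 → 0 < α.N → c (γ * α) = c α
  right : ∀ γ α : Ob b, γ.N = 1 → 0 < α.N → c (α * γ) = c α
  zs : ∀ (n : ℤ) (α : Ob b), 0 < n → 0 < α.N → c (Ob.zs n α) = c α
  one : c 1 = 1
  conj : ∀ α : Ob b, 0 < α.N → c α.bar = star (c α)

/-- A Gaussian integer prime to its conjugate and to `b`. -/
def Good (b : ℕ) (y : GaussianInt) : Prop := IsCoprime y (star y) ∧ IsCoprime y (b : GaussianInt)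

theorem Sph_star_cop {x y : GaussianInt} (h : IsCoprime x y) : IsCoprime (star x) (star y) := by
  obtain ⟨u, v, h⟩ := h
  refine ⟨star u, star v, ?_⟩
  have h1 := congrArg star h
  rw [star_add, star_mul, star_mul, star_one] at h1
  linear_combination h1

theorem Sph_nn {ϖ : GaussianInt} {p : ℕ} (hn : ϖ.norm = p) : ϖ * star ϖ = (p : GaussianInt) := by
  rw [← Zsqrtd.norm_eq_mul_conj, hn]
  push_cast
  rfl

theorem Sph_star_norm (y : GaussianInt) : (star y).norm = y.norm := by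
  simp only [Zsqrtd.norm_def, Zsqrtd.re_star, Zsqrtd.im_star]
  ring

theorem Sph_int_cop {m n : ℤ} (h : IsCoprime m n) : IsCoprime (m : GaussianInt) (n : GaussianInt) := by
  obtain ⟨u, v, huv⟩ := h
  exact ⟨u, v, by exact_mod_cast congrArg (fun z : ℤ => (z : GaussianInt)) huv⟩

/-- Coprimality of Gaussian integers with coprime norms. -/
theorem Sph_cop {x y : GaussianInt} (h : IsCoprime x.norm y.norm) : IsCoprime x y := by
  have h1 := Sph_int_cop h
  refine (h1.of_isCoprime_of_dvd_left ?_).of_isCoprime_of_dvd_right ?_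
  · exact ⟨star x, Zsqrtd.norm_eq_mul_conj x⟩
  · exact ⟨star y, Zsqrtd.norm_eq_mul_conj y⟩

theorem Sph_good_star {y : GaussianInt} (h : Good b y) : Good b (star y) := by
  refine ⟨?_, ?_⟩
  · rw [star_star]
    exact h.1.symm
  · have h1 := Sph_star_cop h.2
    rwa [Ob.star_nat] at h1

theorem Sph_good_mul {x y : GaussianInt} (hx : Good b x) (hy : Good b y) (h1 : IsCoprime x (star y))
    (h2 : IsCoprime y (star x)) : Good b (x * y) := by
  refine ⟨?_, hx.2.mul_left hy.2⟩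
  rw [star_mul]
  exact (h1.mul_right hx.1).mul_left (hy.1.mul_right h2)

theorem Sph_ne {y : GaussianInt} (h : IsCoprime y (star y)) : 0 < y.norm := by
  rcases (Zsqrtd.norm_nonneg (by norm_num : (-1 : ℤ) ≤ 0) y).lt_or_eq with h1 | h1
  · exact h1
  · exfalso
    have h2 : y = 0 := (Zsqrtd.norm_eq_zero_iff (by norm_num) y).1 h1.symm
    rw [h2, star_zero] at h
    exact not_isCoprime_zero_zero h

theorem Sph_norm (hb : ¬ IsSquare b) {c : Ob b → ℂ} (hc : SphF b c) {δ : GaussianInt} (hδ : Good b δ) {α : Ob b}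
    (hα : α.Prim) (hN : α.N = δ.norm) : c α = c (Ob.em δ) := by
  obtain ⟨β, γ, hβ, hγ, h1⟩ := dc hb hδ.1 hδ.2 hα hN
  have h2 : 0 < (Ob.em δ : Ob b).N := by
    rw [Ob.N_em]
    exact Sph_ne hδ.1
  rw [h1, hc.right γ _ hγ (by rw [Ob.N_mul, hβ, one_mul]; exact h2), hc.left β _ hβ h2]

theorem Sph_em (hb : ¬ IsSquare b) {c : Ob b → ℂ} (hc : SphF b c) {δ δ' : GaussianInt} (hδ : Good b δ)
    (hδ' : Good b δ') (hN : δ.norm = δ'.norm) : c (Ob.em δ) = c (Ob.em δ') :=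
  Sph_norm hb hc hδ' (prim_em hδ.1) (by rw [Ob.N_em, hN])

theorem Sph_real (hb : ¬ IsSquare b) {c : Ob b → ℂ} (hc : SphF b c) {y : GaussianInt} (hy : Good b y) :
    c (Ob.em y) = ((c (Ob.em y)).re : ℂ) := by
  have h1 := hc.conj (Ob.em y) (by rw [Ob.N_em]; exact Sph_ne hy.1)
  rw [Ob.em_bar, Sph_em hb hc (Sph_good_star hy) hy (Sph_star_norm y)] at h1
  exact (Complex.conj_eq_iff_real.1 h1.symm).elim fun r hr => by
    rw [hr, Complex.ofReal_re]

section main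

variable (hb : ¬ IsSquare b) (hb0 : 0 < b) {c : Ob b → ℂ} (hc : SphF b c) {p : ℕ} (hp : p.Prime) {ϖ : GaussianInt}
  (hn : ϖ.norm = p) (hg : Good b ϖ) {s : Finset (Ob b)} (hs : IsReps p s) {l : ℂ}
  (hl : ∀ α : Ob b, 0 < α.N → ∑ β ∈ s, c (β * α) = l * c α)

include hn hs in
theorem Sph_pos : 0 < s.card := by
  obtain ⟨β, hβ, -⟩ := hs.surj (Ob.em ϖ) (by rw [Ob.N_em, hn])
  exact Finset.card_pos.2 ⟨β, hβ⟩

include hp hs in
theorem Sph_prim {β : Ob b} (hβ : β ∈ s) : β.Prim := by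
  refine prim_of_sqfree ?_
  rw [hs.norm β hβ]
  exact (Nat.prime_iff_prime_int.1 hp).squarefree

include hn hg in
theorem Sph_cops {y : GaussianInt} (hy : Good b y) (hpy : IsCoprime (p : ℤ) y.norm) :
    Good b (y * ϖ) ∧ Good b (y * star ϖ) := by
  have h1 : IsCoprime ϖ.norm y.norm := by rw [hn]; exact hpy
  have h2 : IsCoprime ϖ.norm (star y).norm := by rw [Sph_star_norm]; exact h1
  have h3 : IsCoprime (star ϖ).norm y.norm := by rw [Sph_star_norm]; exact h1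
  have h4 : IsCoprime (star ϖ).norm (star y).norm := by rw [Sph_star_norm, Sph_star_norm]; exact h1
  constructor
  · exact Sph_good_mul hy hg (Sph_cop h3).symm (Sph_cop h2)
  · refine Sph_good_mul hy (Sph_good_star hg) ?_ (Sph_cop h4)
    rw [star_star]
    exact (Sph_cop h1).symm

include hb hc hp hn hg hs hl in
theorem Sph_one {y : GaussianInt} (hy : Good b y) (hpy : IsCoprime (p : ℤ) y.norm) :
    l = s.card * c (Ob.em ϖ) ∧ c (Ob.em (y * ϖ)) = c (Ob.em y) * c (Ob.em ϖ) := by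
  have hl1 : l = s.card * c (Ob.em ϖ) := by
    have h1 := hl 1 (by rw [Ob.N_one]; exact one_pos)
    rw [hc.one, mul_one] at h1
    rw [← h1, Finset.sum_congr rfl fun β hβ => by
      rw [mul_one, Sph_norm hb hc hg (Sph_prim hp hs hβ) (by rw [hs.norm β hβ, hn])], Finset.sum_const, nsmul_eq_mul]
  refine ⟨hl1, ?_⟩
  have hp0 : (p : ℤ) ≠ 0 := by exact_mod_cast hp.ne_zero
  have h2 := hl (Ob.em y) (by rw [Ob.N_em]; exact Sph_ne hy.1)
  rw [Finset.sum_congr rfl fun β hβ => Sph_norm hb hc (Sph_cops hn hg hy hpy).1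
    (prim_mul (Sph_prim hp hs hβ) (by rw [hs.norm β hβ]; exact hp0) hy.1 (by rw [hs.norm β hβ]; exact hpy))
    (by rw [Ob.N_mul, hs.norm β hβ, Ob.N_em, Zsqrtd.norm_mul, hn, mul_comm]), Finset.sum_const, nsmul_eq_mul, hl1] at h2
  have h3 : (s.card : ℂ) ≠ 0 := by
    exact_mod_cast (Sph_pos hn hs).ne'
  refine mul_left_cancel₀ h3 ?_
  rw [h2]
  ring

include hn hg in
theorem Sph_cops2 {y : GaussianInt} (hy : Good b y) (hpy : IsCoprime (p : ℤ) y.norm) :
    Good b (y * ϖ ^ 2) ∧ Good b (y * star ϖ ^ 2) := by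
  obtain ⟨h1, h2⟩ := Sph_cops hn hg hy hpy
  have h5 : IsCoprime ϖ.norm y.norm := by rw [hn]; exact hpy
  have h6 : IsCoprime ϖ.norm (star y).norm := by rw [Sph_star_norm]; exact h5
  have h7 : IsCoprime (star ϖ).norm y.norm := by rw [Sph_star_norm]; exact h5
  have h8 : IsCoprime (star ϖ).norm (star y).norm := by rw [Sph_star_norm, Sph_star_norm]; exact h5
  constructor
  · have e : y * ϖ ^ 2 = (y * ϖ) * ϖ := by ring
    rw [e]
    refine Sph_good_mul h1 hg ?_ ?_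
    · exact (Sph_cop h7).symm.mul_left hg.1
    · rw [star_mul]
      exact hg.1.mul_right (Sph_cop h6)
  · have e : y * star ϖ ^ 2 = (y * star ϖ) * star ϖ := by ring
    rw [e]
    refine Sph_good_mul h2 (Sph_good_star hg) ?_ ?_
    · rw [star_star]
      exact (Sph_cop h5).symm.mul_left hg.1.symm
    · rw [star_mul, star_star]
      exact hg.1.symm.mul_right (Sph_cop h8)

include hb hc hp hn hg hs hl in
theorem Sph_two {y : GaussianInt} (hy : Good b y) (hpy : IsCoprime (p : ℤ) y.norm) :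
    c (Ob.em y) + ((s.card : ℂ) - 1) * c (Ob.em (y * ϖ ^ 2)) = s.card * c (Ob.em ϖ) ^ 2 * c (Ob.em y) := by
  classical
  have hp0 : (p : ℤ) ≠ 0 := by exact_mod_cast hp.ne_zero
  have hppos : (0 : ℤ) < p := by exact_mod_cast hp.pos
  obtain ⟨β₀, hβ₀, ⟨γ, hγ, h1⟩, h2⟩ := one_rep hp hn hs
  obtain ⟨hl1, h3⟩ := Sph_one hb hc hp hn hg hs hl hy hpy
  have hgy := Sph_cops hn hg hy hpy
  have h4 := hl (Ob.em (y * ϖ)) (by rw [Ob.N_em]; exact Sph_ne hgy.1.1)
  rw [← Finset.add_sum_erase s _ hβ₀] at h4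
  have h5 : c (β₀ * Ob.em (y * ϖ)) = c (Ob.em y) := by
    have h6 : β₀ * Ob.em (y * ϖ) = γ * Ob.zs p (Ob.em y) := by
      have h7 : (Ob.em (star ϖ) * Ob.em (y * ϖ) : Ob b) = Ob.zs p (Ob.em y) := by
        rw [← Ob.em_mul]
        have h8 : star ϖ * (y * ϖ) = (p : GaussianInt) * y := by
          rw [← Sph_nn hn]
          ring
        rw [h8]
        ext1
        · simp only [Ob.em, Ob.zs]
          push_cast
          rfl
        · simp only [Ob.em, Ob.zs, mul_zero]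
      rw [h1, mul_assoc, h7]
    have h9 : 0 < (Ob.em y : Ob b).N := by
      rw [Ob.N_em]
      exact Sph_ne hy.1
    rw [h6, hc.left γ _ hγ (by rw [Ob.N_zs]; positivity), hc.zs p _ hppos h9]
  have h6 : ∀ β ∈ s.erase β₀, c (β * Ob.em (y * ϖ)) = c (Ob.em (y * ϖ ^ 2)) := by
    intro β hβ
    have hβs := Finset.mem_of_mem_erase hβ
    have hβne := Finset.ne_of_mem_erase hβ
    have h7 : ¬ ∃ γ : Ob b, β * Ob.em ϖ = Ob.zs p γ := fun h => hβne (h2 β hβs h)
    have h8 := prim_two hp hn hg.1 (hs.norm β hβs) h7 hy.1 hpy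
    rw [mul_comm ϖ y] at h8
    refine Sph_norm hb hc (Sph_cops2 hn hg hy hpy).1 h8 ?_
    rw [Ob.N_mul, hs.norm β hβs, Ob.N_em, Zsqrtd.norm_mul, Zsqrtd.norm_mul, pow_two, Zsqrtd.norm_mul, hn]
    ring
  rw [h5, Finset.sum_congr rfl h6, Finset.sum_const, nsmul_eq_mul, Finset.card_erase_of_mem hβ₀, h3, hl1,
    Nat.cast_sub (Sph_pos hn hs), Nat.cast_one] at h4
  rw [h4]
  ring

end main

theorem sph_main (hb : ¬ IsSquare b) (hb0 : 0 < b) {c : Ob b → ℂ} (hc : SphF b c) {p : ℕ} (hp : p.Prime) {ϖ : GaussianInt}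
    (hn : ϖ.norm = p) (hg : Good b ϖ)
    (hH : ∀ s : Finset (Ob b), IsReps p s → ∃ l : ℂ, ∀ α : Ob b, 0 < α.N → ∑ β ∈ s, c (β * α) = l * c α) :
    ∃ (k : ℕ) (σ a : ℝ), 0 < k ∧ (σ = 1 ∨ σ = -1) ∧ 1 / (4 * p) ≤ σ * a ∧
      ∀ y : GaussianInt, Good b y → IsCoprime (p : ℤ) y.norm →
        c (Ob.em (y * ϖ ^ k)) = a * c (Ob.em y) ∧ c (Ob.em (y * star ϖ ^ k)) = a * c (Ob.em y) := by
  obtain ⟨s, hs⟩ := exists_reps b hp.pos
  obtain ⟨l, hl⟩ := hH s hs
  have hcard : s.card ≤ p + 1 := reps_card hp hn hg.1 hg.2 hs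
  have hpos : 0 < s.card := Sph_pos hn hs
  have hp2 : (2 : ℝ) ≤ p := by exact_mod_cast hp.two_le
  have hp0 : (0 : ℝ) < p := by linarith
  have hg1 : Good b 1 := ⟨isCoprime_one_left, isCoprime_one_left⟩
  have hp1 : IsCoprime (p : ℤ) (1 : GaussianInt).norm := by
    rw [Zsqrtd.norm_one]
    exact isCoprime_one_right
  have hgϖ2 : Good b (ϖ ^ 2) := by
    have h := (Sph_cops2 hn hg hg1 hp1).1
    rwa [one_mul] at h
  obtain ⟨a₁, ha₁⟩ : ∃ a₁ : ℝ, c (Ob.em ϖ) = a₁ := ⟨_, Sph_real hb hc hg⟩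
  obtain ⟨a₂, ha₂⟩ : ∃ a₂ : ℝ, c (Ob.em (ϖ ^ 2)) = a₂ := ⟨_, Sph_real hb hc hgϖ2⟩
  have hsign : ∀ a : ℝ, 1 / (4 * p) ≤ |a| → ∃ σ : ℝ, (σ = 1 ∨ σ = -1) ∧ 1 / (4 * p) ≤ σ * a := by
    intro a ha
    rcases abs_cases a with ⟨h1, -⟩ | ⟨h1, -⟩
    · exact ⟨1, Or.inl rfl, by rw [one_mul, ← h1]; exact ha⟩
    · exact ⟨-1, Or.inr rfl, by rw [neg_one_mul, ← h1]; exact ha⟩
  by_cases hbig : 1 / (4 * (p : ℝ)) ≤ |a₁|
  · obtain ⟨σ, h1, h2⟩ := hsign a₁ hbig
    refine ⟨1, σ, a₁, one_pos, h1, h2, fun y hy hpy => ?_⟩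
    have h3 := (Sph_one hb hc hp hn hg hs hl hy hpy).2
    rw [pow_one, pow_one]
    have h4 := Sph_cops hn hg hy hpy
    have h5 : c (Ob.em (y * ϖ)) = a₁ * c (Ob.em y) := by
      rw [h3, ha₁]
      ring
    refine ⟨h5, ?_⟩
    rw [← h5]
    exact Sph_em hb hc h4.2 h4.1 (by rw [Zsqrtd.norm_mul, Zsqrtd.norm_mul, Sph_star_norm])
  · push Not at hbig
    have h1 := Sph_two hb hc hp hn hg hs hl hg1 hp1
    have hem1 : (Ob.em 1 : Ob b) = 1 := rfl
    rw [one_mul, hem1, hc.one, ha₁, ha₂, mul_one] at h1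
    have h2 : 1 + ((s.card : ℝ) - 1) * a₂ = s.card * a₁ ^ 2 := by exact_mod_cast h1
    have hm1 : (1 : ℝ) ≤ s.card := by exact_mod_cast hpos
    have hm2 : (s.card : ℝ) ≤ p + 1 := by exact_mod_cast hcard
    have ha1 : a₁ ^ 2 ≤ 1 / (16 * (p : ℝ) ^ 2) := by
      have h3 : |a₁| ^ 2 ≤ (1 / (4 * (p : ℝ))) ^ 2 := pow_le_pow_left₀ (abs_nonneg _) hbig.le 2
      rw [sq_abs] at h3
      refine h3.trans (le_of_eq ?_)
      field_simp
      norm_num
    have hma : (s.card : ℝ) * a₁ ^ 2 ≤ 1 / (8 * p) := by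
      have h3 : (s.card : ℝ) * a₁ ^ 2 ≤ (p + 1) * (1 / (16 * (p : ℝ) ^ 2)) :=
        mul_le_mul hm2 ha1 (sq_nonneg _) (by linarith)
      refine h3.trans ?_
      rw [mul_one_div, div_le_div_iff₀ (by positivity) (by positivity)]
      nlinarith
    have hma2 : (1 : ℝ) / (8 * p) ≤ 1 / 16 := by
      rw [div_le_div_iff₀ (by positivity) (by norm_num)]
      linarith
    have hmne : (s.card : ℝ) - 1 ≠ 0 := by
      intro h
      rw [h, zero_mul, add_zero] at h2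
      linarith
    have ha2 : 1 / (4 * (p : ℝ)) ≤ |a₂| := by
      have h3 : 1 - (s.card : ℝ) * a₁ ^ 2 ≤ ((s.card : ℝ) - 1) * |a₂| := by
        have h4 : -(((s.card : ℝ) - 1) * a₂) ≤ ((s.card : ℝ) - 1) * |a₂| := by
          rw [← mul_neg]
          exact mul_le_mul_of_nonneg_left (neg_le_abs a₂) (by linarith)
        linarith
      have h4 : ((s.card : ℝ) - 1) * |a₂| ≤ p * |a₂| := mul_le_mul_of_nonneg_right (by linarith) (abs_nonneg _)
      rw [div_le_iff₀ (by positivity)]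
      linarith
    obtain ⟨σ, h3, h4⟩ := hsign a₂ ha2
    refine ⟨2, σ, a₂, two_pos, h3, h4, fun y hy hpy => ?_⟩
    have h5 := Sph_two hb hc hp hn hg hs hl hy hpy
    have h6 := Sph_cops2 hn hg hy hpy
    have hmne' : (s.card : ℂ) - 1 ≠ 0 := by exact_mod_cast hmne
    have h7 : c (Ob.em (y * ϖ ^ 2)) = a₂ * c (Ob.em y) := by
      refine mul_left_cancel₀ hmne' ?_
      rw [ha₁] at h5
      linear_combination h5 - c (Ob.em y) * h1
    refine ⟨h7, ?_⟩
    rw [← h7]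
    exact Sph_em hb hc h6.2 h6.1 (by rw [Zsqrtd.norm_mul, Zsqrtd.norm_mul, pow_two, pow_two, Zsqrtd.norm_mul,
      Zsqrtd.norm_mul, Sph_star_norm])

end MPkt
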