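import Pool.Agent.Lib.MP_7b255b_nt.Pos
import Pool.Agent.Lib.MP_7b255b_nt.Level
import Pool.Agent.Lib.MP_7b255b_nt.Sph

/-!
# BB: the inner product of the translates

`f : G → ℂ` continuous, invariant under `Gam b`, of weight `m` on the right. `BB f α β = LIM_t` of the mean over the circle of radius `t` of `conj f(α g) f(β g)`.
-/

set_option autoImplicit false

namespace MPkt

open Filter Topology

variable {b : ℕ}

/-- The product `conj f(α g) f(β g)`. -/
noncomputable def F2 (f : G → ℂ) (α β : Ob b) (g : G) : ℂ := star (f (α.hh * g)) * f (β.hh * g)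

/-- The inner product of the translates of `f` by `α` and `β`. -/
noncomputable def BB (f : G → ℂ) (α β : Ob b) : ℂ := LIM (cm (F2 f α β) 1)

/-- `f` is continuous, invariant under `Gam b`, of weight `m`, and not zero. -/
structure IsF (b : ℕ) (m : ℤ) (f : G → ℂ) : Prop where
  cont : Continuous f
  inv : ∀ γ ∈ Gam b, ∀ g, f (γ * g) = f g
  wt : ∀ g θ, f (g * kk θ) = Complex.exp (m * θ * Complex.I) * f g
  ne : ∃ g, f g ≠ 0

variable {m : ℤ} {f : G → ℂ}

private theorem BB_cont (hf : IsF b m f) (α β : Ob b) : Continuous (F2 f α β) := by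
  unfold F2
  exact (Continuous.star (hf.cont.comp (continuous_const.mul continuous_id))).mul
    (hf.cont.comp (continuous_const.mul continuous_id))

theorem F2_cpt (hb : ∀ x y : ℕ, b ≠ x ^ 2 + y ^ 2) (hf : IsF b m f) {α β : Ob b} (hα : 0 < α.N) (hβ : 0 < β.N) :
    Cpt (lev b (α.N * β.N)) (F2 f α β) := by
  refine ⟨level hb (mul_pos hα hβ).ne', BB_cont hf α β, ?_⟩
  intro γ hγ g
  obtain ⟨γ1, h1, h2⟩ := conj_lev hα (dvd_mul_right α.N β.N) hγ
  obtain ⟨γ2, h3, h4⟩ := conj_lev hβ (dvd_mul_left β.N α.N) hγ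
  unfold F2
  rw [← mul_assoc, ← mul_assoc, h2, h4, mul_assoc, mul_assoc, hf.inv γ1 h1, hf.inv γ2 h3]

private theorem BB_cm (Ψ : G → ℂ) (h : G) : cm (fun g => Ψ (h * g)) 1 = cm Ψ h := by
  funext t
  unfold cm
  congr 1
  refine intervalIntegral.integral_congr fun θ _ => ?_
  show Ψ (h * (1 * kk θ * aa t)) = Ψ (h * kk θ * aa t)
  rw [one_mul, mul_assoc]

theorem BB_shift (hb : ∀ x y : ℕ, b ≠ x ^ 2 + y ^ 2) (hf : IsF b m f) {α β γ : Ob b} (hα : 0 < α.N) (hβ : 0 < β.N)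
    (hγ : 0 < γ.N) : BB f (α * γ) (β * γ) = BB f α β := by
  unfold BB
  have h1 : F2 f (α * γ) (β * γ) = fun g => F2 f α β (γ.hh * g) := by
    funext g
    unfold F2
    rw [Ob.hh_mul hα hγ, Ob.hh_mul hβ hγ, mul_assoc, mul_assoc]
  rw [h1, BB_cm]
  exact const (F2_cpt hb hf hα hβ) _ _

private theorem BB_cm_star (Ψ : G → ℂ) (g : G) (t : ℝ) :
    star (cm Ψ g t) = cm (fun g => star (Ψ g)) g t := by
  unfold cm
  rw [star_mul', intervalIntegral, intervalIntegral, star_sub]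
  have h1 : ∀ (s : Set ℝ), star (∫ θ in s, Ψ (g * kk θ * aa t)) = ∫ θ in s, star (Ψ (g * kk θ * aa t)) := by
    intro s
    exact (integral_conj (f := fun θ => Ψ (g * kk θ * aa t))).symm
  rw [h1, h1]
  congr 1
  rw [star_inv₀]
  congr 1
  simp [Complex.conj_ofReal]

private theorem BB_star (hb : ∀ x y : ℕ, b ≠ x ^ 2 + y ^ 2) (hf : IsF b m f) {α β : Ob b} (hα : 0 < α.N)
    (hβ : 0 < β.N) : BB f β α = star (BB f α β) := by
  unfold BB
  rw [← isLIM.star _ ((F2_cpt hb hf hα hβ).buc.bc 1)]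
  congr 1
  funext t
  rw [BB_cm_star]
  congr 1
  funext g
  unfold F2
  rw [star_mul', star_star, mul_comm]

private theorem BB_left (hf : IsF b m f) {γ α β : Ob b} (hγ : γ.N = 1) (hα : 0 < α.N) :
    BB f (γ * α) β = BB f α β := by
  unfold BB
  congr 2
  funext g
  unfold F2
  rw [Ob.hh_mul (by rw [hγ]; exact one_pos) hα, mul_assoc, hf.inv _ (Ob.hh_mem hγ)]

private theorem BB_right (hf : IsF b m f) {γ α β : Ob b} (hγ : γ.N = 1) (hβ : 0 < β.N) :
    BB f α (γ * β) = BB f α β := by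
  unfold BB
  congr 2
  funext g
  unfold F2
  rw [Ob.hh_mul (by rw [hγ]; exact one_pos) hβ, mul_assoc γ.hh, hf.inv _ (Ob.hh_mem hγ)]

private theorem BB_zs_left {n : ℤ} (hn : 0 < n) {α β : Ob b} (hα : 0 < α.N) :
    BB f (Ob.zs n α) β = BB f α β := by
  unfold BB F2
  rw [Ob.hh_zs hn hα]

private theorem BB_zs_right {n : ℤ} (hn : 0 < n) {α β : Ob b} (hβ : 0 < β.N) :
    BB f α (Ob.zs n β) = BB f α β := by
  unfold BB F2
  rw [Ob.hh_zs hn hβ]

private theorem BB_one_pos : 0 < (1 : Ob b).N := by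
  rw [Ob.N_one]
  exact one_pos

theorem BB_pos (hb : ∀ x y : ℕ, b ≠ x ^ 2 + y ^ 2) (hf : IsF b m f) : 0 < (BB f (1 : Ob b) 1).re ∧ (BB f (1 : Ob b) 1).im = 0 := by
  have h1 : F2 f (1 : Ob b) 1 = fun g => ((‖f g‖ ^ 2 : ℝ) : ℂ) := by
    funext g
    unfold F2
    rw [Ob.hh_one, one_mul]
    show (starRingEnd ℂ) (f g) * f g = _
    rw [mul_comm, Complex.mul_conj, Complex.normSq_eq_norm_sq]
  have h2 := F2_cpt hb hf (BB_one_pos (b := b)) (BB_one_pos (b := b))
  constructor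
  · unfold BB
    rw [h1] at h2 ⊢
    refine pos_LIM h2 (fun g => by positivity) (fun g θ => ?_) ?_
    · rw [hf.wt, norm_mul]
      have h3 : ‖Complex.exp (m * θ * Complex.I)‖ = 1 := by
        have h4 : (m : ℂ) * θ * Complex.I = ((m * θ : ℝ) : ℂ) * Complex.I := by push_cast; ring
        rw [h4, Complex.norm_exp_ofReal_mul_I]
      rw [h3, one_mul]
    · obtain ⟨g, hg⟩ := hf.ne
      exact ⟨g, pow_ne_zero 2 (norm_ne_zero_iff.2 hg)⟩
  · have h3 := BB_star hb hf (BB_one_pos (b := b)) (BB_one_pos (b := b))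
    have h4 := congrArg Complex.im h3
    rw [show (star (BB f (1 : Ob b) 1)).im = -(BB f (1 : Ob b) 1).im from rfl] at h4
    linarith

private theorem BB_ne (hb : ∀ x y : ℕ, b ≠ x ^ 2 + y ^ 2) (hf : IsF b m f) : BB f (1 : Ob b) 1 ≠ 0 := by
  intro h
  have h1 := (BB_pos hb hf).1
  rw [h] at h1
  simp at h1

theorem sphF (hb : ∀ x y : ℕ, b ≠ x ^ 2 + y ^ 2) (hf : IsF b m f) :
    SphF b fun α => BB f 1 α / BB f (1 : Ob b) 1 := by
  constructor
  · intro γ α hγ hα
    show BB f 1 (γ * α) / _ = _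
    rw [BB_right hf hγ hα]
  · intro γ α hγ hα
    show BB f 1 (α * γ) / _ = _
    have hγ0 : 0 < γ.N := by rw [hγ]; exact one_pos
    have hγb : γ.bar.N = 1 := by rw [Ob.N_bar, hγ]
    have h1 : BB f 1 (α * γ) = BB f (γ.bar * γ) (α * γ) := by
      rw [Ob.bar_mul_self, hγ, BB_zs_left one_pos BB_one_pos]
    rw [h1, BB_shift hb hf (by rw [hγb]; exact one_pos) hα hγ0]
    have h2 := BB_left (β := α) hf hγb (BB_one_pos (b := b))
    rw [mul_one] at h2
    rw [h2]
  · intro n α hn hα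
    show BB f 1 (Ob.zs n α) / _ = _
    rw [BB_zs_right hn hα]
  · exact div_self (BB_ne hb hf)
  · intro α hα
    show BB f 1 α.bar / _ = star (BB f 1 α / BB f 1 1)
    have hαb : 0 < α.bar.N := by rw [Ob.N_bar]; exact hα
    have h1 := BB_shift hb hf (BB_one_pos (b := b)) hαb hα
    rw [one_mul, Ob.bar_mul_self, BB_zs_right hα BB_one_pos, BB_star hb hf BB_one_pos hα] at h1
    rw [star_div₀, h1, ← BB_star hb hf BB_one_pos BB_one_pos]

theorem sph_hecke (hb : ∀ x y : ℕ, b ≠ x ^ 2 + y ^ 2) (hf : IsF b m f) {s : Finset (Ob b)} (hs : ∀ β ∈ s, 0 < β.N)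
    {l : ℂ} (hl : ∀ g, ∑ β ∈ s, f (β.hh * g) = l * f g) {α : Ob b} (hα : 0 < α.N) :
    ∑ β ∈ s, BB f 1 (β * α) / BB f (1 : Ob b) 1 = l * (BB f 1 α / BB f (1 : Ob b) 1) := by
  have hαb : 0 < α.bar.N := by rw [Ob.N_bar]; exact hα
  have h1 : ∀ β ∈ s, BB f 1 (β * α) = BB f α.bar β := by
    intro β hβ
    have hβα : 0 < (β * α).N := by rw [Ob.N_mul]; exact mul_pos (hs β hβ) hα
    have h2 := BB_shift hb hf (BB_one_pos (b := b)) hβα hαb
    rw [one_mul, mul_assoc, Ob.mul_bar, Ob.mul_zs, mul_one, BB_zs_right hα (hs β hβ)] at h2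
    exact h2.symm
  have h3 : BB f α.bar 1 = BB f 1 α := by
    have h4 := BB_shift hb hf hαb (BB_one_pos (b := b)) hα
    rw [one_mul, Ob.bar_mul_self, BB_zs_left hα BB_one_pos] at h4
    exact h4.symm
  have h5 : ∑ β ∈ s, BB f α.bar β = l * BB f α.bar 1 := by
    unfold BB
    rw [← LIM_sum s (fun β => cm (F2 f α.bar β) 1)
      (fun β hβ => (F2_cpt hb hf hαb (hs β hβ)).buc.bc 1),
      ← isLIM.smul l _ ((F2_cpt hb hf hαb (BB_one_pos (b := b))).buc.bc 1)]
    congr 1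
    funext t
    unfold cm
    have h6 : ∀ β ∈ s, IntervalIntegrable (fun θ : ℝ => F2 f α.bar β (1 * kk θ * aa t))
        MeasureTheory.volume 0 (2 * Real.pi) := by
      intro β _
      refine Continuous.intervalIntegrable ?_ _ _
      exact (BB_cont hf α.bar β).comp ((continuous_const.mul cont_kk).mul continuous_const)
    have h7 : ∑ β ∈ s, ∫ θ in (0 : ℝ)..(2 * Real.pi), F2 f α.bar β (1 * kk θ * aa t) =
        l * ∫ θ in (0 : ℝ)..(2 * Real.pi), F2 f α.bar 1 (1 * kk θ * aa t) := by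
      rw [← intervalIntegral.integral_finsetSum h6, ← intervalIntegral.integral_const_mul]
      refine intervalIntegral.integral_congr fun θ _ => ?_
      show ∑ β ∈ s, F2 f α.bar β (1 * kk θ * aa t) = l * F2 f α.bar 1 (1 * kk θ * aa t)
      unfold F2
      rw [← Finset.mul_sum, hl, Ob.hh_one, one_mul (1 * kk θ * aa t)]
      ring
    rw [← Finset.mul_sum, h7]
    ring
  rw [← Finset.sum_div, Finset.sum_congr rfl h1, h5, h3, mul_div_assoc]

end MPkt
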