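import Pool.Agent.Lib.MP_7b255b_nt.UC

/-!
# Circ: circle means

`cm Ψ g t` is the mean of `Ψ(g k a_t)` over the rotations `k`.
* `iwa`: `g = kk φ * aa β * nn x`: the first column of `g` is `e^{β/2} (cos φ, sin φ)`; then `aa (-β) * kk (-φ) * g` is upper triangular with the entries `1`.
* `cm_mean`: `S` fixed. The first column of `aa S * kk θ` is `(e^{S/2} cos θ, e^{-S/2} sin θ)`, its norm squared `e^{β(θ)}`, `β(θ) = log(e^S cos^2 θ + e^{-S} sin^2 θ)` is continuous and `|β| ≤ |S|`;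
  `aa S * kk θ = kk φ * aa β * nn x` with `x = x(θ)` bounded: `x = e^{-β} (inner product of the two columns)`. For fixed `θ`, `t`:
  `∫_ψ Ψ(g kk ψ aa S kk θ aa t) dψ = ∫_ψ Ψ(g kk (ψ + φ) aa β nn x aa t) dψ = ∫_ψ Ψ(g kk ψ aa (β + t) nn (x e^{-t})) dψ` (periodicity in `ψ`, `nn_aa`), and this differs from `∫_ψ Ψ(g kk ψ aa (t + β)) dψ` by at most
  `2π ε` if `nn (x e^{-t})` is in the neighbourhood `U` of `BUC.uc`, which holds for `t ≥ t0(ε)` uniformly in `θ`, `ψ`. Integrate over `θ` (Fubini for the continuous function of `(ψ, θ)` on the square: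
  `intervalIntegral_integral_swap` / `MeasureTheory.integral_integral_swap...`).

-/

set_option autoImplicit false

namespace MPkt

open Filter Topology

/-- The mean of `Ψ` over the circle with centre `g` and radius `t`. -/
noncomputable def cm (Ψ : G → ℂ) (g : G) (t : ℝ) : ℂ :=
  (2 * Real.pi : ℂ)⁻¹ * ∫ θ in (0 : ℝ)..(2 * Real.pi), Ψ (g * kk θ * aa t)

/-- The rotation part of the Iwasawa decomposition, with the explicit formulas for the other two parts. -/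
theorem iwa_aux (g : G) : ∃ φ : ℝ, g = kk φ * aa (Real.log (g 0 0 ^ 2 + g 1 0 ^ 2)) *
    nn ((g 0 0 * g 0 1 + g 1 0 * g 1 1) / (g 0 0 ^ 2 + g 1 0 ^ 2)) := by
  have hdet : g 0 0 * g 1 1 - g 0 1 * g 1 0 = 1 := by
    have h := g.det_coe
    rw [Matrix.det_fin_two] at h
    exact h
  have key : ∀ a b c d : ℝ, a * d - b * c = 1 → ∃ φ : ℝ, 
      a = Real.cos φ * Real.exp (Real.log (a ^ 2 + c ^ 2) / 2) ∧
      c = Real.sin φ * Real.exp (Real.log (a ^ 2 + c ^ 2) / 2) ∧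
      b = Real.cos φ * Real.exp (Real.log (a ^ 2 + c ^ 2) / 2) * ((a * b + c * d) / (a ^ 2 + c ^ 2)) +
        -Real.sin φ * Real.exp (-(Real.log (a ^ 2 + c ^ 2) / 2)) ∧
      d = Real.sin φ * Real.exp (Real.log (a ^ 2 + c ^ 2) / 2) * ((a * b + c * d) / (a ^ 2 + c ^ 2)) +
        Real.cos φ * Real.exp (-(Real.log (a ^ 2 + c ^ 2) / 2)) := by
    intro a b c d hdet
    have hne : a ^ 2 + c ^ 2 ≠ 0 := by
      intro h
      have h1 : a = 0 := by nlinarith [sq_nonneg a, sq_nonneg c]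
      have h2 : c = 0 := by nlinarith [sq_nonneg a, sq_nonneg c]
      rw [h1, h2] at hdet
      simp at hdet
    have hpos : 0 < a ^ 2 + c ^ 2 := lt_of_le_of_ne (by positivity) (Ne.symm hne)
    have hr : Real.exp (Real.log (a ^ 2 + c ^ 2) / 2) * Real.exp (Real.log (a ^ 2 + c ^ 2) / 2) =
        a ^ 2 + c ^ 2 := by
      rw [← Real.exp_add, add_halves, Real.exp_log hpos]
    have hr' : Real.exp (Real.log (a ^ 2 + c ^ 2) / 2) * Real.exp (-(Real.log (a ^ 2 + c ^ 2) / 2)) = 1 := by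
      rw [← Real.exp_add, add_neg_cancel, Real.exp_zero]
    have hz : ‖(⟨a, c⟩ : ℂ)‖ = Real.exp (Real.log (a ^ 2 + c ^ 2) / 2) := by
      have h1 : ‖(⟨a, c⟩ : ℂ)‖ ^ 2 = a ^ 2 + c ^ 2 := by
        rw [← Complex.normSq_eq_norm_sq, Complex.normSq_mk]
        ring
      have h2 : Real.exp (Real.log (a ^ 2 + c ^ 2) / 2) ^ 2 = a ^ 2 + c ^ 2 := by
        rw [sq, hr]
      have h3 := h1.trans h2.symm
      rwa [sq_eq_sq₀ (norm_nonneg _) (Real.exp_pos _).le] at h3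
    have hz0 : (⟨a, c⟩ : ℂ) ≠ 0 := by
      intro h
      have h1 := congrArg Complex.re h
      have h2 := congrArg Complex.im h
      simp only [Complex.zero_re, Complex.zero_im] at h1 h2
      exact hne (by rw [h1, h2]; ring)
    have hcos : a = Real.cos (Complex.arg (⟨a, c⟩ : ℂ)) * Real.exp (Real.log (a ^ 2 + c ^ 2) / 2) := by
      rw [Complex.cos_arg hz0, hz]
      exact (div_mul_cancel₀ _ (Real.exp_pos _).ne').symm
    have hsin : c = Real.sin (Complex.arg (⟨a, c⟩ : ℂ)) * Real.exp (Real.log (a ^ 2 + c ^ 2) / 2) := by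
      rw [Complex.sin_arg, hz]
      exact (div_mul_cancel₀ _ (Real.exp_pos _).ne').symm
    have hE : Real.exp (-(Real.log (a ^ 2 + c ^ 2) / 2)) =
        Real.exp (Real.log (a ^ 2 + c ^ 2) / 2) / (a ^ 2 + c ^ 2) := by
      rw [eq_div_iff hne]
      linear_combination Real.exp (Real.log (a ^ 2 + c ^ 2) / 2) * hr' -
        Real.exp (-(Real.log (a ^ 2 + c ^ 2) / 2)) * hr
    have hS : Real.sin (Complex.arg (⟨a, c⟩ : ℂ)) * Real.exp (-(Real.log (a ^ 2 + c ^ 2) / 2)) =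
        c / (a ^ 2 + c ^ 2) := by
      rw [hE, ← mul_div_assoc, ← hsin]
    have hC : Real.cos (Complex.arg (⟨a, c⟩ : ℂ)) * Real.exp (-(Real.log (a ^ 2 + c ^ 2) / 2)) =
        a / (a ^ 2 + c ^ 2) := by
      rw [hE, ← mul_div_assoc, ← hcos]
    refine ⟨Complex.arg (⟨a, c⟩ : ℂ), hcos, hsin, ?_, ?_⟩
    · rw [← hcos, neg_mul, hS]
      field_simp
      linear_combination (-c) * hdet
    · rw [← hsin, hC]
      field_simp
      linear_combination a * hdet
  obtain ⟨φ, h1, h2, h3, h4⟩ := key _ _ _ _ hdet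
  refine ⟨φ, ?_⟩
  ext i j
  rw [Matrix.SpecialLinearGroup.coe_mul, Matrix.SpecialLinearGroup.coe_mul]
  fin_cases i <;> fin_cases j
  · simpa [kk, aa, nn, Matrix.mul_apply, Fin.sum_univ_two] using h1
  · simpa [kk, aa, nn, Matrix.mul_apply, Fin.sum_univ_two] using h3
  · simpa [kk, aa, nn, Matrix.mul_apply, Fin.sum_univ_two] using h2
  · simpa [kk, aa, nn, Matrix.mul_apply, Fin.sum_univ_two] using h4

theorem iwa (g : G) : ∃ φ β x : ℝ, g = kk φ * aa β * nn x := by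
  obtain ⟨φ, h⟩ := iwa_aux g
  exact ⟨φ, _, _, h⟩

variable {Ψ : G → ℂ}

theorem two_pi_norm : ‖(2 * Real.pi : ℂ)⁻¹‖ = (2 * Real.pi)⁻¹ := by
  rw [norm_inv, norm_mul, Complex.norm_real, Real.norm_of_nonneg Real.pi_pos.le, Complex.norm_ofNat]

/-- The norm of a mean. -/
theorem mean_le {f : ℝ → ℂ} {C : ℝ} (h : ∀ θ, ‖f θ‖ ≤ C) :
    ‖(2 * Real.pi : ℂ)⁻¹ * ∫ θ in (0 : ℝ)..(2 * Real.pi), f θ‖ ≤ C := by
  have hp := Real.two_pi_pos
  have h1 := intervalIntegral.norm_integral_le_of_norm_le_const (a := 0) (b := 2 * Real.pi) (f := f) (C := C)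
    (fun θ _ => h θ)
  rw [sub_zero, abs_of_pos hp] at h1
  rw [norm_mul, two_pi_norm, inv_mul_le_iff₀ hp]
  linarith

theorem cm_le {C : ℝ} (h : ∀ g, ‖Ψ g‖ ≤ C) (g : G) (t : ℝ) : ‖cm Ψ g t‖ ≤ C := by
  exact mean_le fun _ => h _

/-- Joint continuity. -/
theorem cm_cont (h : Continuous Ψ) : Continuous fun x : G × ℝ => cm Ψ x.1 x.2 := by
  have h1 : Continuous (Function.uncurry fun (x : G × ℝ) (θ : ℝ) => Ψ (x.1 * kk θ * aa x.2)) := by
    refine h.comp ?_
    exact ((continuous_fst.comp continuous_fst).mul (cont_kk.comp continuous_snd)).mul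
      (cont_aa.comp (continuous_snd.comp continuous_fst))
  exact continuous_const.mul
    (intervalIntegral.continuous_parametric_intervalIntegral_of_continuous' h1 0 (2 * Real.pi))

/-- Periodic functions. -/
theorem int_shift {f : ℝ → ℂ} (h : ∀ θ, f (θ + 2 * Real.pi) = f θ) (φ : ℝ) :
    (∫ θ in (0 : ℝ)..(2 * Real.pi), f (θ + φ)) = ∫ θ in (0 : ℝ)..(2 * Real.pi), f θ := by
  have hp : Function.Periodic f (2 * Real.pi) := h
  have h1 := hp.intervalIntegral_add_eq φ 0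
  rw [intervalIntegral.integral_comp_add_right f φ, zero_add, add_comm (2 * Real.pi) φ, h1, zero_add]

theorem cm_kk (g : G) (φ t : ℝ) : cm Ψ (g * kk φ) t = cm Ψ g t := by
  have h1 : ∀ θ : ℝ, Ψ (g * kk φ * kk θ * aa t) = (fun θ => Ψ (g * kk θ * aa t)) (θ + φ) := by
    intro θ
    show Ψ (g * kk φ * kk θ * aa t) = Ψ (g * kk (θ + φ) * aa t)
    rw [add_comm θ φ, kk_add, mul_assoc g]
  unfold cm
  simp only [h1]
  rw [int_shift (f := fun θ => Ψ (g * kk θ * aa t))]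
  intro θ
  show Ψ (g * kk (θ + 2 * Real.pi) * aa t) = Ψ (g * kk θ * aa t)
  rw [kk_two_pi]

/-- Uniform continuity in the radius. -/
theorem cm_uct (h : BUC Ψ) : ∀ ε > 0, ∃ δ > 0, ∀ g t t', |t - t'| < δ → ‖cm Ψ g t - cm Ψ g t'‖ ≤ ε := by
  intro ε hε
  obtain ⟨U, hU, hu⟩ := h.uc ε hε
  have h0 : Tendsto aa (𝓝 0) (𝓝 1) := by
    have h1 := cont_aa.tendsto 0
    rwa [aa_zero] at h1
  obtain ⟨δ, hδ, hd⟩ := Metric.mem_nhds_iff.1 (h0 hU)
  refine ⟨δ, hδ, fun g t t' ht => ?_⟩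
  have hc : ∀ s : ℝ, IntervalIntegrable (fun θ => Ψ (g * kk θ * aa s)) MeasureTheory.volume 0 (2 * Real.pi) :=
    fun s => (h.cont.comp ((continuous_const.mul cont_kk).mul continuous_const)).intervalIntegrable _ _
  unfold cm
  rw [← mul_sub, ← intervalIntegral.integral_sub (hc t) (hc t')]
  refine mean_le fun θ => ?_
  have h2 : aa t = aa t' * aa (t - t') := by
    rw [← aa_add, add_sub_cancel]
  rw [h2, ← mul_assoc]
  refine hu _ _ (hd ?_)
  rw [Metric.mem_ball, Real.dist_eq, sub_zero]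
  exact ht

theorem mean_aux (h : BUC Ψ) (S : ℝ) {β x : ℝ → ℝ} (hβc : Continuous β) (hxc : Continuous x)
    (hdec : ∀ θ : ℝ, ∃ φ : ℝ, aa S * kk θ = kk φ * aa (β θ) * nn (x θ)) (g : G) : Tendsto (fun t =>
    (∫ ψ in (0 : ℝ)..(2 * Real.pi), cm Ψ (g * kk ψ * aa S) t) -
      ∫ θ in (0 : ℝ)..(2 * Real.pi), cm Ψ g (t + β θ)) atTop (𝓝 0) := by
  obtain ⟨M, hM⟩ := (isCompact_Icc (a := (0 : ℝ)) (b := 2 * Real.pi)).exists_bound_of_continuousOn hxc.continuousOn
  rw [Metric.tendsto_atTop]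
  intro ε hε
  have hp := Real.two_pi_pos
  obtain ⟨U, hU, hu⟩ := h.uc (ε / (2 * (2 * Real.pi))) (by positivity)
  have h0 : Tendsto nn (𝓝 0) (𝓝 1) := by
    have h1 := cont_nn.tendsto 0
    rwa [nn_zero] at h1
  obtain ⟨δ, hδ, hd⟩ := Metric.mem_nhds_iff.1 (h0 hU)
  have hT : ∀ᶠ t : ℝ in atTop, M * Real.exp (-t) < δ := by
    have h1 : Tendsto (fun t : ℝ => M * Real.exp (-t)) atTop (𝓝 (M * 0)) :=
      Tendsto.const_mul M Real.tendsto_exp_neg_atTop_nhds_zero
    rw [mul_zero] at h1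
    exact h1.eventually (gt_mem_nhds hδ)
  obtain ⟨T, hT⟩ := eventually_atTop.1 hT
  refine ⟨T, fun t ht => ?_⟩
  rw [dist_eq_norm, sub_zero]
  have hin : ∀ θ ∈ Set.Icc (0 : ℝ) (2 * Real.pi), nn (x θ * Real.exp (-t)) ∈ U := by
    intro θ hθ
    refine hd ?_
    rw [Metric.mem_ball, Real.dist_eq, sub_zero, abs_mul, abs_of_pos (Real.exp_pos _)]
    exact lt_of_le_of_lt (mul_le_mul_of_nonneg_right (hM θ hθ) (Real.exp_pos _).le) (hT t ht)
  -- the two double integrals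
  have hF : Continuous (Function.uncurry fun ψ θ : ℝ => Ψ (g * kk ψ * aa S * kk θ * aa t)) := by
    have hq : Continuous fun q : ℝ × ℝ => g * kk q.1 * aa S * kk q.2 * aa t :=
      (((continuous_const.mul (cont_kk.comp continuous_fst)).mul continuous_const).mul
        (cont_kk.comp continuous_snd)).mul continuous_const
    exact h.cont.comp hq
  have hF' : Continuous (Function.uncurry fun θ ψ : ℝ => Ψ (g * kk ψ * aa S * kk θ * aa t)) := by
    have hq : Continuous fun q : ℝ × ℝ => g * kk q.2 * aa S * kk q.1 * aa t :=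
      (((continuous_const.mul (cont_kk.comp continuous_snd)).mul continuous_const).mul
        (cont_kk.comp continuous_fst)).mul continuous_const
    exact h.cont.comp hq
  have hB : Continuous (Function.uncurry fun θ ψ : ℝ => Ψ (g * kk ψ * aa (t + β θ))) := by
    have hq : Continuous fun q : ℝ × ℝ => g * kk q.2 * aa (t + β q.1) :=
      (continuous_const.mul (cont_kk.comp continuous_snd)).mul
        (cont_aa.comp (continuous_const.add (hβc.comp continuous_fst)))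
    exact h.cont.comp hq
  have hFI := intervalIntegral.continuous_parametric_intervalIntegral_of_continuous' (μ := MeasureTheory.volume)
    hF' 0 (2 * Real.pi)
  have hBI := intervalIntegral.continuous_parametric_intervalIntegral_of_continuous' (μ := MeasureTheory.volume)
    hB 0 (2 * Real.pi)
  have h1 : (∫ ψ in (0 : ℝ)..(2 * Real.pi), cm Ψ (g * kk ψ * aa S) t) =
      (2 * Real.pi : ℂ)⁻¹ * ∫ θ in (0 : ℝ)..(2 * Real.pi), ∫ ψ in (0 : ℝ)..(2 * Real.pi),
        Ψ (g * kk ψ * aa S * kk θ * aa t) := by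
    unfold cm
    rw [intervalIntegral.integral_const_mul]
    congr 1
    refine MeasureTheory.intervalIntegral_intervalIntegral_swap ?_
    rw [Set.uIoc_of_le hp.le]
    exact (hF.continuousOn.integrableOn_compact (isCompact_Icc.prod isCompact_Icc)).mono_set
      (Set.prod_mono Set.Ioc_subset_Icc_self Set.Ioc_subset_Icc_self)
  have h2 : (∫ θ in (0 : ℝ)..(2 * Real.pi), cm Ψ g (t + β θ)) =
      (2 * Real.pi : ℂ)⁻¹ * ∫ θ in (0 : ℝ)..(2 * Real.pi), ∫ ψ in (0 : ℝ)..(2 * Real.pi),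
        Ψ (g * kk ψ * aa (t + β θ)) := by
    unfold cm
    rw [intervalIntegral.integral_const_mul]
  have h3 : ∀ θ : ℝ, (∫ ψ in (0 : ℝ)..(2 * Real.pi), Ψ (g * kk ψ * aa S * kk θ * aa t)) =
      ∫ ψ in (0 : ℝ)..(2 * Real.pi), Ψ (g * kk ψ * aa (t + β θ) * nn (x θ * Real.exp (-t))) := by
    intro θ
    obtain ⟨φ, h4⟩ := hdec θ
    have h5 : ∀ ψ : ℝ, Ψ (g * kk ψ * aa S * kk θ * aa t) =
        (fun ψ => Ψ (g * kk ψ * aa (t + β θ) * nn (x θ * Real.exp (-t)))) (ψ + φ) := by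
      intro ψ
      show Ψ (g * kk ψ * aa S * kk θ * aa t) = Ψ (g * kk (ψ + φ) * aa (t + β θ) * nn (x θ * Real.exp (-t)))
      congr 1
      calc g * kk ψ * aa S * kk θ * aa t = g * kk ψ * (aa S * kk θ) * aa t := by
            rw [mul_assoc (g * kk ψ)]
        _ = g * kk ψ * (kk φ * aa (β θ) * nn (x θ)) * aa t := by rw [h4]
        _ = g * (kk ψ * kk φ) * aa (β θ) * (nn (x θ) * aa t) := by simp only [mul_assoc]
        _ = g * kk (ψ + φ) * aa (t + β θ) * nn (x θ * Real.exp (-t)) := by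
            rw [nn_aa, kk_add, add_comm t, aa_add]
            simp only [mul_assoc]
    simp only [h5]
    rw [int_shift (f := fun ψ => Ψ (g * kk ψ * aa (t + β θ) * nn (x θ * Real.exp (-t))))]
    intro ψ
    show Ψ (g * kk (ψ + 2 * Real.pi) * aa (t + β θ) * nn (x θ * Real.exp (-t))) =
      Ψ (g * kk ψ * aa (t + β θ) * nn (x θ * Real.exp (-t)))
    rw [kk_two_pi]
  have h6 : ∀ θ ∈ Set.Icc (0 : ℝ) (2 * Real.pi),
      ‖(∫ ψ in (0 : ℝ)..(2 * Real.pi), Ψ (g * kk ψ * aa S * kk θ * aa t)) -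
        ∫ ψ in (0 : ℝ)..(2 * Real.pi), Ψ (g * kk ψ * aa (t + β θ))‖ ≤ ε / 2 := by
    intro θ hθ
    rw [h3]
    have hc1 : Continuous fun ψ : ℝ => Ψ (g * kk ψ * aa (t + β θ) * nn (x θ * Real.exp (-t))) :=
      h.cont.comp (((continuous_const.mul cont_kk).mul continuous_const).mul continuous_const)
    have hc2 : Continuous fun ψ : ℝ => Ψ (g * kk ψ * aa (t + β θ)) :=
      h.cont.comp ((continuous_const.mul cont_kk).mul continuous_const)
    rw [← intervalIntegral.integral_sub (hc1.intervalIntegrable _ _) (hc2.intervalIntegrable _ _)]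
    have h7 := intervalIntegral.norm_integral_le_of_norm_le_const (a := 0) (b := 2 * Real.pi)
      (f := fun ψ => Ψ (g * kk ψ * aa (t + β θ) * nn (x θ * Real.exp (-t))) - Ψ (g * kk ψ * aa (t + β θ)))
      (C := ε / (2 * (2 * Real.pi))) (fun ψ _ => hu _ _ (hin θ hθ))
    rw [sub_zero, abs_of_pos hp] at h7
    refine h7.trans (le_of_eq ?_)
    field_simp
  rw [h1, h2, ← mul_sub, ← intervalIntegral.integral_sub (hFI.intervalIntegrable _ _) (hBI.intervalIntegrable _ _),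
    norm_mul, two_pi_norm]
  have h8 := intervalIntegral.norm_integral_le_of_norm_le_const (a := 0) (b := 2 * Real.pi)
    (f := fun θ => (∫ ψ in (0 : ℝ)..(2 * Real.pi), Ψ (g * kk ψ * aa S * kk θ * aa t)) -
        ∫ ψ in (0 : ℝ)..(2 * Real.pi), Ψ (g * kk ψ * aa (t + β θ)))
    (C := ε / 2) (fun θ hθ => h6 θ (by
      rw [Set.uIoc_of_le hp.le] at hθ
      exact Set.Ioc_subset_Icc_self hθ))
  rw [sub_zero, abs_of_pos hp] at h8
  refine lt_of_le_of_lt (b := ε / 2) ?_ (by linarith)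
  rw [inv_mul_le_iff₀ hp]
  linarith

theorem cm_mean (h : BUC Ψ) (S : ℝ) : ∃ β : ℝ → ℝ, Continuous β ∧ ∀ g, Tendsto (fun t =>
    (∫ ψ in (0 : ℝ)..(2 * Real.pi), cm Ψ (g * kk ψ * aa S) t) -
      ∫ θ in (0 : ℝ)..(2 * Real.pi), cm Ψ g (t + β θ)) atTop (𝓝 0) := by
  have hcm : Continuous fun θ : ℝ => aa S * kk θ := continuous_const.mul cont_kk
  have he : ∀ i j : Fin 2, Continuous fun θ : ℝ => (aa S * kk θ) i j := by
    intro i j
    have h1 : Continuous fun θ : ℝ => ((aa S * kk θ : G) : Matrix (Fin 2) (Fin 2) ℝ) :=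
      continuous_subtype_val.comp hcm
    exact (continuous_apply j).comp ((continuous_apply i).comp h1)
  have hpos : ∀ θ : ℝ, (aa S * kk θ) 0 0 ^ 2 + (aa S * kk θ) 1 0 ^ 2 ≠ 0 := by
    intro θ hz
    have h0 : (aa S * kk θ) 0 0 = 0 := by
      nlinarith [sq_nonneg ((aa S * kk θ) 0 0), sq_nonneg ((aa S * kk θ) 1 0)]
    have h1 : (aa S * kk θ) 1 0 = 0 := by
      nlinarith [sq_nonneg ((aa S * kk θ) 0 0), sq_nonneg ((aa S * kk θ) 1 0)]
    have hdet := (aa S * kk θ).det_coe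
    rw [Matrix.det_fin_two] at hdet
    have h0' : ((aa S * kk θ : G) : Matrix (Fin 2) (Fin 2) ℝ) 0 0 = 0 := h0
    have h1' : ((aa S * kk θ : G) : Matrix (Fin 2) (Fin 2) ℝ) 1 0 = 0 := h1
    rw [h0', h1'] at hdet
    simp at hdet
  set β : ℝ → ℝ := fun θ => Real.log ((aa S * kk θ) 0 0 ^ 2 + (aa S * kk θ) 1 0 ^ 2) with hβ
  set x : ℝ → ℝ := fun θ => ((aa S * kk θ) 0 0 * (aa S * kk θ) 0 1 + (aa S * kk θ) 1 0 * (aa S * kk θ) 1 1) /
    ((aa S * kk θ) 0 0 ^ 2 + (aa S * kk θ) 1 0 ^ 2) with hx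
  have hβc : Continuous β := (((he 0 0).pow 2).add ((he 1 0).pow 2)).log hpos
  have hxc : Continuous x := (((he 0 0).mul (he 0 1)).add ((he 1 0).mul (he 1 1))).div
    (((he 0 0).pow 2).add ((he 1 0).pow 2)) hpos
  exact ⟨β, hβc, fun g => mean_aux h S hβc hxc (fun θ => iwa_aux (aa S * kk θ)) g⟩

end MPkt
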