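import Pool.Agent.Lib.MP_7b255b_nt.Ob

/-!
# Cls: the norm form is anisotropic; the elements of norm `n` form finitely many classes

* `not_sq`: `b = x ^ 2 + 0 ^ 2` is excluded (and `b = 0` too).
* `aniso`: `|X|^2 = b |Y|^2`. If `Y ≠ 0`: `|X|^2` and `|Y|^2` are sums of two squares; by `Nat.eq_sq_add_sq_iff` (every prime `q = 3 mod 4` has even
  valuation; or `Nat.eq_sq_add_sq_iff_eq_sq_mul`) `b` would be one: `padicValNat q b = padicValNat q (|X|^2) - padicValNat q (|Y|^2)`.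
* `cls_right`: if `α`, `α'` have the norm `n` and are congruent modulo `n` (all four integer coordinates) then `α' = α γ` with
  `γ = (bar α) α' / n`: `α' = α + zs n τ`, `bar α * α' = zs n 1 + zs n (bar α * τ)`, so `γ = 1 + bar α * τ` (componentwise), `N γ = 1` (`N_mul`, `N_zs`),
  `α γ = α + α bar α τ = α + zs n τ`. There are at most `n ^ 4` classes of coordinates modulo `n` (map to `(ZMod |n|)^4`, choose one element in each
  nonempty fibre).
* `cls_left`: the same with `γ = α' (bar α) / n`, or apply `cls_right` to the conjugates.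

-/

set_option autoImplicit false

namespace MPkt

variable {b : ℕ}

theorem not_sq (hb : ∀ x y : ℕ, b ≠ x ^ 2 + y ^ 2) : ¬ IsSquare b := by
  rintro ⟨r, hr⟩
  exact hb r 0 (by rw [hr]; ring)

theorem b_pos (hb : ∀ x y : ℕ, b ≠ x ^ 2 + y ^ 2) : 0 < b := by
  rcases Nat.eq_zero_or_pos b with h | h
  · exact absurd h (hb 0 0)
  · exact h

private theorem Cls_even {m : ℕ} (h : ∃ x y : ℕ, m = x ^ 2 + y ^ 2) {q : ℕ} (hq : q.Prime) (h3 : q % 4 = 3) :
    Even (padicValNat q m) := by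
  by_cases hm : q ∈ m.primeFactors
  · exact Nat.eq_sq_add_sq_iff.1 h q hm h3
  · rw [Nat.mem_primeFactors] at hm
    have h1 : padicValNat q m = 0 := by
      rcases Nat.eq_zero_or_pos m with h0 | h0
      · rw [h0, padicValNat_zero_right]
      · exact padicValNat.eq_zero_of_not_dvd fun hd => hm ⟨hq, hd, h0.ne'⟩
    rw [h1]
    exact Even.zero

private theorem Cls_nat (hb : ∀ x y : ℕ, b ≠ x ^ 2 + y ^ 2) {u v s t : ℕ}
    (h : u ^ 2 + v ^ 2 = b * (s ^ 2 + t ^ 2)) : s ^ 2 + t ^ 2 = 0 := by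
  by_contra h0
  have hb0 := b_pos hb
  have h5 : ∀ q ∈ b.primeFactors, q % 4 = 3 → Even (padicValNat q b) := by
    intro q hq h3
    have hq' := Nat.prime_of_mem_primeFactors hq
    have hf : Fact q.Prime := ⟨hq'⟩
    have h1 : padicValNat q (u ^ 2 + v ^ 2) = padicValNat q b + padicValNat q (s ^ 2 + t ^ 2) := by
      rw [h, padicValNat.mul hb0.ne' h0]
    have h2 := Cls_even ⟨u, v, rfl⟩ hq' h3
    have h4 := Cls_even ⟨s, t, rfl⟩ hq' h3
    rw [h1] at h2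
    exact (Nat.even_add.1 h2).2 h4
  obtain ⟨x, y, hxy⟩ := Nat.eq_sq_add_sq_iff.2 h5
  exact hb x y hxy

/-- The norm form is anisotropic. -/
theorem aniso (hb : ∀ x y : ℕ, b ≠ x ^ 2 + y ^ 2) {α : Ob b} (h : α.N = 0) : α.X = 0 ∧ α.Y = 0 := by
  have h1 : α.X.norm = b * α.Y.norm := by
    unfold Ob.N at h
    linarith
  have h2 : (α.X.re.natAbs) ^ 2 + (α.X.im.natAbs) ^ 2 =
      b * ((α.Y.re.natAbs) ^ 2 + (α.Y.im.natAbs) ^ 2) := by
    have h3 : (((α.X.re.natAbs) ^ 2 + (α.X.im.natAbs) ^ 2 : ℕ) : ℤ) =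
        ((b * ((α.Y.re.natAbs) ^ 2 + (α.Y.im.natAbs) ^ 2) : ℕ) : ℤ) := by
      rw [Zsqrtd.norm_def, Zsqrtd.norm_def] at h1
      push_cast
      rw [sq_abs, sq_abs, sq_abs, sq_abs]
      linarith
    exact_mod_cast h3
  have h4 := Cls_nat hb h2
  rw [h4, mul_zero] at h2
  constructor
  · ext
    · have h5 : (α.X.re.natAbs) ^ 2 = 0 := by omega
      simpa using h5
    · have h5 : (α.X.im.natAbs) ^ 2 = 0 := by omega
      simpa using h5
  · ext
    · have h5 : (α.Y.re.natAbs) ^ 2 = 0 := by omega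
      simpa using h5
    · have h5 : (α.Y.im.natAbs) ^ 2 = 0 := by omega
      simpa using h5

private theorem Cls_gam {n : ℤ} (hn : n ≠ 0) {x α τ : Ob b} (hx : x.N = n) (hα : α.N = n)
    (h1 : α.X = x.X + n * τ.X) (h2 : α.Y = x.Y + n * τ.Y) : ∃ γ : Ob b, γ.N = 1 ∧ α = x * γ := by
  have hP : x * (x.bar * τ) = Ob.zs n τ := by
    rw [← mul_assoc, Ob.mul_bar, hx, Ob.zs_mul, one_mul]
  have hPX : x.X * (x.bar * τ).X + b * (x.Y * star (x.bar * τ).Y) = n * τ.X := by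
    rw [← Ob.mul_X, hP]
    rfl
  have hPY : x.X * (x.bar * τ).Y + x.Y * star (x.bar * τ).X = n * τ.Y := by
    rw [← Ob.mul_Y, hP]
    rfl
  let γ : Ob b := ⟨1 + (x.bar * τ).X, (x.bar * τ).Y⟩
  have hγ : α = x * γ := by
    ext1
    · rw [Ob.mul_X, h1, ← hPX]
      change _ = x.X * (1 + (x.bar * τ).X) + b * (x.Y * star (x.bar * τ).Y)
      ring
    · rw [Ob.mul_Y, h2, ← hPY]
      change _ = x.X * (x.bar * τ).Y + x.Y * star (1 + (x.bar * τ).X)
      rw [star_add, star_one]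
      ring
  refine ⟨γ, ?_, hγ⟩
  have h3 := Ob.N_mul x γ
  rw [← hγ, hα, hx] at h3
  have h4 : n * γ.N = n * 1 := by rw [← h3, mul_one]
  exact mul_left_cancel₀ hn h4

theorem cls_right (n : ℤ) (hn : n ≠ 0) : ∃ s : Finset (Ob b), (∀ x ∈ s, x.N = n) ∧
    ∀ α : Ob b, α.N = n → ∃ x ∈ s, ∃ γ : Ob b, γ.N = 1 ∧ α = x * γ := by
  classical
  have hm : NeZero n.natAbs := ⟨Int.natAbs_ne_zero.2 hn⟩
  let g : {α : Ob b // α.N = n} → ZMod n.natAbs × ZMod n.natAbs × ZMod n.natAbs × ZMod n.natAbs :=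
    fun α => ((α.1.X.re : ZMod n.natAbs), (α.1.X.im : ZMod n.natAbs), (α.1.Y.re : ZMod n.natAbs),
      (α.1.Y.im : ZMod n.natAbs))
  let c : Set.range g → Ob b := fun y => (y.2.choose).1
  have hfin : (Set.range c).Finite := Set.finite_range c
  refine ⟨hfin.toFinset, ?_, ?_⟩
  · intro x hx
    rw [Set.Finite.mem_toFinset] at hx
    obtain ⟨y, rfl⟩ := hx
    exact (y.2.choose).2
  · intro α hα
    let y : Set.range g := ⟨g ⟨α, hα⟩, ⟨⟨α, hα⟩, rfl⟩⟩
    have hy : g y.2.choose = g ⟨α, hα⟩ := y.2.choose_spec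
    refine ⟨c y, ?_, ?_⟩
    · rw [Set.Finite.mem_toFinset]
      exact ⟨y, rfl⟩
    · have hx : (c y).N = n := (y.2.choose).2
      have hdvd : ∀ u v : ℤ, (u : ZMod n.natAbs) = (v : ZMod n.natAbs) → n ∣ v - u := by
        intro u v h
        have h1 := (ZMod.intCast_eq_intCast_iff_dvd_sub u v n.natAbs).1 h
        rwa [Int.natCast_natAbs, abs_dvd] at h1
      have e1 : ((c y).X.re : ZMod n.natAbs) = (α.X.re : ZMod n.natAbs) := congrArg (fun z => z.1) hy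
      have e2 : ((c y).X.im : ZMod n.natAbs) = (α.X.im : ZMod n.natAbs) := congrArg (fun z => z.2.1) hy
      have e3 : ((c y).Y.re : ZMod n.natAbs) = (α.Y.re : ZMod n.natAbs) := congrArg (fun z => z.2.2.1) hy
      have e4 : ((c y).Y.im : ZMod n.natAbs) = (α.Y.im : ZMod n.natAbs) := congrArg (fun z => z.2.2.2) hy
      obtain ⟨t1, h1⟩ := hdvd _ _ e1
      obtain ⟨t2, h2⟩ := hdvd _ _ e2
      obtain ⟨t3, h3⟩ := hdvd _ _ e3
      obtain ⟨t4, h4⟩ := hdvd _ _ e4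
      refine Cls_gam (τ := ⟨⟨t1, t2⟩, ⟨t3, t4⟩⟩) hn hx hα ?_ ?_
      · ext
        · simp only [Zsqrtd.re_add, Zsqrtd.re_mul, Zsqrtd.re_intCast, Zsqrtd.im_intCast]
          linarith
        · simp only [Zsqrtd.im_add, Zsqrtd.im_mul, Zsqrtd.re_intCast, Zsqrtd.im_intCast]
          linarith
      · ext
        · simp only [Zsqrtd.re_add, Zsqrtd.re_mul, Zsqrtd.re_intCast, Zsqrtd.im_intCast]
          linarith
        · simp only [Zsqrtd.im_add, Zsqrtd.im_mul, Zsqrtd.re_intCast, Zsqrtd.im_intCast]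
          linarith

theorem cls_left (n : ℤ) (hn : n ≠ 0) : ∃ s : Finset (Ob b), (∀ x ∈ s, x.N = n) ∧
    ∀ α : Ob b, α.N = n → ∃ x ∈ s, ∃ γ : Ob b, γ.N = 1 ∧ α = γ * x := by
  classical
  obtain ⟨s, hs, h⟩ := cls_right (b := b) n hn
  refine ⟨s.image Ob.bar, ?_, ?_⟩
  · intro x hx
    rw [Finset.mem_image] at hx
    obtain ⟨y, hy, rfl⟩ := hx
    rw [Ob.N_bar, hs y hy]
  · intro α hα
    obtain ⟨x, hx, γ, hγ, he⟩ := h α.bar (by rw [Ob.N_bar, hα])
    refine ⟨x.bar, Finset.mem_image_of_mem _ hx, γ.bar, by rw [Ob.N_bar, hγ], ?_⟩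
    rw [← Ob.bar_mul, ← he, Ob.bar_bar]

end MPkt
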