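import Pool.Agent.Lib.MP_7b255b_nt.Cls

/-!
# Cocpt: the group `Gam b` is discrete and cocompact

* `disc`: an element of `Gam b` with the entries `x ± √b z`, `±y + √b w` near those of `1`: `x = (entries sum)/2` is an integer near `1`,
  `y` near `0`, `√b z`, `√b w` near `0`, so it is `1`. (Discrete topology of a subgroup: `1` is isolated: `discreteTopology_of_isOpen_singleton_one` or the
  like.)
* `mink`: a constant `C` (depending on `b`) such that for every `g ∈ G` there is `α ∈ Ob b`, not `0`, with all entries of the matrix `mt α * g` bounded by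
  `C`: the real vector space `M_2(ℝ)` has the basis `mt (1,0), mt (i,0), mt (0,1), mt (0,i)`; `A ↦ A g` has the determinant `det g ^ 2 = 1` on `M_2(ℝ)`; Minkowski's
  theorem (`MeasureTheory.exists_ne_zero_mem_lattice_of_measure_mul_two_pow_lt_measure`) for the lattice of the matrices `mt α * g` (or for the
  lattice `ℤ^4` and the convex body `{c | all entries of (∑ c_i e_i) g are < C}` in `ℝ^4`, of volume `const * C ^ 4`).
* `cocpt`: `N α = det (mt α g)`, `|N α| ≤ 2 C ^ 2`, `N α ≠ 0` (`aniso`). `α = x γ` with `x` in one of finitely many finite sets (`cls_right` for the finitely many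
  values `n = N α`), `N γ = 1`. So `mt γ * g = (mt x)⁻¹ (mt α g)`, `(mt x)⁻¹ = mt (bar x) / n`, is bounded: `γ.hh * g` lies in the set of the elements of `G` with all entries
  bounded by a constant `C'`, which is compact (`Matrix.SpecialLinearGroup.isClosedEmbedding_val`).

-/

set_option autoImplicit false

namespace MPkt

variable {b : ℕ}

theorem disc (hb : ∀ x y : ℕ, b ≠ x ^ 2 + y ^ 2) : DiscreteTopology (Gam b) := by
  apply discreteTopology_of_isOpen_singleton_one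
  have hb0 : (0 : ℝ) < b := by exact_mod_cast b_pos hb
  have hs : 0 < Real.sqrt b := Real.sqrt_pos.2 hb0
  have hc : ∀ i j : Fin 2, Continuous fun g : Gam b => ((g : G) : Matrix (Fin 2) (Fin 2) ℝ) i j := by
    intro i j
    exact (continuous_subtype_val.comp continuous_subtype_val).matrix_elem i j
  have key : ({1} : Set (Gam b)) = {g : Gam b | |(((g : G) : Matrix (Fin 2) (Fin 2) ℝ) 0 0 + ((g : G) : Matrix (Fin 2) (Fin 2) ℝ) 1 1) / 2 - 1| < 1} ∩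
      {g : Gam b | |(((g : G) : Matrix (Fin 2) (Fin 2) ℝ) 1 0 - ((g : G) : Matrix (Fin 2) (Fin 2) ℝ) 0 1) / 2| < 1} ∩
      {g : Gam b | |(((g : G) : Matrix (Fin 2) (Fin 2) ℝ) 0 0 - ((g : G) : Matrix (Fin 2) (Fin 2) ℝ) 1 1) / 2| < Real.sqrt b} ∩
      {g : Gam b | |(((g : G) : Matrix (Fin 2) (Fin 2) ℝ) 1 0 + ((g : G) : Matrix (Fin 2) (Fin 2) ℝ) 0 1) / 2| < Real.sqrt b} := by
    ext g
    constructor
    · intro h
      rw [Set.mem_singleton_iff] at h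
      subst h
      simp [hs]
    · rintro ⟨⟨⟨h1, h2⟩, h3⟩, h4⟩
      obtain ⟨g, x, y, z, w, hg⟩ := g
      simp only [Set.mem_ofPred_eq, hg, Matrix.of_apply, Matrix.cons_val', Matrix.cons_val_zero,
        Matrix.cons_val_one, Matrix.cons_val_fin_one] at h1 h2 h3 h4
      have e1 : ((x : ℝ) + Real.sqrt b * z + ((x : ℝ) - Real.sqrt b * z)) / 2 - 1 = ((x - 1 : ℤ) : ℝ) := by
        push_cast
        ring
      have e2 : ((y : ℝ) + Real.sqrt b * w - (-(y : ℝ) + Real.sqrt b * w)) / 2 = (y : ℝ) := by ring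
      have e3 : ((x : ℝ) + Real.sqrt b * z - ((x : ℝ) - Real.sqrt b * z)) / 2 = Real.sqrt b * z := by ring
      have e4 : ((y : ℝ) + Real.sqrt b * w + (-(y : ℝ) + Real.sqrt b * w)) / 2 = Real.sqrt b * w := by ring
      rw [e1] at h1
      rw [e2] at h2
      rw [e3, abs_mul, abs_of_pos hs] at h3
      rw [e4, abs_mul, abs_of_pos hs] at h4
      have h3' : |(z : ℝ)| < 1 := by
        by_contra h
        have := mul_le_mul_of_nonneg_left (not_lt.1 h) hs.le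
        linarith
      have h4' : |(w : ℝ)| < 1 := by
        by_contra h
        have := mul_le_mul_of_nonneg_left (not_lt.1 h) hs.le
        linarith
      have f1 : x - 1 = 0 := Int.abs_lt_one_iff.1 (by exact_mod_cast h1)
      have f2 : y = 0 := Int.abs_lt_one_iff.1 (by exact_mod_cast h2)
      have f3 : z = 0 := Int.abs_lt_one_iff.1 (by exact_mod_cast h3')
      have f4 : w = 0 := Int.abs_lt_one_iff.1 (by exact_mod_cast h4')
      have f1' : x = 1 := by linarith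
      subst f1' f2 f3 f4
      rw [Set.mem_singleton_iff]
      apply Subtype.ext
      apply Subtype.ext
      change ((g : G) : Matrix (Fin 2) (Fin 2) ℝ) = 1
      rw [hg]
      ext i j
      fin_cases i <;> fin_cases j <;> simp
  rw [key]
  refine ((IsOpen.inter ?_ ?_).inter ?_).inter ?_
  · exact isOpen_lt ((((hc 0 0).add (hc 1 1)).div_const 2).sub continuous_const).abs continuous_const
  · exact isOpen_lt (((hc 1 0).sub (hc 0 1)).div_const 2).abs continuous_const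
  · exact isOpen_lt (((hc 0 0).sub (hc 1 1)).div_const 2).abs continuous_const
  · exact isOpen_lt (((hc 1 0).add (hc 0 1)).div_const 2).abs continuous_const

/-- The matrix of the linear map from the coordinates of `α` to the entries of `mt α * g`. -/
noncomputable def mm (b : ℕ) (A : Matrix (Fin 2) (Fin 2) ℝ) : Matrix (Fin 4) (Fin 4) ℝ :=
  !![A 0 0, -A 1 0, Real.sqrt b * A 0 0, Real.sqrt b * A 1 0;
    A 0 1, -A 1 1, Real.sqrt b * A 0 1, Real.sqrt b * A 1 1;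
    A 1 0, A 0 0, -(Real.sqrt b * A 1 0), Real.sqrt b * A 0 0;
    A 1 1, A 0 1, -(Real.sqrt b * A 1 1), Real.sqrt b * A 0 1]

theorem mm_det (b : ℕ) (A : Matrix (Fin 2) (Fin 2) ℝ) : |(mm b A).det| = 4 * b * A.det ^ 2 := by
  have hs : Real.sqrt b * Real.sqrt b = b := Real.mul_self_sqrt (Nat.cast_nonneg b)
  have h : (mm b A).det = -(4 * b * A.det ^ 2) := by
    unfold mm
    rw [Matrix.det_fin_two A, Matrix.det_succ_row_zero]
    simp only [Fin.sum_univ_succ, Matrix.det_fin_three, Matrix.submatrix_apply, Fin.sum_univ_zero]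
    simp [Fin.succAbove, Fin.lt_def]
    linear_combination (8 * A 0 0 * A 1 1 * A 1 0 * A 0 1 - 4 * A 0 0 ^ 2 * A 1 1 ^ 2 - 4 * A 1 0 ^ 2 * A 0 1 ^ 2) * hs
  rw [h, abs_neg]
  exact abs_of_nonneg (by positivity)

theorem mink (hb : ∀ x y : ℕ, b ≠ x ^ 2 + y ^ 2) : ∃ C : ℝ, ∀ g : G, ∃ α : Ob b, ¬ (α.X = 0 ∧ α.Y = 0) ∧
    ∀ i j, |(Matrix.of α.mt * (g : Matrix (Fin 2) (Fin 2) ℝ)) i j| ≤ C := by
  have hb0 : (1 : ℝ) ≤ b := by exact_mod_cast b_pos hb
  refine ⟨2 * b, fun g => ?_⟩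
  have hdet : |(mm b (g : Matrix (Fin 2) (Fin 2) ℝ)).det| = 4 * b := by
    rw [mm_det, g.2]
    ring
  have hne : LinearMap.det (Matrix.toLin' (mm b (g : Matrix (Fin 2) (Fin 2) ℝ))) ≠ 0 := by
    rw [LinearMap.det_toLin']
    intro h
    rw [h, abs_zero] at hdet
    linarith
  have hvol : MeasureTheory.volume (ZSpan.fundamentalDomain (Pi.basisFun ℝ (Fin 4))) = 1 := by
    rw [ZSpan.fundamentalDomain_pi_basisFun, Real.volume_pi_Ico]
    simp
  have : Countable (Submodule.span ℤ (Set.range (Pi.basisFun ℝ (Fin 4)))).toAddSubgroup :=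
    inferInstanceAs (Countable (Submodule.span ℤ (Set.range (Pi.basisFun ℝ (Fin 4)))))
  obtain ⟨v, hv0, hv⟩ := MeasureTheory.exists_ne_zero_mem_lattice_of_measure_mul_two_pow_lt_measure
    (ZSpan.isAddFundamentalDomain' (Pi.basisFun ℝ (Fin 4)) MeasureTheory.volume)
    (s := Matrix.toLin' (mm b (g : Matrix (Fin 2) (Fin 2) ℝ)) ⁻¹' Metric.ball 0 (2 * (b : ℝ)))
    (by
      intro x hx
      rw [Set.mem_preimage, mem_ball_zero_iff] at hx ⊢
      rwa [map_neg, norm_neg])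
    ((convex_ball (0 : Fin 4 → ℝ) (2 * (b : ℝ))).linear_preimage _)
    (by
      rw [hvol, MeasureTheory.Measure.addHaar_preimage_linearMap _ hne, Real.volume_pi_ball _ (by linarith),
        LinearMap.det_toLin', abs_inv, hdet, ← ENNReal.ofReal_mul (by positivity)]
      have h2 : (1 : ENNReal) * 2 ^ Module.finrank ℝ (Fin 4 → ℝ) = ENNReal.ofReal 16 := by
        rw [one_mul, Module.finrank_fin_fun]
        norm_num
      rw [h2, ENNReal.ofReal_lt_ofReal_iff (by positivity)]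
      simp only [Fintype.card_fin]
      have h3 : (4 * (b : ℝ))⁻¹ * (2 * (2 * (b : ℝ))) ^ 4 = 64 * (b : ℝ) ^ 3 := by
        have : (b : ℝ) ≠ 0 := by linarith
        field_simp
        ring
      rw [h3]
      have h4 : (1 : ℝ) ≤ (b : ℝ) ^ 3 := one_le_pow₀ hb0
      linarith)
  have hint : ∀ i, ∃ n : ℤ, (n : ℝ) = (v : Fin 4 → ℝ) i := by
    intro i
    have h1 := (Module.Basis.mem_span_iff_repr_mem ℤ (Pi.basisFun ℝ (Fin 4)) (v : Fin 4 → ℝ)).1 v.2 i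
    obtain ⟨n, hn⟩ := h1
    refine ⟨n, ?_⟩
    rw [Pi.basisFun_repr] at hn
    simpa using hn
  choose n hn using hint
  refine ⟨⟨⟨n 0, n 1⟩, ⟨n 2, n 3⟩⟩, ?_, ?_⟩
  · rintro ⟨h1, h2⟩
    apply hv0
    apply Subtype.ext
    have g0 : n 0 = 0 := congrArg Zsqrtd.re h1
    have g1 : n 1 = 0 := congrArg Zsqrtd.im h1
    have g2 : n 2 = 0 := congrArg Zsqrtd.re h2
    have g3 : n 3 = 0 := congrArg Zsqrtd.im h2
    ext i
    fin_cases i
    · change (v : Fin 4 → ℝ) 0 = 0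
      rw [← hn, g0, Int.cast_zero]
    · change (v : Fin 4 → ℝ) 1 = 0
      rw [← hn, g1, Int.cast_zero]
    · change (v : Fin 4 → ℝ) 2 = 0
      rw [← hn, g2, Int.cast_zero]
    · change (v : Fin 4 → ℝ) 3 = 0
      rw [← hn, g3, Int.cast_zero]
  · rw [Set.mem_preimage, mem_ball_zero_iff, Matrix.toLin'_apply] at hv
    have hv' : ∀ i, |(Matrix.mulVec (mm b (g : Matrix (Fin 2) (Fin 2) ℝ)) (v : Fin 4 → ℝ)) i| ≤ 2 * b := fun i =>
      (norm_le_pi_norm (Matrix.mulVec (mm b (g : Matrix (Fin 2) (Fin 2) ℝ)) (v : Fin 4 → ℝ)) i).trans hv.le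
    have k0 := hv' 0
    have k1 := hv' 1
    have k2 := hv' 2
    have k3 := hv' 3
    simp only [mm, Matrix.mulVec, dotProduct, Fin.sum_univ_four, Matrix.of_apply, Matrix.cons_val', Matrix.cons_val,
      Matrix.cons_val_zero, Matrix.cons_val_one, Matrix.cons_val_fin_one, ← hn] at k0 k1 k2 k3
    intro i j
    fin_cases i <;> fin_cases j
    · have e : (Matrix.of (⟨⟨n 0, n 1⟩, ⟨n 2, n 3⟩⟩ : Ob b).mt * (g : Matrix (Fin 2) (Fin 2) ℝ)) 0 0 =
          g 0 0 * n 0 + -g 1 0 * n 1 + Real.sqrt b * g 0 0 * n 2 + Real.sqrt b * g 1 0 * n 3 := by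
        simp [Matrix.mul_apply, Fin.sum_univ_two, Ob.mt]
        ring
      change |(Matrix.of (⟨⟨n 0, n 1⟩, ⟨n 2, n 3⟩⟩ : Ob b).mt * (g : Matrix (Fin 2) (Fin 2) ℝ)) 0 0| ≤ _
      rw [e]
      exact k0
    · have e : (Matrix.of (⟨⟨n 0, n 1⟩, ⟨n 2, n 3⟩⟩ : Ob b).mt * (g : Matrix (Fin 2) (Fin 2) ℝ)) 0 1 =
          g 0 1 * n 0 + -g 1 1 * n 1 + Real.sqrt b * g 0 1 * n 2 + Real.sqrt b * g 1 1 * n 3 := by
        simp [Matrix.mul_apply, Fin.sum_univ_two, Ob.mt]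
        ring
      change |(Matrix.of (⟨⟨n 0, n 1⟩, ⟨n 2, n 3⟩⟩ : Ob b).mt * (g : Matrix (Fin 2) (Fin 2) ℝ)) 0 1| ≤ _
      rw [e]
      exact k1
    · have e : (Matrix.of (⟨⟨n 0, n 1⟩, ⟨n 2, n 3⟩⟩ : Ob b).mt * (g : Matrix (Fin 2) (Fin 2) ℝ)) 1 0 =
          g 1 0 * n 0 + g 0 0 * n 1 + -(Real.sqrt b * g 1 0) * n 2 + Real.sqrt b * g 0 0 * n 3 := by
        simp [Matrix.mul_apply, Fin.sum_univ_two, Ob.mt]
        ring
      change |(Matrix.of (⟨⟨n 0, n 1⟩, ⟨n 2, n 3⟩⟩ : Ob b).mt * (g : Matrix (Fin 2) (Fin 2) ℝ)) 1 0| ≤ _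
      rw [e]
      exact k2
    · have e : (Matrix.of (⟨⟨n 0, n 1⟩, ⟨n 2, n 3⟩⟩ : Ob b).mt * (g : Matrix (Fin 2) (Fin 2) ℝ)) 1 1 =
          g 1 1 * n 0 + g 0 1 * n 1 + -(Real.sqrt b * g 1 1) * n 2 + Real.sqrt b * g 0 1 * n 3 := by
        simp [Matrix.mul_apply, Fin.sum_univ_two, Ob.mt]
        ring
      change |(Matrix.of (⟨⟨n 0, n 1⟩, ⟨n 2, n 3⟩⟩ : Ob b).mt * (g : Matrix (Fin 2) (Fin 2) ℝ)) 1 1| ≤ _
      rw [e]
      exact k3

theorem coe_hh {γ : Ob b} (h : γ.N = 1) : (γ.hh : Matrix (Fin 2) (Fin 2) ℝ) = Matrix.of γ.mt := by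
  have h1 : (Matrix.of γ.mt).det = 1 := by rw [Ob.det_mt, h, Int.cast_one]
  unfold Ob.hh
  rw [nrm_val (by rw [h1]; exact one_pos), h1, Real.sqrt_one, inv_one, one_smul]

theorem isCompact_box (B : ℝ) : IsCompact {g : G | ∀ i j, |(g : Matrix (Fin 2) (Fin 2) ℝ) i j| ≤ B} := by
  have h1 : IsCompact (Set.pi Set.univ fun _ : Fin 2 => Set.pi Set.univ fun _ : Fin 2 => Set.Icc (-B) B) :=
    isCompact_univ_pi fun _ => isCompact_univ_pi fun _ => isCompact_Icc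
  have h2 := (Matrix.SpecialLinearGroup.isClosedEmbedding_val (n := Fin 2) (R := ℝ)).isCompact_preimage h1
  have h3 : {g : G | ∀ i j, |(g : Matrix (Fin 2) (Fin 2) ℝ) i j| ≤ B} = ((↑) : G → Matrix (Fin 2) (Fin 2) ℝ) ⁻¹'
      (Set.pi Set.univ fun _ : Fin 2 => Set.pi Set.univ fun _ : Fin 2 => Set.Icc (-B) B) := by
    ext g
    constructor
    · intro h i _ j _
      exact abs_le.1 (h i j)
    · intro h i j
      exact abs_le.2 (h i trivial j trivial)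
  rw [h3]
  exact h2

theorem cls_bound (n : ℤ) (hn : n ≠ 0) : ∃ B : ℝ, 0 ≤ B ∧ ∀ α : Ob b, α.N = n → ∃ x γ : Ob b, x.N = n ∧ γ.N = 1 ∧ α = x * γ ∧
    ∀ i j, |x.bar.mt i j| ≤ B := by
  obtain ⟨s, h1, h2⟩ := cls_right (b := b) n hn
  refine ⟨∑ x ∈ s, ∑ i, ∑ j, |x.bar.mt i j|, by positivity, fun α hα => ?_⟩
  obtain ⟨x, hx, γ, hγ, e⟩ := h2 α hα
  refine ⟨x, γ, h1 x hx, hγ, e, fun i j => ?_⟩
  have k1 : |x.bar.mt i j| ≤ ∑ j, |x.bar.mt i j| :=
    Finset.single_le_sum (f := fun j => |x.bar.mt i j|) (fun _ _ => abs_nonneg _) (Finset.mem_univ j)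
  have k2 : ∑ j, |x.bar.mt i j| ≤ ∑ i, ∑ j, |x.bar.mt i j| :=
    Finset.single_le_sum (f := fun i => ∑ j, |x.bar.mt i j|) (fun _ _ => by positivity) (Finset.mem_univ i)
  have k3 : ∑ i, ∑ j, |x.bar.mt i j| ≤ ∑ x ∈ s, ∑ i, ∑ j, |x.bar.mt i j| :=
    Finset.single_le_sum (f := fun x : Ob b => ∑ i, ∑ j, |x.bar.mt i j|) (fun _ _ => by positivity) hx
  linarith

theorem mt_zs_one (n : ℤ) : Matrix.of (Ob.zs n (1 : Ob b)).mt = (n : ℝ) • (1 : Matrix (Fin 2) (Fin 2) ℝ) := by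
  ext i j
  fin_cases i <;> fin_cases j <;> simp [Ob.zs, Ob.mt, Ob.one_X, Ob.one_Y]

theorem cocpt_set (hb : ∀ x y : ℕ, b ≠ x ^ 2 + y ^ 2) :
    ∃ Ω : Set G, IsCompact Ω ∧ ∀ g : G, ∃ γ : Ob b, γ.N = 1 ∧ γ.hh * g ∈ Ω := by
  obtain ⟨C, hC⟩ := mink hb
  have hB : ∀ n : ℤ, ∃ B : ℝ, 0 ≤ B ∧ (n ≠ 0 → ∀ α : Ob b, α.N = n → ∃ x γ : Ob b, x.N = n ∧ γ.N = 1 ∧ α = x * γ ∧
      ∀ i j, |x.bar.mt i j| ≤ B) := by
    intro n
    by_cases hn : n = 0
    · exact ⟨0, le_refl _, fun h => absurd hn h⟩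
    · obtain ⟨B, h1, h2⟩ := cls_bound (b := b) n hn
      exact ⟨B, h1, fun _ => h2⟩
  choose B hB0 hB using hB
  obtain ⟨K, hK⟩ := exists_nat_ge (2 * C ^ 2)
  have hM : ∃ M : ℝ, ∀ n ∈ Finset.Icc (-(K : ℤ)) K, B n ≤ M :=
    ⟨∑ n ∈ Finset.Icc (-(K : ℤ)) K, B n, fun n hn => Finset.single_le_sum (f := B) (fun m _ => hB0 m) hn⟩
  obtain ⟨M, hM⟩ := hM
  refine ⟨_, isCompact_box (2 * (M * C)), fun g => ?_⟩
  obtain ⟨α, hα, hA⟩ := hC g
  have hC0 : 0 ≤ C := (abs_nonneg _).trans (hA 0 0)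
  set A := Matrix.of α.mt * (g : Matrix (Fin 2) (Fin 2) ℝ) with hAdef
  have hdet : A.det = α.N := by
    rw [hAdef, Matrix.det_mul, Ob.det_mt, g.2, mul_one]
  have hN0 : α.N ≠ 0 := fun h => hα (aniso hb h)
  have hprod : ∀ i j k l, |A i j * A k l| ≤ C ^ 2 := by
    intro i j k l
    rw [abs_mul, sq]
    exact mul_le_mul (hA i j) (hA k l) (abs_nonneg _) hC0
  have hN : |(α.N : ℝ)| ≤ K := by
    rw [← hdet, Matrix.det_fin_two]
    have h1 := abs_sub (A 0 0 * A 1 1) (A 0 1 * A 1 0)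
    have h2 := hprod 0 0 1 1
    have h3 := hprod 0 1 1 0
    linarith
  have hN' : α.N ∈ Finset.Icc (-(K : ℤ)) K := by
    rw [Finset.mem_Icc]
    have h1 := abs_le.1 hN
    constructor
    · exact_mod_cast h1.1
    · exact_mod_cast h1.2
  obtain ⟨x, γ, hx, hγ, e, hxB⟩ := hB α.N hN0 α rfl
  refine ⟨γ, hγ, ?_⟩
  change ∀ i j, |((γ.hh * g : G) : Matrix (Fin 2) (Fin 2) ℝ) i j| ≤ 2 * (M * C)
  have h1 : (α.N : ℝ) • ((γ.hh * g : G) : Matrix (Fin 2) (Fin 2) ℝ) = Matrix.of x.bar.mt * A := by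
    rw [Matrix.SpecialLinearGroup.coe_mul, coe_hh hγ, hAdef]
    have h2 : Matrix.of α.mt = Matrix.of x.mt * Matrix.of γ.mt := by
      rw [← Ob.mt_mul, ← e]
    rw [h2, ← Matrix.mul_assoc, ← Matrix.mul_assoc, ← Ob.mt_mul, Ob.bar_mul_self, mt_zs_one, hx, Matrix.smul_mul,
      Matrix.one_mul, Matrix.smul_mul]
  have hM0 := hM α.N hN'
  have hNabs : (1 : ℝ) ≤ |(α.N : ℝ)| := by
    have := Int.one_le_abs hN0
    exact_mod_cast this
  intro i j
  have h3 : (α.N : ℝ) * ((γ.hh * g : G) : Matrix (Fin 2) (Fin 2) ℝ) i j = x.bar.mt i 0 * A 0 j + x.bar.mt i 1 * A 1 j := by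
    have h4 := congrFun (congrFun h1 i) j
    rw [Matrix.smul_apply, smul_eq_mul, Matrix.mul_apply, Fin.sum_univ_two] at h4
    exact h4
  have h5 : ∀ k, |x.bar.mt i k * A k j| ≤ M * C := by
    intro k
    rw [abs_mul]
    exact mul_le_mul ((hxB i k).trans hM0) (hA k j) (abs_nonneg _) ((hB0 _).trans hM0)
  have h6 : |(α.N : ℝ)| * |((γ.hh * g : G) : Matrix (Fin 2) (Fin 2) ℝ) i j| ≤ 2 * (M * C) := by
    rw [← abs_mul, h3]
    have h7 := abs_add_le (x.bar.mt i 0 * A 0 j) (x.bar.mt i 1 * A 1 j)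
    have h8 := h5 0
    have h9 := h5 1
    linarith
  have h10 : 1 * |((γ.hh * g : G) : Matrix (Fin 2) (Fin 2) ℝ) i j| ≤
      |(α.N : ℝ)| * |((γ.hh * g : G) : Matrix (Fin 2) (Fin 2) ℝ) i j| :=
    mul_le_mul_of_nonneg_right hNabs (abs_nonneg _)
  linarith

theorem cocpt (hb : ∀ x y : ℕ, b ≠ x ^ 2 + y ^ 2) : IsCocpt (Gam b) := by
  refine ⟨disc hb, ?_⟩
  obtain ⟨Ω, h1, h2⟩ := cocpt_set hb
  refine ⟨Ω, h1, fun g => ?_⟩
  obtain ⟨γ, h3, h4⟩ := h2 g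
  exact ⟨γ.hh, Ob.hh_mem h3, h4⟩

end MPkt
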