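import Pool.Agent.Lib.MP_7b255b_nt.DC
import Pool.Agent.Lib.MP_7b255b_nt.Cls

/-!
# Hck: the combinatorics of the Hecke operators

`p` a prime, `ϖ` a Gaussian integer of norm `p`, coprime to `star ϖ` and to `b`. `IsReps p s`: `s` is a system of
representatives of `Γ \ {elements of norm p}`.
* `exists_reps`: `cls_left`, choose a minimal subset (or one representative in each class).
* `reps_card`: `F = ℤ[i]/(ϖ)` has `p` elements (`int_rep`: every class contains an integer, and `p = 0`; so at most `p`). To `β ∈ s` attach the class of its kernel modulo `ϖ`: the vectors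
  `(b Y, -X)`, `(star X, -star Y)` are in the kernel, one of them is not `0` (`ker_vec`: `(s, t)` unimodular), and the kernel is a line since the matrix is not `0`
  (`β` is primitive, `prim_of_sqfree`). The lines of `F^2` are `p + 1` (`(s : t)`). If `β`, `β'` have the same kernel line then `β' * bar β` is divisible by `p`: the matrix of
  `bar β` is the adjugate, with image = kernel of `β` = kernel of `β'`; all four entries `X''`, `b Y''`, `star Y''`, `star X''` of the product are divisible by `ϖ`, so `X''`, `Y''` are divisible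
  by `ϖ` and `star ϖ`, so by `p`. Then `γ = β' * bar β / p` has norm `1` and `β' = γ β`; so `β = β'`.
* `one_rep`: the class of `em (star ϖ)`; `em (star ϖ) * em ϖ = p`. If `β * em ϖ = zs p γ` then `N γ = 1` and `β = γ * em (star ϖ)` (multiply by `em (star ϖ)` on the right: `zs p β = zs p (γ em (star ϖ))`).
* `prim_mul`: `α` primitive, `N α = |δ|^2`... here: `α` primitive, `y` coprime to `star y`, `gcd(N α, norm y) = 1`: if an integer prime `q` divides `α * em y`, then `q ∣ N α norm y ^ ...`: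
  `q^2 ∣ N α * norm y`. If `q ∣ norm y` then `q ∤ N α`, multiply on the left by `bar α`: `q ∣ N α * em y`, so `q ∣ y`, contradiction; if `q ∣ N α`: `q ∤ norm y`, multiply on the
  right by `em (star y)`.
* `prim_two`: `N β = p`, `β * em ϖ` not of the form `zs p γ`: then `β * em (ϖ y)` is primitive of norm `p ^ 2 norm y`: a prime `q` dividing it: `q = p`: multiply on the right by `em (star y)`:
  `p ∣ norm y * (β em ϖ)`, so `p ∣ β em ϖ`, `β em ϖ = zs p γ`; `q ∣ norm y`: `prim_mul`-argument with `α = β em ϖ`, norm `p^2`.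

-/

set_option autoImplicit false

namespace MPkt

variable {b : ℕ}

/-- A system of representatives of the elements of norm `p` modulo the elements of norm `1` on the left. -/
structure IsReps (p : ℕ) (s : Finset (Ob b)) : Prop where
  norm : ∀ β ∈ s, β.N = p
  inj : ∀ β ∈ s, ∀ β' ∈ s, ∀ γ : Ob b, γ.N = 1 → β' = γ * β → β' = β
  surj : ∀ α : Ob b, α.N = p → ∃ β ∈ s, ∃ γ : Ob b, γ.N = 1 ∧ α = γ * β

theorem Hck_em_X (α : Ob b) (y : GaussianInt) : (α * Ob.em y).X = α.X * y := by
  rw [Ob.mul_X]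
  simp only [Ob.em, star_zero, mul_zero, add_zero]

theorem Hck_em_Y (α : Ob b) (y : GaussianInt) : (α * Ob.em y).Y = α.Y * star y := by
  rw [Ob.mul_Y]
  simp only [Ob.em, mul_zero, zero_add]

theorem Hck_zs_inj {n : ℤ} (hn : n ≠ 0) {α β : Ob b} (h : Ob.zs n α = Ob.zs n β) : α = β := by
  have hn' : (n : GaussianInt) ≠ 0 := by exact_mod_cast hn
  have h1 := congrArg Ob.X h
  have h2 := congrArg Ob.Y h
  simp only [Ob.zs] at h1 h2
  ext1
  · exact mul_left_cancel₀ hn' h1
  · exact mul_left_cancel₀ hn' h2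

theorem Hck_star_dvd {x y : GaussianInt} (h : x ∣ y) : star x ∣ star y := by
  obtain ⟨z, rfl⟩ := h
  exact ⟨star z, by rw [star_mul, mul_comm]⟩

theorem Hck_star_cop {x y : GaussianInt} (h : IsCoprime x y) : IsCoprime (star x) (star y) := by
  obtain ⟨u, v, h⟩ := h
  refine ⟨star u, star v, ?_⟩
  have h1 := congrArg star h
  rw [star_add, star_mul, star_mul, star_one] at h1
  linear_combination h1

theorem Hck_norm {ϖ : GaussianInt} {p : ℕ} (hn : ϖ.norm = p) : ϖ * star ϖ = (p : GaussianInt) := by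
  rw [← Zsqrtd.norm_eq_mul_conj, hn]
  push_cast
  rfl

theorem Hck_em_p {ϖ : GaussianInt} {p : ℕ} (hn : ϖ.norm = p) : (Ob.em ϖ * Ob.em (star ϖ) : Ob b) = Ob.zs p 1 := by
  rw [← Ob.em_mul, Hck_norm hn]
  ext1
  · simp only [Ob.em, Ob.zs, Ob.one_X, mul_one]
    push_cast
    rfl
  · simp only [Ob.em, Ob.zs, Ob.one_Y, mul_zero]

theorem Hck_bar_left {γ : Ob b} (h : γ.N = 1) : γ.bar * γ = 1 := by
  rw [Ob.bar_mul_self, h]
  ext1
  · simp [Ob.zs]
  · simp [Ob.zs]

/-- An integer which divides `α * em y` divides the norm of `α`. -/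
theorem Hck_dvd {α : Ob b} {y : GaussianInt} (hy : IsCoprime y (star y)) {n : ℤ}
    (h1 : (n : GaussianInt) ∣ α.X * y) (h2 : (n : GaussianInt) ∣ α.Y * star y) : n ∣ α.N := by
  have hns : star (n : GaussianInt) = n := by rw [star_intCast]
  have h3 : (n : GaussianInt) ∣ star α.Y * y := by
    have h4 := Hck_star_dvd h2
    rw [hns, star_mul, star_star, mul_comm] at h4
    exact h4
  have hN : (α.N : GaussianInt) = α.X * star α.X - b * (α.Y * star α.Y) := by
    unfold Ob.N
    push_cast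
    rw [Zsqrtd.norm_eq_mul_conj, Zsqrtd.norm_eq_mul_conj]
  have h5 : (n : GaussianInt) ∣ (α.N : GaussianInt) * y := by
    have h6 : (α.N : GaussianInt) * y = star α.X * (α.X * y) - b * α.Y * (star α.Y * y) := by
      rw [hN]
      ring
    rw [h6]
    exact dvd_sub (h1.mul_left _) (h3.mul_left _)
  have h7 : (n : GaussianInt) ∣ (α.N : GaussianInt) * star y := by
    have h8 := Hck_star_dvd h5
    rw [hns, star_mul, star_intCast, mul_comm] at h8
    exact h8
  obtain ⟨u, v, huv⟩ := hy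
  have h9 : (α.N : GaussianInt) = u * ((α.N : GaussianInt) * y) + v * ((α.N : GaussianInt) * star y) := by
    linear_combination (-(α.N : GaussianInt)) * huv
  have h10 : (n : GaussianInt) ∣ (α.N : GaussianInt) := by
    rw [h9]
    exact dvd_add (h5.mul_left _) (h7.mul_left _)
  exact (Zsqrtd.intCast_dvd_intCast n α.N).1 h10

theorem exists_reps (b : ℕ) {p : ℕ} (hp : 0 < p) : ∃ s : Finset (Ob b), IsReps p s := by
  classical
  obtain ⟨s₀, h1, h2⟩ := cls_left (b := b) (p : ℤ) (by exact_mod_cast hp.ne')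
  have hex : ∃ m : ℕ, ∃ s : Finset (Ob b), s.card = m ∧ (∀ x ∈ s, x.N = p) ∧
      ∀ α : Ob b, α.N = p → ∃ x ∈ s, ∃ γ : Ob b, γ.N = 1 ∧ α = γ * x := ⟨s₀.card, s₀, rfl, h1, h2⟩
  obtain ⟨s, hc, h3, h4⟩ := Nat.find_spec hex
  refine ⟨s, h3, ?_, h4⟩
  intro β hβ β' hβ' γ hγ he
  by_contra hne
  refine Nat.find_min hex (m := (s.erase β').card) ?_ ⟨s.erase β', rfl, ?_, ?_⟩
  · rw [← hc]
    exact Finset.card_erase_lt_of_mem hβ'
  · intro x hx
    exact h3 x (Finset.mem_of_mem_erase hx)
  · intro α hα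
    obtain ⟨x, hx, γ', hγ', h5⟩ := h4 α hα
    by_cases hxb : x = β'
    · refine ⟨β, Finset.mem_erase.2 ⟨fun h => hne h.symm, hβ⟩, γ' * γ, ?_, ?_⟩
      · rw [Ob.N_mul, hγ, hγ', mul_one]
      · rw [h5, hxb, he, mul_assoc]
    · exact ⟨x, Finset.mem_erase.2 ⟨hxb, hx⟩, γ', hγ', h5⟩

theorem reps_card {p : ℕ} (hp : p.Prime) {ϖ : GaussianInt} (hn : ϖ.norm = p) (h1 : IsCoprime ϖ (star ϖ))
    (h2 : IsCoprime ϖ (b : GaussianInt)) {s : Finset (Ob b)} (hs : IsReps p s) : s.card ≤ p + 1 := by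
  classical
  have hp0 : (p : ℤ) ≠ 0 := by exact_mod_cast hp.ne_zero
  have hpϖ : ϖ ∣ (p : GaussianInt) := ⟨star ϖ, (Hck_norm hn).symm⟩
  have hprime : Prime ϖ := by
    have h3 : Irreducible ϖ := by
      refine irreducible_iff.2 ⟨fun h => ?_, fun x y hxy => ?_⟩
      · rw [← Zsqrtd.norm_eq_one_iff, hn] at h
        have h4 : p = 1 := by simpa using h
        exact hp.one_lt.ne' h4
      · have h4 : x.norm.natAbs * y.norm.natAbs = p := by
          rw [← Int.natAbs_mul, ← Zsqrtd.norm_mul, ← hxy, hn]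
          simp
        rcases (Nat.prime_mul_iff.1 (h4 ▸ hp)) with ⟨-, h5⟩ | ⟨-, h5⟩
        · exact Or.inr (Zsqrtd.norm_eq_one_iff.1 h5)
        · exact Or.inl (Zsqrtd.norm_eq_one_iff.1 h5)
    exact h3.prime
  -- the kernel line
  have hker : ∀ β ∈ s, (ϖ ∣ β.X ∧ ϖ ∣ star β.Y) ∨
      ∃ k : ℕ, k < p ∧ ϖ ∣ β.X * k + b * β.Y ∧ ϖ ∣ star β.Y * k + star β.X := by
    intro β hβ
    have hN := hs.norm β hβ
    have hsq : Squarefree β.N := by
      rw [hN]
      exact (Nat.prime_iff_prime_int.1 hp).squarefree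
    obtain ⟨x, t, u, v, h3, h4, h5⟩ := ker_vec h1 h2 (prim_of_sqfree hsq) (by
      rw [hN]
      push_cast
      exact hpϖ)
    by_cases ht : ϖ ∣ t
    · left
      have hx : ¬ ϖ ∣ x := by
        intro hx
        refine hprime.not_isUnit (isUnit_of_dvd_one ?_)
        have h6 : (1 : GaussianInt) = x * u + t * v - (x * u + t * v - 1) := by ring
        rw [h6]
        exact dvd_sub (dvd_add (hx.mul_right _) (ht.mul_right _)) h3
      constructor
      · have h6 : ϖ ∣ β.X * x := by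
          have h7 : β.X * x = (β.X * x + b * (β.Y * t)) - b * β.Y * t := by ring
          rw [h7]
          exact dvd_sub h4 (ht.mul_left _)
        exact (hprime.dvd_or_dvd h6).resolve_right hx
      · have h6 : ϖ ∣ star β.Y * x := by
          have h7 : star β.Y * x = (star β.Y * x + star β.X * t) - star β.X * t := by ring
          rw [h7]
          exact dvd_sub h5 (ht.mul_left _)
        exact (hprime.dvd_or_dvd h6).resolve_right hx
    · right
      have hcop : IsCoprime t ϖ := ((hprime.irreducible.coprime_iff_not_dvd).2 ht).symm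
      obtain ⟨t', w, ht'⟩ := hcop
      obtain ⟨k₀, hk₀⟩ := int_rep h1 (x * t')
      have hk1 : 0 ≤ k₀ % (p : ℤ) := Int.emod_nonneg _ hp0
      have hk2 : k₀ % (p : ℤ) < p := Int.emod_lt_of_pos _ (by exact_mod_cast hp.pos)
      obtain ⟨k, hk⟩ := Int.eq_ofNat_of_zero_le hk1
      have hk3 : ϖ ∣ x * t' - k := by
        have h6 : (k₀ : GaussianInt) = (p : GaussianInt) * ((k₀ / (p : ℤ) : ℤ) : GaussianInt) + (k : GaussianInt) := by
          have h7 := Int.mul_ediv_add_emod k₀ p
          rw [hk] at h7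
          have h8 : ((p : ℤ) * (k₀ / (p : ℤ)) + (k : ℤ) : ℤ) = k₀ := h7
          have h9 := congrArg (fun z : ℤ => (z : GaussianInt)) h8
          push_cast at h9
          rw [← h9]
        have h10 : x * t' - (k : GaussianInt) = (x * t' - k₀) + (p : GaussianInt) * ((k₀ / (p : ℤ) : ℤ) : GaussianInt) := by
          rw [h6]
          ring
        rw [h10]
        exact dvd_add hk₀ (hpϖ.mul_right _)
      refine ⟨k, ?_, ?_, ?_⟩
      · have : (k : ℤ) < p := by
          rw [hk] at hk2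
          exact hk2
        exact_mod_cast this
      · have h6 : β.X * k + b * β.Y = t' * (β.X * x + b * (β.Y * t)) - β.X * (x * t' - k) + b * β.Y * (w * ϖ) := by
          linear_combination (-(b : GaussianInt) * β.Y) * ht'
        rw [h6]
        exact dvd_add (dvd_sub (h4.mul_left _) (hk3.mul_left _)) ((dvd_mul_left ϖ w).mul_left _)
      · have h6 : star β.Y * k + star β.X = t' * (star β.Y * x + star β.X * t) - star β.Y * (x * t' - k) +
            star β.X * (w * ϖ) := by
          linear_combination (-(star β.X)) * ht'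
        rw [h6]
        exact dvd_add (dvd_sub (h5.mul_left _) (hk3.mul_left _)) ((dvd_mul_left ϖ w).mul_left _)
  -- the same kernel line
  have hsame : ∀ β ∈ s, ∀ β' ∈ s,
      (ϖ ∣ β'.X * star β.X - b * (β'.Y * star β.Y)) → (ϖ ∣ star (β'.X * star β.X - b * (β'.Y * star β.Y))) →
      (ϖ ∣ b * (β'.Y * β.X - β'.X * β.Y)) → (ϖ ∣ star (β'.Y * β.X - β'.X * β.Y)) → β' = β := by
    intro β hβ β' hβ' hX1 hX2 hY1 hY2
    have hpd : ∀ z : GaussianInt, ϖ ∣ z → ϖ ∣ star z → (p : GaussianInt) ∣ z := by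
      intro z hz hz'
      rw [← Hck_norm hn]
      refine h1.mul_dvd hz ?_
      have h4 := Hck_star_dvd hz'
      rwa [star_star] at h4
    obtain ⟨x, hx⟩ := hpd _ hX1 hX2
    have hY3 : ϖ ∣ β'.Y * β.X - β'.X * β.Y := h2.dvd_of_dvd_mul_left hY1
    obtain ⟨y, hy⟩ := hpd _ hY3 hY2
    have hprod : β' * β.bar = Ob.zs p ⟨x, y⟩ := by
      ext1
      · rw [Ob.mul_X]
        simp only [Ob.bar, Ob.zs, star_neg]
        push_cast
        rw [← hx]
        ring
      · rw [Ob.mul_Y]
        simp only [Ob.bar, Ob.zs, star_star]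
        push_cast
        rw [← hy]
        ring
    have hN1 : (⟨x, y⟩ : Ob b).N = 1 := by
      have h4 := congrArg Ob.N hprod
      rw [Ob.N_mul, Ob.N_bar, Ob.N_zs, hs.norm β hβ, hs.norm β' hβ'] at h4
      have h5 : (p : ℤ) ^ 2 ≠ 0 := pow_ne_zero _ hp0
      have h6 : (p : ℤ) ^ 2 * (⟨x, y⟩ : Ob b).N = (p : ℤ) ^ 2 * 1 := by
        rw [← h4]
        ring
      exact mul_left_cancel₀ h5 h6
    have h7 : β' = (⟨x, y⟩ : Ob b) * β := by
      apply Hck_zs_inj hp0
      rw [← Ob.zs_mul, ← hprod, mul_assoc, Ob.bar_mul_self, hs.norm β hβ, Ob.mul_zs, mul_one]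
    exact hs.inj β hβ β' hβ' _ hN1 h7
  let g : Ob b → ℕ := fun β => if h : ∃ k : ℕ, k < p ∧ ϖ ∣ β.X * k + b * β.Y ∧ ϖ ∣ star β.Y * k + star β.X then
    h.choose else p
  have hg : ∀ β ∈ s, g β ∈ Finset.range (p + 1) := by
    intro β _
    simp only [g]
    rw [Finset.mem_range]
    split_ifs with h
    · have := h.choose_spec.1
      omega
    · omega
  rw [← Finset.card_range (p + 1)]
  refine Finset.card_le_card_of_injOn g hg ?_
  intro β hβ β' hβ' h
  rw [Finset.mem_coe] at hβ hβ'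
  refine (hsame β hβ β' hβ' ?_ ?_ ?_ ?_).symm
  all_goals
    by_cases h3 : ∃ k : ℕ, k < p ∧ ϖ ∣ β.X * k + b * β.Y ∧ ϖ ∣ star β.Y * k + star β.X
    · have hgβ : g β = h3.choose := dif_pos h3
      by_cases h4 : ∃ k : ℕ, k < p ∧ ϖ ∣ β'.X * k + b * β'.Y ∧ ϖ ∣ star β'.Y * k + star β'.X
      · have hgβ' : g β' = h4.choose := dif_pos h4
        obtain ⟨-, a1, a2⟩ := h3.choose_spec
        obtain ⟨-, a3, a4⟩ := h4.choose_spec
        rw [← hgβ] at a1 a2
        rw [← hgβ', ← h] at a3 a4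
        generalize (g β : GaussianInt) = k at a1 a2 a3 a4
        try simp only [star_sub, star_mul, star_star, Ob.star_nat]
        first
          | (have e : β'.X * star β.X - b * (β'.Y * star β.Y) =
                β'.X * (star β.Y * k + star β.X) - star β.Y * (β'.X * k + b * β'.Y) := by ring
             rw [e]
             exact dvd_sub (a2.mul_left _) (a3.mul_left _))
          | (have e : β.X * star β'.X - β.Y * star β'.Y * b =
                β.X * (star β'.Y * k + star β'.X) - star β'.Y * (β.X * k + b * β.Y) := by ring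
             rw [e]
             exact dvd_sub (a4.mul_left _) (a1.mul_left _))
          | (have e : b * (β'.Y * β.X - β'.X * β.Y) =
                β.X * (β'.X * k + b * β'.Y) - β'.X * (β.X * k + b * β.Y) := by ring
             rw [e]
             exact dvd_sub (a3.mul_left _) (a1.mul_left _))
          | (have e : star β.X * star β'.Y - star β.Y * star β'.X =
                star β'.Y * (star β.Y * k + star β.X) - star β.Y * (star β'.Y * k + star β'.X) := by ring
             rw [e]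
             exact dvd_sub (a2.mul_left _) (a4.mul_left _))
      · exfalso
        have hgβ' : g β' = p := dif_neg h4
        have := h3.choose_spec.1
        rw [← hgβ, h, hgβ'] at this
        omega
    · have hgβ : g β = p := dif_neg h3
      obtain ⟨a1, a2⟩ := (hker β hβ).resolve_right h3
      by_cases h4 : ∃ k : ℕ, k < p ∧ ϖ ∣ β'.X * k + b * β'.Y ∧ ϖ ∣ star β'.Y * k + star β'.X
      · exfalso
        have hgβ' : g β' = h4.choose := dif_pos h4
        have := h4.choose_spec.1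
        rw [← hgβ', ← h, hgβ] at this
        omega
      · obtain ⟨a3, a4⟩ := (hker β' hβ').resolve_right h4
        try simp only [star_sub, star_mul, star_star, Ob.star_nat]
        first
          | exact dvd_sub (a3.mul_right _) ((a2.mul_left _).mul_left _)
          | exact dvd_sub (a1.mul_right _) ((a4.mul_left _).mul_right _)
          | exact (dvd_sub (a1.mul_left _) (a3.mul_right _)).mul_left _
          | exact dvd_sub (a4.mul_left _) (a2.mul_right _)

/-- Exactly one `β ∈ s` has the product `p γ` with `ϖ`. -/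
theorem one_rep {p : ℕ} (hp : p.Prime) {ϖ : GaussianInt} (hn : ϖ.norm = p) {s : Finset (Ob b)} (hs : IsReps p s) :
    ∃ β₀ ∈ s, (∃ γ : Ob b, γ.N = 1 ∧ β₀ = γ * Ob.em (star ϖ)) ∧
      ∀ β ∈ s, (∃ γ : Ob b, β * Ob.em ϖ = Ob.zs p γ) → β = β₀ := by
  have hp0 : (p : ℤ) ≠ 0 := by exact_mod_cast hp.ne_zero
  have hns : (Ob.em (star ϖ) : Ob b).N = p := by
    rw [Ob.N_em, ← hn]
    simp only [Zsqrtd.norm_def, Zsqrtd.re_star, Zsqrtd.im_star]
    ring
  obtain ⟨β₀, hβ₀, γ₁, hγ₁, h1⟩ := hs.surj _ hns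
  refine ⟨β₀, hβ₀, ⟨γ₁.bar, by rw [Ob.N_bar, hγ₁], ?_⟩, ?_⟩
  · rw [h1, ← mul_assoc, Hck_bar_left hγ₁, one_mul]
  · rintro β hβ ⟨γ, hγ⟩
    have hN1 : γ.N = 1 := by
      have h4 := congrArg Ob.N hγ
      rw [Ob.N_mul, Ob.N_zs, hs.norm β hβ, Ob.N_em, hn] at h4
      have h5 : (p : ℤ) ^ 2 ≠ 0 := pow_ne_zero _ hp0
      have h6 : (p : ℤ) ^ 2 * γ.N = (p : ℤ) ^ 2 * 1 := by
        rw [← h4]
        ring
      exact mul_left_cancel₀ h5 h6
    have h2 : β = γ * Ob.em (star ϖ) := by
      apply Hck_zs_inj hp0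
      rw [← Ob.zs_mul, ← hγ, mul_assoc, Hck_em_p hn, Ob.mul_zs, mul_one]
    refine hs.inj β₀ hβ₀ β hβ (γ * γ₁) (by rw [Ob.N_mul, hN1, hγ₁, mul_one]) ?_
    rw [mul_assoc, ← h1]
    exact h2

theorem prim_mul {α : Ob b} (hα : α.Prim) (h0 : α.N ≠ 0) {y : GaussianInt} (hy : IsCoprime y (star y))
    (hc : IsCoprime α.N y.norm) : (α * Ob.em y).Prim := by
  intro n h1 h2
  rw [Hck_em_X] at h1
  rw [Hck_em_Y] at h2
  have h3 : n ∣ α.N := Hck_dvd hy h1 h2
  have h4 : IsCoprime n y.norm := hc.of_isCoprime_of_dvd_left h3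
  have hyn : (y.norm : GaussianInt) = y * star y := Zsqrtd.norm_eq_mul_conj y
  have h5 : IsCoprime (n : GaussianInt) (y.norm : GaussianInt) := by
    obtain ⟨u, v, huv⟩ := h4
    exact ⟨u, v, by exact_mod_cast congrArg (fun z : ℤ => (z : GaussianInt)) huv⟩
  refine hα n ?_ ?_
  · refine h5.dvd_of_dvd_mul_right ?_
    rw [hyn, ← mul_assoc]
    exact h1.mul_right _
  · refine h5.dvd_of_dvd_mul_right ?_
    rw [hyn, mul_comm y, ← mul_assoc]
    exact h2.mul_right _

theorem prim_two {p : ℕ} (hp : p.Prime) {ϖ : GaussianInt} (hn : ϖ.norm = p) (h1 : IsCoprime ϖ (star ϖ)) {β : Ob b}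
    (hβ : β.N = p) (h : ¬ ∃ γ : Ob b, β * Ob.em ϖ = Ob.zs p γ) {y : GaussianInt} (hy : IsCoprime y (star y))
    (hc : IsCoprime (p : ℤ) y.norm) : (β * Ob.em (ϖ * y)).Prim := by
  rw [Ob.em_mul, ← mul_assoc]
  have hp0 : (p : ℤ) ≠ 0 := by exact_mod_cast hp.ne_zero
  have hN : (β * Ob.em ϖ : Ob b).N = (p : ℤ) ^ 2 := by
    rw [Ob.N_mul, hβ, Ob.N_em, hn]
    ring
  refine prim_mul ?_ (by rw [hN]; exact pow_ne_zero _ hp0) hy (by rw [hN]; exact hc.pow_left)
  intro n h3 h4
  have h5 := h3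
  have h6 := h4
  rw [Hck_em_X] at h5
  rw [Hck_em_Y] at h6
  have h7 : n ∣ (p : ℤ) := by
    rw [← hβ]
    exact Hck_dvd h1 h5 h6
  have h8 : n.natAbs ∣ p := by
    have := Int.natAbs_dvd_natAbs.2 h7
    simpa using this
  rcases (Nat.dvd_prime hp).1 h8 with h9 | h9
  · exact Int.isUnit_iff_natAbs_eq.2 h9
  · exfalso
    apply h
    have hpn : (p : GaussianInt) ∣ (n : GaussianInt) := by
      have h10 : (p : ℤ) ∣ n := by
        rw [← Int.natAbs_dvd_natAbs, h9]
        simp
      exact_mod_cast (Zsqrtd.intCast_dvd_intCast (d := -1) (p : ℤ) n).2 h10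
    obtain ⟨x, hx⟩ := hpn.trans h3
    obtain ⟨y', hy'⟩ := hpn.trans h4
    refine ⟨⟨x, y'⟩, ?_⟩
    ext1
    · rw [hx]
      simp only [Ob.zs]
      push_cast
      rfl
    · rw [hy']
      simp only [Ob.zs]
      push_cast
      rfl

end MPkt
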