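import Pool.Agent.Lib.MP_7b255b_nt.Fin
import Pool.Agent.Lib.MP_7b255b_nt.Hck

/-!
# Comm: the Hecke operators

* `reps_sum`: bijection `β ↦` the representative of its class.
* `reps_mul`: `p ≠ q` primes. `(β', β) ↦ β' β` is injective modulo the elements of norm `1`: if `γ β1' β1 = β2' β2` then
  `q (β2 bar β1) = p (bar β2' γ β1')`, so `p` divides `β2 bar β1`. Surjectivity: `ker_vec`, `trans`.
* `TT_mem`: finite sums of translates; `β γ` runs through a system of representatives again.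
* `TT_comm`: both sides are the sum over a system of representatives of norm `p q`. `p = q`: `reps_sum`.
-/

set_option autoImplicit false

namespace MPkt

open Filter Topology

universe u

variable {H : Type u} [NormedAddCommGroup H] [InnerProductSpace ℂ H] [CompleteSpace H] {π : URep H} {b : ℕ}

theorem Comm_zs_one (α : Ob b) : Ob.zs 1 α = α := by
  ext1
  · change ((1 : ℤ) : GaussianInt) * α.X = α.X
    rw [Int.cast_one, one_mul]
  · change ((1 : ℤ) : GaussianInt) * α.Y = α.Y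
    rw [Int.cast_one, one_mul]

theorem Comm_bar_mul {γ : Ob b} (h : γ.N = 1) : γ.bar * γ = 1 := by
  rw [Ob.bar_mul_self, h, Comm_zs_one]

theorem Comm_mul_bar {γ : Ob b} (h : γ.N = 1) : γ * γ.bar = 1 := by
  rw [Ob.mul_bar, h, Comm_zs_one]

theorem Comm_bar_N {γ : Ob b} (h : γ.N = 1) : γ.bar.N = 1 := by rw [Ob.N_bar, h]

theorem Comm_zs_inj {n : ℤ} (hn : n ≠ 0) {α β : Ob b} (h : Ob.zs n α = Ob.zs n β) : α = β := by
  have hn' : (n : GaussianInt) ≠ 0 := by exact_mod_cast hn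
  have h1 : (n : GaussianInt) * α.X = n * β.X := congrArg Ob.X h
  have h2 : (n : GaussianInt) * α.Y = n * β.Y := congrArg Ob.Y h
  ext1
  · exact mul_left_cancel₀ hn' h1
  · exact mul_left_cancel₀ hn' h2

/-- Divisibility by `p`. -/
theorem Comm_div {p q : ℤ} (h : IsCoprime p q) {x y : Ob b} (hxy : Ob.zs q x = Ob.zs p y) : ∃ z, x = Ob.zs p z := by
  have h' : IsCoprime (p : GaussianInt) (q : GaussianInt) := h.map (Int.castRingHom GaussianInt)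
  have h1 : (q : GaussianInt) * x.X = p * y.X := congrArg Ob.X hxy
  have h2 : (q : GaussianInt) * x.Y = p * y.Y := congrArg Ob.Y hxy
  obtain ⟨X, hX⟩ : (p : GaussianInt) ∣ x.X := h'.dvd_of_dvd_mul_left ⟨_, h1⟩
  obtain ⟨Y, hY⟩ : (p : GaussianInt) ∣ x.Y := h'.dvd_of_dvd_mul_left ⟨_, h2⟩
  refine ⟨⟨X, Y⟩, ?_⟩
  ext1
  · exact hX
  · exact hY

theorem Comm_cancel {β γ γ' : Ob b} (h0 : β.N ≠ 0) (h : γ * β = γ' * β) : γ = γ' := by
  have h1 := congrArg (· * β.bar) h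
  have h2 : γ * β * β.bar = γ' * β * β.bar := h1
  rw [mul_assoc, mul_assoc, Ob.mul_bar, Ob.mul_zs, Ob.mul_zs, mul_one, mul_one] at h2
  exact Comm_zs_inj h0 h2

theorem reps_sum {p : ℕ} {s s' : Finset (Ob b)} (hs : IsReps p s) (hs' : IsReps p s') {F : Ob b → ℂ}
    (hF : ∀ γ β : Ob b, γ.N = 1 → β.N = p → F (γ * β) = F β) : ∑ β ∈ s, F β = ∑ β ∈ s', F β := by
  have h1 : ∀ β : Ob b, ∃ x : Ob b, β ∈ s → x ∈ s' ∧ ∃ γ : Ob b, γ.N = 1 ∧ β = γ * x := fun β => by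
    by_cases h : β ∈ s
    · obtain ⟨x, h2, h3⟩ := hs'.surj β (hs.norm β h)
      exact ⟨x, fun _ => ⟨h2, h3⟩⟩
    · exact ⟨1, fun h2 => absurd h2 h⟩
  choose φ hφ using h1
  refine Finset.sum_bij (fun β _ => φ β) (fun β h => (hφ β h).1) (fun β1 h1 β2 h2 h => ?_) (fun x hx => ?_)
    (fun β h => ?_)
  · obtain ⟨-, γ1, e1, e2⟩ := hφ β1 h1
    obtain ⟨-, γ2, f1, f2⟩ := hφ β2 h2
    have h' : φ β1 = φ β2 := h
    refine (hs.inj β1 h1 β2 h2 (γ2 * γ1.bar) (by rw [Ob.N_mul, f1, Comm_bar_N e1, one_mul]) ?_).symm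
    have h3 : φ β1 = γ1.bar * β1 := by
      conv_rhs => rw [e2]
      rw [← mul_assoc, Comm_bar_mul e1, one_mul]
    rw [mul_assoc, ← h3, h']
    exact f2
  · obtain ⟨β, h2, γ, e1, e2⟩ := hs.surj x (hs'.norm x hx)
    obtain ⟨h3, γ', f1, f2⟩ := hφ β h2
    refine ⟨β, h2, (hs'.inj (φ β) h3 x hx (γ * γ') (by rw [Ob.N_mul, e1, f1, one_mul]) ?_).symm⟩
    rw [mul_assoc, ← f2]
    exact e2
  · obtain ⟨h3, γ', f1, f2⟩ := hφ β h
    rw [← hF γ' (φ β) f1 (hs'.norm _ h3), ← f2]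

/-- A prime `p` with a Gaussian integer of norm `p`, coprime to its conjugate and to `b`. -/
def GoodP (b p : ℕ) : Prop := p.Prime ∧ ∃ ϖ : GaussianInt, ϖ.norm = p ∧ IsCoprime ϖ (star ϖ) ∧ IsCoprime ϖ (b : GaussianInt)

/-- An element of norm `p q` is a product of elements of the norms `q` and `p`. -/
theorem Comm_fac (hb : ¬ IsSquare b) {p q : ℕ} (hpq : p ≠ q) (hp : GoodP b p) (hq : q.Prime) {α : Ob b}
    (hα : α.N = ((p * q : ℕ) : ℤ)) : ∃ α1 β : Ob b, α1.N = q ∧ β.N = p ∧ α = α1 * β := by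
  obtain ⟨hp1, ϖ, hn, h1, h2⟩ := hp
  have hp0 : (p : ℤ) ≠ 0 := by exact_mod_cast hp1.ne_zero
  have hsq : Squarefree α.N := by
    rw [hα, Int.squarefree_natCast]
    exact (Nat.squarefree_mul ((Nat.coprime_primes hp1 hq).2 hpq)).2 ⟨hp1.squarefree, hq.squarefree⟩
  have hN : ϖ ∣ (α.N : GaussianInt) := by
    have h3 : ϖ ∣ ((ϖ.norm : ℤ) : GaussianInt) := by
      rw [Zsqrtd.norm_eq_mul_conj]
      exact dvd_mul_right _ _
    rw [hn] at h3
    rw [hα]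
    push_cast at h3 ⊢
    exact h3.mul_right _
  obtain ⟨s, t, u, v, huv, ⟨x1, e1⟩, ⟨x2, e2⟩⟩ := ker_vec h1 h2 (prim_of_sqfree hsq) hN
  obtain ⟨γ, hγ, ⟨y1, f1⟩, ⟨y2, f2⟩⟩ := trans hb h1 h2 huv
  have g1 : ϖ ∣ (α * γ).X := by
    refine ⟨x1 + α.X * y1 + b * (α.Y * y2), ?_⟩
    rw [Ob.mul_X]
    linear_combination e1 + α.X * f1 + b * α.Y * f2
  have g2 : star ϖ ∣ (α * γ).Y := by
    have g3 : ϖ ∣ star (α * γ).Y := by
      refine ⟨x2 + star α.Y * y1 + star α.X * y2, ?_⟩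
      rw [Ob.mul_Y, star_add, star_mul, star_mul, star_star]
      linear_combination e2 + star α.Y * f1 + star α.X * f2
    obtain ⟨w, hw⟩ := g3
    refine ⟨star w, ?_⟩
    have hw' := congrArg star hw
    rw [star_star, star_mul] at hw'
    rw [hw', mul_comm]
  obtain ⟨X1, hX1⟩ := g1
  obtain ⟨Y1, hY1⟩ := g2
  have g4 : α * γ = ⟨X1, Y1⟩ * Ob.em ϖ := by
    ext1
    · rw [Ob.mul_X (⟨X1, Y1⟩ : Ob b)]
      change (α * γ).X = X1 * ϖ + b * (Y1 * star 0)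
      rw [hX1, star_zero]
      ring
    · rw [Ob.mul_Y (⟨X1, Y1⟩ : Ob b)]
      change (α * γ).Y = X1 * 0 + Y1 * star ϖ
      rw [hY1]
      ring
  have g5 : α = ⟨X1, Y1⟩ * (Ob.em ϖ * γ.bar) := by
    rw [← mul_assoc, ← g4, mul_assoc, Comm_mul_bar hγ, mul_one]
  have g6 : (Ob.em ϖ * γ.bar : Ob b).N = p := by
    rw [Ob.N_mul, Ob.N_em, hn, Comm_bar_N hγ, mul_one]
  refine ⟨⟨X1, Y1⟩, Ob.em ϖ * γ.bar, ?_, g6, g5⟩
  have g7 : (⟨X1, Y1⟩ : Ob b).N * p = p * q := by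
    rw [← g6, ← Ob.N_mul, ← g5, hα, g6]
    push_cast
    ring
  rw [mul_comm (p : ℤ)] at g7
  exact mul_right_cancel₀ hp0 g7

theorem reps_mul (hb : ¬ IsSquare b) {p q : ℕ} (hpq : p ≠ q) (hp : GoodP b p) (hq : GoodP b q) {s s' : Finset (Ob b)}
    (hs : IsReps p s) (hs' : IsReps q s') : ∃ t : Finset (Ob b), IsReps (p * q) t ∧
      ∀ F : Ob b → ℂ, ∑ β ∈ s, ∑ β' ∈ s', F (β' * β) = ∑ α ∈ t, F α := by
  classical
  have hp0 : (p : ℤ) ≠ 0 := by exact_mod_cast hp.1.ne_zero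
  have hcop : IsCoprime (p : ℤ) (q : ℤ) := Nat.isCoprime_iff_coprime.2 ((Nat.coprime_primes hp.1 hq.1).2 hpq)
  have key : ∀ β1 ∈ s, ∀ β1' ∈ s', ∀ β2 ∈ s, ∀ β2' ∈ s', ∀ γ : Ob b, γ.N = 1 → β2' * β2 = γ * (β1' * β1) →
      β1 = β2 ∧ β1' = β2' := by
    intro β1 h1 β1' h1' β2 h2 β2' h2' γ hγ h
    have e1 : Ob.zs q (β2 * β1.bar) = Ob.zs p (β2'.bar * (γ * β1')) := by
      have e2 : β2'.bar * (β2' * β2) * β1.bar = β2'.bar * (γ * (β1' * β1)) * β1.bar := by rw [h]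
      have e3 : β2'.bar * (β2' * β2) * β1.bar = Ob.zs q (β2 * β1.bar) := by
        rw [← mul_assoc β2'.bar, Ob.bar_mul_self, hs'.norm _ h2', Ob.zs_mul, one_mul, Ob.zs_mul]
      have e4 : β2'.bar * (γ * (β1' * β1)) * β1.bar = Ob.zs p (β2'.bar * (γ * β1')) := by
        rw [mul_assoc, mul_assoc, mul_assoc, Ob.mul_bar, hs.norm _ h1, Ob.mul_zs, Ob.mul_zs, Ob.mul_zs, mul_one]
      rw [← e3, e2, e4]
    obtain ⟨γ1, hγ1⟩ := Comm_div hcop e1
    have e5 : γ1.N = 1 := by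
      have e6 := congrArg Ob.N hγ1
      rw [Ob.N_mul, Ob.N_bar, Ob.N_zs, hs.norm _ h1, hs.norm _ h2] at e6
      have e7 : (p : ℤ) ^ 2 * 1 = p ^ 2 * γ1.N := by linear_combination e6
      exact (mul_left_cancel₀ (pow_ne_zero 2 hp0) e7).symm
    have e6 : β2 = γ1 * β1 := by
      refine Comm_zs_inj hp0 ?_
      rw [← Ob.zs_mul, ← hγ1, mul_assoc, Ob.bar_mul_self, hs.norm _ h1, Ob.mul_zs, mul_one]
    have e7 : β2 = β1 := hs.inj β1 h1 β2 h2 γ1 e5 e6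
    subst e7
    refine ⟨rfl, ?_⟩
    rw [← mul_assoc] at h
    have e8 : β2' = γ * β1' := Comm_cancel (by rw [hs.norm _ h1]; exact hp0) h
    exact (hs'.inj β1' h1' β2' h2' γ hγ e8).symm
  refine ⟨(s ×ˢ s').image fun x => x.2 * x.1, ⟨?_, ?_, ?_⟩, fun F => ?_⟩
  · intro α hα
    obtain ⟨⟨β, β'⟩, hx, rfl⟩ := Finset.mem_image.1 hα
    have hx := Finset.mem_product.1 hx
    change (β' * β).N = _
    rw [Ob.N_mul, hs.norm _ hx.1, hs'.norm _ hx.2]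
    push_cast
    ring
  · intro α hα α' hα' γ hγ h
    obtain ⟨⟨β1, β1'⟩, hx, rfl⟩ := Finset.mem_image.1 hα
    obtain ⟨⟨β2, β2'⟩, hy, rfl⟩ := Finset.mem_image.1 hα'
    have hx := Finset.mem_product.1 hx
    have hy := Finset.mem_product.1 hy
    obtain ⟨e1, e2⟩ := key β1 hx.1 β1' hx.2 β2 hy.1 β2' hy.2 γ hγ h
    subst e1 e2
    rfl
  · intro α hα
    obtain ⟨α1, β0, h1, h2, h3⟩ := Comm_fac hb hpq hp hq.1 hα
    obtain ⟨β, e1, γ2, e2, e3⟩ := hs.surj β0 h2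
    obtain ⟨β', f1, γ3, f2, f3⟩ := hs'.surj (α1 * γ2) (by rw [Ob.N_mul, h1, e2, mul_one])
    refine ⟨β' * β, Finset.mem_image.2 ⟨(β, β'), Finset.mem_product.2 ⟨e1, f1⟩, rfl⟩, γ3, f2, ?_⟩
    rw [h3, e3, ← mul_assoc, f3, mul_assoc]
  · rw [Finset.sum_image, Finset.sum_product]
    rintro ⟨β1, β1'⟩ hx ⟨β2, β2'⟩ hy h
    have hx := Finset.mem_product.1 (Finset.mem_coe.1 hx)
    have hy := Finset.mem_product.1 (Finset.mem_coe.1 hy)
    have h' : β1' * β1 = β2' * β2 := h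
    obtain ⟨e1, e2⟩ := key β1 hx.1 β1' hx.2 β2 hy.1 β2' hy.2 1 Ob.N_one (by rw [one_mul]; exact h'.symm)
    exact Prod.ext e1 e2

/-- The Hecke operator. -/
noncomputable def TT (π : URep H) (s : Finset (Ob b)) (η : H → ℂ) : H → ℂ := fun v => ∑ β ∈ s, η (π.r β.hh v)

theorem Comm_r_mul (g h : G) (v : H) : π.r (g * h) v = π.r g (π.r h v) := by
  rw [map_mul]
  rfl

theorem Comm_smooth_iff (g : G) {v : H} : Smooth π (π.r g v) ↔ Smooth π v := by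
  refine ⟨fun h => ?_, fun h => smooth_r π g h⟩
  have h1 := smooth_r π g⁻¹ h
  rwa [← Comm_r_mul, inv_mul_cancel, map_one] at h1

theorem Comm_F {η : H → ℂ} (hη : η ∈ AutSp π (Gam b)) {v : H} (hv : Smooth π v) {γ β : Ob b} (hγ : γ.N = 1)
    (hβ : 0 < β.N) : η (π.r (γ * β).hh v) = η (π.r β.hh v) := by
  rw [Ob.hh_mul (by rw [hγ]; exact one_pos) hβ, Comm_r_mul]
  exact hη.2.1 _ (Ob.hh_mem hγ) _ (smooth_r π _ hv)

theorem Comm_reps_right {p : ℕ} (hp : 0 < p) {s : Finset (Ob b)} (hs : IsReps p s) {γ : Ob b} (hγ : γ.N = 1) :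
    ∃ t : Finset (Ob b), IsReps p t ∧ ∀ F : Ob b → ℂ, ∑ β ∈ s, F (β * γ) = ∑ β ∈ t, F β := by
  classical
  have hinj : ∀ β β' : Ob b, β * γ = β' * γ → β = β' := fun β β' h =>
    Comm_cancel (by rw [hγ]; exact one_ne_zero) h
  refine ⟨s.image fun β => β * γ, ⟨?_, ?_, ?_⟩, fun F => ?_⟩
  · intro α hα
    obtain ⟨β, hβ, rfl⟩ := Finset.mem_image.1 hα
    rw [Ob.N_mul, hγ, mul_one, hs.norm _ hβ]
  · intro α hα α' hα' γ' hγ' h
    obtain ⟨β, hβ, rfl⟩ := Finset.mem_image.1 hα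
    obtain ⟨β', hβ', rfl⟩ := Finset.mem_image.1 hα'
    rw [← mul_assoc] at h
    rw [hs.inj β hβ β' hβ' γ' hγ' (hinj _ _ h)]
  · intro α hα
    obtain ⟨β, e1, γ', e2, e3⟩ := hs.surj (α * γ.bar) (by rw [Ob.N_mul, hα, Comm_bar_N hγ, mul_one])
    refine ⟨β * γ, Finset.mem_image.2 ⟨β, e1, rfl⟩, γ', e2, ?_⟩
    rw [← mul_assoc, ← e3, mul_assoc, Comm_bar_mul hγ, mul_one]
  · rw [Finset.sum_image]
    exact fun β _ β' _ h => hinj β β' h

theorem TT_mem {p : ℕ} (hp : 0 < p) {s : Finset (Ob b)} (hs : IsReps p s) {η : H → ℂ} (hη : η ∈ AutSp π (Gam b)) :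
    TT π s η ∈ AutSp π (Gam b) := by
  have h1 : ∀ β : Ob b, (fun v => η (π.r β.hh v)) ∈ AutSp π ⊥ := fun β => by
    refine ⟨hη.1.r π β.hh, fun γ hγ v _ => ?_, fun v hv => ?_⟩
    · rw [Subgroup.mem_bot.1 hγ, map_one]
      rfl
    · exact hη.2.2 _ fun h => hv ((Comm_smooth_iff β.hh).1 h)
  have h2 : TT π s η = ∑ β ∈ s, fun v => η (π.r β.hh v) := by
    funext v
    rw [Finset.sum_apply]
    rfl
  have h3 : TT π s η ∈ AutSp π ⊥ := by
    rw [h2]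
    exact Submodule.sum_mem _ fun β _ => h1 β
  refine ⟨h3.1, fun g hg v hv => ?_, h3.2.2⟩
  obtain ⟨γ, hγ, rfl⟩ := Ob.exists_hh hg
  obtain ⟨t, ht1, ht2⟩ := Comm_reps_right hp hs hγ
  have hpz : (0 : ℤ) < p := by exact_mod_cast hp
  calc TT π s η (π.r γ.hh v) = ∑ β ∈ s, η (π.r (β * γ).hh v) := by
        refine Finset.sum_congr rfl fun β hβ => ?_
        rw [Ob.hh_mul (by rw [hs.norm _ hβ]; exact hpz) (by rw [hγ]; exact one_pos), Comm_r_mul]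
    _ = ∑ β ∈ t, η (π.r β.hh v) := ht2 fun β => η (π.r β.hh v)
    _ = TT π s η v := reps_sum (F := fun β => η (π.r β.hh v)) ht1 hs fun γ β h4 h5 =>
        Comm_F hη hv h4 (by rw [h5]; exact hpz)

theorem Comm_TT_congr {p : ℕ} (hp : 0 < p) {s s' : Finset (Ob b)} (hs : IsReps p s) (hs' : IsReps p s') {η : H → ℂ}
    (hη : η ∈ AutSp π (Gam b)) : TT π s η = TT π s' η := by
  funext v
  by_cases hv : Smooth π v
  · exact reps_sum (F := fun β => η (π.r β.hh v)) hs hs' fun γ β h4 h5 =>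
      Comm_F hη hv h4 (by rw [h5]; exact_mod_cast hp)
  · rw [(TT_mem hp hs hη).2.2 v hv, (TT_mem hp hs' hη).2.2 v hv]

theorem TT_comm (hb : ¬ IsSquare b) {p q : ℕ} (hp : GoodP b p) (hq : GoodP b q) {s s' : Finset (Ob b)}
    (hs : IsReps p s) (hs' : IsReps q s') {η : H → ℂ} (hη : η ∈ AutSp π (Gam b)) :
    TT π s (TT π s' η) = TT π s' (TT π s η) := by
  have hp0 := hp.1.pos
  have hq0 := hq.1.pos
  by_cases hpq : p = q
  · subst hpq
    rw [Comm_TT_congr hp0 hs hs' (TT_mem hp0 hs' hη), Comm_TT_congr hp0 hs hs' hη]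
  · have hpz : (0 : ℤ) < p := by exact_mod_cast hp0
    have hqz : (0 : ℤ) < q := by exact_mod_cast hq0
    funext v
    by_cases hv : Smooth π v
    · obtain ⟨t, ht1, ht2⟩ := reps_mul hb hpq hp hq hs hs'
      obtain ⟨t', ht1', ht2'⟩ := reps_mul hb (Ne.symm hpq) hq hp hs' hs
      rw [mul_comm] at ht1'
      calc TT π s (TT π s' η) v = ∑ β ∈ s, ∑ β' ∈ s', η (π.r (β' * β).hh v) := by
            refine Finset.sum_congr rfl fun β hβ => Finset.sum_congr rfl fun β' hβ' => ?_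
            rw [Ob.hh_mul (by rw [hs'.norm _ hβ']; exact hqz) (by rw [hs.norm _ hβ]; exact hpz), Comm_r_mul]
        _ = ∑ α ∈ t, η (π.r α.hh v) := ht2 fun α => η (π.r α.hh v)
        _ = ∑ α ∈ t', η (π.r α.hh v) := reps_sum (F := fun α => η (π.r α.hh v)) ht1 ht1' fun γ β h4 h5 =>
            Comm_F hη hv h4 (by rw [h5]; exact_mod_cast Nat.mul_pos hp0 hq0)
        _ = ∑ β' ∈ s', ∑ β ∈ s, η (π.r (β * β').hh v) := (ht2' fun α => η (π.r α.hh v)).symm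
        _ = TT π s' (TT π s η) v := by
            refine Finset.sum_congr rfl fun β' hβ' => Finset.sum_congr rfl fun β hβ => ?_
            rw [Ob.hh_mul (by rw [hs.norm _ hβ]; exact hpz) (by rw [hs'.norm _ hβ']; exact hqz), Comm_r_mul]
    · rw [(TT_mem hp0 hs (TT_mem hq0 hs' hη)).2.2 v hv, (TT_mem hq0 hs' (TT_mem hp0 hs hη)).2.2 v hv]

end MPkt
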