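import Pool.Agent.Lib.MP_7b255b_nt.Defs

/-!
# UC: continuous functions on `Γ' \ G`
-/

set_option autoImplicit false

namespace MPkt

open Filter Topology

theorem kk_add (s t : ℝ) : kk (s + t) = kk s * kk t := by
  apply Subtype.ext
  rw [Matrix.SpecialLinearGroup.coe_mul]
  simp only [kk]
  rw [Matrix.mul_fin_two, Real.cos_add, Real.sin_add]
  ext i j
  fin_cases i <;> fin_cases j <;> simp <;> ring

theorem kk_zero : kk 0 = 1 := by
  apply Subtype.ext
  rw [Matrix.SpecialLinearGroup.coe_one]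
  simp only [kk]
  rw [Real.cos_zero, Real.sin_zero, Matrix.one_fin_two, neg_zero]

theorem kk_two_pi (s : ℝ) : kk (s + 2 * Real.pi) = kk s := by
  apply Subtype.ext
  simp only [kk]
  rw [Real.cos_add_two_pi, Real.sin_add_two_pi]

theorem aa_add (s t : ℝ) : aa (s + t) = aa s * aa t := by
  apply Subtype.ext
  rw [Matrix.SpecialLinearGroup.coe_mul]
  simp only [aa]
  rw [Matrix.mul_fin_two]
  have h1 : Real.exp ((s + t) / 2) = Real.exp (s / 2) * Real.exp (t / 2) := by
    rw [← Real.exp_add, add_div]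
  have h2 : Real.exp (-((s + t) / 2)) = Real.exp (-(s / 2)) * Real.exp (-(t / 2)) := by
    rw [← Real.exp_add, add_div, neg_add]
  rw [h1, h2]
  ext i j
  fin_cases i <;> fin_cases j <;> simp

theorem aa_zero : aa 0 = 1 := by
  apply Subtype.ext
  rw [Matrix.SpecialLinearGroup.coe_one]
  simp only [aa]
  rw [zero_div, neg_zero, Real.exp_zero, Matrix.one_fin_two]

theorem nn_add (s t : ℝ) : nn (s + t) = nn s * nn t := by
  apply Subtype.ext
  rw [Matrix.SpecialLinearGroup.coe_mul]
  simp only [nn]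
  rw [Matrix.mul_fin_two]
  ext i j
  fin_cases i <;> fin_cases j <;> simp [add_comm]

theorem nn_zero : nn 0 = 1 := by
  apply Subtype.ext
  rw [Matrix.SpecialLinearGroup.coe_one]
  simp only [nn]
  rw [Matrix.one_fin_two]

theorem nn_aa (x t : ℝ) : nn x * aa t = aa t * nn (x * Real.exp (-t)) := by
  apply Subtype.ext
  rw [Matrix.SpecialLinearGroup.coe_mul, Matrix.SpecialLinearGroup.coe_mul]
  simp only [nn, aa]
  rw [Matrix.mul_fin_two, Matrix.mul_fin_two]
  have h1 : Real.exp (t / 2) * Real.exp (-t) = Real.exp (-(t / 2)) := by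
    rw [← Real.exp_add]
    congr 1
    ring
  ext i j
  fin_cases i <;> fin_cases j <;> simp
  rw [← h1]
  ring

private theorem UC_cont {f : ℝ → G}
    (h : ∀ i j, Continuous fun x => (f x : Matrix (Fin 2) (Fin 2) ℝ) i j) : Continuous f := by
  apply continuous_induced_rng.2
  exact continuous_pi fun i => continuous_pi fun j => h i j

theorem cont_kk : Continuous kk := by
  apply UC_cont
  intro i j
  fin_cases i <;> fin_cases j <;> simp [kk]
  · exact Real.continuous_cos
  · exact Real.continuous_sin.neg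
  · exact Real.continuous_sin
  · exact Real.continuous_cos

theorem cont_aa : Continuous aa := by
  apply UC_cont
  intro i j
  fin_cases i <;> fin_cases j <;> simp [aa]
  · exact Real.continuous_exp.comp (continuous_id.div_const 2)
  · exact continuous_const
  · exact continuous_const
  · exact Real.continuous_exp.comp (continuous_id.div_const 2).neg

theorem cont_nn : Continuous nn := by
  apply UC_cont
  intro i j
  fin_cases i <;> fin_cases j <;> simp [nn]
  · exact continuous_const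
  · exact continuous_id
  · exact continuous_const
  · exact continuous_const

/-- `Ψ` is a continuous function on `G`, invariant under the elements of the set `Γ'`, and `Γ' \ G` is compact. -/
structure Cpt (Γ' : Set G) (Ψ : G → ℂ) : Prop where
  cocpt : ∃ Ω : Set G, IsCompact Ω ∧ ∀ g : G, ∃ γ ∈ Γ', γ * g ∈ Ω
  cont : Continuous Ψ
  inv : ∀ γ ∈ Γ', ∀ g, Ψ (γ * g) = Ψ g

/-- Bounded and uniformly continuous on the right. -/
structure BUC (Ψ : G → ℂ) : Prop where
  cont : Continuous Ψ
  bdd : ∃ C : ℝ, ∀ g, ‖Ψ g‖ ≤ C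
  uc : ∀ ε > 0, ∃ U ∈ 𝓝 (1 : G), ∀ g, ∀ u ∈ U, ‖Ψ (g * u) - Ψ g‖ ≤ ε

theorem Cpt.buc {Γ' : Set G} {Ψ : G → ℂ} (h : Cpt Γ' Ψ) : BUC Ψ := by
  obtain ⟨Ω, hΩ, hc⟩ := h.cocpt
  refine ⟨h.cont, ?_, ?_⟩
  · obtain ⟨C, hC⟩ := hΩ.exists_bound_of_continuousOn h.cont.continuousOn
    refine ⟨C, fun g => ?_⟩
    obtain ⟨γ, hγ, hg⟩ := hc g
    rw [← h.inv γ hγ g]
    exact hC _ hg
  · intro ε hε
    have hF : Continuous fun p : G × G => ‖Ψ (p.2 * p.1) - Ψ p.2‖ :=
      ((h.cont.comp (continuous_snd.mul continuous_fst)).sub (h.cont.comp continuous_snd)).norm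
    have key : ∀ᶠ u in 𝓝 (1 : G), ∀ g ∈ Ω, ‖Ψ (g * u) - Ψ g‖ < ε := by
      apply hΩ.eventually_forall_of_forall_eventually
      intro g _
      have h0 : (fun p : G × G => ‖Ψ (p.2 * p.1) - Ψ p.2‖) (1, g) < ε := by
        simpa using hε
      exact (isOpen_lt hF continuous_const).mem_nhds h0
    refine ⟨_, key, ?_⟩
    intro g u hu
    obtain ⟨γ, hγ, hg⟩ := hc g
    have h1 : ‖Ψ (γ * g * u) - Ψ (γ * g)‖ < ε := hu _ hg
    rw [mul_assoc, h.inv γ hγ, h.inv γ hγ] at h1
    exact h1.le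

end MPkt
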