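import Pool.Agent.Lib.MP_7b255b_nt.Four
import Pool.Agent.Lib.MP_7b255b_nt.UC

/-!
# Conv: equicontinuity

`v` a smooth unit vector of weight `m`. `G` is locally compact (closed in the matrices); use the Borel `σ`-algebra and a Haar measure `μ`.
* `U0` a compact neighbourhood of `1` with `|⟪v, π(h) v⟫ - 1| ≤ 1/2` on it, `φ ≥ 0` continuous with support in `U0`, `∫ φ = 1`. `y = ∫ φ(h) π(h) v dμ(h)`, smooth (`int_smooth`); `Pn m y = c v` (`MultOne`), `c = ⟪v, Pn m y⟫ = ⟪v, y⟫ =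
  ∫ φ(h) ⟪v, π(h) v⟫`, so `|c - 1| ≤ 1/2`, `|c| ≥ 1/2`.
* `f g = η(π g v)`: `c f(g) = η(π g (Pn m y)) = (2π)⁻¹ ∫ e^{-imθ} η(π(g kk θ) y) dθ` (`eta_Pn` for the functional `IsLin.r`), and `η(π(x) y) = ∫ φ(h) f(x h) dμ(h)` (`int_eta` for `IsLin.r`).
* `g u kk θ = g kk θ u_θ`, `u_θ = kk (-θ) u kk θ`, and `∫ φ(h) f(g kk θ u_θ h) dμ = ∫ φ(u_θ⁻¹ h) f(g kk θ h) dμ` (left invariance). So `|c| |f(g u) - f(g)| ≤ C sup_θ ∫ |φ(u_θ⁻¹ h) - φ(h)| dμ(h)`.
* the function `(θ, u) ↦ ∫ |φ(u_θ⁻¹ h) - φ(h)| dμ(h)` is continuous (for `u` in a compact neighbourhood of `1` the supports are in a fixed compact set) and `0` for `u = 1`: it is `≤ ε/2` for `u` in a neighbourhood of `1` and all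
  `θ ∈ [0, 2π]` (tube lemma).

-/

set_option autoImplicit false

namespace MPkt

open Filter Topology
open scoped Pointwise

universe u

variable {H : Type u} [NormedAddCommGroup H] [InnerProductSpace ℂ H] [CompleteSpace H] {π : URep H}

/-- The translates of a continuous function with compact support are continuous in the mean. -/
theorem Conv_phi [LocallyCompactSpace G] [SecondCountableTopology G] [MeasurableSpace G] [BorelSpace G]
    (μ : MeasureTheory.Measure G) [MeasureTheory.IsFiniteMeasureOnCompacts μ] {φ : G → ℝ} (hφ : Continuous φ)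
    (hs : HasCompactSupport φ) {ε : ℝ} (hε : 0 < ε) :
    ∃ W ∈ 𝓝 (1 : G), ∀ w ∈ W, ∫ h, |φ (w⁻¹ * h) - φ h| ∂μ ≤ ε := by
  obtain ⟨W₀, hW₀, hW₀1⟩ := exists_compact_mem_nhds (1 : G)
  have hK : IsCompact (W₀ * tsupport φ ∪ tsupport φ) := (hW₀.mul hs).union hs
  have h1 : Continuous fun w : G => ∫ h in (W₀ * tsupport φ ∪ tsupport φ), |φ (w⁻¹ * h) - φ h| ∂μ :=
    continuous_parametric_integral_of_continuous (f := fun w h : G => |φ (w⁻¹ * h) - φ h|) (by
      refine Continuous.abs (Continuous.sub ?_ ?_)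
      · exact hφ.comp ((continuous_inv.comp continuous_fst).mul continuous_snd)
      · exact hφ.comp continuous_snd) hK
  have h2 : (∫ h in (W₀ * tsupport φ ∪ tsupport φ), |φ ((1 : G)⁻¹ * h) - φ h| ∂μ) < ε := by
    have h3 : ∀ h : G, |φ ((1 : G)⁻¹ * h) - φ h| = 0 := by
      intro h
      rw [inv_one, one_mul, sub_self, abs_zero]
    simp only [h3, MeasureTheory.integral_zero]
    exact hε
  have h4 : {w : G | (∫ h in (W₀ * tsupport φ ∪ tsupport φ), |φ (w⁻¹ * h) - φ h| ∂μ) < ε} ∈ 𝓝 (1 : G) :=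
    (isOpen_lt h1 continuous_const).mem_nhds h2
  refine ⟨_, Filter.inter_mem hW₀1 h4, ?_⟩
  rintro w ⟨hw1, hw2⟩
  have h5 : (∫ h in (W₀ * tsupport φ ∪ tsupport φ), |φ (w⁻¹ * h) - φ h| ∂μ) = ∫ h, |φ (w⁻¹ * h) - φ h| ∂μ := by
    refine MeasureTheory.setIntegral_eq_integral_of_forall_compl_eq_zero fun h hh => ?_
    rw [Set.mem_union, not_or] at hh
    have h6 : φ h = 0 := image_eq_zero_of_notMem_tsupport hh.2
    have h7 : φ (w⁻¹ * h) = 0 := by
      refine image_eq_zero_of_notMem_tsupport fun h8 => hh.1 ?_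
      refine Set.mem_mul.2 ⟨w, hw1, w⁻¹ * h, h8, ?_⟩
      rw [mul_inv_cancel_left]
    rw [h6, h7, sub_self, abs_zero]
  rw [← h5]
  exact le_of_lt hw2

/-- The conjugates by the rotations. -/
theorem Conv_conj {W : Set G} (hW : W ∈ 𝓝 (1 : G)) :
    ∃ U ∈ 𝓝 (1 : G), ∀ u ∈ U, ∀ θ ∈ Set.Icc (0 : ℝ) (2 * Real.pi), kk (-θ) * u * kk θ ∈ W := by
  have h1 : ∀ᶠ u in 𝓝 (1 : G), ∀ θ ∈ Set.Icc (0 : ℝ) (2 * Real.pi), kk (-θ) * u * kk θ ∈ W := by
    refine isCompact_Icc.eventually_forall_of_forall_eventually (P := fun u θ => kk (-θ) * u * kk θ ∈ W) ?_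
    intro θ _
    have h2 : Continuous fun z : G × ℝ => kk (-z.2) * z.1 * kk z.2 :=
      ((cont_kk.comp continuous_snd.neg).mul continuous_fst).mul (cont_kk.comp continuous_snd)
    have h3 : (fun z : G × ℝ => kk (-z.2) * z.1 * kk z.2) (1, θ) = 1 := by
      simp only [mul_one]
      rw [← kk_add, neg_add_cancel, kk_zero]
    have h4 : W ∈ 𝓝 ((fun z : G × ℝ => kk (-z.2) * z.1 * kk z.2) (1, θ)) := by
      rw [h3]
      exact hW
    exact (h2.tendsto (1, θ)).eventually h4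
  exact ⟨_, h1, fun u hu => hu⟩

theorem equi (hmult : MultOne π) {m : ℤ} {v : H} (hv : Smooth π v) (hw : IsWeight π m v) (h1 : ‖v‖ = 1) :
    ∀ ε > 0, ∃ U ∈ 𝓝 (1 : G), ∀ η : H → ℂ, IsLin π η → ∀ C : ℝ, (∀ g, ‖η (π.r g v)‖ ≤ C) →
      ∀ g, ∀ u ∈ U, ‖η (π.r (g * u) v) - η (π.r g v)‖ ≤ ε * C := by
  intro ε hε
  have i1 : LocallyCompactSpace (Matrix (Fin 2) (Fin 2) ℝ) := inferInstanceAs (LocallyCompactSpace (Fin 2 → Fin 2 → ℝ))
  have i2 : LocallyCompactSpace G := Matrix.SpecialLinearGroup.isClosedEmbedding_val.locallyCompactSpace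
  have i3 : SecondCountableTopology (Matrix (Fin 2) (Fin 2) ℝ) :=
    inferInstanceAs (SecondCountableTopology (Fin 2 → Fin 2 → ℝ))
  have i4 : SecondCountableTopology G :=
    Matrix.SpecialLinearGroup.isClosedEmbedding_val.isEmbedding.secondCountableTopology
  let i5 : MeasurableSpace G := borel G
  have i6 : BorelSpace G := ⟨rfl⟩
  let μ : MeasureTheory.Measure G := MeasureTheory.Measure.haar
  have hv0 : v ≠ 0 := by
    intro h
    rw [h, norm_zero] at h1
    exact zero_ne_one h1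
  have hvv : inner ℂ v v = (1 : ℂ) := by
    rw [inner_self_eq_norm_sq_to_K, h1]
    simp
  have hcv : Continuous fun h : G => inner ℂ v (π.r h v) := continuous_const.inner (π.cont v)
  have hopen : IsOpen {h : G | ‖inner ℂ v (π.r h v) - 1‖ < 1 / 2} :=
    isOpen_lt (hcv.sub continuous_const).norm continuous_const
  have hone : (1 : G) ∈ {h : G | ‖inner ℂ v (π.r h v) - 1‖ < 1 / 2} := by
    change ‖inner ℂ v (π.r 1 v) - 1‖ < 1 / 2
    rw [map_one]
    change ‖inner ℂ v v - 1‖ < 1 / 2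
    rw [hvv, sub_self, norm_zero]
    norm_num
  obtain ⟨φ, hφ1, hφ0, hφs, hφb⟩ := exists_continuous_one_zero_of_isCompact (isCompact_singleton (x := (1 : G)))
    hopen.isClosed_compl (Set.disjoint_singleton_left.2 fun h => h hone)
  have hφc : Continuous φ := φ.continuous
  have hφn : ∀ h, 0 ≤ φ h := fun h => (hφb h).1
  have hφsupp : ∀ h, φ h ≠ 0 → ‖inner ℂ v (π.r h v) - 1‖ ≤ 1 / 2 := by
    intro h hh
    by_contra hc
    refine hh (hφ0 ?_)
    intro hc'
    exact hc (le_of_lt hc')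
  have hI : 0 < ∫ h, φ h ∂μ := by
    refine hφc.integral_pos_of_hasCompactSupport_nonneg_nonzero hφs hφn (x := 1) ?_
    rw [hφ1 (Set.mem_singleton _)]
    exact one_ne_zero
  set I := ∫ h, φ h ∂μ with hIdef
  have hφC : Continuous fun h => ((φ h : ℝ) : ℂ) := Complex.continuous_ofReal.comp hφc
  have hφCs : HasCompactSupport fun h => ((φ h : ℝ) : ℂ) := hφs.comp_left Complex.ofReal_zero
  have hint : MeasureTheory.Integrable (fun h => ((φ h : ℝ) : ℂ)) μ := hφC.integrable_of_hasCompactSupport hφCs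
  have hintR : MeasureTheory.Integrable φ μ := hφc.integrable_of_hasCompactSupport hφs
  have hid : MeasureTheory.StronglyMeasurable (fun h : G => h) := measurable_id.stronglyMeasurable
  have hK : IsCompact (tsupport φ) := hφs
  have hgK : ∀ h, ((φ h : ℝ) : ℂ) ≠ 0 → h ∈ tsupport φ := by
    intro h hh
    refine subset_tsupport _ ?_
    rw [Function.mem_support]
    exact fun h' => hh (by rw [h', Complex.ofReal_zero])
  set y := ∫ h, ((φ h : ℝ) : ℂ) • π.r h v ∂μ with hy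
  have hys : Smooth π y := int_smooth π μ hint hid hK hgK hv
  obtain ⟨c, hc⟩ := hmult m v (Pn π m y) hv (Pn_smooth π m hys) hw (Pn_weight π m y) hv0
  -- the constant
  have hvint : MeasureTheory.Integrable (fun h => ((φ h : ℝ) : ℂ) • π.r h v) μ :=
    (hφC.smul (π.cont v)).integrable_of_hasCompactSupport hφCs.smul_right
  have hc1 : c = ∫ h, ((φ h : ℝ) : ℂ) * inner ℂ v (π.r h v) ∂μ := by
    have h2 : inner ℂ v (Pn π m y) = c := by
      rw [hc, inner_smul_right, hvv, mul_one]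
    rw [← h2, inner_Pn, Pn_self π hw, hy, ← integral_inner hvint]
    refine MeasureTheory.integral_congr_ae (Filter.Eventually.of_forall fun h => ?_)
    exact inner_smul_right _ _ _
  have hc2 : I / 2 ≤ ‖c‖ := by
    have h2 : ‖c - (I : ℂ)‖ ≤ I / 2 := by
      have h3 : (I : ℂ) = ∫ h, ((φ h : ℝ) : ℂ) ∂μ := by
        rw [hIdef]
        exact integral_ofReal.symm
      have hmi : MeasureTheory.Integrable (fun h => ((φ h : ℝ) : ℂ) * inner ℂ v (π.r h v)) μ :=
        (hφC.mul hcv).integrable_of_hasCompactSupport hφCs.mul_right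
      rw [hc1, h3, ← MeasureTheory.integral_sub hmi hint]
      have h4 : I / 2 = ∫ h, φ h * (1 / 2) ∂μ := by
        rw [MeasureTheory.integral_mul_const, ← hIdef]
        ring
      rw [h4]
      refine MeasureTheory.norm_integral_le_of_norm_le (hintR.mul_const _) (Filter.Eventually.of_forall fun h => ?_)
      have h5 : ((φ h : ℝ) : ℂ) * inner ℂ v (π.r h v) - ((φ h : ℝ) : ℂ) =
          ((φ h : ℝ) : ℂ) * (inner ℂ v (π.r h v) - 1) := by ring
      rw [h5, norm_mul, Complex.norm_real, Real.norm_eq_abs, abs_of_nonneg (hφn h)]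
      by_cases h6 : φ h = 0
      · rw [h6, zero_mul, zero_mul]
      · exact mul_le_mul_of_nonneg_left (hφsupp h h6) (hφn h)
    have h7 : ‖(I : ℂ)‖ = I := by rw [Complex.norm_real, Real.norm_eq_abs, abs_of_pos hI]
    have h8 : ‖(I : ℂ)‖ ≤ ‖c‖ + ‖c - (I : ℂ)‖ := by
      have h9 : (I : ℂ) = c - (c - (I : ℂ)) := by ring
      calc ‖(I : ℂ)‖ = ‖c - (c - (I : ℂ))‖ := by rw [← h9]
        _ ≤ ‖c‖ + ‖c - (I : ℂ)‖ := norm_sub_le _ _
    rw [h7] at h8
    linarith
  obtain ⟨W, hW, hWb⟩ := Conv_phi μ hφc hφs (show 0 < ε * (I / 2) by positivity)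
  obtain ⟨U, hU, hUb⟩ := Conv_conj hW
  refine ⟨U, hU, ?_⟩
  intro η hη C hC g u hu
  have hC0 : 0 ≤ C := (norm_nonneg _).trans (hC 1)
  have hmulr : ∀ x z : G, ∀ w : H, π.r x (π.r z w) = π.r (x * z) w := by
    intro x z w
    rw [map_mul]
    rfl
  have hF : ∀ x : G, η (π.r x y) = ∫ h, ((φ h : ℝ) : ℂ) * η (π.r (x * h) v) ∂μ := by
    intro x
    have h2 := int_eta π μ hint hid hK hgK hv (hη.r π x)
    refine h2.trans ?_
    refine MeasureTheory.integral_congr_ae (Filter.Eventually.of_forall fun h => ?_)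
    change ((φ h : ℝ) : ℂ) * η (π.r x (π.r h v)) = _
    rw [hmulr]
  have hcf : ∀ x : G, c * η (π.r x v) = (2 * Real.pi : ℂ)⁻¹ * ∫ θ in (0 : ℝ)..(2 * Real.pi),
      Complex.exp (-(m * θ * Complex.I)) * η (π.r (x * kk θ) y) := by
    intro x
    have h2 := eta_Pn π (hη.r π x) m hys
    simp only [hmulr] at h2
    rw [← h2, hc, map_smul, hη.smul c _ (smooth_r π x hv)]
  have hηc : Continuous fun x : G => η (π.r x y) := eta_cont π hη hys
  have hηv : Continuous fun x : G => η (π.r x v) := eta_cont π hη hv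
  have hexp : Continuous fun θ : ℝ => Complex.exp (-((m : ℂ) * θ * Complex.I)) := by fun_prop
  -- the pointwise estimate
  have hpt : ∀ θ ∈ Set.Icc (0 : ℝ) (2 * Real.pi),
      ‖η (π.r (g * u * kk θ) y) - η (π.r (g * kk θ) y)‖ ≤ ε * (I / 2) * C := by
    intro θ hθ
    set x := g * kk θ with hx
    set w := kk (-θ) * u * kk θ with hwdef
    have hxw : g * u * kk θ = x * w := by
      rw [hx, hwdef, mul_assoc, mul_assoc, mul_assoc, ← mul_assoc (kk θ), ← kk_add, add_neg_cancel, kk_zero, one_mul]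
    have h2 : η (π.r (x * w) y) = ∫ h, ((φ (w⁻¹ * h) : ℝ) : ℂ) * η (π.r (x * h) v) ∂μ := by
      rw [hF]
      have h3 := MeasureTheory.integral_mul_left_eq_self (μ := μ)
        (fun h => ((φ (w⁻¹ * h) : ℝ) : ℂ) * η (π.r (x * h) v)) w
      rw [← h3]
      refine MeasureTheory.integral_congr_ae (Filter.Eventually.of_forall fun h => ?_)
      change ((φ h : ℝ) : ℂ) * η (π.r (x * w * h) v) = ((φ (w⁻¹ * (w * h)) : ℝ) : ℂ) * η (π.r (x * (w * h)) v)
      rw [inv_mul_cancel_left, mul_assoc]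
    have hcomp : HasCompactSupport fun h => φ (w⁻¹ * h) := hφs.comp_homeomorph (Homeomorph.mulLeft w⁻¹)
    have hcompC : HasCompactSupport fun h => ((φ (w⁻¹ * h) : ℝ) : ℂ) := hcomp.comp_left Complex.ofReal_zero
    have hcc : Continuous fun h => φ (w⁻¹ * h) := hφc.comp (continuous_const.mul continuous_id)
    have hcC : Continuous fun h => ((φ (w⁻¹ * h) : ℝ) : ℂ) := Complex.continuous_ofReal.comp hcc
    have hηx : Continuous fun h : G => η (π.r (x * h) v) := hηv.comp (continuous_const.mul continuous_id)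
    have j1 : MeasureTheory.Integrable (fun h => ((φ (w⁻¹ * h) : ℝ) : ℂ) * η (π.r (x * h) v)) μ :=
      (hcC.mul hηx).integrable_of_hasCompactSupport hcompC.mul_right
    have j2 : MeasureTheory.Integrable (fun h => ((φ h : ℝ) : ℂ) * η (π.r (x * h) v)) μ :=
      (hφC.mul hηx).integrable_of_hasCompactSupport hφCs.mul_right
    have j3 : MeasureTheory.Integrable (fun h => |φ (w⁻¹ * h) - φ h|) μ :=
      ((hcc.integrable_of_hasCompactSupport hcomp).sub hintR).abs
    rw [hxw, h2, hF, ← MeasureTheory.integral_sub j1 j2]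
    refine (MeasureTheory.norm_integral_le_of_norm_le (j3.mul_const C)
      (Filter.Eventually.of_forall fun h => ?_)).trans ?_
    · have h5 : ((φ (w⁻¹ * h) : ℝ) : ℂ) * η (π.r (x * h) v) - ((φ h : ℝ) : ℂ) * η (π.r (x * h) v) =
          ((φ (w⁻¹ * h) - φ h : ℝ) : ℂ) * η (π.r (x * h) v) := by
        push_cast
        ring
      rw [h5, norm_mul, Complex.norm_real, Real.norm_eq_abs]
      exact mul_le_mul_of_nonneg_left (hC _) (abs_nonneg _)
    · rw [MeasureTheory.integral_mul_const]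
      exact mul_le_mul_of_nonneg_right (hWb w (hUb u hu θ hθ)) hC0
  have hA : Continuous fun θ : ℝ => Complex.exp (-((m : ℂ) * θ * Complex.I)) * η (π.r (g * u * kk θ) y) :=
    hexp.mul (hηc.comp (continuous_const.mul cont_kk))
  have hB : Continuous fun θ : ℝ => Complex.exp (-((m : ℂ) * θ * Complex.I)) * η (π.r (g * kk θ) y) :=
    hexp.mul (hηc.comp (continuous_const.mul cont_kk))
  have hfin : ‖c * (η (π.r (g * u) v) - η (π.r g v))‖ ≤ ε * (I / 2) * C := by
    rw [mul_sub, hcf, hcf, ← mul_sub, ← intervalIntegral.integral_sub (hA.intervalIntegrable _ _)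
      (hB.intervalIntegrable _ _), norm_mul]
    have h2 : ‖∫ θ in (0 : ℝ)..(2 * Real.pi), (Complex.exp (-((m : ℂ) * θ * Complex.I)) * η (π.r (g * u * kk θ) y) -
        Complex.exp (-((m : ℂ) * θ * Complex.I)) * η (π.r (g * kk θ) y))‖ ≤
        (ε * (I / 2) * C) * |2 * Real.pi - 0| := by
      refine intervalIntegral.norm_integral_le_of_norm_le_const fun θ hθ => ?_
      rw [Set.uIoc_of_le Real.two_pi_pos.le] at hθ
      rw [← mul_sub, norm_mul]
      have h3 : ‖Complex.exp (-((m : ℂ) * θ * Complex.I))‖ = 1 := by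
        have h4 : -((m : ℂ) * θ * Complex.I) = ((-(m * θ) : ℝ) : ℂ) * Complex.I := by
          push_cast
          ring
        rw [h4, Complex.norm_exp_ofReal_mul_I]
      rw [h3, one_mul]
      exact hpt θ ⟨hθ.1.le, hθ.2⟩
    have h3 : ‖(2 * Real.pi : ℂ)⁻¹‖ = (2 * Real.pi)⁻¹ := by
      rw [norm_inv]
      have h4 : (2 * Real.pi : ℂ) = ((2 * Real.pi : ℝ) : ℂ) := by
        push_cast
        ring
      rw [h4, Complex.norm_real, Real.norm_eq_abs, abs_of_pos Real.two_pi_pos]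
    rw [h3]
    rw [sub_zero, abs_of_pos Real.two_pi_pos] at h2
    have h5 : (2 * Real.pi)⁻¹ * ((ε * (I / 2) * C) * (2 * Real.pi)) = ε * (I / 2) * C := by
      field_simp
    rw [← h5]
    exact mul_le_mul_of_nonneg_left h2 (by positivity)
  rw [norm_mul] at hfin
  have hI2 : 0 < I / 2 := by positivity
  have h9 : I / 2 * ‖η (π.r (g * u) v) - η (π.r g v)‖ ≤ I / 2 * (ε * C) := by
    have h10 : I / 2 * ‖η (π.r (g * u) v) - η (π.r g v)‖ ≤ ‖c‖ * ‖η (π.r (g * u) v) - η (π.r g v)‖ :=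
      mul_le_mul_of_nonneg_right hc2 (norm_nonneg _)
    calc I / 2 * ‖η (π.r (g * u) v) - η (π.r g v)‖ ≤ ε * (I / 2) * C := h10.trans hfin
      _ = I / 2 * (ε * C) := by ring
  exact le_of_mul_le_mul_left h9 hI2

end MPkt
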