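import Pool.Agent.Lib.MP_7b255b_nt.Uni

/-!
# DC: the primitive elements of a given norm form one double coset

`δ` coprime to `star δ` and to `b`; `α` primitive of norm `|δ|^2`.
* `ker_vec`: the matrix `[[X, b Y], [star Y, star X]]` has the determinant `N α = norm δ = 0` modulo `δ`. Its kernel contains `(b Y, -X)` and `(star X, -star Y)`. For every
  prime `p ∣ δ` one of the four entries `X`, `b Y`, `star Y`, `star X` is not divisible by `p`: otherwise `p` and `star p` (note `star p ∣ X` from `p ∣ star X`), which are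
  coprime (`p ∣ δ`, `star p ∣ star δ`), divide `X` and `Y` (`b` is coprime to `p`), so the integer `norm p = p * star p` divides `α`. So for each `p ∣ δ` one of the two
  kernel vectors is not `0` modulo `p`. By the Chinese remainder theorem (`split`: `δ = κ μ`, `μ` coprime to `d`, `κ ∣ d ^ N`, `d = gcd(b Y, X)`, and the vector
  `(b Y, -X) + μ (star X, -star Y)` : a prime `p ∣ κ` divides `d`, so the second vector is not `0` mod `p`, and `p ∤ μ`; a prime `p ∣ μ` does not divide `d`) there is a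
  combination `(s, t)` which is not `0` modulo any prime `p ∣ δ`; so `gcd(s, t)` is coprime to `δ` and there are `u`, `v` with `s u + t v = 1` modulo `δ`.
* `dc`: `trans` gives `γ` with the first column `(s, t)`: then `α γ = (X'', Y'')` with `δ ∣ X''` and `δ ∣ star Y''`, i.e. `star δ ∣ Y''`. So `X'' = X1 δ`, `Y'' = Y1 star δ`,
  `α γ = (X1, Y1) * em δ`, `N (X1, Y1) = 1` (`N_mul`, `N_em`, `norm δ ≠ 0`). `α = (α γ) (bar γ)`.
* `prim_em`: an integer dividing `δ` divides `star δ`.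

-/

set_option autoImplicit false

namespace MPkt

variable {b : ℕ} {δ : GaussianInt}

private theorem DC_unit {n : ℤ} (h : IsUnit (n : GaussianInt)) : IsUnit n := by
  rw [← Zsqrtd.norm_eq_one_iff, Zsqrtd.norm_intCast, Int.natAbs_mul] at h
  rw [Int.isUnit_iff_natAbs_eq]
  exact Nat.eq_one_of_mul_eq_one_right h

private theorem DC_star {x y : GaussianInt} (h : x ∣ star y) : star x ∣ y := by
  obtain ⟨c, hc⟩ := h
  refine ⟨star c, ?_⟩
  rw [← star_star y, hc, star_mul, mul_comm]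

private theorem DC_ne (h1 : IsCoprime δ (star δ)) : δ ≠ 0 := by
  rintro rfl
  rw [star_zero, isCoprime_zero_left] at h1
  exact not_isUnit_zero h1

/-- a prime divisor of `δ` does not divide all the entries -/
private theorem DC_prime (h1 : IsCoprime δ (star δ)) (h2 : IsCoprime δ (b : GaussianInt)) {α : Ob b}
    (hα : α.Prim) {p : GaussianInt} (hp : Prime p) (hpd : p ∣ δ) (hX : p ∣ α.X) (hbY : p ∣ b * α.Y)
    (hX' : p ∣ star α.X) (hY' : p ∣ star α.Y) : False := by
  have hpb : ¬ p ∣ (b : GaussianInt) := by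
    intro h
    exact hp.not_isUnit (h2.isUnit_of_dvd' hpd h)
  have hY : p ∣ α.Y := (hp.dvd_or_dvd hbY).resolve_left hpb
  have hsX : star p ∣ α.X := DC_star hX'
  have hsY : star p ∣ α.Y := DC_star hY'
  have hcop : IsCoprime p (star p) := by
    refine (h1.of_isCoprime_of_dvd_left hpd).of_isCoprime_of_dvd_right ?_
    obtain ⟨c, hc⟩ := hpd
    rw [hc, star_mul]
    exact dvd_mul_left _ _
  have hn : (p.norm : GaussianInt) = p * star p := Zsqrtd.norm_eq_mul_conj p
  have h3 : (p.norm : GaussianInt) ∣ α.X := by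
    rw [hn]
    exact hcop.mul_dvd hX hsX
  have h4 : (p.norm : GaussianInt) ∣ α.Y := by
    rw [hn]
    exact hcop.mul_dvd hY hsY
  have h5 := hα p.norm h3 h4
  rw [Int.isUnit_iff_natAbs_eq, Zsqrtd.norm_eq_one_iff] at h5
  exact hp.not_isUnit h5

theorem ker_vec (h1 : IsCoprime δ (star δ)) (h2 : IsCoprime δ (b : GaussianInt)) {α : Ob b} (hα : α.Prim)
    (hN : δ ∣ (α.N : GaussianInt)) : ∃ s t u v : GaussianInt, δ ∣ s * u + t * v - 1 ∧
      δ ∣ α.X * s + b * (α.Y * t) ∧ δ ∣ star α.Y * s + star α.X * t := by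
  have hδ : δ ≠ 0 := DC_ne h1
  have hNe : (α.N : GaussianInt) = α.X * star α.X - b * (α.Y * star α.Y) := by
    unfold Ob.N
    push_cast
    rw [Zsqrtd.norm_eq_mul_conj, Zsqrtd.norm_eq_mul_conj]
  obtain ⟨d, hd⟩ : ∃ d, d = EuclideanDomain.gcd ((b : GaussianInt) * α.Y) α.X := ⟨_, rfl⟩
  have hd1 : d ∣ (b : GaussianInt) * α.Y := by
    rw [hd]
    exact EuclideanDomain.gcd_dvd_left _ _
  have hd2 : d ∣ α.X := by
    rw [hd]
    exact EuclideanDomain.gcd_dvd_right _ _
  have hd3 : ∀ p : GaussianInt, p ∣ (b : GaussianInt) * α.Y → p ∣ α.X → p ∣ d := fun p h3 h4 => by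
    rw [hd]
    exact EuclideanDomain.dvd_gcd h3 h4
  obtain ⟨κ, μ, M, hz, hκ, hμ⟩ := split d hδ
  obtain ⟨s, hs⟩ : ∃ s : GaussianInt, s = b * α.Y + μ * star α.X := ⟨_, rfl⟩
  obtain ⟨t, ht⟩ : ∃ t : GaussianInt, t = -α.X - μ * star α.Y := ⟨_, rfl⟩
  have hcop : IsCoprime (EuclideanDomain.gcd s t) δ := by
    refine isCoprime_of_prime_dvd (fun h => hδ h.2) fun p hp hps hpd => ?_
    have hp1 : p ∣ s := hps.trans (EuclideanDomain.gcd_dvd_left _ _)
    have hp2 : p ∣ t := hps.trans (EuclideanDomain.gcd_dvd_right _ _)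
    have hμd : ¬ (p ∣ μ ∧ p ∣ d) := fun h => hp.not_isUnit (hμ.isUnit_of_dvd' h.1 h.2)
    have hpd' : p ∣ κ * μ := hz ▸ hpd
    rcases hp.dvd_or_dvd hpd' with h3 | h3
    · have h4 : p ∣ d := hp.dvd_of_dvd_pow (h3.trans hκ)
      have h5 : ¬ p ∣ μ := fun h => hμd ⟨h, h4⟩
      have h6 : p ∣ (b : GaussianInt) * α.Y := h4.trans hd1
      have h7 : p ∣ α.X := h4.trans hd2
      have h8 : p ∣ μ * star α.X := by
        have h9 : μ * star α.X = s - b * α.Y := by rw [hs]; ring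
        rw [h9]
        exact dvd_sub hp1 h6
      have h10 : p ∣ μ * star α.Y := by
        have h9 : μ * star α.Y = -t - α.X := by rw [ht]; ring
        rw [h9]
        exact dvd_sub (dvd_neg.2 hp2) h7
      exact DC_prime h1 h2 hα hp hpd h7 h6 ((hp.dvd_or_dvd h8).resolve_left h5)
        ((hp.dvd_or_dvd h10).resolve_left h5)
    · refine hμd ⟨h3, hd3 p ?_ ?_⟩
      · have h9 : (b : GaussianInt) * α.Y = s - μ * star α.X := by rw [hs]; ring
        rw [h9]
        exact dvd_sub hp1 (h3.mul_right _)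
      · have h9 : α.X = -t - μ * star α.Y := by rw [ht]; ring
        rw [h9]
        exact dvd_sub (dvd_neg.2 hp2) (h3.mul_right _)
  obtain ⟨x, y, hxy⟩ := hcop
  have hg := EuclideanDomain.gcd_eq_gcd_ab s t
  refine ⟨s, t, EuclideanDomain.gcdA s t * x, EuclideanDomain.gcdB s t * x, ⟨-y, ?_⟩, ?_, ?_⟩
  · have h3 : s * (EuclideanDomain.gcdA s t * x) + t * (EuclideanDomain.gcdB s t * x) - 1 =
        x * (s * EuclideanDomain.gcdA s t + t * EuclideanDomain.gcdB s t) - 1 := by ring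
    rw [h3, ← hg]
    linear_combination hxy
  · obtain ⟨c, hc⟩ := hN
    refine ⟨c * μ, ?_⟩
    rw [hs, ht]
    linear_combination μ * (hc - hNe)
  · obtain ⟨c, hc⟩ := hN
    refine ⟨-c, ?_⟩
    rw [hs, ht]
    linear_combination -(hc - hNe)

/-- The double coset of `δ`. -/
theorem dc (hb : ¬ IsSquare b) (h1 : IsCoprime δ (star δ)) (h2 : IsCoprime δ (b : GaussianInt)) {α : Ob b}
    (hα : α.Prim) (hN : α.N = δ.norm) : ∃ β γ : Ob b, β.N = 1 ∧ γ.N = 1 ∧ α = β * Ob.em δ * γ := by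
  have hδ : δ ≠ 0 := DC_ne h1
  have hn : δ.norm ≠ 0 := fun h => hδ (by
    have h3 : (δ.norm : GaussianInt) = δ * star δ := Zsqrtd.norm_eq_mul_conj δ
    rw [h, Int.cast_zero] at h3
    rcases mul_eq_zero.1 h3.symm with h4 | h4
    · exact h4
    · rwa [star_eq_zero] at h4)
  obtain ⟨s, t, u, v, h3, h4, h5⟩ := ker_vec h1 h2 hα (by
    rw [hN, Zsqrtd.norm_eq_mul_conj]
    exact dvd_mul_right _ _)
  obtain ⟨γ, hγ, h6, h7⟩ := trans hb h1 h2 h3
  have hX : δ ∣ (α * γ).X := by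
    rw [Ob.mul_X]
    have h8 : α.X * γ.X + b * (α.Y * star γ.Y) =
        (α.X * s + b * (α.Y * t)) + α.X * (γ.X - s) + b * α.Y * (star γ.Y - t) := by ring
    rw [h8]
    exact dvd_add (dvd_add h4 (h6.mul_left _)) (h7.mul_left _)
  have hY : star δ ∣ (α * γ).Y := by
    refine DC_star ?_
    rw [Ob.mul_Y, star_add, star_mul, star_mul, star_star]
    have h8 : star γ.Y * star α.X + γ.X * star α.Y =
        (star α.Y * s + star α.X * t) + star α.X * (star γ.Y - t) + star α.Y * (γ.X - s) := by ring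
    rw [h8]
    exact dvd_add (dvd_add h5 (h7.mul_left _)) (h6.mul_left _)
  obtain ⟨X1, hX1⟩ := hX
  obtain ⟨Y1, hY1⟩ := hY
  have h8 : α * γ = (⟨X1, Y1⟩ : Ob b) * Ob.em δ := by
    ext1
    · rw [hX1, Ob.mul_X]
      simp only [Ob.em, star_zero, mul_zero, add_zero]
      exact mul_comm _ _
    · rw [hY1, Ob.mul_Y]
      simp only [Ob.em, mul_zero, zero_add]
      exact mul_comm _ _
  have h9 : (⟨X1, Y1⟩ : Ob b).N = 1 := by
    have h10 := congrArg Ob.N h8
    rw [Ob.N_mul, Ob.N_mul, Ob.N_em, hγ, hN, mul_one] at h10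
    exact (mul_right_cancel₀ hn (by rw [one_mul]; exact h10)).symm
  refine ⟨⟨X1, Y1⟩, γ.bar, h9, by rw [Ob.N_bar, hγ], ?_⟩
  rw [← h8, mul_assoc, Ob.mul_bar, hγ]
  have h10 : (Ob.zs 1 1 : Ob b) = 1 := by
    ext1
    · simp [Ob.zs, Ob.one_X]
    · simp [Ob.zs, Ob.one_Y]
  rw [h10, mul_one]

theorem prim_em (h1 : IsCoprime δ (star δ)) : (Ob.em δ : Ob b).Prim := by
  intro n hn _
  have h2 : (n : GaussianInt) ∣ δ := hn
  have h3 : (n : GaussianInt) ∣ star δ := by
    obtain ⟨c, hc⟩ := h2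
    refine ⟨star c, ?_⟩
    rw [hc, star_mul, star_intCast, mul_comm]
  exact DC_unit (h1.isUnit_of_dvd' h2 h3)

/-- An element of norm `n` without divisors is primitive: if `n` is squarefree. -/
theorem prim_of_sqfree {α : Ob b} (h : Squarefree α.N) : α.Prim := by
  intro n hX hY
  obtain ⟨x, hx⟩ := hX
  obtain ⟨y, hy⟩ := hY
  refine h n ⟨x.norm - b * y.norm, ?_⟩
  unfold Ob.N
  rw [hx, hy, Zsqrtd.norm_mul, Zsqrtd.norm_mul, Zsqrtd.norm_intCast]
  ring

end MPkt
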