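import Mathlib

/-!
# Definitions

`G = SL(2, ℝ)`, the rotations `kk θ`, the diagonal matrices `aa t = diag(e^{t/2}, e^{-t/2})`, the unipotent matrices
`nn x`; unitary representations, smooth vectors, weight vectors, automorphic functionals; the lattices `Gam b`.
-/

set_option autoImplicit false

namespace MPkt

open Matrix

universe u

/-- The group `SL(2, ℝ)`. -/
abbrev G := Matrix.SpecialLinearGroup (Fin 2) ℝ

/-- The rotation through the angle `θ`. -/
noncomputable def kk (θ : ℝ) : G :=
  ⟨!![Real.cos θ, -Real.sin θ; Real.sin θ, Real.cos θ], by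
    rw [Matrix.det_fin_two_of]
    have h := Real.sin_sq_add_cos_sq θ
    linear_combination h⟩

/-- The matrix `diag(e^{t/2}, e^{-t/2})`. -/
noncomputable def aa (t : ℝ) : G :=
  ⟨!![Real.exp (t / 2), 0; 0, Real.exp (-(t / 2))], by
    rw [Matrix.det_fin_two_of, mul_zero, sub_zero, ← Real.exp_add, add_neg_cancel, Real.exp_zero]⟩

/-- The unipotent matrix with the upper right entry `x`. -/
noncomputable def nn (x : ℝ) : G :=
  ⟨!![1, x; 0, 1], by
    rw [Matrix.det_fin_two_of, mul_one, mul_zero, sub_zero]⟩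

/-- A strongly continuous unitary representation of `SL(2, ℝ)` on the Hilbert space `H`. -/
structure URep (H : Type u) [NormedAddCommGroup H] [InnerProductSpace ℂ H] where
  /-- The operators. -/
  r : G →* (H ≃ₗᵢ[ℂ] H)
  /-- Strong continuity. -/
  cont : ∀ v, Continuous fun g => r g v

/-- The matrices with positive determinant, an open subset of the space of the real matrices. -/
def pos : Set (Fin 2 → Fin 2 → ℝ) := {A | 0 < (Matrix.of A).det}

open Classical in
/-- The matrix `A / √(det A)` of determinant `1`, for `A` with positive determinant. -/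
noncomputable def nrm (A : Fin 2 → Fin 2 → ℝ) : G :=
  if h : 0 < (Matrix.of A).det then
    ⟨(Real.sqrt (Matrix.of A).det)⁻¹ • Matrix.of A, by
      rw [Matrix.det_smul, Fintype.card_fin, inv_pow, Real.sq_sqrt h.le, inv_mul_cancel₀ h.ne']⟩
  else 1

/-- The unit matrix. -/
def e1 : Fin 2 → Fin 2 → ℝ := (1 : Matrix (Fin 2) (Fin 2) ℝ)

section rep

variable {H : Type u} [NormedAddCommGroup H] [InnerProductSpace ℂ H] (π : URep H)

/-- The map `g ↦ π(g) v`, extended from `SL(2, ℝ)` to the matrices with positive determinant by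
`A ↦ π(A / √(det A)) v`. -/
noncomputable def orb (v : H) (A : Fin 2 → Fin 2 → ℝ) : H := π.r (nrm A) v

/-- `v` is a smooth vector: `g ↦ π(g) v` is a smooth map. -/
def Smooth (v : H) : Prop := ContDiffOn ℝ ((⊤ : ℕ∞) : WithTop ℕ∞) (orb π v) pos

/-- `v` has the weight `n`. -/
def IsWeight (n : ℤ) (v : H) : Prop := ∀ θ : ℝ, π.r (kk θ) v = Complex.exp ((n : ℂ) * θ * Complex.I) • v

/-- The seminorms of the Fréchet space of the smooth vectors: the sizes of the derivatives of order `≤ l` of
`g ↦ π(g) v` at the identity. -/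
noncomputable def jet (l : ℕ) (v : H) : ℝ := ∑ j ∈ Finset.range (l + 1), ‖iteratedFDeriv ℝ j (orb π v) e1‖

/-- There are no closed invariant subspaces. -/
structure Irred : Prop where
  nontriv : ∃ v : H, v ≠ 0
  irr : ∀ W : Submodule ℂ H, IsClosed (W : Set H) → (∀ g, ∀ w ∈ W, π.r g w ∈ W) → W = ⊥ ∨ W = ⊤

/-- Each weight occurs (in the smooth vectors) with multiplicity at most one. -/
def MultOne : Prop := ∀ (n : ℤ) (v w : H), Smooth π v → Smooth π w → IsWeight π n v → IsWeight π n w → v ≠ 0 →
  ∃ c : ℂ, w = c • v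

/-- A linear functional on the space of the smooth vectors, continuous for the Fréchet topology. (The values of `η`
outside of the smooth vectors do not matter.) -/
structure IsLin (η : H → ℂ) : Prop where
  add : ∀ v w, Smooth π v → Smooth π w → η (v + w) = η v + η w
  smul : ∀ (c : ℂ) (v), Smooth π v → η (c • v) = c * η v
  bound : ∃ (l : ℕ) (C : ℝ), ∀ v, Smooth π v → ‖η v‖ ≤ C * jet π l v

/-- An automorphic functional for `Γ`: a nonzero continuous linear functional on the space of the smooth vectors,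
invariant under `Γ`. -/
structure IsAut (Γ : Subgroup G) (η : H → ℂ) : Prop where
  lin : IsLin π η
  inv : ∀ γ ∈ Γ, ∀ v, Smooth π v → η (π.r γ v) = η v
  ne : ∃ v, Smooth π v ∧ η v ≠ 0

end rep

/-- The matrices with the entries of `x + y i + (z + w i) j`, `i ^ 2 = -1`, `j ^ 2 = b`, in `SL(2, ℝ)`. -/
def IsGam (b : ℕ) (g : G) : Prop := ∃ x y z w : ℤ,
  (g : Matrix (Fin 2) (Fin 2) ℝ) = !![(x : ℝ) + Real.sqrt b * z, -(y : ℝ) + Real.sqrt b * w;
    (y : ℝ) + Real.sqrt b * w, (x : ℝ) - Real.sqrt b * z]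

/-- The group of the elements of norm `1` of the order `ℤ + ℤ i + ℤ j + ℤ i j` of the quaternion algebra `(-1, b)` over
`ℚ`, as a subgroup of `SL(2, ℝ)`. -/
noncomputable def Gam (b : ℕ) : Subgroup G where
  carrier := {g | IsGam b g}
  one_mem' := ⟨1, 0, 0, 0, by
    ext i j
    fin_cases i <;> fin_cases j <;> simp⟩
  mul_mem' := by
    rintro g g' ⟨x, y, z, w, h⟩ ⟨x', y', z', w', h'⟩
    have hs : Real.sqrt b * Real.sqrt b = b := Real.mul_self_sqrt (Nat.cast_nonneg b)
    refine ⟨x * x' - y * y' + b * (z * z' + w * w'), x * y' + y * x' + b * (w * z' - z * w'),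
      x * z' - y * w' + z * x' + w * y', x * w' + y * z' - z * y' + w * x', ?_⟩
    rw [Matrix.SpecialLinearGroup.coe_mul, h, h', Matrix.mul_fin_two]
    ext i j
    fin_cases i <;> fin_cases j <;> simp
    · linear_combination ((z : ℝ) * z' + w * w') * hs
    · linear_combination ((z : ℝ) * w' - w * z') * hs
    · linear_combination ((w : ℝ) * z' - z * w') * hs
    · linear_combination ((w : ℝ) * w' + z * z') * hs
  inv_mem' := by
    rintro g ⟨x, y, z, w, h⟩
    refine ⟨x, -y, -z, -w, ?_⟩
    rw [Matrix.SpecialLinearGroup.coe_inv, h, Matrix.adjugate_fin_two_of]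
    ext i j
    fin_cases i <;> fin_cases j <;> simp <;> ring

/-- The trigonometric polynomial `∑ r [ψ]`, `(r, ψ) ∈ R`: the value of the linear functional with the values `f ψ` at it. -/
noncomputable def ev (R : List (ℂ × ℝ)) (f : ℝ → ℂ) : ℂ := (R.map fun x => x.1 * f x.2).sum

/-- `Γ` is discrete and `Γ \ G` is compact. -/
def IsCocpt (Γ : Subgroup G) : Prop :=
  DiscreteTopology Γ ∧ ∃ Ω : Set G, IsCompact Ω ∧ ∀ g : G, ∃ γ ∈ Γ, γ * g ∈ Ω

end MPkt
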