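import Mathlib

/-!
# Primes: the primes `1 mod 4`

* `primes`: the product of `1 + 1 / (4 p)` over the primes `p = 1 mod 4`, `p ∤ b`, diverges.
* `gauss_prime`: factors of the primes `1 mod 4` in the Gaussian integers.
-/

set_option autoImplicit false

namespace MPkt

open ArithmeticFunction ArithmeticFunction.vonMangoldt

private noncomputable def primes_g (n : ℕ) : ℝ := if n.Prime ∧ n % 4 = 1 then 1 / (n : ℝ) else 0

private theorem primes_g_nonneg (n : ℕ) : 0 ≤ primes_g n := by
  unfold primes_g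
  split_ifs
  · positivity
  · exact le_refl _

private theorem primes_res (n : ℕ) (hn : n.Prime) :
    residueClass (1 : ZMod 4) n = if n % 4 = 1 then Real.log n else 0 := by
  unfold residueClass
  rw [Set.indicator_apply]
  have h : (n ∈ {n : ℕ | (n : ZMod 4) = 1}) ↔ n % 4 = 1 := by
    rw [Set.mem_ofPred_eq]
    have h1 : ((n : ZMod 4) = 1) ↔ ((n : ZMod 4) = ((1 : ℕ) : ZMod 4)) := by
      rw [Nat.cast_one]
    rw [h1, ZMod.natCast_eq_natCast_iff]
    exact Iff.rfl
  by_cases h1 : n % 4 = 1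
  · rw [if_pos (h.2 h1), if_pos h1]
    exact vonMangoldt_apply_prime hn
  · rw [if_neg (fun h2 => h1 (h.1 h2)), if_neg h1]

/-- `L e^{-t L} ≤ 1 / t`. -/
private theorem primes_exp {L t : ℝ} (ht : 0 < t) : L * Real.exp (-(t * L)) ≤ 1 / t := by
  rw [le_div_iff₀ ht]
  have h1 : t * L + 1 ≤ Real.exp (t * L) := Real.add_one_le_exp _
  have h2 : Real.exp (-(t * L)) * Real.exp (t * L) = 1 := by
    rw [← Real.exp_add, neg_add_cancel, Real.exp_zero]
  have h3 : 0 < Real.exp (-(t * L)) := Real.exp_pos _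
  have h4 : (t * L) * Real.exp (-(t * L)) ≤ 1 := by
    calc (t * L) * Real.exp (-(t * L)) ≤ Real.exp (t * L) * Real.exp (-(t * L)) :=
          mul_le_mul_of_nonneg_right (by linarith) h3.le
      _ = 1 := by rw [mul_comm]; exact h2
  calc L * Real.exp (-(t * L)) * t = (t * L) * Real.exp (-(t * L)) := by ring
    _ ≤ 1 := h4

private theorem primes_not_summable : ¬ Summable primes_g := by
  intro hS
  have hu : IsUnit (1 : ZMod 4) := isUnit_one
  obtain ⟨C, hC⟩ := LSeries_residueClass_lower_bound hu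
  have htot : ((4 : ℕ).totient : ℝ)⁻¹ = 1 / 2 := by
    have : (4 : ℕ).totient = 2 := by decide
    rw [this]
    norm_num
  rw [htot] at hC
  have hA := summable_residueClass_non_primes_div (1 : ZMod 4)
  -- the tail
  obtain ⟨s, hs⟩ := (summable_iff_vanishing_norm.1 hS) (1 / 4) (by norm_num)
  classical
  let M : ℕ := s.sup id + 1
  have hsM : ∀ n ∈ s, n < M := fun n hn => Nat.lt_succ_of_le (Finset.le_sup (f := id) hn)
  let h : ℕ → ℝ := fun n => if n < M then 0 else primes_g n
  have hh0 : ∀ n, 0 ≤ h n := by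
    intro n
    simp only [h]
    split_ifs
    · exact le_refl _
    · exact primes_g_nonneg n
  have hhg : ∀ n, h n ≤ primes_g n := by
    intro n
    simp only [h]
    split_ifs
    · exact primes_g_nonneg n
    · exact le_refl _
  have hhS : Summable h := Summable.of_nonneg_of_le hh0 hhg hS
  have hh4 : ∑' n, h n ≤ 1 / 4 := by
    refine hhS.tsum_le_of_sum_le fun t => ?_
    have h1 : ∑ n ∈ t, h n = ∑ n ∈ t.filter (fun n => ¬ n < M), primes_g n := by
      rw [Finset.sum_filter]
      refine Finset.sum_congr rfl fun n _ => ?_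
      by_cases hn : n < M
      · simp [h, hn]
      · simp [h, hn]
    rw [h1]
    have h2 := hs (t.filter (fun n => ¬ n < M)) (by
      rw [Finset.disjoint_left]
      intro n hn hns
      exact (Finset.mem_filter.1 hn).2 (hsM n hns))
    exact (le_abs_self _).trans h2.le
  let K : ℝ := Real.log M
  have hM1 : (1 : ℝ) ≤ M := by
    have : 1 ≤ M := Nat.succ_le_succ (Nat.zero_le _)
    exact_mod_cast this
  have hK : 0 ≤ K := Real.log_nonneg hM1
  -- the estimate
  have hterm : ∀ x : ℝ, x ∈ Set.Ioc (1 : ℝ) 2 → ∀ n : ℕ,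
      residueClass (1 : ZMod 4) n / (n : ℝ) ^ x ≤
        (if n.Prime then 0 else residueClass (1 : ZMod 4) n) / n +
          (K * primes_g n + 1 / (x - 1) * h n) := by
    intro x hx n
    have hx0 : 0 < x - 1 := by linarith [hx.1]
    rcases Nat.eq_zero_or_pos n with hn0 | hn0
    · subst hn0
      have e1 : residueClass (1 : ZMod 4) 0 = 0 := residueClass_apply_zero _
      rw [e1, zero_div, if_neg Nat.not_prime_zero, zero_div, zero_add]
      exact add_nonneg (mul_nonneg hK (primes_g_nonneg 0)) (mul_nonneg (by positivity) (hh0 0))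
    have hnR : (0 : ℝ) < n := by exact_mod_cast hn0
    have hn1 : (1 : ℝ) ≤ n := by exact_mod_cast hn0
    by_cases hp : n.Prime
    · rw [if_pos hp, zero_div, zero_add, primes_res n hp]
      by_cases h4 : n % 4 = 1
      · rw [if_pos h4]
        have hg : primes_g n = 1 / n := by
          unfold primes_g
          rw [if_pos ⟨hp, h4⟩]
        have hpow : (n : ℝ) ^ x = n * Real.exp ((x - 1) * Real.log n) := by
          rw [mul_comm (x - 1), ← Real.rpow_def_of_pos hnR, ← Real.rpow_one_add' hnR.le (by linarith)]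
          congr 1
          ring
        have hlog : 0 ≤ Real.log n := Real.log_nonneg hn1
        have e1 : Real.log n / (n : ℝ) ^ x =
            (Real.log n * Real.exp (-((x - 1) * Real.log n))) * (1 / n) := by
          rw [hpow, Real.exp_neg]
          field_simp
        rw [e1, hg]
        by_cases hnM : n < M
        · have e2 : h n = 0 := by simp [h, hnM]
          rw [e2, mul_zero, add_zero]
          refine mul_le_mul_of_nonneg_right ?_ (by positivity)
          have e3 : Real.exp (-((x - 1) * Real.log n)) ≤ 1 := by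
            rw [Real.exp_le_one_iff]
            have := mul_nonneg hx0.le hlog
            linarith
          calc Real.log n * Real.exp (-((x - 1) * Real.log n)) ≤ Real.log n * 1 :=
                mul_le_mul_of_nonneg_left e3 hlog
            _ = Real.log n := mul_one _
            _ ≤ K := Real.log_le_log hnR (by exact_mod_cast hnM.le)
        · have e2 : h n = 1 / n := by
            simp only [h, if_neg hnM]
            exact hg
          rw [e2]
          have e3 := primes_exp (L := Real.log n) hx0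
          calc (Real.log n * Real.exp (-((x - 1) * Real.log n))) * (1 / n) ≤
                1 / (x - 1) * (1 / n) := mul_le_mul_of_nonneg_right e3 (by positivity)
            _ ≤ K * (1 / n) + 1 / (x - 1) * (1 / n) := by
              have : 0 ≤ K * (1 / (n : ℝ)) := mul_nonneg hK (by positivity)
              linarith
      · rw [if_neg h4, zero_div]
        exact add_nonneg (mul_nonneg hK (primes_g_nonneg n)) (mul_nonneg (by positivity) (hh0 n))
    · rw [if_neg hp]
      have e1 : residueClass (1 : ZMod 4) n / (n : ℝ) ^ x ≤ residueClass (1 : ZMod 4) n / n := by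
        refine div_le_div_of_nonneg_left (residueClass_nonneg _ _) hnR ?_
        calc (n : ℝ) = (n : ℝ) ^ (1 : ℝ) := (Real.rpow_one _).symm
          _ ≤ (n : ℝ) ^ x := Real.rpow_le_rpow_of_exponent_le hn1 hx.1.le
      have e2 : 0 ≤ K * primes_g n + 1 / (x - 1) * h n :=
        add_nonneg (mul_nonneg hK (primes_g_nonneg n)) (mul_nonneg (by positivity) (hh0 n))
      linarith
  have hsum : ∀ x : ℝ, x ∈ Set.Ioc (1 : ℝ) 2 → (1 / 2) / (x - 1) - C ≤
      (∑' n : ℕ, (if n.Prime then 0 else residueClass (1 : ZMod 4) n) / n) +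
        (K * ∑' n, primes_g n + 1 / (x - 1) * (1 / 4)) := by
    intro x hx
    have hx0 : 0 < x - 1 := by linarith [hx.1]
    refine (hC hx).trans ?_
    have hS1 : Summable fun n => K * primes_g n + 1 / (x - 1) * h n :=
      (hS.mul_left K).add (hhS.mul_left _)
    have hS2 : Summable fun n : ℕ => residueClass (1 : ZMod 4) n / (n : ℝ) ^ x := by
      refine Summable.of_nonneg_of_le (fun n => ?_) (hterm x hx) (hA.add hS1)
      exact div_nonneg (residueClass_nonneg _ _) (by positivity)
    refine (hS2.tsum_le_tsum (hterm x hx) (hA.add hS1)).trans ?_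
    rw [hA.tsum_add hS1, (hS.mul_left K).tsum_add (hhS.mul_left _), tsum_mul_left, tsum_mul_left]
    have : 1 / (x - 1) * ∑' n, h n ≤ 1 / (x - 1) * (1 / 4) :=
      mul_le_mul_of_nonneg_left hh4 (by positivity)
    linarith
  obtain ⟨D, hD⟩ : ∃ D : ℝ, D = |C + (∑' n : ℕ, (if n.Prime then 0 else
      residueClass (1 : ZMod 4) n) / n) + K * ∑' n, primes_g n| + 1 := ⟨_, rfl⟩
  have hD1 : 1 ≤ D := by
    rw [hD]
    have := abs_nonneg (C + (∑' n : ℕ, (if n.Prime then 0 else
      residueClass (1 : ZMod 4) n) / n) + K * ∑' n, primes_g n)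
    linarith
  have hx : (1 + 1 / (4 * D)) ∈ Set.Ioc (1 : ℝ) 2 := by
    constructor
    · have : 0 < 1 / (4 * D) := by positivity
      linarith
    · have : 1 / (4 * D) ≤ 1 := by
        rw [div_le_one (by positivity)]
        linarith
      linarith
  have h1 := hsum _ hx
  have h2 : (1 : ℝ) + 1 / (4 * D) - 1 = 1 / (4 * D) := by ring
  rw [h2] at h1
  have h3 : (1 / 2 : ℝ) / (1 / (4 * D)) = 2 * D := by
    field_simp
    ring
  have h4 : (1 : ℝ) / (1 / (4 * D)) * (1 / 4) = D := by
    field_simp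
  rw [h3, h4] at h1
  have h5 := le_abs_self (C + (∑' n : ℕ, (if n.Prime then 0 else
      residueClass (1 : ZMod 4) n) / n) + K * ∑' n, primes_g n)
  linarith

private theorem primes_prod (A : Finset ℕ) (f : ℕ → ℝ) (hf : ∀ n, 0 ≤ f n) :
    1 + ∑ p ∈ A, f p ≤ ∏ p ∈ A, (1 + f p) := by
  classical
  induction A using Finset.induction_on with
  | empty => simp
  | insert a s ha ih =>
    rw [Finset.sum_insert ha, Finset.prod_insert ha]
    have h1 : 0 ≤ ∑ p ∈ s, f p := Finset.sum_nonneg fun p _ => hf p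
    have h2 : (1 + f a) * (1 + ∑ p ∈ s, f p) ≤ (1 + f a) * ∏ p ∈ s, (1 + f p) :=
      mul_le_mul_of_nonneg_left ih (by linarith [hf a])
    have h3 : 0 ≤ f a * ∑ p ∈ s, f p := mul_nonneg (hf a) h1
    linarith

theorem primes {b : ℕ} (hb : 0 < b) (C : ℝ) : ∃ A : Finset ℕ, (∀ p ∈ A, p.Prime ∧ p % 4 = 1 ∧ ¬ p ∣ b) ∧
    C < ∏ p ∈ A, (1 + 1 / (4 * (p : ℝ))) := by
  classical
  let g' : ℕ → ℝ := fun n => if n ∣ b then 0 else primes_g n
  have hg'0 : ∀ n, 0 ≤ g' n := by
    intro n
    simp only [g']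
    split_ifs
    · exact le_refl _
    · exact primes_g_nonneg n
  have hns : ¬ Summable g' := by
    intro hS
    apply primes_not_summable
    have h1 : Summable fun n => if n ∣ b then primes_g n else 0 := by
      refine summable_of_ne_finset_zero (s := b.divisors) fun n hn => ?_
      rw [if_neg]
      intro h
      exact hn (Nat.mem_divisors.2 ⟨h, hb.ne'⟩)
    have h2 := h1.add hS
    refine h2.congr fun n => ?_
    by_cases h : n ∣ b
    · simp [g', h]
    · simp [g', h]
  rw [not_summable_iff_tendsto_nat_atTop_of_nonneg hg'0] at hns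
  obtain ⟨N, hN⟩ := (hns.eventually (Filter.eventually_gt_atTop (4 * |C|))).exists
  refine ⟨(Finset.range N).filter (fun p => p.Prime ∧ p % 4 = 1 ∧ ¬ p ∣ b), ?_, ?_⟩
  · intro p hp
    exact (Finset.mem_filter.1 hp).2
  · have h1 := primes_prod ((Finset.range N).filter (fun p => p.Prime ∧ p % 4 = 1 ∧ ¬ p ∣ b))
      (fun p => 1 / (4 * (p : ℝ))) (fun n => by positivity)
    refine lt_of_lt_of_le ?_ h1
    have h2 : ∑ n ∈ Finset.range N, g' n =
        4 * ∑ p ∈ (Finset.range N).filter (fun p => p.Prime ∧ p % 4 = 1 ∧ ¬ p ∣ b),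
          1 / (4 * (p : ℝ)) := by
      rw [Finset.sum_filter, Finset.mul_sum]
      refine Finset.sum_congr rfl fun n _ => ?_
      simp only [g', primes_g]
      by_cases h : n ∣ b
      · rw [if_pos h, if_neg (fun h2 => h2.2.2 h), mul_zero]
      · rw [if_neg h]
        by_cases h3 : n.Prime ∧ n % 4 = 1
        · rw [if_pos h3, if_pos ⟨h3.1, h3.2, h⟩]
          have : (n : ℝ) ≠ 0 := by exact_mod_cast h3.1.ne_zero
          field_simp
        · rw [if_neg h3, if_neg (fun h4 => h3 ⟨h4.1, h4.2.1⟩), mul_zero]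
    rw [h2] at hN
    have h3 := le_abs_self C
    have h4 := abs_nonneg C
    linarith

theorem gauss_prime {p : ℕ} (hp : p.Prime) (h4 : p % 4 = 1) : ∃ ϖ : GaussianInt, ϖ.norm = p ∧ IsCoprime ϖ (star ϖ) ∧
    ∀ b : ℕ, ¬ p ∣ b → IsCoprime ϖ (b : GaussianInt) := by
  have : Fact p.Prime := ⟨hp⟩
  obtain ⟨x, y, hxy⟩ := Nat.Prime.sq_add_sq (p := p) (by omega)
  have hp2 : 2 ≤ p := hp.two_le
  have hmul : (⟨x, y⟩ : GaussianInt) * star (⟨x, y⟩ : GaussianInt) = ((p : ℤ) : GaussianInt) := by
    have h1 : ((p : ℤ)) = (x : ℤ) ^ 2 + (y : ℤ) ^ 2 := by exact_mod_cast hxy.symm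
    have h2 : (((p : ℤ)) : GaussianInt).re = (x : ℤ) ^ 2 + (y : ℤ) ^ 2 := by
      rw [← h1]
      exact Zsqrtd.re_intCast _
    ext
    · rw [h2]
      simp
      ring
    · simp
      ring
  have hadd : (⟨x, y⟩ : GaussianInt) + star (⟨x, y⟩ : GaussianInt) = ((2 * (x : ℤ) : ℤ) : GaussianInt) := by
    ext
    · simp
      ring
    · simp
  have hpx : ¬ p ∣ x := by
    intro hd
    have h1 : p ∣ y ^ 2 := by
      have h2 : p ∣ x ^ 2 + y ^ 2 := by rw [hxy]
      exact (Nat.dvd_add_right (dvd_pow hd two_ne_zero)).1 h2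
    have h2 : p ∣ y := hp.dvd_of_dvd_pow h1
    have h3 : p ^ 2 ∣ x ^ 2 + y ^ 2 := dvd_add (pow_dvd_pow_of_dvd hd 2) (pow_dvd_pow_of_dvd h2 2)
    rw [hxy] at h3
    have h4 := Nat.le_of_dvd hp.pos h3
    nlinarith
  have hp2x : Nat.Coprime (2 * x) p := by
    refine Nat.Coprime.mul_left ?_ ?_
    · rw [Nat.coprime_comm, hp.coprime_iff_not_dvd]
      intro hd
      have := Nat.le_of_dvd (by norm_num) hd
      interval_cases p
      omega
    · rw [Nat.coprime_comm, hp.coprime_iff_not_dvd]
      exact hpx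
  refine ⟨⟨x, y⟩, ?_, ?_, ?_⟩
  · have h1 : ((p : ℤ)) = (x : ℤ) ^ 2 + (y : ℤ) ^ 2 := by exact_mod_cast hxy.symm
    rw [h1, Zsqrtd.norm_def]
    ring
  · have h1 : IsCoprime ((2 * x : ℕ) : ℤ) (p : ℤ) := Nat.isCoprime_iff_coprime.2 hp2x
    obtain ⟨r, s, hrs⟩ := h1
    refine ⟨(r : GaussianInt) + (s : GaussianInt) * star (⟨x, y⟩ : GaussianInt), (r : GaussianInt), ?_⟩
    have h2 : ((r * ((2 * x : ℕ) : ℤ) + s * (p : ℤ) : ℤ) : GaussianInt) = 1 := by
      rw [hrs, Int.cast_one]
    rw [Int.cast_add, Int.cast_mul, Int.cast_mul] at h2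
    have h3 : (((2 * x : ℕ) : ℤ) : GaussianInt) = ((2 * (x : ℤ) : ℤ) : GaussianInt) := by
      push_cast
      ring
    rw [h3, ← hadd, ← hmul] at h2
    rw [← h2]
    ring
  · intro b hb
    have h1 : IsCoprime (p : ℤ) (b : ℤ) :=
      Nat.isCoprime_iff_coprime.2 ((hp.coprime_iff_not_dvd).2 hb)
    obtain ⟨r, s, hrs⟩ := h1
    refine ⟨(r : GaussianInt) * star (⟨x, y⟩ : GaussianInt), (s : GaussianInt), ?_⟩
    have h2 : ((r * (p : ℤ) + s * (b : ℤ) : ℤ) : GaussianInt) = 1 := by
      rw [hrs, Int.cast_one]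
    rw [Int.cast_add, Int.cast_mul, Int.cast_mul, ← hmul, Int.cast_natCast] at h2
    rw [← h2]
    ring

end MPkt
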