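import Pool.Agent.Lib.MP_7b255b_nt.Sph
import Pool.Agent.Lib.MP_7b255b_nt.Primes

/-!
# Eig: the Riesz product

`c` a spherical function which is an eigenfunction of all `T_p`; `b1 ψ`, `b2 ψ` two functions on the rotations, `b1 ψ = B c(em δ)` if `kk ψ = (em δ).hh`, `b2 0 = 1`, `b2 ψ = 0` if `sin ψ ≠ 0`. For a
trigonometric polynomial `R = ∑ r [ψ]` (a list of pairs `(r, ψ)`) `ev R b = ∑ r b(ψ)` (Defs).
* `exists_ang`: `em δ` with `norm δ > 0` is `√(norm δ)` times a rotation matrix (`mt (em δ) = [[x, -y],[y, x]]`), `kk ψ = (em δ).hh` for some `ψ`. `kk (ψ + ψ') = (em (δ δ')).hh`, `kk (-ψ) = (em (star δ)).hh`.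
* `real`: if `δ` is coprime to `star δ` and `kk ψ = (em δ).hh` with `sin ψ = 0` then the imaginary part of `δ` is `0`, `δ = star δ`, `δ` is a unit. 
* for each prime `p ∈ A` fix `ϖ_p` (`gauss_prime`), `k_p`, `σ_p`, `a_p` from `sph_main`, `ψ_p` with `kk ψ_p = (em (ϖ_p ^ k_p)).hh`, `R_A = ∏_{p ∈ A} (1 + (σ_p/2) ([ψ_p] + [-ψ_p]))` (a list: `R_{A ∪ p} = R_A ++ R_A.map (r σ_p/2, ψ + ψ_p) ++ R_A.map (r σ_p/2, ψ - ψ_p)`). `R_A(n) = ∏ (1 + σ_p cos(n ψ_p)) ≥ 0`.
* induction on `A`: for every `δ` with `Good b δ` and norm prime to all `p ∈ A` and `kk ψ = (em δ).hh`: `ev (R_A [ψ]) b1 = B c(em δ) ∏ (1 + σ_p a_p)`: `R_{A ∪ p} [ψ] = R_A [ψ] + (σ_p/2) (R_A [ψ + ψ_p] + R_A [ψ - ψ_p])` and the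
  Gaussian integers `δ ϖ_p ^ k_p`, `δ star ϖ_p ^ k_p` (Good, norm prime to the `q ∈ A`, `q ≠ p`).
* in the same way `ev (R_A [ψ]) b2 = 0` if moreover `δ` is not a unit (then `sin ψ ≠ 0`, and `δ ϖ_p ^ k_p` is not a unit), and `ev (R_A) b2 = 1`.
* so `B ∏_{p ∈ A} (1 + σ_p a_p) ≤ M` for all `A`, but `σ_p a_p ≥ 1/(4p)`, `primes`: contradiction.

-/

set_option autoImplicit false

namespace MPkt

variable {b : ℕ}

private theorem eig_kk_add (x y : ℝ) : kk (x + y) = kk x * kk y := by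
  apply Subtype.ext
  rw [Matrix.SpecialLinearGroup.coe_mul]
  show !![Real.cos (x + y), -Real.sin (x + y); Real.sin (x + y), Real.cos (x + y)] =
    !![Real.cos x, -Real.sin x; Real.sin x, Real.cos x] * !![Real.cos y, -Real.sin y; Real.sin y, Real.cos y]
  rw [Matrix.mul_fin_two, Real.cos_add, Real.sin_add]
  ext i j
  fin_cases i <;> fin_cases j <;> simp <;> ring

private theorem eig_kk_zero : kk 0 = 1 := by
  apply Subtype.ext
  show !![Real.cos 0, -Real.sin 0; Real.sin 0, Real.cos 0] = (1 : Matrix (Fin 2) (Fin 2) ℝ)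
  rw [Real.cos_zero, Real.sin_zero, neg_zero]
  ext i j
  fin_cases i <;> fin_cases j <;> simp

private theorem eig_kk_neg (x : ℝ) : kk (-x) = (kk x)⁻¹ := by
  apply eq_inv_of_mul_eq_one_left
  rw [← eig_kk_add, neg_add_cancel, eig_kk_zero]

private theorem eig_det {δ : GaussianInt} (hδ : 0 < δ.norm) : 0 < (Matrix.of (Ob.em δ : Ob b).mt).det := by
  rw [Ob.det_mt, Ob.N_em]
  exact_mod_cast hδ

private theorem eig_hh {δ : GaussianInt} (hδ : 0 < δ.norm) :
    ((Ob.em δ : Ob b).hh : Matrix (Fin 2) (Fin 2) ℝ) =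
      !![(δ.re : ℝ) / Real.sqrt δ.norm, -(δ.im : ℝ) / Real.sqrt δ.norm;
        (δ.im : ℝ) / Real.sqrt δ.norm, (δ.re : ℝ) / Real.sqrt δ.norm] := by
  unfold Ob.hh
  rw [nrm_val (eig_det hδ), Ob.det_mt, Ob.N_em]
  ext i j
  fin_cases i <;> fin_cases j <;> simp [Ob.mt, Ob.em, Matrix.of_apply] <;> ring

theorem exists_ang (b : ℕ) {δ : GaussianInt} (hδ : 0 < δ.norm) : ∃ ψ : ℝ, kk ψ = (Ob.em δ : Ob b).hh := by
  have h1 : ((δ.norm : ℤ) : ℝ) = (δ.re : ℝ) ^ 2 + (δ.im : ℝ) ^ 2 := by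
    rw [Zsqrtd.norm_def]
    push_cast
    ring
  set z : ℂ := ⟨(δ.re : ℝ), (δ.im : ℝ)⟩ with hz
  have h2 : ‖z‖ = Real.sqrt δ.norm := by
    rw [Complex.norm_def, Complex.normSq_apply, h1]
    congr 1
    simp only [hz]
    ring
  have h3 : 0 < Real.sqrt δ.norm := Real.sqrt_pos.2 (by exact_mod_cast hδ)
  have h4 : z ≠ 0 := by
    intro h
    rw [h, norm_zero] at h2
    rw [← h2] at h3
    exact lt_irrefl _ h3
  refine ⟨z.arg, ?_⟩
  apply Subtype.ext
  rw [eig_hh hδ]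
  show !![Real.cos z.arg, -Real.sin z.arg; Real.sin z.arg, Real.cos z.arg] = _
  rw [Complex.cos_arg h4, Complex.sin_arg, h2, neg_div]

private theorem eig_sin {δ : GaussianInt} (hδ : 0 < δ.norm) (hc : IsCoprime δ (star δ)) (hu : ¬ IsUnit δ) {ψ : ℝ}
    (h : kk ψ = (Ob.em δ : Ob b).hh) : Real.sin ψ ≠ 0 := by
  intro h0
  have h1 : ((kk ψ : G) : Matrix (Fin 2) (Fin 2) ℝ) 1 0 = ((Ob.em δ : Ob b).hh : Matrix (Fin 2) (Fin 2) ℝ) 1 0 := by
    rw [h]
  rw [eig_hh hδ] at h1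
  have h2 : ((kk ψ : G) : Matrix (Fin 2) (Fin 2) ℝ) 1 0 = Real.sin ψ := rfl
  rw [h2, h0] at h1
  have h3 : (0 : ℝ) = (δ.im : ℝ) / Real.sqrt δ.norm := h1
  have h4 : 0 < Real.sqrt δ.norm := Real.sqrt_pos.2 (by exact_mod_cast hδ)
  have h5 : (δ.im : ℝ) = 0 := by
    rcases div_eq_zero_iff.1 h3.symm with h | h
    · exact h
    · exact absurd h h4.ne'
  have h6 : δ.im = 0 := by exact_mod_cast h5
  have h7 : star δ = δ := by
    ext
    · simp
    · simp [h6]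
  rw [h7] at hc
  exact hu (isCoprime_self.1 hc)

private theorem eig_norm_star (δ : GaussianInt) : (star δ).norm = δ.norm := by
  simp only [Zsqrtd.norm_def, Zsqrtd.re_star, Zsqrtd.im_star]
  ring

private theorem eig_dvd (δ : GaussianInt) : δ ∣ ((δ.norm : ℤ) : GaussianInt) := by
  rw [Zsqrtd.norm_eq_mul_conj]
  exact dvd_mul_right _ _

private theorem eig_dvd' (δ : GaussianInt) : star δ ∣ ((δ.norm : ℤ) : GaussianInt) := by
  rw [Zsqrtd.norm_eq_mul_conj]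
  exact dvd_mul_left _ _

private theorem eig_cop {x y : GaussianInt} (h : IsCoprime x.norm y.norm) : IsCoprime x y ∧ IsCoprime x (star y) ∧
    IsCoprime (star x) y ∧ IsCoprime (star x) (star y) := by
  have h1 : IsCoprime ((x.norm : ℤ) : GaussianInt) ((y.norm : ℤ) : GaussianInt) := by
    have h2 := h.map (Int.castRingHom GaussianInt)
    exact h2
  exact ⟨(h1.of_isCoprime_of_dvd_left (eig_dvd x)).of_isCoprime_of_dvd_right (eig_dvd y),
    (h1.of_isCoprime_of_dvd_left (eig_dvd x)).of_isCoprime_of_dvd_right (eig_dvd' y),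
    (h1.of_isCoprime_of_dvd_left (eig_dvd' x)).of_isCoprime_of_dvd_right (eig_dvd y),
    (h1.of_isCoprime_of_dvd_left (eig_dvd' x)).of_isCoprime_of_dvd_right (eig_dvd' y)⟩

private theorem eig_good_mul {x y : GaussianInt} (hx : Good b x) (hy : Good b y) (h : IsCoprime x.norm y.norm) :
    Good b (x * y) := by
  obtain ⟨-, h2, h3, -⟩ := eig_cop h
  refine ⟨?_, hx.2.mul_left hy.2⟩
  rw [star_mul]
  exact (IsCoprime.mul_right h2 hx.1).mul_left (IsCoprime.mul_right hy.1 h3.symm)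

private theorem eig_star_cop {x y : GaussianInt} (h : IsCoprime x y) : IsCoprime (star x) (star y) := by
  obtain ⟨u, v, h⟩ := h
  refine ⟨star u, star v, ?_⟩
  rw [← star_mul', ← star_mul', ← star_add, h, star_one]

private theorem eig_good_star {x : GaussianInt} (hx : Good b x) : Good b (star x) := by
  refine ⟨?_, ?_⟩
  · rw [star_star]
    exact hx.1.symm
  · have h := eig_star_cop hx.2
    rwa [star_natCast] at h

private theorem eig_good_pow {x : GaussianInt} (hx : Good b x) (k : ℕ) : Good b (x ^ k) := by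
  refine ⟨?_, hx.2.pow_left⟩
  rw [star_pow]
  exact hx.1.pow

private theorem eig_unit {x : GaussianInt} (h : IsUnit x) : x.norm = 1 := by
  have h1 := (Zsqrtd.isUnit_iff_norm_isUnit x).1 h
  have h2 : 0 ≤ x.norm := GaussianInt.norm_nonneg x
  rcases Int.isUnit_iff.1 h1 with h3 | h3
  · exact h3
  · omega

private theorem ev_append (R S : List (ℂ × ℝ)) (f : ℝ → ℂ) : ev (R ++ S) f = ev R f + ev S f := by
  unfold ev
  rw [List.map_append, List.sum_append]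

private theorem ev_shift (R : List (ℂ × ℝ)) (f : ℝ → ℂ) (s : ℂ) (θ : ℝ) :
    ev (R.map fun x => (x.1 * s, x.2 + θ)) f = s * ev R (fun ψ => f (ψ + θ)) := by
  unfold ev
  rw [List.map_map, ← List.sum_map_mul_left]
  congr 1
  refine List.map_congr_left fun x _ => ?_
  simp only [Function.comp_apply]
  ring

private theorem ev_congr (R : List (ℂ × ℝ)) {f g : ℝ → ℂ} (h : ∀ x, f x = g x) : ev R f = ev R g := by
  have h1 : f = g := funext h
  rw [h1]

private theorem ev_const_mul (R : List (ℂ × ℝ)) (f : ℝ → ℂ) (s : ℂ) : ev R (fun ψ => f ψ * s) = ev R f * s := by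
  unfold ev
  rw [← List.sum_map_mul_right]
  congr 1
  refine List.map_congr_left fun x _ => ?_
  ring

/-- The list of the next stage. -/
private noncomputable def nx (R : List (ℂ × ℝ)) (σ θ : ℝ) : List (ℂ × ℝ) :=
  R ++ (R.map (fun x => (x.1 * ((σ / 2 : ℝ) : ℂ), x.2 + θ)) ++ R.map fun x => (x.1 * ((σ / 2 : ℝ) : ℂ), x.2 + -θ))

private theorem ev_nx (R : List (ℂ × ℝ)) (σ θ : ℝ) (f : ℝ → ℂ) : ev (nx R σ θ) f =
    ev R f + ((σ / 2 : ℝ) : ℂ) * (ev R (fun ψ => f (ψ + θ)) + ev R (fun ψ => f (ψ + -θ))) := by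
  unfold nx
  rw [ev_append, ev_append, ev_shift, ev_shift]
  ring

private theorem eig_data (hb : ¬ IsSquare b) (hb0 : 0 < b) {c : Ob b → ℂ} (hc : SphF b c)
    {p : ℕ} (hp : p.Prime) (h4 : p % 4 = 1) (hpb : ¬ p ∣ b)
    (hH : ∀ s : Finset (Ob b), IsReps p s →
      ∃ l : ℂ, ∀ α : Ob b, 0 < α.N → ∑ β ∈ s, c (β * α) = l * c α) :
    ∃ (D : GaussianInt) (k : ℕ) (σ a θ : ℝ), 0 < k ∧ D.norm = (p : ℤ) ^ k ∧ Good b D ∧ (σ = 1 ∨ σ = -1) ∧
      1 / (4 * p) ≤ σ * a ∧ kk θ = (Ob.em D : Ob b).hh ∧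
      ∀ y : GaussianInt, Good b y → IsCoprime (p : ℤ) y.norm →
        c (Ob.em (y * D)) = a * c (Ob.em y) ∧ c (Ob.em (y * star D)) = a * c (Ob.em y) := by
  obtain ⟨ϖ, hn, hco, hb'⟩ := gauss_prime hp h4
  have hg : Good b ϖ := ⟨hco, hb' b hpb⟩
  obtain ⟨k, σ, a, hk, hσ, ha, hy⟩ := sph_main hb hb0 hc hp hn hg hH
  have hnk : (ϖ ^ k).norm = (p : ℤ) ^ k := by
    rw [← hn]
    exact map_pow Zsqrtd.normMonoidHom ϖ k
  have hpos : 0 < (ϖ ^ k).norm := by
    rw [hnk]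
    have := hp.pos
    positivity
  obtain ⟨θ, hθ⟩ := exists_ang b hpos
  refine ⟨ϖ ^ k, k, σ, a, θ, hk, hnk, eig_good_pow hg k, hσ, ha, hθ, fun y h1 h2 => ?_⟩
  rw [star_pow]
  exact hy y h1 h2

private theorem eig_ind (hb : ¬ IsSquare b) (hb0 : 0 < b) {c : Ob b → ℂ} (hc : SphF b c)
    (hH : ∀ p : ℕ, p.Prime → p % 4 = 1 → ¬ p ∣ b → ∀ s : Finset (Ob b), IsReps p s →
      ∃ l : ℂ, ∀ α : Ob b, 0 < α.N → ∑ β ∈ s, c (β * α) = l * c α)
    {b1 b2 : ℝ → ℂ} {B : ℝ} (h1 : ∀ (ψ : ℝ) (δ : GaussianInt), 0 < δ.norm → kk ψ = (Ob.em δ : Ob b).hh → b1 ψ = B * c (Ob.em δ))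
    (h2 : b2 0 = 1) (h3 : ∀ ψ, Real.sin ψ ≠ 0 → b2 ψ = 0) (A : Finset ℕ) :
    (∀ p ∈ A, p.Prime ∧ p % 4 = 1 ∧ ¬ p ∣ b) → ∃ (R : List (ℂ × ℝ)) (P : ℝ),
      ∏ p ∈ A, (1 + 1 / (4 * (p : ℝ))) ≤ P ∧
      (∀ n : ℤ, ∃ x : ℝ, 0 ≤ x ∧ ev R (fun ψ => Complex.exp (n * ψ * Complex.I)) = x) ∧
      (∀ (ψ : ℝ) (δ : GaussianInt), 0 < δ.norm → Good b δ → (∀ p ∈ A, IsCoprime (p : ℤ) δ.norm) →
        kk ψ = (Ob.em δ : Ob b).hh → ev R (fun θ => b1 (ψ + θ)) = B * c (Ob.em δ) * P) ∧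
      (∀ (ψ : ℝ) (δ : GaussianInt), 0 < δ.norm → Good b δ → (∀ p ∈ A, IsCoprime (p : ℤ) δ.norm) →
        kk ψ = (Ob.em δ : Ob b).hh → ¬ IsUnit δ → ev R (fun θ => b2 (ψ + θ)) = 0) ∧
      ev R b2 = 1 := by
  induction A using Finset.induction_on with
  | empty =>
    intro _
    refine ⟨[(1, 0)], 1, by simp, ?_, ?_, ?_, ?_⟩
    · intro n
      exact ⟨1, zero_le_one, by simp [ev]⟩
    · intro ψ δ hδ _ _ hk
      simp only [ev, List.map_cons, List.map_nil, List.sum_cons, List.sum_nil, one_mul, add_zero]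
      rw [h1 ψ δ hδ hk, Complex.ofReal_one, mul_one]
    · intro ψ δ hδ hg _ hk hu
      simp only [ev, List.map_cons, List.map_nil, List.sum_cons, List.sum_nil, one_mul, add_zero]
      exact h3 ψ (eig_sin hδ hg.1 hu hk)
    · simp only [ev, List.map_cons, List.map_nil, List.sum_cons, List.sum_nil, one_mul, add_zero]
      exact h2
  | insert p A hpA ih =>
    intro hA
    obtain ⟨R, P, hP, hi, hii, hiii, hiv⟩ := ih fun q hq => hA q (Finset.mem_insert_of_mem hq)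
    obtain ⟨hp, hp4, hpb⟩ := hA p (Finset.mem_insert_self _ _)
    obtain ⟨D, k, σ, a, θ, hk, hDn, hDg, hσ, ha, hθ, hy⟩ := eig_data hb hb0 hc hp hp4 hpb (hH p hp hp4 hpb)
    have hpp : 0 < (p : ℤ) := by exact_mod_cast hp.pos
    have hDpos : 0 < D.norm := by rw [hDn]; positivity
    have hD'pos : 0 < (star D).norm := by rw [eig_norm_star]; exact hDpos
    have hDu : ¬ IsUnit D := by
      intro h
      have h5 := eig_unit h
      rw [hDn] at h5
      have h6 : p ^ k = 1 := by exact_mod_cast h5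
      have h7 := hp.one_lt
      rcases (Nat.pow_eq_one).1 h6 with h | h <;> omega
    have hD'u : ¬ IsUnit (star D) := by
      intro h
      have h5 := eig_unit h
      rw [eig_norm_star, hDn] at h5
      have h6 : p ^ k = 1 := by exact_mod_cast h5
      have h7 := hp.one_lt
      rcases (Nat.pow_eq_one).1 h6 with h | h <;> omega
    have hθ' : kk (-θ) = (Ob.em (star D) : Ob b).hh := by
      rw [eig_kk_neg, hθ, ← Ob.em_bar, Ob.hh_bar]
      rw [Ob.N_em]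
      exact hDpos
    have hcopA : ∀ q ∈ A, IsCoprime (q : ℤ) D.norm := by
      intro q hq
      have hqp : q.Prime := (hA q (Finset.mem_insert_of_mem hq)).1
      have hne : q ≠ p := fun h => hpA (h ▸ hq)
      rw [hDn]
      exact ((Nat.isCoprime_iff_coprime).2 ((Nat.coprime_primes hqp hp).2 hne)).pow_right
    have hmul : ∀ (ψ ψ' : ℝ) (δ δ' : GaussianInt), 0 < δ.norm → 0 < δ'.norm → kk ψ = (Ob.em δ : Ob b).hh →
        kk ψ' = (Ob.em δ' : Ob b).hh → kk (ψ + ψ') = (Ob.em (δ * δ') : Ob b).hh := by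
      intro ψ ψ' δ δ' g1 g2 g3 g4
      rw [eig_kk_add, g3, g4, Ob.em_mul, Ob.hh_mul]
      · rw [Ob.N_em]; exact g1
      · rw [Ob.N_em]; exact g2
    -- the Gaussian integers of the next stage
    have hnext : ∀ (ψ : ℝ) (δ : GaussianInt), 0 < δ.norm → Good b δ → (∀ q ∈ insert p A, IsCoprime (q : ℤ) δ.norm) →
        kk ψ = (Ob.em δ : Ob b).hh →
        (0 < (δ * D).norm ∧ Good b (δ * D) ∧ (∀ q ∈ A, IsCoprime (q : ℤ) (δ * D).norm) ∧
          kk (ψ + θ) = (Ob.em (δ * D) : Ob b).hh) ∧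
        (0 < (δ * star D).norm ∧ Good b (δ * star D) ∧ (∀ q ∈ A, IsCoprime (q : ℤ) (δ * star D).norm) ∧
          kk (ψ + -θ) = (Ob.em (δ * star D) : Ob b).hh) := by
      intro ψ δ g1 g2 g3 g4
      have g5 : IsCoprime δ.norm D.norm := by
        rw [hDn]
        exact (g3 p (Finset.mem_insert_self _ _)).symm.pow_right
      refine ⟨⟨?_, eig_good_mul g2 hDg g5, ?_, hmul _ _ _ _ g1 hDpos g4 hθ⟩,
        ⟨?_, eig_good_mul g2 (eig_good_star hDg) (by rw [eig_norm_star]; exact g5), ?_,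
          hmul _ _ _ _ g1 hD'pos g4 hθ'⟩⟩
      · rw [Zsqrtd.norm_mul]
        exact mul_pos g1 hDpos
      · intro q hq
        rw [Zsqrtd.norm_mul]
        exact IsCoprime.mul_right (g3 q (Finset.mem_insert_of_mem hq)) (hcopA q hq)
      · rw [Zsqrtd.norm_mul]
        exact mul_pos g1 hD'pos
      · intro q hq
        rw [Zsqrtd.norm_mul, eig_norm_star]
        exact IsCoprime.mul_right (g3 q (Finset.mem_insert_of_mem hq)) (hcopA q hq)
    refine ⟨nx R σ θ, P * (1 + σ * a), ?_, ?_, ?_, ?_, ?_⟩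
    · rw [Finset.prod_insert hpA, mul_comm]
      have g0 : (0 : ℝ) < p := by exact_mod_cast hp.pos
      have g1 : 0 ≤ 1 / (4 * (p : ℝ)) := by positivity
      have g2 : 0 ≤ ∏ q ∈ A, (1 + 1 / (4 * (q : ℝ))) := by positivity
      refine mul_le_mul hP (by linarith) (by linarith) (g2.trans hP)
    · intro n
      obtain ⟨x, hx, hxe⟩ := hi n
      refine ⟨x * (1 + σ * Real.cos (n * θ)), ?_, ?_⟩
      · refine mul_nonneg hx ?_
        have g1 := Real.neg_one_le_cos (n * θ)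
        have g2 := Real.cos_le_one (n * θ)
        rcases hσ with h | h <;> rw [h] <;> linarith
      · rw [ev_nx]
        have g1 : ∀ t : ℝ, ev R (fun ψ => Complex.exp (n * ((ψ + t : ℝ) : ℂ) * Complex.I)) =
            x * Complex.exp (n * t * Complex.I) := by
          intro t
          rw [← hxe, ← ev_const_mul]
          refine ev_congr R fun ψ => ?_
          rw [← Complex.exp_add]
          congr 1
          push_cast
          ring
        rw [hxe, g1, g1]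
        have g2 : (Real.cos (n * θ) : ℂ) = (Complex.exp (n * θ * Complex.I) + Complex.exp (n * ((-θ : ℝ) : ℂ) * Complex.I)) / 2 := by
          rw [Complex.ofReal_cos, Complex.cos]
          push_cast
          congr 3
          ring
        push_cast at g2 ⊢
        rw [g2]
        ring
    · intro ψ δ g1 g2 g3 g4
      obtain ⟨⟨a1, a2, a3, a4⟩, ⟨b1', b2', b3', b4'⟩⟩ := hnext ψ δ g1 g2 g3 g4
      have e0 := hii ψ δ g1 g2 (fun q hq => g3 q (Finset.mem_insert_of_mem hq)) g4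
      have e1 := hii _ _ a1 a2 a3 a4
      have e2 := hii _ _ b1' b2' b3' b4'
      obtain ⟨y1, y2⟩ := hy δ g2 (g3 p (Finset.mem_insert_self _ _))
      rw [y1] at e1
      rw [y2] at e2
      rw [ev_nx]
      have f1 : ev R (fun x => b1 (ψ + (x + θ))) = ev R (fun x => b1 (ψ + θ + x)) :=
        ev_congr R fun x => by rw [add_comm x θ, add_assoc]
      have f2 : ev R (fun x => b1 (ψ + (x + -θ))) = ev R (fun x => b1 (ψ + -θ + x)) :=
        ev_congr R fun x => by rw [add_comm x (-θ), add_assoc]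
      rw [f1, f2, e0, e1, e2]
      push_cast
      ring
    · intro ψ δ g1 g2 g3 g4 g5
      obtain ⟨⟨a1, a2, a3, a4⟩, ⟨b1', b2', b3', b4'⟩⟩ := hnext ψ δ g1 g2 g3 g4
      have e0 := hiii ψ δ g1 g2 (fun q hq => g3 q (Finset.mem_insert_of_mem hq)) g4 g5
      have e1 := hiii _ _ a1 a2 a3 a4 fun h => g5 (isUnit_of_mul_isUnit_left h)
      have e2 := hiii _ _ b1' b2' b3' b4' fun h => g5 (isUnit_of_mul_isUnit_left h)
      rw [ev_nx]
      have f1 : ev R (fun x => b2 (ψ + (x + θ))) = ev R (fun x => b2 (ψ + θ + x)) :=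
        ev_congr R fun x => by rw [add_comm x θ, add_assoc]
      have f2 : ev R (fun x => b2 (ψ + (x + -θ))) = ev R (fun x => b2 (ψ + -θ + x)) :=
        ev_congr R fun x => by rw [add_comm x (-θ), add_assoc]
      rw [f1, f2, e0, e1, e2, add_zero, mul_zero, add_zero]
    · have e1 := hiii θ D hDpos hDg hcopA hθ hDu
      have e2 := hiii (-θ) (star D) hD'pos (eig_good_star hDg) (fun q hq => by rw [eig_norm_star]; exact hcopA q hq)
        hθ' hD'u
      rw [ev_nx, hiv]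
      have f1 : ev R (fun x => b2 (x + θ)) = ev R (fun x => b2 (θ + x)) :=
        ev_congr R fun x => by rw [add_comm x θ]
      have f2 : ev R (fun x => b2 (x + -θ)) = ev R (fun x => b2 (-θ + x)) :=
        ev_congr R fun x => by rw [add_comm x (-θ)]
      rw [f1, f2, e1, e2, add_zero, mul_zero, add_zero]

theorem riesz (hb : ∀ x y : ℕ, b ≠ x ^ 2 + y ^ 2) {c : Ob b → ℂ} (hc : SphF b c)
    (hH : ∀ p : ℕ, p.Prime → p % 4 = 1 → ¬ p ∣ b → ∀ s : Finset (Ob b), IsReps p s →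
      ∃ l : ℂ, ∀ α : Ob b, 0 < α.N → ∑ β ∈ s, c (β * α) = l * c α)
    {b1 b2 : ℝ → ℂ} {B M : ℝ} (hB : 0 < B) (h1 : ∀ (ψ : ℝ) (δ : GaussianInt), 0 < δ.norm → kk ψ = (Ob.em δ : Ob b).hh → b1 ψ = B * c (Ob.em δ))
    (h2 : b2 0 = 1) (h3 : ∀ ψ, Real.sin ψ ≠ 0 → b2 ψ = 0)
    (h4 : ∀ R : List (ℂ × ℝ), (∀ n : ℤ, ∃ x : ℝ, 0 ≤ x ∧ ev R (fun ψ => Complex.exp (n * ψ * Complex.I)) = x) →
      (ev R b1).re ≤ M * (ev R b2).re) : False := by
  have hb0 : 0 < b := by
    rcases Nat.eq_zero_or_pos b with h | h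
    · exact absurd h (by simpa using hb 0 0)
    · exact h
  have hsq : ¬ IsSquare b := by
    rintro ⟨x, hx⟩
    exact hb x 0 (by rw [hx]; ring)
  obtain ⟨A, hA, hAC⟩ := primes hb0 (M / B)
  obtain ⟨R, P, hP, hi, hii, -, hiv⟩ := eig_ind hsq hb0 hc hH h1 h2 h3 A hA
  have e1 := hii 0 1 (by rw [Zsqrtd.norm_one]; exact one_pos)
    ⟨by rw [star_one]; exact isCoprime_one_left, isCoprime_one_left⟩
    (fun p _ => by rw [Zsqrtd.norm_one]; exact isCoprime_one_right)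
    (by
      have g : (Ob.em 1 : Ob b) = 1 := rfl
      rw [g, Ob.hh_one, eig_kk_zero])
  have e2 : (Ob.em 1 : Ob b) = 1 := rfl
  rw [e2, hc.one, mul_one] at e1
  have e3 : ev R (fun θ => b1 (0 + θ)) = ev R b1 := ev_congr R fun x => by rw [zero_add]
  rw [e3] at e1
  have h5 := h4 R hi
  rw [e1, hiv] at h5
  have h6 : ((B : ℂ) * (P : ℂ)).re = B * P := by
    rw [← Complex.ofReal_mul, Complex.ofReal_re]
  rw [h6, Complex.one_re, mul_one] at h5
  have h7 : M / B < P := hAC.trans_le hP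
  rw [div_lt_iff₀ hB] at h7
  linarith

end MPkt
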