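import Pool.Agent.Lib.MP_7b255b_nt.Circ

/-!
# Equi: the circle means are equicontinuous in the centre

For `u` near `1`: the first column of `u * kk θ` as a complex number is `w(θ) = u_{11} cos θ + u_{12} sin θ + i (u_{21} cos θ + u_{22} sin θ)`, near `e^{iθ}`, `W(θ) = w(θ) e^{-iθ}` is near `1`,
`2π`-periodic, and `W'` is small (uniformly in `θ`). `φ(θ) = θ + arg W(θ)` is continuously differentiable, `φ(θ + 2π) = φ(θ) + 2π`, `|φ' - 1| ≤ ε` and `u kk θ = kk φ(θ) aa β(θ) nn x(θ)`,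
`β = 2 log |w|` small, `x = e^{-β}` times the inner product of the two columns of `u kk θ`, small. So (`nn_aa`) `u kk θ aa t = kk φ aa t (aa β nn (x e^{-t}))` with `aa β nn (x e^{-t})` in a given
neighbourhood `U` of `1` for all `t ≥ 0`: `|Ψ(g u kk θ aa t) - Ψ(g kk φ(θ) aa t)| ≤ ε`. Change of variables (`intervalIntegral.integral_comp_mul_deriv`, periodicity):
`∫_0^{2π} Ψ(g kk φ(θ) aa t) φ'(θ) dθ = ∫_0^{2π} Ψ(g kk φ aa t) dφ`, and `|∫ Ψ(...) (φ' - 1)| ≤ 2π C ε`.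

-/

set_option autoImplicit false

namespace MPkt

open Filter Topology

private noncomputable def Equi_al (u : G) : ℂ :=
  ⟨((u : Matrix (Fin 2) (Fin 2) ℝ) 0 0 + (u : Matrix (Fin 2) (Fin 2) ℝ) 1 1) / 2,
    ((u : Matrix (Fin 2) (Fin 2) ℝ) 1 0 - (u : Matrix (Fin 2) (Fin 2) ℝ) 0 1) / 2⟩

private noncomputable def Equi_be (u : G) : ℂ :=
  ⟨((u : Matrix (Fin 2) (Fin 2) ℝ) 0 0 - (u : Matrix (Fin 2) (Fin 2) ℝ) 1 1) / 2,
    ((u : Matrix (Fin 2) (Fin 2) ℝ) 1 0 + (u : Matrix (Fin 2) (Fin 2) ℝ) 0 1) / 2⟩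

private noncomputable def Equi_W (u : G) (θ : ℝ) : ℂ :=
  Equi_al u + Equi_be u * Complex.exp (-(2 * (θ : ℂ)) * Complex.I)

private theorem Equi_norm (θ : ℝ) : ‖Complex.exp (-(2 * (θ : ℂ)) * Complex.I)‖ = 1 := by
  have h : -(2 * (θ : ℂ)) * Complex.I = ((-(2 * θ) : ℝ) : ℂ) * Complex.I := by push_cast; ring
  rw [h, Complex.norm_exp_ofReal_mul_I]

private theorem Equi_W_mul (u : G) (θ : ℝ) : Equi_W u θ * Complex.exp ((θ : ℂ) * Complex.I) =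
    Equi_al u * Complex.exp ((θ : ℂ) * Complex.I) + Equi_be u * Complex.exp (((-θ : ℝ) : ℂ) * Complex.I) := by
  unfold Equi_W
  rw [add_mul, mul_assoc, ← Complex.exp_add]
  congr 3
  push_cast
  ring

private theorem Equi_re (u : G) (θ : ℝ) : (Equi_W u θ).re * Real.cos θ - (Equi_W u θ).im * Real.sin θ =
    (u : Matrix (Fin 2) (Fin 2) ℝ) 0 0 * Real.cos θ + (u : Matrix (Fin 2) (Fin 2) ℝ) 0 1 * Real.sin θ := by
  have h := congrArg Complex.re (Equi_W_mul u θ)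
  rw [Complex.add_re, Complex.mul_re, Complex.mul_re, Complex.mul_re, Complex.exp_ofReal_mul_I_re,
    Complex.exp_ofReal_mul_I_im, Complex.exp_ofReal_mul_I_re, Complex.exp_ofReal_mul_I_im,
    Real.cos_neg, Real.sin_neg] at h
  rw [h]
  unfold Equi_al Equi_be
  ring

private theorem Equi_im (u : G) (θ : ℝ) : (Equi_W u θ).re * Real.sin θ + (Equi_W u θ).im * Real.cos θ =
    (u : Matrix (Fin 2) (Fin 2) ℝ) 1 0 * Real.cos θ + (u : Matrix (Fin 2) (Fin 2) ℝ) 1 1 * Real.sin θ := by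
  have h := congrArg Complex.im (Equi_W_mul u θ)
  rw [Complex.add_im, Complex.mul_im, Complex.mul_im, Complex.mul_im, Complex.exp_ofReal_mul_I_re,
    Complex.exp_ofReal_mul_I_im, Complex.exp_ofReal_mul_I_re, Complex.exp_ofReal_mul_I_im,
    Real.cos_neg, Real.sin_neg] at h
  rw [h]
  unfold Equi_al Equi_be
  ring

private theorem Equi_deriv (u : G) (θ : ℝ) (h : Equi_W u θ ∈ Complex.slitPlane) :
    HasDerivAt (fun θ : ℝ => θ + (Complex.log (Equi_W u θ)).im)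
      (1 + (Equi_be u * (Complex.exp (-(2 * (θ : ℂ)) * Complex.I) * (-2 * Complex.I)) / Equi_W u θ).im) θ := by
  have h1 : HasDerivAt (fun θ : ℝ => -(2 * (θ : ℂ)) * Complex.I) (-2 * Complex.I) θ := by
    have h2 : HasDerivAt (fun θ : ℝ => (θ : ℂ)) 1 θ := by
      have := (hasDerivAt_id θ).ofReal_comp
      simpa using this
    have h3 := ((h2.const_mul (2 : ℂ)).neg).mul_const Complex.I
    simpa using h3
  have h4 : HasDerivAt (fun θ : ℝ => Equi_W u θ)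
      (Equi_be u * (Complex.exp (-(2 * (θ : ℂ)) * Complex.I) * (-2 * Complex.I))) θ := by
    unfold Equi_W
    exact (h1.cexp.const_mul (Equi_be u)).const_add (Equi_al u)
  have h5 := h4.clog_real h
  have h6 := Complex.imCLM.hasFDerivAt.comp_hasDerivAt θ h5
  exact (hasDerivAt_id θ).add h6

/-- The inner product of the two columns of `u * kk θ`. -/
private noncomputable def Equi_in (u : G) (θ : ℝ) : ℝ :=
  ((u : Matrix (Fin 2) (Fin 2) ℝ) 0 0 * Real.cos θ + (u : Matrix (Fin 2) (Fin 2) ℝ) 0 1 * Real.sin θ) *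
    (-(u : Matrix (Fin 2) (Fin 2) ℝ) 0 0 * Real.sin θ + (u : Matrix (Fin 2) (Fin 2) ℝ) 0 1 * Real.cos θ) +
  ((u : Matrix (Fin 2) (Fin 2) ℝ) 1 0 * Real.cos θ + (u : Matrix (Fin 2) (Fin 2) ℝ) 1 1 * Real.sin θ) *
    (-(u : Matrix (Fin 2) (Fin 2) ℝ) 1 0 * Real.sin θ + (u : Matrix (Fin 2) (Fin 2) ℝ) 1 1 * Real.cos θ)

private theorem Equi_ident (u : G) (θ : ℝ) (h0 : Equi_W u θ ≠ 0) :
    u * kk θ = kk (θ + (Complex.log (Equi_W u θ)).im) * aa (2 * Real.log ‖Equi_W u θ‖) *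
      nn (Equi_in u θ / ‖Equi_W u θ‖ ^ 2) := by
  have hr : 0 < ‖Equi_W u θ‖ := norm_pos_iff.2 h0
  have hre := Equi_re u θ
  have him := Equi_im u θ
  have hn : ‖Equi_W u θ‖ ^ 2 = (Equi_W u θ).re ^ 2 + (Equi_W u θ).im ^ 2 := by
    rw [Complex.sq_norm, Complex.normSq_apply]
    ring
  have hdet : (u : Matrix (Fin 2) (Fin 2) ℝ) 0 0 * (u : Matrix (Fin 2) (Fin 2) ℝ) 1 1 -
      (u : Matrix (Fin 2) (Fin 2) ℝ) 0 1 * (u : Matrix (Fin 2) (Fin 2) ℝ) 1 0 = 1 := by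
    have := u.2
    rwa [Matrix.det_fin_two] at this
  have hcs := Real.sin_sq_add_cos_sq θ
  have hc : Real.cos (θ + (Complex.log (Equi_W u θ)).im) =
      ((u : Matrix (Fin 2) (Fin 2) ℝ) 0 0 * Real.cos θ + (u : Matrix (Fin 2) (Fin 2) ℝ) 0 1 * Real.sin θ) /
        ‖Equi_W u θ‖ := by
    rw [Real.cos_add, Complex.log_im, Complex.cos_arg h0, Complex.sin_arg, ← hre]
    ring
  have hs : Real.sin (θ + (Complex.log (Equi_W u θ)).im) =
      ((u : Matrix (Fin 2) (Fin 2) ℝ) 1 0 * Real.cos θ + (u : Matrix (Fin 2) (Fin 2) ℝ) 1 1 * Real.sin θ) /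
        ‖Equi_W u θ‖ := by
    rw [Real.sin_add, Complex.log_im, Complex.cos_arg h0, Complex.sin_arg, ← him]
    ring
  have he1 : Real.exp (2 * Real.log ‖Equi_W u θ‖ / 2) = ‖Equi_W u θ‖ := by
    rw [mul_div_cancel_left₀ _ (two_ne_zero), Real.exp_log hr]
  have he2 : Real.exp (-(2 * Real.log ‖Equi_W u θ‖ / 2)) = ‖Equi_W u θ‖⁻¹ := by
    rw [Real.exp_neg, he1]
  have hn2 : ((u : Matrix (Fin 2) (Fin 2) ℝ) 0 0 * Real.cos θ + (u : Matrix (Fin 2) (Fin 2) ℝ) 0 1 * Real.sin θ) ^ 2 +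
      ((u : Matrix (Fin 2) (Fin 2) ℝ) 1 0 * Real.cos θ + (u : Matrix (Fin 2) (Fin 2) ℝ) 1 1 * Real.sin θ) ^ 2 =
      ‖Equi_W u θ‖ ^ 2 := by
    rw [hn, ← hre, ← him]
    linear_combination ((Equi_W u θ).re ^ 2 + (Equi_W u θ).im ^ 2) * hcs
  have h1 : (u : Matrix (Fin 2) (Fin 2) ℝ) * (kk θ : Matrix (Fin 2) (Fin 2) ℝ) =
      !![(u : Matrix (Fin 2) (Fin 2) ℝ) 0 0 * Real.cos θ + (u : Matrix (Fin 2) (Fin 2) ℝ) 0 1 * Real.sin θ,
        -(u : Matrix (Fin 2) (Fin 2) ℝ) 0 0 * Real.sin θ + (u : Matrix (Fin 2) (Fin 2) ℝ) 0 1 * Real.cos θ;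
        (u : Matrix (Fin 2) (Fin 2) ℝ) 1 0 * Real.cos θ + (u : Matrix (Fin 2) (Fin 2) ℝ) 1 1 * Real.sin θ,
        -(u : Matrix (Fin 2) (Fin 2) ℝ) 1 0 * Real.sin θ + (u : Matrix (Fin 2) (Fin 2) ℝ) 1 1 * Real.cos θ] := by
    ext i j
    fin_cases i <;> fin_cases j <;> simp [kk, Matrix.mul_apply, Fin.sum_univ_two]
  have h2 : (kk (θ + (Complex.log (Equi_W u θ)).im) * aa (2 * Real.log ‖Equi_W u θ‖) *
      nn (Equi_in u θ / ‖Equi_W u θ‖ ^ 2) : Matrix (Fin 2) (Fin 2) ℝ) =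
      !![Real.cos (θ + (Complex.log (Equi_W u θ)).im) * ‖Equi_W u θ‖,
        Real.cos (θ + (Complex.log (Equi_W u θ)).im) * ‖Equi_W u θ‖ * (Equi_in u θ / ‖Equi_W u θ‖ ^ 2) -
          Real.sin (θ + (Complex.log (Equi_W u θ)).im) * ‖Equi_W u θ‖⁻¹;
        Real.sin (θ + (Complex.log (Equi_W u θ)).im) * ‖Equi_W u θ‖,
        Real.sin (θ + (Complex.log (Equi_W u θ)).im) * ‖Equi_W u θ‖ * (Equi_in u θ / ‖Equi_W u θ‖ ^ 2) +
          Real.cos (θ + (Complex.log (Equi_W u θ)).im) * ‖Equi_W u θ‖⁻¹] := by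
    unfold kk aa nn
    simp only [he1, he2]
    rw [Matrix.mul_fin_two, Matrix.mul_fin_two]
    ext i j
    fin_cases i <;> fin_cases j <;> simp <;> ring
  apply Subtype.ext
  rw [Matrix.SpecialLinearGroup.coe_mul, h1, Matrix.SpecialLinearGroup.coe_mul, Matrix.SpecialLinearGroup.coe_mul, h2,
    hc, hs]
  have hrr := hr.ne'
  unfold Equi_in
  generalize (u : Matrix (Fin 2) (Fin 2) ℝ) 0 0 = a at *
  generalize (u : Matrix (Fin 2) (Fin 2) ℝ) 0 1 = b at *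
  generalize (u : Matrix (Fin 2) (Fin 2) ℝ) 1 0 = c at *
  generalize (u : Matrix (Fin 2) (Fin 2) ℝ) 1 1 = d at *
  generalize ‖Equi_W u θ‖ = r at *
  generalize Real.cos θ = C at *
  generalize Real.sin θ = S at *
  have hx : (a * C + b * S) * (-c * S + d * C) - (c * C + d * S) * (-a * S + b * C) = 1 := by
    linear_combination (a * d - b * c) * hcs + hdet
  ext i j
  fin_cases i <;> fin_cases j <;> simp
  · field_simp
  · field_simp
    linear_combination (-(-(a * S) + b * C)) * hn2 + (-(c * C + d * S)) * hx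
  · field_simp
  · field_simp
    linear_combination (-(-(c * S) + d * C)) * hn2 + (a * C + b * S) * hx

private theorem Equi_in_le {u : G} {δ : ℝ} (θ : ℝ)
    (hA : |(u : Matrix (Fin 2) (Fin 2) ℝ) 0 0 ^ 2 + (u : Matrix (Fin 2) (Fin 2) ℝ) 1 0 ^ 2 - 1| ≤ δ)
    (hB : |(u : Matrix (Fin 2) (Fin 2) ℝ) 0 0 * (u : Matrix (Fin 2) (Fin 2) ℝ) 0 1 +
      (u : Matrix (Fin 2) (Fin 2) ℝ) 1 0 * (u : Matrix (Fin 2) (Fin 2) ℝ) 1 1| ≤ δ)
    (hD : |(u : Matrix (Fin 2) (Fin 2) ℝ) 0 1 ^ 2 + (u : Matrix (Fin 2) (Fin 2) ℝ) 1 1 ^ 2 - 1| ≤ δ) :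
    |Equi_in u θ| ≤ 3 * δ := by
  have hcs := Real.sin_sq_add_cos_sq θ
  have h1 : |Real.cos θ * Real.sin θ| ≤ 1 := by
    rw [abs_le]
    constructor <;> nlinarith [sq_nonneg (Real.cos θ + Real.sin θ), sq_nonneg (Real.cos θ - Real.sin θ)]
  have h2 : |Real.cos θ ^ 2 - Real.sin θ ^ 2| ≤ 1 := by
    rw [abs_le]
    constructor <;> nlinarith [sq_nonneg (Real.cos θ), sq_nonneg (Real.sin θ)]
  have h3 : Equi_in u θ =
      -(((u : Matrix (Fin 2) (Fin 2) ℝ) 0 0 ^ 2 + (u : Matrix (Fin 2) (Fin 2) ℝ) 1 0 ^ 2 - 1) *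
        (Real.cos θ * Real.sin θ)) +
      ((u : Matrix (Fin 2) (Fin 2) ℝ) 0 0 * (u : Matrix (Fin 2) (Fin 2) ℝ) 0 1 +
        (u : Matrix (Fin 2) (Fin 2) ℝ) 1 0 * (u : Matrix (Fin 2) (Fin 2) ℝ) 1 1) *
        (Real.cos θ ^ 2 - Real.sin θ ^ 2) +
      ((u : Matrix (Fin 2) (Fin 2) ℝ) 0 1 ^ 2 + (u : Matrix (Fin 2) (Fin 2) ℝ) 1 1 ^ 2 - 1) *
        (Real.cos θ * Real.sin θ) := by
    unfold Equi_in
    ring
  rw [h3]
  refine (abs_add_three _ _ _).trans ?_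
  rw [abs_neg]
  have e1 := mul_le_mul hA h1 (abs_nonneg _) ((abs_nonneg _).trans hA)
  have e2 := mul_le_mul hB h2 (abs_nonneg _) ((abs_nonneg _).trans hB)
  have e3 := mul_le_mul hD h1 (abs_nonneg _) ((abs_nonneg _).trans hD)
  rw [← abs_mul] at e1 e2 e3
  linarith

private theorem Equi_log {r δ : ℝ} (hδ : δ ≤ 1 / 8) (h0 : 0 ≤ δ) (h : |r - 1| ≤ 2 * δ) :
    |2 * Real.log r| ≤ 8 * δ := by
  rw [abs_le] at h
  have hr : 0 < r := by linarith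
  have h1 := Real.log_le_sub_one_of_pos hr
  have h2 := Real.one_sub_inv_le_log_of_pos hr
  have h3 : r⁻¹ ≤ 1 + 4 * δ := by
    rw [inv_le_iff_one_le_mul₀ hr]
    nlinarith
  rw [abs_le]
  constructor <;> linarith

private theorem Equi_core {u : G} {δ : ℝ} (hδ : δ ≤ 1 / 8) (h0 : 0 ≤ δ)
    (h1 : ‖Equi_al u - 1‖ ≤ δ) (h2 : ‖Equi_be u‖ ≤ δ)
    (hA : |(u : Matrix (Fin 2) (Fin 2) ℝ) 0 0 ^ 2 + (u : Matrix (Fin 2) (Fin 2) ℝ) 1 0 ^ 2 - 1| ≤ δ)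
    (hB : |(u : Matrix (Fin 2) (Fin 2) ℝ) 0 0 * (u : Matrix (Fin 2) (Fin 2) ℝ) 0 1 +
      (u : Matrix (Fin 2) (Fin 2) ℝ) 1 0 * (u : Matrix (Fin 2) (Fin 2) ℝ) 1 1| ≤ δ)
    (hD : |(u : Matrix (Fin 2) (Fin 2) ℝ) 0 1 ^ 2 + (u : Matrix (Fin 2) (Fin 2) ℝ) 1 1 ^ 2 - 1| ≤ δ) :
    ∃ φ φ' bb xx : ℝ → ℝ, (∀ θ, HasDerivAt φ (φ' θ) θ) ∧ Continuous φ' ∧ (∀ θ, |φ' θ - 1| ≤ 3 * δ) ∧
      φ (2 * Real.pi) = φ 0 + 2 * Real.pi ∧ (∀ θ, u * kk θ = kk (φ θ) * aa (bb θ) * nn (xx θ)) ∧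
      (∀ θ, |bb θ| ≤ 8 * δ) ∧ ∀ θ, |xx θ| ≤ 6 * δ := by
  have hW : ∀ θ, ‖Equi_W u θ - 1‖ ≤ 2 * δ := by
    intro θ
    have e : Equi_W u θ - 1 = (Equi_al u - 1) + Equi_be u * Complex.exp (-(2 * (θ : ℂ)) * Complex.I) := by
      unfold Equi_W
      ring
    rw [e]
    refine (norm_add_le _ _).trans ?_
    rw [norm_mul, Equi_norm, mul_one]
    linarith
  have hsl : ∀ θ, Equi_W u θ ∈ Complex.slitPlane := by
    intro θ
    rw [Complex.mem_slitPlane_iff]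
    left
    have e1 := (Complex.abs_re_le_norm (Equi_W u θ - 1)).trans (hW θ)
    rw [Complex.sub_re, Complex.one_re, abs_le] at e1
    linarith
  have hne : ∀ θ, Equi_W u θ ≠ 0 := fun θ => Complex.slitPlane_ne_zero (hsl θ)
  have hr : ∀ θ, |‖Equi_W u θ‖ - 1| ≤ 2 * δ := by
    intro θ
    have e1 := abs_norm_sub_norm_le (Equi_W u θ) 1
    rw [norm_one] at e1
    exact e1.trans (hW θ)
  have hr' : ∀ θ, 3 / 4 ≤ ‖Equi_W u θ‖ := by
    intro θ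
    have := (abs_le.1 (hr θ)).1
    linarith
  have hWc : Continuous fun θ => Equi_W u θ := by
    unfold Equi_W
    fun_prop
  refine ⟨fun θ => θ + (Complex.log (Equi_W u θ)).im, fun θ => 1 + (Equi_be u *
    (Complex.exp (-(2 * (θ : ℂ)) * Complex.I) * (-2 * Complex.I)) / Equi_W u θ).im,
    fun θ => 2 * Real.log ‖Equi_W u θ‖, fun θ => Equi_in u θ / ‖Equi_W u θ‖ ^ 2,
    fun θ => Equi_deriv u θ (hsl θ), ?_, ?_, ?_, fun θ => Equi_ident u θ (hne θ),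
    fun θ => Equi_log hδ h0 (hr θ), ?_⟩
  · refine continuous_const.add (Complex.continuous_im.comp ?_)
    refine Continuous.div ?_ hWc hne
    fun_prop
  · intro θ
    beta_reduce
    rw [add_sub_cancel_left]
    refine (Complex.abs_im_le_norm _).trans ?_
    rw [norm_div, norm_mul, norm_mul, Equi_norm, one_mul, norm_mul, norm_neg, Complex.norm_I, mul_one,
      Complex.norm_ofNat, div_le_iff₀ (norm_pos_iff.2 (hne θ))]
    have := hr' θ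
    nlinarith
  · beta_reduce
    have e : Equi_W u (2 * Real.pi) = Equi_W u 0 := by
      unfold Equi_W
      have e1 : Complex.exp (-(2 * ((2 * Real.pi : ℝ) : ℂ)) * Complex.I) = 1 := by
        rw [Complex.exp_eq_one_iff]
        exact ⟨-2, by push_cast; ring⟩
      rw [e1, Complex.ofReal_zero, mul_zero, neg_zero, zero_mul, Complex.exp_zero]
    rw [e]
    ring
  · intro θ
    beta_reduce
    have e1 := hr' θ
    have e2 := Equi_in_le θ hA hB hD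
    rw [abs_div, abs_of_nonneg (sq_nonneg ‖Equi_W u θ‖), div_le_iff₀ (by positivity)]
    nlinarith [sq_nonneg (‖Equi_W u θ‖ - 3 / 4)]

private theorem Equi_nhd (η : ℝ) (hη : 0 < η) : ∃ U ∈ 𝓝 (1 : G), ∀ u ∈ U, ‖Equi_al u - 1‖ ≤ η ∧ ‖Equi_be u‖ ≤ η ∧
    |(u : Matrix (Fin 2) (Fin 2) ℝ) 0 0 ^ 2 + (u : Matrix (Fin 2) (Fin 2) ℝ) 1 0 ^ 2 - 1| ≤ η ∧
    |(u : Matrix (Fin 2) (Fin 2) ℝ) 0 0 * (u : Matrix (Fin 2) (Fin 2) ℝ) 0 1 +
      (u : Matrix (Fin 2) (Fin 2) ℝ) 1 0 * (u : Matrix (Fin 2) (Fin 2) ℝ) 1 1| ≤ η ∧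
    |(u : Matrix (Fin 2) (Fin 2) ℝ) 0 1 ^ 2 + (u : Matrix (Fin 2) (Fin 2) ℝ) 1 1 ^ 2 - 1| ≤ η := by
  have hent : ∀ i j, Continuous fun u : G => (u : Matrix (Fin 2) (Fin 2) ℝ) i j := fun i j =>
    (continuous_apply_apply i j).comp continuous_subtype_val
  have hc00 := hent 0 0
  have hc01 := hent 0 1
  have hc10 := hent 1 0
  have hc11 := hent 1 1
  have key : ∀ f : G → ℝ, Continuous f → f 1 = 0 → ∀ᶠ u in 𝓝 (1 : G), |f u| < η / 2 := by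
    intro f hf hf1
    have h1 : Tendsto (fun u => |f u|) (𝓝 1) (𝓝 0) := by
      have := (hf.abs).tendsto 1
      rwa [hf1, abs_zero] at this
    exact h1.eventually (gt_mem_nhds (by linarith))
  have k1 := key (fun u => ((u : Matrix (Fin 2) (Fin 2) ℝ) 0 0 + (u : Matrix (Fin 2) (Fin 2) ℝ) 1 1) / 2 - 1)
    (by fun_prop) (by simp)
  have k2 := key (fun u => ((u : Matrix (Fin 2) (Fin 2) ℝ) 1 0 - (u : Matrix (Fin 2) (Fin 2) ℝ) 0 1) / 2)
    (by fun_prop) (by simp)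
  have k3 := key (fun u => ((u : Matrix (Fin 2) (Fin 2) ℝ) 0 0 - (u : Matrix (Fin 2) (Fin 2) ℝ) 1 1) / 2)
    (by fun_prop) (by simp)
  have k4 := key (fun u => ((u : Matrix (Fin 2) (Fin 2) ℝ) 1 0 + (u : Matrix (Fin 2) (Fin 2) ℝ) 0 1) / 2)
    (by fun_prop) (by simp)
  have k5 := key (fun u => (u : Matrix (Fin 2) (Fin 2) ℝ) 0 0 ^ 2 + (u : Matrix (Fin 2) (Fin 2) ℝ) 1 0 ^ 2 - 1)
    (by fun_prop) (by simp)
  have k6 := key (fun u => (u : Matrix (Fin 2) (Fin 2) ℝ) 0 0 * (u : Matrix (Fin 2) (Fin 2) ℝ) 0 1 +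
      (u : Matrix (Fin 2) (Fin 2) ℝ) 1 0 * (u : Matrix (Fin 2) (Fin 2) ℝ) 1 1)
    (by fun_prop) (by simp)
  have k7 := key (fun u => (u : Matrix (Fin 2) (Fin 2) ℝ) 0 1 ^ 2 + (u : Matrix (Fin 2) (Fin 2) ℝ) 1 1 ^ 2 - 1)
    (by fun_prop) (by simp)
  refine ⟨_, k1.and (k2.and (k3.and (k4.and (k5.and (k6.and k7))))), ?_⟩
  rintro u ⟨h1, h2, h3, h4, h5, h6, h7⟩
  refine ⟨?_, ?_, by linarith, by linarith, by linarith⟩
  · refine (Complex.norm_le_abs_re_add_abs_im _).trans ?_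
    have e1 : (Equi_al u - 1).re =
        ((u : Matrix (Fin 2) (Fin 2) ℝ) 0 0 + (u : Matrix (Fin 2) (Fin 2) ℝ) 1 1) / 2 - 1 := rfl
    have e2 : (Equi_al u - 1).im =
        ((u : Matrix (Fin 2) (Fin 2) ℝ) 1 0 - (u : Matrix (Fin 2) (Fin 2) ℝ) 0 1) / 2 := by
      rw [Complex.sub_im, Complex.one_im, sub_zero]
      rfl
    rw [e1, e2]
    linarith
  · refine (Complex.norm_le_abs_re_add_abs_im _).trans ?_
    have e1 : (Equi_be u).re =
        ((u : Matrix (Fin 2) (Fin 2) ℝ) 0 0 - (u : Matrix (Fin 2) (Fin 2) ℝ) 1 1) / 2 := rfl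
    have e2 : (Equi_be u).im =
        ((u : Matrix (Fin 2) (Fin 2) ℝ) 1 0 + (u : Matrix (Fin 2) (Fin 2) ℝ) 0 1) / 2 := rfl
    rw [e1, e2]
    linarith

private theorem Equi_step (u : G) {φ b x θ : ℝ} (t : ℝ) (h : u * kk θ = kk φ * aa b * nn x) (g : G) :
    g * u * kk θ * aa t = g * kk φ * aa t * (aa b * nn (x * Real.exp (-t))) := by
  have h1 : aa b * aa t = aa t * aa b := by rw [← aa_add, ← aa_add, add_comm]
  calc g * u * kk θ * aa t = g * (u * kk θ) * aa t := by group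
    _ = g * kk φ * (aa b * (nn x * aa t)) := by rw [h]; group
    _ = g * kk φ * (aa b * aa t * nn (x * Real.exp (-t))) := by rw [nn_aa]; group
    _ = _ := by rw [h1]; group

theorem cm_equi {Ψ : G → ℂ} (h : BUC Ψ) : ∀ ε > 0, ∃ U ∈ 𝓝 (1 : G), ∀ g, ∀ u ∈ U, ∀ t, 0 ≤ t →
    ‖cm Ψ (g * u) t - cm Ψ g t‖ ≤ ε := by
  intro ε hε
  obtain ⟨C, hC⟩ := h.bdd
  have hC0 : 0 ≤ C := (norm_nonneg _).trans (hC 1)
  obtain ⟨V, hV, hV1⟩ := h.uc (ε / 2) (by linarith)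
  have hVV : ∃ η > 0, ∀ x y : ℝ, |x| < η → |y| < η → aa x * nn y ∈ V := by
    have hc : Continuous fun z : ℝ × ℝ => aa z.1 * nn z.2 :=
      (cont_aa.comp continuous_fst).mul (cont_nn.comp continuous_snd)
    have h1 : Tendsto (fun z : ℝ × ℝ => aa z.1 * nn z.2) (𝓝 (0, 0)) (𝓝 1) := by
      have h2 := hc.tendsto (0, 0)
      rwa [show aa ((0 : ℝ), (0 : ℝ)).1 * nn ((0 : ℝ), (0 : ℝ)).2 = 1 by
        rw [aa_zero, nn_zero, one_mul]] at h2
    have h3 := Metric.eventually_nhds_iff.1 (h1.eventually (show ∀ᶠ v in 𝓝 (1 : G), v ∈ V from hV))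
    obtain ⟨η, hη, h4⟩ := h3
    refine ⟨η, hη, fun x y hx hy => @h4 (x, y) ?_⟩
    rw [Prod.dist_eq, Real.dist_eq, Real.dist_eq, sub_zero, sub_zero]
    exact max_lt hx hy
  obtain ⟨η, hη, hη1⟩ := hVV
  let δ : ℝ := min (1 / 8) (min (η / 16) (ε / (8 * (C + 1))))
  have hδ1 : δ ≤ 1 / 8 := min_le_left _ _
  have hδ2 : δ ≤ η / 16 := (min_le_right _ _).trans (min_le_left _ _)
  have hδ3 : δ ≤ ε / (8 * (C + 1)) := (min_le_right _ _).trans (min_le_right _ _)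
  have hδ0 : 0 < δ := lt_min (by norm_num) (lt_min (by linarith) (by positivity))
  have hδC : 3 * δ * C ≤ ε / 2 := by
    rw [le_div_iff₀ (by positivity)] at hδ3
    nlinarith
  obtain ⟨U, hU, hU1⟩ := Equi_nhd δ hδ0
  refine ⟨U, hU, fun g u hu t ht => ?_⟩
  obtain ⟨c1, c2, c3, c4, c5⟩ := hU1 u hu
  obtain ⟨φ, φ', bb, xx, d1, d2, d3, d4, d5, d6, d7⟩ := Equi_core hδ1 hδ0.le c1 c2 c3 c4 c5
  have hpi := Real.pi_pos
  have hφc : Continuous φ := continuous_iff_continuousAt.2 fun θ => (d1 θ).continuousAt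
  let G1 : ℝ → ℂ := fun s => Ψ (g * kk s * aa t)
  have hG1c : Continuous G1 := h.cont.comp ((continuous_const.mul cont_kk).mul continuous_const)
  have hF1c : Continuous fun θ => Ψ (g * u * kk θ * aa t) :=
    h.cont.comp ((continuous_const.mul cont_kk).mul continuous_const)
  have hper : Function.Periodic G1 (2 * Real.pi) := fun s => by
    change Ψ (g * kk (s + 2 * Real.pi) * aa t) = Ψ (g * kk s * aa t)
    rw [kk_two_pi]
  have hint : (∫ θ in (0 : ℝ)..(2 * Real.pi), φ' θ • G1 (φ θ)) = ∫ s in (0 : ℝ)..(2 * Real.pi), G1 s := by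
    have e1 := intervalIntegral.integral_deriv_smul_comp (a := 0) (b := 2 * Real.pi) (f := φ) (f' := φ') (g := G1)
      (fun x _ => d1 x) d2.continuousOn hG1c
    have e2 := hper.intervalIntegral_add_eq (φ 0) 0
    rw [zero_add] at e2
    rw [← e2, ← d4, ← e1]
    rfl
  have hdiff : cm Ψ (g * u) t - cm Ψ g t = (2 * Real.pi : ℂ)⁻¹ *
      ∫ θ in (0 : ℝ)..(2 * Real.pi), (Ψ (g * u * kk θ * aa t) - φ' θ • G1 (φ θ)) := by
    have e3 : Continuous fun θ => φ' θ • G1 (φ θ) := d2.smul (hG1c.comp hφc)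
    have e4 := intervalIntegral.integral_sub (hF1c.intervalIntegrable (μ := MeasureTheory.volume) 0 (2 * Real.pi))
      (e3.intervalIntegrable (μ := MeasureTheory.volume) 0 (2 * Real.pi))
    rw [e4, hint, mul_sub]
    rfl
  rw [hdiff, norm_mul]
  have hb : ∀ θ ∈ Set.uIoc 0 (2 * Real.pi), ‖Ψ (g * u * kk θ * aa t) - φ' θ • G1 (φ θ)‖ ≤ ε := by
    intro θ _
    have e1 : Ψ (g * u * kk θ * aa t) - φ' θ • G1 (φ θ) =
        (Ψ (g * u * kk θ * aa t) - G1 (φ θ)) - (φ' θ - 1) • G1 (φ θ) := by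
      rw [sub_smul, one_smul]
      ring
    have e2 : ‖Ψ (g * u * kk θ * aa t) - G1 (φ θ)‖ ≤ ε / 2 := by
      rw [Equi_step u t (d5 θ) g]
      refine hV1 _ _ (hη1 _ _ ?_ ?_)
      · have := d6 θ
        linarith
      · rw [abs_mul, abs_of_pos (Real.exp_pos _)]
        have e3 : Real.exp (-t) ≤ 1 := Real.exp_le_one_iff.2 (by linarith)
        have e4 := d7 θ
        have e5 := mul_le_mul_of_nonneg_left e3 (abs_nonneg (xx θ))
        linarith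
    have e3 : ‖(φ' θ - 1) • G1 (φ θ)‖ ≤ ε / 2 := by
      rw [norm_smul, Real.norm_eq_abs]
      exact (mul_le_mul (d3 θ) (hC _) (norm_nonneg _) (by linarith)).trans hδC
    rw [e1]
    exact (norm_sub_le _ _).trans (by linarith)
  have hb2 := intervalIntegral.norm_integral_le_of_norm_le_const hb
  rw [sub_zero, abs_of_pos (by linarith)] at hb2
  have e6 : ‖(2 * Real.pi : ℂ)⁻¹‖ = (2 * Real.pi)⁻¹ := by
    rw [norm_inv, norm_mul, Complex.norm_ofNat, Complex.norm_real, Real.norm_eq_abs, abs_of_pos hpi]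
  rw [e6]
  calc (2 * Real.pi)⁻¹ * ‖∫ θ in (0 : ℝ)..(2 * Real.pi), (Ψ (g * u * kk θ * aa t) - φ' θ • G1 (φ θ))‖
      ≤ (2 * Real.pi)⁻¹ * (ε * (2 * Real.pi)) := mul_le_mul_of_nonneg_left hb2 (by positivity)
    _ = ε := by field_simp

end MPkt
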