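import Pool.Agent.Lib.MP_7b255b_nt.Conv

/-!
# Fin: the space of the automorphic functionals has finite dimension

* `inj`: if `η(π g v) = 0` for all `g` (`v ≠ 0` smooth of weight `m`) then `η = 0` on the smooth vectors: let `e ≠ 0` be smooth of weight `n`. There is `g` with `⟪e, π g v⟫ ≠ 0`: otherwise the closed span of the `π g v`, which is invariant and not `0`, hence
  `H`, would be orthogonal to `e`. `Pn n (π g v) = c e` with `c ‖e‖^2 = ⟪e, Pn n (π g v)⟫ = ⟪Pn n e, π g v⟫ = ⟪e, π g v⟫ ≠ 0` (`MultOne`, `inner_Pn`, `Pn_self`), and `η(Pn n (π g v)) = 0` by `eta_Pn`. So `η e = 0`; `eta_zero`.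
* `fin`: if the space is not `0` there are (by `eta_zero`) `m` and a smooth unit vector `v` of weight `m`. Norm on `AutSp`: `‖η‖ = sup_{g ∈ Ω} ‖η(π g v)‖ = sup_{g ∈ G}` (bounded: continuous on the compact set `Ω`, `Γ`-invariance), a norm by `inj`; i.e. the
  linear injection of `AutSp` into `C(Ω, ℂ)`. If the range `V` has infinite dimension there is a sequence in `V` with norms `≤ R` and mutual distances `≥ 1` (`exists_seq_norm_le_one_le_norm_sub`); but by `equi` the elements of `V` of norm `≤ R` are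
  equicontinuous and bounded, so they form a relatively compact set in `C(Ω, ℂ)` (Arzela-Ascoli, `BoundedContinuousFunction.arzela_ascoli`), contradiction.

-/

set_option autoImplicit false

namespace MPkt

open Filter Topology

universe u

variable {H : Type u} [NormedAddCommGroup H] [InnerProductSpace ℂ H] [CompleteSpace H]

omit [CompleteSpace H] in
private theorem Fin_jet_nonneg (π : URep H) (l : ℕ) (v : H) : 0 ≤ jet π l v :=
  Finset.sum_nonneg fun _ _ => norm_nonneg _

omit [CompleteSpace H] in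
private theorem Fin_jet_mono (π : URep H) {l l' : ℕ} (h : l ≤ l') (v : H) : jet π l v ≤ jet π l' v := by
  unfold jet
  refine Finset.sum_le_sum_of_subset_of_nonneg ?_ fun _ _ _ => norm_nonneg _
  intro x hx
  rw [Finset.mem_range] at hx ⊢
  omega

/-- The space of the `Γ`-invariant continuous linear functionals on the smooth vectors (extended by zero). -/
def AutSp (π : URep H) (Γ : Subgroup G) : Submodule ℂ (H → ℂ) where
  carrier := {η | IsLin π η ∧ (∀ γ ∈ Γ, ∀ v, Smooth π v → η (π.r γ v) = η v) ∧ ∀ v, ¬ Smooth π v → η v = 0}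
  add_mem' := by
    rintro a b ⟨⟨a1, a2, l, C, a3⟩, a4, a5⟩ ⟨⟨b1, b2, l', C', b3⟩, b4, b5⟩
    refine ⟨⟨?_, ?_, max l l', |C| + |C'|, ?_⟩, ?_, ?_⟩
    · intro v w hv hw
      simp only [Pi.add_apply]
      rw [a1 v w hv hw, b1 v w hv hw]
      ring
    · intro c v hv
      simp only [Pi.add_apply]
      rw [a2 c v hv, b2 c v hv]
      ring
    · intro v hv
      simp only [Pi.add_apply]
      refine (norm_add_le _ _).trans ?_
      rw [add_mul]
      refine add_le_add ?_ ?_
      · exact (a3 v hv).trans ((mul_le_mul_of_nonneg_right (le_abs_self C) (Fin_jet_nonneg π l v)).trans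
          (mul_le_mul_of_nonneg_left (Fin_jet_mono π (le_max_left l l') v) (abs_nonneg C)))
      · exact (b3 v hv).trans ((mul_le_mul_of_nonneg_right (le_abs_self C') (Fin_jet_nonneg π l' v)).trans
          (mul_le_mul_of_nonneg_left (Fin_jet_mono π (le_max_right l l') v) (abs_nonneg C')))
    · intro γ hγ v hv
      simp only [Pi.add_apply]
      rw [a4 γ hγ v hv, b4 γ hγ v hv]
    · intro v hv
      simp only [Pi.add_apply]
      rw [a5 v hv, b5 v hv, add_zero]
  zero_mem' := by
    refine ⟨⟨?_, ?_, 0, 0, ?_⟩, ?_, ?_⟩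
    · intro v w _ _
      simp
    · intro c v _
      simp
    · intro v _
      simp
    · intro γ _ v _
      rfl
    · intro v _
      rfl
  smul_mem' := by
    rintro k a ⟨⟨a1, a2, l, C, a3⟩, a4, a5⟩
    refine ⟨⟨?_, ?_, l, ‖k‖ * C, ?_⟩, ?_, ?_⟩
    · intro v w hv hw
      simp only [Pi.smul_apply, smul_eq_mul]
      rw [a1 v w hv hw]
      ring
    · intro c v hv
      simp only [Pi.smul_apply, smul_eq_mul]
      rw [a2 c v hv]
      ring
    · intro v hv
      simp only [Pi.smul_apply, smul_eq_mul]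
      rw [norm_mul, mul_assoc]
      exact mul_le_mul_of_nonneg_left (a3 v hv) (norm_nonneg k)
    · intro γ hγ v hv
      simp only [Pi.smul_apply, smul_eq_mul]
      rw [a4 γ hγ v hv]
    · intro v hv
      simp only [Pi.smul_apply, smul_eq_mul]
      rw [a5 v hv, mul_zero]

variable {π : URep H}

omit [CompleteSpace H] in
private theorem Fin_r_mul (g h : G) (v : H) : π.r (g * h) v = π.r g (π.r h v) := by
  rw [map_mul]
  rfl

omit [CompleteSpace H] in
private theorem Fin_exists_inner (hI : Irred π) {v e : H} (h0 : v ≠ 0) (he : e ≠ 0) :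
    ∃ g : G, inner ℂ e (π.r g v) ≠ 0 := by
  by_contra hcon
  simp only [not_exists, ne_eq, not_not] at hcon
  let W : Submodule ℂ H :=
    { carrier := {x | ∀ g : G, inner ℂ e (π.r g x) = 0}
      add_mem' := by
        intro a b ha hb g
        rw [map_add, inner_add_right, ha g, hb g, add_zero]
      zero_mem' := by
        intro g
        rw [map_zero, inner_zero_right]
      smul_mem' := by
        intro c a ha g
        rw [map_smul, inner_smul_right, ha g, mul_zero] }
  have hWc : IsClosed (W : Set H) := by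
    have h1 : (W : Set H) = ⋂ g : G, {x | inner ℂ e (π.r g x) = 0} := by
      ext x
      simp only [Set.mem_iInter, Set.mem_ofPred_eq]
      exact Iff.rfl
    rw [h1]
    refine isClosed_iInter fun g => ?_
    exact isClosed_eq (continuous_const.inner (π.r g).continuous) continuous_const
  have hWi : ∀ g, ∀ w ∈ W, π.r g w ∈ W := by
    intro g w hw g'
    rw [← Fin_r_mul]
    exact hw (g' * g)
  rcases hI.irr W hWc hWi with h1 | h1
  · have h2 : v ∈ W := hcon
    rw [h1] at h2
    exact h0 ((Submodule.mem_bot ℂ).1 h2)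
  · have h2 : e ∈ W := by rw [h1]; exact Submodule.mem_top
    have h3 := h2 1
    rw [map_one] at h3
    have h4 : inner ℂ e e = 0 := h3
    exact he (inner_self_eq_zero.1 h4)

theorem inj (hI : Irred π) (hmult : MultOne π) {m : ℤ} {v : H} (hv : Smooth π v) (hw : IsWeight π m v) (h0 : v ≠ 0)
    {η : H → ℂ} (hη : IsLin π η) (h : ∀ g, η (π.r g v) = 0) {w : H} (hw' : Smooth π w) : η w = 0 := by
  refine eta_zero π hη ?_ hw'
  intro n e he hen
  by_cases he0 : e = 0
  · rw [he0]
    exact hη.zero
  obtain ⟨g, hg⟩ := Fin_exists_inner hI h0 he0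
  have hgs : Smooth π (π.r g v) := smooth_r π g hv
  obtain ⟨c, hc⟩ := hmult n e (Pn π n (π.r g v)) he (Pn_smooth π n hgs) hen (Pn_weight π n _) he0
  have h1 : inner ℂ e (Pn π n (π.r g v)) = inner ℂ e (π.r g v) := by
    rw [inner_Pn, Pn_self π hen]
  have hc0 : c ≠ 0 := by
    intro hc0
    rw [hc, hc0, zero_smul, inner_zero_right] at h1
    exact hg h1.symm
  have h2 : η (Pn π n (π.r g v)) = 0 := by
    rw [eta_Pn π hη n hgs]
    have h3 : ∀ θ : ℝ, Complex.exp (-(n * θ * Complex.I)) * η (π.r (kk θ) (π.r g v)) = 0 := by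
      intro θ
      rw [← Fin_r_mul, h, mul_zero]
    rw [intervalIntegral.integral_congr (g := fun _ => (0 : ℂ)) fun θ _ => h3 θ]
    rw [intervalIntegral.integral_zero, mul_zero]
  rw [hc, hη.smul c e he] at h2
  exact (mul_eq_zero.1 h2).resolve_left hc0

theorem fin (hI : Irred π) (hmult : MultOne π) {Γ : Subgroup G} (hΓ : IsCocpt Γ) :
    FiniteDimensional ℂ (AutSp π Γ) := by
  obtain ⟨-, Ω, hΩ, hcov⟩ := hΓ
  by_cases hex : ∃ η0 : AutSp π Γ, η0 ≠ 0
  swap
  · simp only [not_exists, ne_eq, not_not] at hex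
    have : Subsingleton (AutSp π Γ) := ⟨fun a b => by rw [hex a, hex b]⟩
    infer_instance
  obtain ⟨η0, hη0⟩ := hex
  have hex2 : ∃ (n : ℤ) (e : H), Smooth π e ∧ IsWeight π n e ∧ η0.1 e ≠ 0 := by
    by_contra hcon
    simp only [not_exists, not_and, ne_eq, not_not] at hcon
    apply hη0
    apply Subtype.ext
    funext w
    by_cases hw : Smooth π w
    · exact eta_zero π η0.2.1 (fun n e he hen => hcon n e he hen) hw
    · exact η0.2.2.2 w hw
  obtain ⟨m, e, he, hem, hne⟩ := hex2
  have he0 : e ≠ 0 := by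
    rintro rfl
    exact hne η0.2.1.zero
  have hnorm : ‖e‖ ≠ 0 := norm_ne_zero_iff.2 he0
  obtain ⟨v, hv, hvm, hv1⟩ : ∃ v : H, Smooth π v ∧ IsWeight π m v ∧ ‖v‖ = 1 := by
    refine ⟨((‖e‖ : ℂ)⁻¹) • e, smooth_smul π _ he, ?_, ?_⟩
    · intro θ
      rw [map_smul, hem θ, smul_comm]
    · rw [norm_smul, norm_inv, Complex.norm_real, norm_norm, inv_mul_cancel₀ hnorm]
  have hv0 : v ≠ 0 := by
    rintro rfl
    rw [norm_zero] at hv1
    exact zero_ne_one hv1
  have hcomp : CompactSpace Ω := isCompact_iff_compactSpace.1 hΩ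
  let Λ : AutSp π Γ →ₗ[ℂ] BoundedContinuousFunction Ω ℂ :=
    { toFun := fun η => BoundedContinuousFunction.mkOfCompact
        ⟨fun g : Ω => η.1 (π.r (g : G) v), (eta_cont π η.2.1 hv).comp continuous_subtype_val⟩
      map_add' := by
        intro a b
        ext g
        rfl
      map_smul' := by
        intro c a
        ext g
        rfl }
  have hΛ : ∀ (η : AutSp π Γ) (g : Ω), Λ η g = η.1 (π.r (g : G) v) := fun η g => rfl
  have hall : ∀ (η : AutSp π Γ) (g : G), ∃ g' : Ω, η.1 (π.r g v) = Λ η g' := by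
    intro η g
    obtain ⟨γ, hγ, hγg⟩ := hcov g
    refine ⟨⟨γ * g, hγg⟩, ?_⟩
    rw [hΛ, Fin_r_mul, η.2.2.1 γ hγ _ (smooth_r π g hv)]
  have hinj : Function.Injective Λ := by
    rw [injective_iff_map_eq_zero]
    intro η hη
    apply Subtype.ext
    funext w
    by_cases hw : Smooth π w
    · refine inj hI hmult hv hvm hv0 η.2.1 ?_ hw
      intro g
      obtain ⟨g', hg'⟩ := hall η g
      rw [hg', hη]
      rfl
    · exact η.2.2.2 w hw
  have hfin : FiniteDimensional ℂ (LinearMap.range Λ) := by
    by_contra hnf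
    obtain ⟨R, f, hR, hf1, hf2⟩ := exists_seq_norm_le_one_le_norm_sub (𝕜 := ℂ) hnf
    choose η hη using fun n => (f n).2
    have hbd : ∀ (n : ℕ) (g : G), ‖(η n).1 (π.r g v)‖ ≤ R := by
      intro n g
      obtain ⟨g', hg'⟩ := hall (η n) g
      rw [hg', hη n]
      exact ((f n : BoundedContinuousFunction Ω ℂ).norm_coe_le_norm g').trans (hf1 n)
    let A : Set (BoundedContinuousFunction Ω ℂ) := Set.range fun n => (f n : BoundedContinuousFunction Ω ℂ)
    have hA : IsCompact (closure A) := by
      refine BoundedContinuousFunction.arzela_ascoli (Metric.closedBall 0 R) (isCompact_closedBall 0 R) A ?_ ?_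
      · rintro F x ⟨n, rfl⟩
        rw [mem_closedBall_zero_iff]
        exact ((f n : BoundedContinuousFunction Ω ℂ).norm_coe_le_norm x).trans (hf1 n)
      · intro x0
        rw [Metric.equicontinuousAt_iff_right]
        intro ε hε
        have hR0 : 0 < R := lt_trans one_pos hR
        obtain ⟨U, hU, hU2⟩ := equi hmult hv hvm hv1 (ε / (2 * R)) (by positivity)
        have hcont : Tendsto (fun g : Ω => (x0 : G)⁻¹ * (g : G)) (𝓝 x0) (𝓝 (1 : G)) := by
          have h1 : Continuous fun g : Ω => (x0 : G)⁻¹ * (g : G) := continuous_const.mul continuous_subtype_val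
          have h2 := h1.tendsto x0
          rwa [inv_mul_cancel] at h2
        filter_upwards [hcont hU] with g hg
        rintro ⟨F, n, rfl⟩
        have h3 := hU2 (η n).1 (η n).2.1 R (hbd n) (x0 : G) _ hg
        rw [mul_inv_cancel_left] at h3
        have h4 : ∀ y : Ω, (f n : BoundedContinuousFunction Ω ℂ) y = (η n).1 (π.r (y : G) v) := by
          intro y
          rw [← hη n, hΛ]
        show dist ((f n : BoundedContinuousFunction Ω ℂ) x0) ((f n : BoundedContinuousFunction Ω ℂ) g) < ε
        rw [dist_comm, dist_eq_norm, h4, h4]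
        refine lt_of_le_of_lt h3 ?_
        have h5 : ε / (2 * R) * R = ε / 2 := by
          field_simp
        rw [h5]
        linarith
    obtain ⟨a, -, φ, hφ, hlim⟩ := hA.tendsto_subseq (x := fun n => (f n : BoundedContinuousFunction Ω ℂ))
      fun n => subset_closure ⟨n, rfl⟩
    have hcau := hlim.cauchySeq
    rw [Metric.cauchySeq_iff'] at hcau
    obtain ⟨N, hN⟩ := hcau 1 one_pos
    have h6 := hN (N + 1) (Nat.le_succ N)
    have h7 : φ (N + 1) ≠ φ N := (hφ (Nat.lt_succ_self N)).ne'
    have h8 := hf2 h7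
    rw [Function.comp_apply, Function.comp_apply, dist_eq_norm] at h6
    have h9 : ‖f (φ (N + 1)) - f (φ N)‖ =
        ‖(f (φ (N + 1)) : BoundedContinuousFunction Ω ℂ) - (f (φ N) : BoundedContinuousFunction Ω ℂ)‖ := rfl
    rw [h9] at h8
    linarith
  exact LinearEquiv.finiteDimensional (LinearEquiv.ofInjective Λ hinj).symm

end MPkt
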