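import Pool.Agent.Lib.MP_7b255b_nt.SmI

/-!
# Four: Fourier series

`Pn π n w` is the component of weight `n` of `w`.
* `Pn_smooth`, `eta_Pn`: `int_smooth`, `int_eta` for the interval `(0, 2π]` and `g = kk`. `Pn_weight`: periodicity of `θ ↦ e^{-inθ} π(kk θ) w`.
* `inner_Pn`: `⟪Pn n w, w'⟫`-orthogonality: for `n ≠ m` weight vectors are orthogonal (`π(kk θ)` unitary); `⟪w, Pn n w⟫ = ‖Pn n w‖^2` (`Pn` is the orthogonal projection: `Pn (Pn w) = Pn w`, self-adjoint).
* `sum_Pn`: the function `D(ψ) = ⟪w, π(kk ψ) w⟫` is continuous, `2π`-periodic, its Fourier coefficients are `⟪w, Pn n w⟫ = ‖Pn n w‖^2`, and `∑_n ‖Pn n w‖^2 ≤ ‖w‖^2` (Bessel), so `D(ψ) = ∑_n ‖Pn n w‖^2 e^{inψ}`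
  (`has_pointwise_sum_fourier_series_of_summable`).
* `sum_eta`: `E(ψ) = (2π)⁻¹ ∫ conj F(θ) F(θ + ψ) dθ`, `F(θ) = η(π(kk θ) w)` continuous and periodic, with the Fourier coefficients `η(Pn n w)` (`eta_Pn`); the Fourier coefficients of `E` are `|η(Pn n w)|^2` (Fubini), summable
  (Bessel / Parseval `hasSum_sq_fourierCoeff`), so `E(ψ) = ∑_n |η(Pn n w)|^2 e^{inψ}`.
* `four_ineq`: `∑_i r_i E(ψ_i) = ∑_n |η(Pn n w)|^2 R(n)`, `R(n) ≥ 0`; for `n ≠ 0` `|η(Pn n w)| ≤ M ‖Pn n w‖`, so it is `≤ M^2 ∑_n ‖Pn n w‖^2 R(n) + |η(Pn 0 w)|^2 R(0)`.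

-/

set_option autoImplicit false

namespace MPkt

open Filter Topology MeasureTheory

section FourAux

theorem Four_two_pi_pos : (0 : ℝ) < 2 * Real.pi := by positivity

/-- The exponential. -/
noncomputable def Four_e (n : ℤ) (θ : ℝ) : ℂ := Complex.exp (n * θ * Complex.I)

theorem Four_e_cont (n : ℤ) : Continuous (Four_e n) := by
  unfold Four_e
  fun_prop

theorem Four_e_per (n : ℤ) : Function.Periodic (Four_e n) (2 * Real.pi) := by
  intro θ
  unfold Four_e
  have h : (n : ℂ) * ((θ + 2 * Real.pi : ℝ) : ℂ) * Complex.I = n * θ * Complex.I + n * (2 * Real.pi * Complex.I) := by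
    push_cast
    ring
  rw [h, Complex.exp_add, Complex.exp_int_mul_two_pi_mul_I, mul_one]

theorem Four_e_neg (n : ℤ) (θ : ℝ) : Complex.exp (-(n * θ * Complex.I)) = Four_e (-n) θ := by
  unfold Four_e
  push_cast
  congr 1
  ring

theorem Four_e_neg' (n : ℤ) (θ : ℝ) : Four_e n (-θ) = Four_e (-n) θ := by
  unfold Four_e
  push_cast
  congr 1
  ring

theorem Four_e_add (n : ℤ) (s t : ℝ) : Four_e n (s + t) = Four_e n s * Four_e n t := by
  unfold Four_e
  rw [← Complex.exp_add]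
  push_cast
  congr 1
  ring

theorem Four_e_mul_neg (n : ℤ) (θ : ℝ) : Four_e n θ * Four_e (-n) θ = 1 := by
  unfold Four_e
  rw [← Complex.exp_add]
  push_cast
  rw [← Complex.exp_zero]
  congr 1
  ring

theorem Four_e_star (n : ℤ) (θ : ℝ) : (starRingEnd ℂ) (Four_e n θ) = Four_e (-n) θ := by
  unfold Four_e
  rw [← Complex.exp_conj]
  simp only [map_mul, Complex.conj_I, Complex.conj_ofReal, map_intCast]
  push_cast
  congr 1
  ring

theorem Four_e_zero (n : ℤ) : Four_e n 0 = 1 := by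
  unfold Four_e
  rw [Complex.ofReal_zero, mul_zero, zero_mul, Complex.exp_zero]

theorem Four_e_0 (θ : ℝ) : Four_e 0 θ = 1 := by
  unfold Four_e
  rw [Int.cast_zero, zero_mul, zero_mul, Complex.exp_zero]

/-- The Fourier coefficient. -/
noncomputable def Four_c (f : ℝ → ℂ) (n : ℤ) : ℂ :=
  (2 * Real.pi : ℂ)⁻¹ * ∫ θ in (0 : ℝ)..(2 * Real.pi), Complex.exp (-(n * θ * Complex.I)) * f θ

/-- The pointwise convergence of the Fourier series. -/
theorem Four_series {f : ℝ → ℂ} (hf : Continuous f) (hp : Function.Periodic f (2 * Real.pi))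
    (hs : Summable (Four_c f)) (θ : ℝ) :
    HasSum (fun n : ℤ => Four_c f n * Complex.exp (n * θ * Complex.I)) (f θ) := by
  have hT : Fact ((0 : ℝ) < 2 * Real.pi) := ⟨Four_two_pi_pos⟩
  let F : C(AddCircle (2 * Real.pi), ℂ) := ⟨hp.lift, hf.quotient_liftOn' _⟩
  have hc : fourierCoeff (T := 2 * Real.pi) F = Four_c f := by
    funext n
    rw [fourierCoeff_eq_intervalIntegral _ n 0, zero_add]
    unfold Four_c
    rw [Complex.real_smul]
    congr 1
    · push_cast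
      rw [one_div]
    · refine intervalIntegral.integral_congr fun x _ => ?_
      rw [fourier_coe_apply, smul_eq_mul]
      congr 1
      congr 1
      have hpi : (Real.pi : ℂ) ≠ 0 := by exact_mod_cast Real.pi_ne_zero
      push_cast
      field_simp
  have h1 := has_pointwise_sum_fourier_series_of_summable (T := 2 * Real.pi) (f := F)
    (by rw [hc]; exact hs) (θ : AddCircle (2 * Real.pi))
  rw [hc] at h1
  have h2 : F (θ : AddCircle (2 * Real.pi)) = f θ := rfl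
  rw [h2] at h1
  have h3 : (fun i : ℤ => Four_c f i • (fourier i) (θ : AddCircle (2 * Real.pi))) =
      fun n : ℤ => Four_c f n * Complex.exp (n * θ * Complex.I) := by
    funext n
    rw [fourier_coe_apply, smul_eq_mul]
    congr 1
    congr 1
    have hpi : (Real.pi : ℂ) ≠ 0 := by exact_mod_cast Real.pi_ne_zero
    push_cast
    field_simp
  rw [h3] at h1
  exact h1

/-- Parseval. -/
theorem Four_parseval {f : ℝ → ℂ} (hf : Continuous f) : Summable fun n : ℤ => ‖Four_c f n‖ ^ 2 := by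
  have hL2 : MemLp f 2 (volume.restrict (Set.Ioc (0 : ℝ) (2 * Real.pi))) := by
    obtain ⟨C, hC⟩ := (isCompact_Icc (a := (0 : ℝ)) (b := 2 * Real.pi)).exists_bound_of_continuousOn
      hf.continuousOn
    refine MemLp.of_bound hf.aestronglyMeasurable C ?_
    refine (ae_restrict_iff' measurableSet_Ioc).mpr (Filter.Eventually.of_forall fun x hx => ?_)
    exact hC x (Set.Ioc_subset_Icc_self hx)
  have h := (hasSum_sq_fourierCoeffOn Four_two_pi_pos hL2).summable
  have h3 : (fun i : ℤ => ‖fourierCoeffOn Four_two_pi_pos f i‖ ^ 2) = fun n : ℤ => ‖Four_c f n‖ ^ 2 := by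
    funext n
    congr 2
    rw [fourierCoeffOn_eq_integral]
    unfold Four_c
    rw [Complex.real_smul]
    congr 1
    · push_cast
      rw [one_div, sub_zero]
    · refine intervalIntegral.integral_congr fun x _ => ?_
      rw [fourier_coe_apply, smul_eq_mul]
      congr 1
      congr 1
      have hpi : (Real.pi : ℂ) ≠ 0 := by exact_mod_cast Real.pi_ne_zero
      push_cast
      rw [sub_zero]
      field_simp
  rw [h3] at h
  exact h

theorem Four_kk_per : Function.Periodic kk (2 * Real.pi) := fun s => kk_two_pi s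

theorem Four_int_add {E' : Type*} [NormedAddCommGroup E'] [NormedSpace ℝ E'] {f : ℝ → E'}
    (hp : Function.Periodic f (2 * Real.pi)) (s : ℝ) :
    (∫ θ in (0 : ℝ)..(2 * Real.pi), f (s + θ)) = ∫ θ in (0 : ℝ)..(2 * Real.pi), f θ := by
  rw [intervalIntegral.integral_comp_add_left, add_zero]
  have h := hp.intervalIntegral_add_eq s 0
  rw [zero_add] at h
  exact h

theorem Four_int_neg {E' : Type*} [NormedAddCommGroup E'] [NormedSpace ℝ E'] {f : ℝ → E'}
    (hp : Function.Periodic f (2 * Real.pi)) :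
    (∫ θ in (0 : ℝ)..(2 * Real.pi), f (-θ)) = ∫ θ in (0 : ℝ)..(2 * Real.pi), f θ := by
  rw [intervalIntegral.integral_comp_neg, neg_zero]
  have h := hp.intervalIntegral_add_eq (-(2 * Real.pi)) 0
  rw [zero_add, neg_add_cancel] at h
  exact h


end FourAux

universe u

variable {H : Type u} [NormedAddCommGroup H] [InnerProductSpace ℂ H] [CompleteSpace H] (π : URep H)

/-- The component of weight `n`. -/
noncomputable def Pn (n : ℤ) (w : H) : H :=
  (2 * Real.pi : ℂ)⁻¹ • ∫ θ in (0 : ℝ)..(2 * Real.pi), Complex.exp (-(n * θ * Complex.I)) • π.r (kk θ) w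

theorem Four_cont_r (w : H) : Continuous fun θ : ℝ => π.r (kk θ) w := (π.cont w).comp cont_kk

theorem Four_r_per (w : H) : Function.Periodic (fun θ : ℝ => π.r (kk θ) w) (2 * Real.pi) := by
  intro θ
  show π.r (kk (θ + 2 * Real.pi)) w = π.r (kk θ) w
  rw [kk_two_pi]

theorem Four_Pn_e (n : ℤ) (w : H) : Pn π n w =
    (2 * Real.pi : ℂ)⁻¹ • ∫ θ in (0 : ℝ)..(2 * Real.pi), Four_e (-n) θ • π.r (kk θ) w := by
  unfold Pn
  congr 1
  refine intervalIntegral.integral_congr fun θ _ => ?_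
  show Complex.exp (-(n * θ * Complex.I)) • π.r (kk θ) w = Four_e (-n) θ • π.r (kk θ) w
  rw [Four_e_neg]

theorem Four_int_cont (n : ℤ) (w : H) : IntervalIntegrable (fun θ : ℝ => Four_e (-n) θ • π.r (kk θ) w) volume 0
    (2 * Real.pi) :=
  Continuous.intervalIntegrable ((Four_e_cont (-n)).smul (Four_cont_r π w)) _ _

theorem Four_L {E' : Type*} [NormedAddCommGroup E'] [NormedSpace ℂ E'] [CompleteSpace E'] (L : H →L[ℂ] E') (n : ℤ)
    (w : H) : L (Pn π n w) =
    (2 * Real.pi : ℂ)⁻¹ • ∫ θ in (0 : ℝ)..(2 * Real.pi), Four_e (-n) θ • L (π.r (kk θ) w) := by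
  rw [Four_Pn_e, map_smul, ← L.intervalIntegral_comp_comm (Four_int_cont π n w)]
  congr 1
  refine intervalIntegral.integral_congr fun θ _ => ?_
  exact map_smul L _ _

theorem Four_Pn_set (n : ℤ) (w : H) : Pn π n w = ∫ θ, ((2 * Real.pi : ℂ)⁻¹ * Four_e (-n) θ) • π.r (kk θ) w
    ∂(volume.restrict (Set.Ioc (0 : ℝ) (2 * Real.pi))) := by
  rw [Four_Pn_e, intervalIntegral.integral_of_le Four_two_pi_pos.le, ← integral_smul]
  refine integral_congr_ae (Filter.Eventually.of_forall fun θ => ?_)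
  exact smul_smul _ _ _

theorem Four_c_int (n : ℤ) : Integrable (fun θ : ℝ => (2 * Real.pi : ℂ)⁻¹ * Four_e (-n) θ)
    (volume.restrict (Set.Ioc (0 : ℝ) (2 * Real.pi))) :=
  (Continuous.continuousOn (continuous_const.mul (Four_e_cont (-n)))).integrableOn_compact
    (isCompact_Icc (a := (0 : ℝ)) (b := 2 * Real.pi)) |>.mono_set Set.Ioc_subset_Icc_self

theorem Four_kk_sm : StronglyMeasurable kk := by
  have h2 : TopologicalSpace.PseudoMetrizableSpace G := by
    have h4 : TopologicalSpace.PseudoMetrizableSpace (Matrix (Fin 2) (Fin 2) ℝ) :=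
      inferInstanceAs (TopologicalSpace.PseudoMetrizableSpace (Fin 2 → Fin 2 → ℝ))
    have h3 : Topology.IsInducing (fun g : G => (g : Matrix (Fin 2) (Fin 2) ℝ)) :=
      Topology.IsInducing.subtypeVal
    exact h3.pseudoMetrizableSpace
  exact cont_kk.stronglyMeasurable

theorem Four_kk_cpt : IsCompact (Set.range kk) :=
  Four_kk_per.compact_of_continuous Four_two_pi_pos.ne' cont_kk

theorem Pn_smooth (n : ℤ) {w : H} (hw : Smooth π w) : Smooth π (Pn π n w) := by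
  rw [Four_Pn_set]
  exact int_smooth π _ (Four_c_int n) Four_kk_sm Four_kk_cpt (fun a _ => ⟨a, rfl⟩) hw

theorem Pn_weight (n : ℤ) (w : H) : IsWeight π n (Pn π n w) := by
  intro ψ
  have h1 := Four_L π ((π.r (kk ψ)).toContinuousLinearEquiv : H →L[ℂ] H) n w
  have h2 : ((π.r (kk ψ)).toContinuousLinearEquiv : H →L[ℂ] H) (Pn π n w) = π.r (kk ψ) (Pn π n w) := rfl
  rw [h2] at h1
  rw [h1]
  have hp : Function.Periodic (fun θ : ℝ => Four_e (-n) θ • π.r (kk θ) w) (2 * Real.pi) := by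
    intro θ
    show Four_e (-n) (θ + 2 * Real.pi) • π.r (kk (θ + 2 * Real.pi)) w = Four_e (-n) θ • π.r (kk θ) w
    rw [Four_e_per (-n) θ, kk_two_pi]
  have h3 : (∫ θ in (0 : ℝ)..(2 * Real.pi), Four_e (-n) θ • ((π.r (kk ψ)).toContinuousLinearEquiv : H →L[ℂ] H)
      (π.r (kk θ) w)) = Four_e n ψ • ∫ θ in (0 : ℝ)..(2 * Real.pi), Four_e (-n) θ • π.r (kk θ) w := by
    rw [← Four_int_add hp ψ, ← intervalIntegral.integral_smul]
    refine intervalIntegral.integral_congr fun θ _ => ?_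
    show Four_e (-n) θ • π.r (kk ψ) (π.r (kk θ) w) = Four_e n ψ • (Four_e (-n) (ψ + θ) • π.r (kk (ψ + θ)) w)
    rw [kk_add, map_mul, Four_e_add, smul_smul, ← mul_assoc, Four_e_mul_neg, one_mul]
    rfl
  rw [h3, Four_Pn_e, smul_comm]
  rfl

theorem Pn_self {n : ℤ} {w : H} (hw : IsWeight π n w) : Pn π n w = w := by
  rw [Four_Pn_e]
  have h1 : (∫ θ in (0 : ℝ)..(2 * Real.pi), Four_e (-n) θ • π.r (kk θ) w) =
      ∫ θ in (0 : ℝ)..(2 * Real.pi), w := by
    refine intervalIntegral.integral_congr fun θ _ => ?_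
    show Four_e (-n) θ • π.r (kk θ) w = w
    rw [hw θ, smul_smul, mul_comm]
    have h2 := Four_e_mul_neg n θ
    unfold Four_e at h2 ⊢
    rw [h2, one_smul]
  rw [h1, intervalIntegral.integral_const, sub_zero]
  have h3 : (2 * Real.pi : ℂ) ≠ 0 := by exact_mod_cast Four_two_pi_pos.ne'
  have h4 : (2 * Real.pi : ℝ) • w = (2 * Real.pi : ℂ) • w := by
    rw [← Complex.coe_smul]
    push_cast
    rfl
  rw [h4, smul_smul, inv_mul_cancel₀ h3, one_smul]

theorem Four_inner_Pn (n : ℤ) (w w' : H) : inner ℂ w (Pn π n w') =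
    (2 * Real.pi : ℂ)⁻¹ * ∫ θ in (0 : ℝ)..(2 * Real.pi), Four_e (-n) θ * inner ℂ w (π.r (kk θ) w') :=
  Four_L π (innerSL ℂ w) n w'

theorem Four_kk_neg (θ : ℝ) : kk (-θ) = (kk θ)⁻¹ := by
  have h : kk (-θ) * kk θ = 1 := by
    rw [← kk_add, neg_add_cancel, kk_zero]
  exact eq_inv_of_mul_eq_one_left h

theorem Four_inner_r (g : G) (w w' : H) : inner ℂ w (π.r g⁻¹ w') = inner ℂ (π.r g w) w' := by
  rw [← (π.r g).inner_map_map w (π.r g⁻¹ w')]
  have h : π.r g (π.r g⁻¹ w') = w' := by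
    have h0 : (π.r g * π.r g⁻¹) w' = w' := by
      rw [← map_mul, mul_inv_cancel, map_one]
      rfl
    exact h0
  rw [h]

theorem inner_Pn (n : ℤ) (w w' : H) : inner ℂ w (Pn π n w') = inner ℂ (Pn π n w) w' := by
  rw [← inner_conj_symm (Pn π n w) w', Four_inner_Pn, Four_inner_Pn, map_mul]
  have h1 : (starRingEnd ℂ) (2 * Real.pi : ℂ)⁻¹ = (2 * Real.pi : ℂ)⁻¹ := by
    rw [map_inv₀, map_mul, Complex.conj_ofReal, map_ofNat]
  rw [h1]
  congr 1
  have hp : Function.Periodic (fun θ : ℝ => Four_e (-n) θ * inner ℂ w (π.r (kk θ) w')) (2 * Real.pi) := by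
    intro θ
    show Four_e (-n) (θ + 2 * Real.pi) * inner ℂ w (π.r (kk (θ + 2 * Real.pi)) w') =
      Four_e (-n) θ * inner ℂ w (π.r (kk θ) w')
    rw [Four_e_per (-n) θ, kk_two_pi]
  rw [← Four_int_neg hp]
  have h2 : (starRingEnd ℂ) (∫ θ in (0 : ℝ)..(2 * Real.pi), Four_e (-n) θ * inner ℂ w' (π.r (kk θ) w)) =
      ∫ θ in (0 : ℝ)..(2 * Real.pi), (starRingEnd ℂ) (Four_e (-n) θ * inner ℂ w' (π.r (kk θ) w)) := by
    have hi : IntervalIntegrable (fun θ : ℝ => Four_e (-n) θ * inner ℂ w' (π.r (kk θ) w)) volume 0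
        (2 * Real.pi) :=
      Continuous.intervalIntegrable ((Four_e_cont (-n)).mul (continuous_const.inner (Four_cont_r π w))) _ _
    exact ((Complex.conjCLE : ℂ →L[ℝ] ℂ).intervalIntegral_comp_comm hi).symm
  rw [h2]
  refine intervalIntegral.integral_congr fun θ _ => ?_
  show Four_e (-n) (-θ) * inner ℂ w (π.r (kk (-θ)) w') = (starRingEnd ℂ) (Four_e (-n) θ * inner ℂ w' (π.r (kk θ) w))
  rw [map_mul, Four_e_star, inner_conj_symm, Four_e_neg', Four_kk_neg, Four_inner_r]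

theorem eta_Pn {η : H → ℂ} (hη : IsLin π η) (n : ℤ) {w : H} (hw : Smooth π w) : η (Pn π n w) =
    (2 * Real.pi : ℂ)⁻¹ * ∫ θ in (0 : ℝ)..(2 * Real.pi), Complex.exp (-(n * θ * Complex.I)) * η (π.r (kk θ) w) := by
  rw [Four_Pn_set, int_eta π _ (Four_c_int n) Four_kk_sm Four_kk_cpt (fun a _ => ⟨a, rfl⟩) hw hη,
    intervalIntegral.integral_of_le Four_two_pi_pos.le, ← integral_const_mul]
  refine integral_congr_ae (Filter.Eventually.of_forall fun θ => ?_)
  show (2 * Real.pi : ℂ)⁻¹ * Four_e (-n) θ * η (π.r (kk θ) w) =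
    (2 * Real.pi : ℂ)⁻¹ * (Complex.exp (-(n * θ * Complex.I)) * η (π.r (kk θ) w))
  rw [Four_e_neg, mul_assoc]

theorem Four_ortho {n m : ℤ} (hnm : n ≠ m) {e f : H} (he : IsWeight π n e) (hf : IsWeight π m f) :
    inner ℂ e f = (0 : ℂ) := by
  have hmn : ((m : ℝ) - n) ≠ 0 := by
    rw [sub_ne_zero]
    exact_mod_cast hnm.symm
  have h1 : ∀ θ : ℝ, inner ℂ e f = Four_e (m - n) θ * inner ℂ e f := by
    intro θ
    have h2 := (π.r (kk θ)).inner_map_map e f
    rw [he θ, hf θ, inner_smul_left, inner_smul_right] at h2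
    have h3 : (starRingEnd ℂ) (Complex.exp (n * θ * Complex.I)) = Four_e (-n) θ := Four_e_star n θ
    rw [h3, ← mul_assoc] at h2
    have h4 : Four_e (-n) θ * Complex.exp (m * θ * Complex.I) = Four_e (m - n) θ := by
      unfold Four_e
      rw [← Complex.exp_add]
      push_cast
      congr 1
      ring
    rw [h4] at h2
    exact h2.symm
  have h5 := h1 (Real.pi / (m - n))
  have h6 : Four_e (m - n) (Real.pi / (m - n)) = -1 := by
    unfold Four_e
    have h7 : (((m - n : ℤ) : ℂ)) * ((Real.pi / (m - n) : ℝ) : ℂ) * Complex.I = Real.pi * Complex.I := by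
      have h8 : (((m - n : ℤ) : ℂ)) = (((m : ℝ) - n : ℝ) : ℂ) := by push_cast; ring
      rw [h8, ← Complex.ofReal_mul, mul_div_cancel₀ _ hmn]
    rw [h7, Complex.exp_pi_mul_I]
  rw [h6] at h5
  have h9 : (2 : ℂ) * inner ℂ e f = 0 := by linear_combination h5
  exact (mul_eq_zero.mp h9).resolve_left two_ne_zero

theorem Four_inner_self (n : ℤ) (w : H) : inner ℂ w (Pn π n w) = (‖Pn π n w‖ ^ 2 : ℂ) := by
  have h1 : Pn π n (Pn π n w) = Pn π n w := Pn_self π (Pn_weight π n w)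
  have h2 := inner_Pn π n w (Pn π n w)
  rw [h1] at h2
  rw [h2, inner_self_eq_norm_sq_to_K]
  rfl

theorem Four_bessel (w : H) (s : Finset ℤ) : ∑ n ∈ s, ‖Pn π n w‖ ^ 2 ≤ ‖w‖ ^ 2 := by
  have h1 : inner ℂ w (∑ n ∈ s, Pn π n w) = ((∑ n ∈ s, ‖Pn π n w‖ ^ 2 : ℝ) : ℂ) := by
    rw [inner_sum]
    push_cast
    exact Finset.sum_congr rfl fun n _ => Four_inner_self π n w
  have h2 : inner ℂ (∑ n ∈ s, Pn π n w) (∑ n ∈ s, Pn π n w) = ((∑ n ∈ s, ‖Pn π n w‖ ^ 2 : ℝ) : ℂ) := by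
    rw [sum_inner]
    push_cast
    refine Finset.sum_congr rfl fun n hn => ?_
    rw [inner_sum, Finset.sum_eq_single_of_mem n hn, inner_self_eq_norm_sq_to_K]
    · rfl
    · intro m _ hm
      exact Four_ortho π hm.symm (Pn_weight π n w) (Pn_weight π m w)
  have h3 : ‖∑ n ∈ s, Pn π n w‖ ^ 2 = ∑ n ∈ s, ‖Pn π n w‖ ^ 2 := by
    have h2' : ((‖∑ n ∈ s, Pn π n w‖ ^ 2 : ℝ) : ℂ) = ((∑ n ∈ s, ‖Pn π n w‖ ^ 2 : ℝ) : ℂ) := by
      rw [← h2, inner_self_eq_norm_sq_to_K, Complex.ofReal_pow]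
      rfl
    exact Complex.ofReal_injective h2'
  have h4 : ‖inner ℂ w (∑ n ∈ s, Pn π n w)‖ ≤ ‖w‖ * ‖∑ n ∈ s, Pn π n w‖ := norm_inner_le_norm _ _
  rw [h1, ← h3, Complex.norm_real, Real.norm_eq_abs, abs_of_nonneg (by positivity)] at h4
  rw [← h3]
  have h5 := norm_nonneg (∑ n ∈ s, Pn π n w)
  have h6 := norm_nonneg w
  nlinarith

theorem sum_Pn (w : H) (ψ : ℝ) :
    HasSum (fun n : ℤ => (‖Pn π n w‖ ^ 2 : ℂ) * Complex.exp (n * ψ * Complex.I)) (inner ℂ w (π.r (kk ψ) w)) := by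
  have hc : ∀ n : ℤ, Four_c (fun θ => inner ℂ w (π.r (kk θ) w)) n = (‖Pn π n w‖ ^ 2 : ℂ) := by
    intro n
    rw [← Four_inner_self, Four_inner_Pn]
    unfold Four_c
    congr 1
    refine intervalIntegral.integral_congr fun θ _ => ?_
    show Complex.exp (-(n * θ * Complex.I)) * inner ℂ w (π.r (kk θ) w) = Four_e (-n) θ * inner ℂ w (π.r (kk θ) w)
    rw [Four_e_neg]
  have hs : Summable fun n : ℤ => ‖Pn π n w‖ ^ 2 :=
    summable_of_sum_le (fun n => by positivity) (Four_bessel π w)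
  have h1 := Four_series (f := fun θ => inner ℂ w (π.r (kk θ) w)) (continuous_const.inner (Four_cont_r π w))
    (fun θ => by
      show inner ℂ w (π.r (kk (θ + 2 * Real.pi)) w) = inner ℂ w (π.r (kk θ) w)
      rw [kk_two_pi])
    (by
      have h2 : Four_c (fun θ => inner ℂ w (π.r (kk θ) w)) = fun n : ℤ => ((‖Pn π n w‖ ^ 2 : ℝ) : ℂ) := by
        funext n
        rw [hc]
        push_cast
        rfl
      rw [h2]
      exact Complex.summable_ofReal.mpr hs) ψ
  simp only [hc] at h1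
  exact h1

theorem Four_eta_cont {η : H → ℂ} (hη : IsLin π η) {w : H} (hw : Smooth π w) :
    Continuous fun θ : ℝ => η (π.r (kk θ) w) := (eta_cont π hη hw).comp cont_kk

theorem Four_eta_per {η : H → ℂ} (w : H) :
    Function.Periodic (fun θ : ℝ => η (π.r (kk θ) w)) (2 * Real.pi) := by
  intro θ
  show η (π.r (kk (θ + 2 * Real.pi)) w) = η (π.r (kk θ) w)
  rw [kk_two_pi]

theorem Four_c_eta {η : H → ℂ} (hη : IsLin π η) {w : H} (hw : Smooth π w) (n : ℤ) :
    Four_c (fun θ => η (π.r (kk θ) w)) n = η (Pn π n w) := (eta_Pn π hη n hw).symm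

/-- The autocorrelation of a continuous periodic function. -/
theorem Four_auto {F : ℝ → ℂ} (hF : Continuous F) (hp : Function.Periodic F (2 * Real.pi)) (ψ : ℝ) :
    HasSum (fun n : ℤ => (‖Four_c F n‖ ^ 2 : ℂ) * Complex.exp (n * ψ * Complex.I))
      ((2 * Real.pi : ℂ)⁻¹ * ∫ θ in (0 : ℝ)..(2 * Real.pi), star (F θ) * F (ψ + θ)) := by
  have hcont : Continuous fun ψ : ℝ => (2 * Real.pi : ℂ)⁻¹ *
      ∫ θ in (0 : ℝ)..(2 * Real.pi), star (F θ) * F (ψ + θ) := by
    refine continuous_const.mul ?_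
    exact intervalIntegral.continuous_parametric_intervalIntegral_of_continuous' (by fun_prop) _ _
  have hper : Function.Periodic (fun ψ : ℝ => (2 * Real.pi : ℂ)⁻¹ *
      ∫ θ in (0 : ℝ)..(2 * Real.pi), star (F θ) * F (ψ + θ)) (2 * Real.pi) := by
    intro ψ
    show (2 * Real.pi : ℂ)⁻¹ * (∫ θ in (0 : ℝ)..(2 * Real.pi), star (F θ) * F (ψ + 2 * Real.pi + θ)) =
      (2 * Real.pi : ℂ)⁻¹ * ∫ θ in (0 : ℝ)..(2 * Real.pi), star (F θ) * F (ψ + θ)
    congr 1
    refine intervalIntegral.integral_congr fun θ _ => ?_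
    show star (F θ) * F (ψ + 2 * Real.pi + θ) = star (F θ) * F (ψ + θ)
    rw [add_right_comm, hp]
  have hc : ∀ n : ℤ, Four_c (fun ψ : ℝ => (2 * Real.pi : ℂ)⁻¹ *
      ∫ θ in (0 : ℝ)..(2 * Real.pi), star (F θ) * F (ψ + θ)) n = (‖Four_c F n‖ ^ 2 : ℂ) := by
    intro n
    have e1 : Four_c (fun ψ : ℝ => (2 * Real.pi : ℂ)⁻¹ *
        ∫ θ in (0 : ℝ)..(2 * Real.pi), star (F θ) * F (ψ + θ)) n =
        (2 * Real.pi : ℂ)⁻¹ * ((2 * Real.pi : ℂ)⁻¹ * ∫ ψ in (0 : ℝ)..(2 * Real.pi),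
          ∫ θ in (0 : ℝ)..(2 * Real.pi), Four_e (-n) ψ * (star (F θ) * F (ψ + θ))) := by
      unfold Four_c
      congr 1
      rw [← intervalIntegral.integral_const_mul]
      refine intervalIntegral.integral_congr fun ψ _ => ?_
      show Complex.exp (-(n * ψ * Complex.I)) * ((2 * Real.pi : ℂ)⁻¹ *
        ∫ θ in (0 : ℝ)..(2 * Real.pi), star (F θ) * F (ψ + θ)) = (2 * Real.pi : ℂ)⁻¹ *
        ∫ θ in (0 : ℝ)..(2 * Real.pi), Four_e (-n) ψ * (star (F θ) * F (ψ + θ))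
      rw [intervalIntegral.integral_const_mul, Four_e_neg]
      ring
    rw [e1]
    have hFu : Continuous (Function.uncurry fun ψ θ : ℝ => Four_e (-n) ψ * (star (F θ) * F (ψ + θ))) := by
      have h0 := Four_e_cont (-n)
      fun_prop
    have hio : IntegrableOn (Function.uncurry fun ψ θ : ℝ => Four_e (-n) ψ * (star (F θ) * F (ψ + θ)))
        (Set.uIoc 0 (2 * Real.pi) ×ˢ Set.uIoc 0 (2 * Real.pi)) := by
      have h0 : IntegrableOn (Function.uncurry fun ψ θ : ℝ => Four_e (-n) ψ * (star (F θ) * F (ψ + θ)))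
          (Set.Icc 0 (2 * Real.pi) ×ˢ Set.Icc 0 (2 * Real.pi)) :=
        hFu.continuousOn.integrableOn_compact (isCompact_Icc.prod isCompact_Icc)
      refine h0.mono_set ?_
      rw [Set.uIoc_of_le Four_two_pi_pos.le]
      exact Set.prod_mono Set.Ioc_subset_Icc_self Set.Ioc_subset_Icc_self
    rw [intervalIntegral_intervalIntegral_swap hio]
    have hp2 : Function.Periodic (fun θ : ℝ => Four_e (-n) θ * F θ) (2 * Real.pi) := by
      intro θ
      show Four_e (-n) (θ + 2 * Real.pi) * F (θ + 2 * Real.pi) = Four_e (-n) θ * F θ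
      rw [Four_e_per (-n) θ, hp]
    have e2 : (∫ θ in (0 : ℝ)..(2 * Real.pi), ∫ ψ in (0 : ℝ)..(2 * Real.pi),
        Four_e (-n) ψ * (star (F θ) * F (ψ + θ))) =
        ∫ θ in (0 : ℝ)..(2 * Real.pi), (Four_e n θ * star (F θ)) *
          ∫ ψ in (0 : ℝ)..(2 * Real.pi), Four_e (-n) ψ * F ψ := by
      refine intervalIntegral.integral_congr fun θ _ => ?_
      show (∫ ψ in (0 : ℝ)..(2 * Real.pi), Four_e (-n) ψ * (star (F θ) * F (ψ + θ))) =
        (Four_e n θ * star (F θ)) * ∫ ψ in (0 : ℝ)..(2 * Real.pi), Four_e (-n) ψ * F ψ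
      rw [← Four_int_add hp2 θ, ← intervalIntegral.integral_const_mul]
      refine intervalIntegral.integral_congr fun ψ _ => ?_
      show Four_e (-n) ψ * (star (F θ) * F (ψ + θ)) =
        Four_e n θ * star (F θ) * (Four_e (-n) (θ + ψ) * F (θ + ψ))
      rw [Four_e_add, add_comm ψ θ]
      linear_combination (-(Four_e (-n) ψ * star (F θ) * F (θ + ψ))) * Four_e_mul_neg n θ
    rw [e2, intervalIntegral.integral_mul_const]
    have e3 : (starRingEnd ℂ) (∫ θ in (0 : ℝ)..(2 * Real.pi), Four_e (-n) θ * F θ) =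
        ∫ θ in (0 : ℝ)..(2 * Real.pi), Four_e n θ * star (F θ) := by
      have hi : IntervalIntegrable (fun θ : ℝ => Four_e (-n) θ * F θ) volume 0 (2 * Real.pi) :=
        Continuous.intervalIntegrable ((Four_e_cont (-n)).mul hF) _ _
      refine ((Complex.conjCLE : ℂ →L[ℝ] ℂ).intervalIntegral_comp_comm hi).symm.trans ?_
      refine intervalIntegral.integral_congr fun θ _ => ?_
      show (starRingEnd ℂ) (Four_e (-n) θ * F θ) = Four_e n θ * star (F θ)
      rw [map_mul, Four_e_star, neg_neg]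
      rfl
    have e4 : Four_c F n = (2 * Real.pi : ℂ)⁻¹ * ∫ θ in (0 : ℝ)..(2 * Real.pi), Four_e (-n) θ * F θ := by
      unfold Four_c
      congr 1
      refine intervalIntegral.integral_congr fun θ _ => ?_
      show Complex.exp (-(n * θ * Complex.I)) * F θ = Four_e (-n) θ * F θ
      rw [Four_e_neg]
    rw [← e3]
    have h1 : (starRingEnd ℂ) (2 * Real.pi : ℂ)⁻¹ = (2 * Real.pi : ℂ)⁻¹ := by
      rw [map_inv₀, map_mul, Complex.conj_ofReal, map_ofNat]
    rw [← Complex.conj_mul' (Four_c F n), e4, map_mul, h1]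
    ring
  have hs : Summable (Four_c fun ψ : ℝ => (2 * Real.pi : ℂ)⁻¹ *
      ∫ θ in (0 : ℝ)..(2 * Real.pi), star (F θ) * F (ψ + θ)) := by
    have h2 : (Four_c fun ψ : ℝ => (2 * Real.pi : ℂ)⁻¹ *
      ∫ θ in (0 : ℝ)..(2 * Real.pi), star (F θ) * F (ψ + θ)) = fun n : ℤ => ((‖Four_c F n‖ ^ 2 : ℝ) : ℂ) := by
      funext n
      rw [hc]
      push_cast
      rfl
    rw [h2]
    exact Complex.summable_ofReal.mpr (Four_parseval hF)
  have h1 := Four_series hcont hper hs ψ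
  simp only [hc] at h1
  exact h1

theorem sum_eta {η : H → ℂ} (hη : IsLin π η) {w : H} (hw : Smooth π w) (ψ : ℝ) :
    HasSum (fun n : ℤ => (‖η (Pn π n w)‖ ^ 2 : ℂ) * Complex.exp (n * ψ * Complex.I))
      ((2 * Real.pi : ℂ)⁻¹ * ∫ θ in (0 : ℝ)..(2 * Real.pi), star (η (π.r (kk θ) w)) * η (π.r (kk ψ * kk θ) w)) := by
  have h1 := Four_auto (Four_eta_cont π hη hw) (Four_eta_per π w) ψ
  simp only [Four_c_eta π hη hw, kk_add] at h1
  exact h1

/-- A functional is zero if it is zero on all smooth weight vectors. -/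
theorem eta_zero {η : H → ℂ} (hη : IsLin π η) (h : ∀ (n : ℤ) (e : H), Smooth π e → IsWeight π n e → η e = 0)
    {w : H} (hw : Smooth π w) : η w = 0 := by
  have h0 : ∀ n : ℤ, Four_c (fun θ => η (π.r (kk θ) w)) n = 0 := by
    intro n
    rw [Four_c_eta π hη hw]
    exact h n _ (Pn_smooth π n hw) (Pn_weight π n w)
  have hs : Summable (Four_c (fun θ => η (π.r (kk θ) w))) := by
    have h1 : Four_c (fun θ => η (π.r (kk θ) w)) = fun _ => 0 := funext h0
    rw [h1]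
    exact summable_zero
  have h2 := Four_series (Four_eta_cont π hη hw) (Four_eta_per π w) hs 0
  simp only [h0, zero_mul] at h2
  have h3 := h2.unique hasSum_zero
  rw [kk_zero, map_one] at h3
  exact h3

/-- `(2π)⁻¹ ∫ conj F(θ) F(θ + ψ) dθ` for `F(θ) = η(π(kk θ) w)`. -/
noncomputable def E1 (η : H → ℂ) (w : H) (ψ : ℝ) : ℂ :=
  (2 * Real.pi : ℂ)⁻¹ * ∫ θ in (0 : ℝ)..(2 * Real.pi), star (η (π.r (kk θ) w)) * η (π.r (kk ψ * kk θ) w)

theorem Four_ev {a : ℤ → ℂ} {f : ℝ → ℂ} (h : ∀ ψ : ℝ, HasSum (fun n : ℤ => a n * Complex.exp (n * ψ * Complex.I)) (f ψ))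
    (R : List (ℂ × ℝ)) :
    HasSum (fun n : ℤ => a n * ev R (fun ψ => Complex.exp (n * ψ * Complex.I))) (ev R f) := by
  induction R with
  | nil =>
    unfold ev
    simp only [List.map_nil, List.sum_nil, mul_zero]
    exact hasSum_zero
  | cons x R ih =>
    unfold ev at ih ⊢
    simp only [List.map_cons, List.sum_cons]
    have h1 := ((h x.2).mul_left x.1).add ih
    have e : (fun n : ℤ => a n * (x.1 * Complex.exp (n * x.2 * Complex.I) +
        (List.map (fun x : ℂ × ℝ => x.1 * Complex.exp (n * x.2 * Complex.I)) R).sum)) =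
        fun n : ℤ => x.1 * (a n * Complex.exp (n * x.2 * Complex.I)) +
        a n * (List.map (fun x : ℂ × ℝ => x.1 * Complex.exp (n * x.2 * Complex.I)) R).sum := by
      funext n
      ring
    rw [e]
    exact h1

theorem four_ineq {η : H → ℂ} (hη : IsLin π η) {w : H} (hw : Smooth π w) {M : ℝ}
    (hM : ∀ n : ℤ, n ≠ 0 → ∀ e, Smooth π e → IsWeight π n e → ‖η e‖ ≤ M * ‖e‖) (R : List (ℂ × ℝ))
    (hR : ∀ n : ℤ, ∃ x : ℝ, 0 ≤ x ∧ ev R (fun ψ => Complex.exp (n * ψ * Complex.I)) = x) :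
    (ev R (E1 π η w)).re ≤ M ^ 2 * (ev R fun ψ => inner ℂ w (π.r (kk ψ) w)).re +
      ‖η (Pn π 0 w)‖ ^ 2 * (ev R fun _ => 1).re := by
  choose x hx0 hx using hR
  have h1 := Four_ev (fun ψ => sum_eta π hη hw ψ) R
  have h2 := Four_ev (fun ψ => sum_Pn π w ψ) R
  simp only [hx] at h1 h2
  have e0 : ∀ u v : ℝ, (((u : ℂ) ^ 2) * (v : ℂ)).re = u ^ 2 * v := by
    intro u v
    rw [← Complex.ofReal_pow, ← Complex.ofReal_mul, Complex.ofReal_re]
  have h3 : HasSum (fun n : ℤ => ‖η (Pn π n w)‖ ^ 2 * x n) (ev R (E1 π η w)).re := by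
    have h4 := Complex.hasSum_re h1
    simp only [e0] at h4
    exact h4
  have h5 : HasSum (fun n : ℤ => ‖Pn π n w‖ ^ 2 * x n) (ev R fun ψ => inner ℂ w (π.r (kk ψ) w)).re := by
    have h4 := Complex.hasSum_re h2
    simp only [e0] at h4
    exact h4
  have hx1 : (ev R fun _ => 1).re = x 0 := by
    have h6 := hx 0
    have h7 : (fun ψ : ℝ => Complex.exp (((0 : ℤ) : ℂ) * ψ * Complex.I)) = fun _ => 1 := by
      funext ψ
      rw [Int.cast_zero, zero_mul, zero_mul, Complex.exp_zero]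
    rw [h7] at h6
    rw [h6, Complex.ofReal_re]
  rw [hx1]
  have h8 : HasSum (fun n : ℤ => M ^ 2 * (‖Pn π n w‖ ^ 2 * x n) +
      (if n = 0 then ‖η (Pn π 0 w)‖ ^ 2 * x 0 else 0))
      (M ^ 2 * (ev R fun ψ => inner ℂ w (π.r (kk ψ) w)).re + ‖η (Pn π 0 w)‖ ^ 2 * x 0) :=
    (h5.mul_left (M ^ 2)).add (hasSum_ite_eq 0 _)
  refine hasSum_le (fun n => ?_) h3 h8
  by_cases hn : n = 0
  · subst hn
    rw [if_pos rfl]
    have h9 : 0 ≤ M ^ 2 * (‖Pn π 0 w‖ ^ 2 * x 0) :=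
      mul_nonneg (sq_nonneg _) (mul_nonneg (sq_nonneg _) (hx0 0))
    linarith
  · rw [if_neg hn, add_zero, ← mul_assoc]
    refine mul_le_mul_of_nonneg_right ?_ (hx0 n)
    rw [← mul_pow]
    exact pow_le_pow_left₀ (norm_nonneg _) (hM n hn _ (Pn_smooth π n hw) (Pn_weight π n w)) 2

end MPkt
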