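import Pool.Agent.Lib.MP_7b255b_nt.Mean

/-!
# HM: the theorem of Howe and Moore for `SL(2, ℝ)`
-/

set_option autoImplicit false

namespace MPkt

open Filter Topology

universe u

variable {H : Type u} [NormedAddCommGroup H] [InnerProductSpace ℂ H] [CompleteSpace H] (π : URep H)

omit [CompleteSpace H] in
theorem hm_mul (g h : G) (v : H) : π.r (g * h) v = π.r g (π.r h v) := by
  rw [map_mul]
  rfl

omit [CompleteSpace H] in
theorem hm_one (v : H) : π.r 1 v = v := by
  rw [map_one]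
  rfl

omit [CompleteSpace H] in
theorem hm_adj (g : G) (x y : H) : inner ℂ (π.r g x) y = inner ℂ x (π.r g⁻¹ y) := by
  have h1 : π.r g (π.r g⁻¹ y) = y := by
    rw [← hm_mul, mul_inv_cancel, hm_one]
  have h2 : inner ℂ (π.r g x) (π.r g (π.r g⁻¹ y)) = inner ℂ x (π.r g⁻¹ y) :=
    LinearIsometryEquiv.inner_map_map _ _ _
  rwa [h1] at h2

/-- The lower unipotent matrices. -/
noncomputable def hm_nb (r : ℝ) : G :=
  ⟨!![1, 0; r, 1], by
    rw [Matrix.det_fin_two_of, mul_one, zero_mul, sub_zero]⟩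

theorem hm_cont_nb : Continuous hm_nb := by
  refine Continuous.subtype_mk (continuous_matrix ?_) _
  intro i j
  fin_cases i <;> fin_cases j <;> simp
  · exact continuous_const
  · exact continuous_const
  · exact continuous_id
  · exact continuous_const

theorem hm_nb_zero : hm_nb 0 = 1 := by
  apply Subtype.ext
  change !![(1 : ℝ), 0; 0, 1] = (1 : Matrix (Fin 2) (Fin 2) ℝ)
  exact Matrix.one_fin_two.symm

theorem hm_rel1 (r s : ℝ) (hr : r ≠ 0) :
    nn ((Real.exp (s / 2) - 1) / r) * hm_nb r * nn ((Real.exp (-(s / 2)) - 1) / r) =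
      aa s * hm_nb (r * Real.exp (s / 2)) := by
  have he : Real.exp (s / 2) * Real.exp (-(s / 2)) = 1 := by
    rw [← Real.exp_add, add_neg_cancel, Real.exp_zero]
  apply Subtype.ext
  change (!![(1 : ℝ), (Real.exp (s / 2) - 1) / r; 0, 1] * !![1, 0; r, 1]) * !![1, (Real.exp (-(s / 2)) - 1) / r; 0, 1] =
    !![Real.exp (s / 2), 0; 0, Real.exp (-(s / 2))] * !![1, 0; r * Real.exp (s / 2), 1]
  rw [Matrix.mul_fin_two, Matrix.mul_fin_two, Matrix.mul_fin_two]
  generalize Real.exp (s / 2) = a at *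
  generalize Real.exp (-(s / 2)) = b at *
  have h11 : (1 * 1 + (a - 1) / r * r) * 1 + (1 * 0 + (a - 1) / r * 1) * 0 = a * 1 + 0 * (r * a) := by
    field_simp
    ring
  have h12 : (1 * 1 + (a - 1) / r * r) * ((b - 1) / r) + (1 * 0 + (a - 1) / r * 1) * 1 = a * 0 + 0 * 1 := by
    field_simp
    linear_combination he
  have h21 : (0 * 1 + 1 * r) * 1 + (0 * 0 + 1 * 1) * 0 = 0 * 1 + b * (r * a) := by
    linear_combination (-r) * he
  have h22 : (0 * 1 + 1 * r) * ((b - 1) / r) + (0 * 0 + 1 * 1) * 1 = 0 * 0 + b * 1 := by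
    field_simp
    ring
  rw [h11, h12, h21, h22]

theorem hm_rel2 (r s : ℝ) : aa (-s) * hm_nb r * aa s = hm_nb (r * Real.exp s) := by
  have he : Real.exp (s / 2) * Real.exp (-(s / 2)) = 1 := by
    rw [← Real.exp_add, add_neg_cancel, Real.exp_zero]
  have he2 : Real.exp s = Real.exp (s / 2) * Real.exp (s / 2) := by
    rw [← Real.exp_add, add_halves]
  have e1 : Real.exp (-s / 2) = Real.exp (-(s / 2)) := by rw [neg_div]
  have e2 : Real.exp (-(-s / 2)) = Real.exp (s / 2) := by rw [neg_div, neg_neg]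
  apply Subtype.ext
  change (!![Real.exp (-s / 2), 0; 0, Real.exp (-(-s / 2))] * !![1, 0; r, 1]) *
    !![Real.exp (s / 2), 0; 0, Real.exp (-(s / 2))] = !![1, 0; r * Real.exp s, 1]
  rw [e1, e2, he2, Matrix.mul_fin_two, Matrix.mul_fin_two]
  generalize Real.exp (s / 2) = a at *
  generalize Real.exp (-(s / 2)) = b at *
  have h11 : (b * 1 + 0 * r) * a + (b * 0 + 0 * 1) * 0 = 1 := by
    linear_combination he
  have h12 : (b * 1 + 0 * r) * 0 + (b * 0 + 0 * 1) * b = 0 := by
    ring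
  have h21 : (0 * 1 + a * r) * a + (0 * 0 + a * 1) * 0 = r * (a * a) := by
    ring
  have h22 : (0 * 1 + a * r) * 0 + (0 * 0 + a * 1) * b = 1 := by
    linear_combination he
  rw [h11, h12, h21, h22]

theorem hm_gen (g : G) (hc : g 1 0 ≠ 0) :
    g = nn ((g 0 0 - 1) / g 1 0) * hm_nb (g 1 0) * nn ((g 1 1 - 1) / g 1 0) := by
  have hd : g 0 0 * g 1 1 - g 0 1 * g 1 0 = 1 := by
    have h := g.2
    rw [Matrix.det_fin_two] at h
    exact h
  apply Subtype.ext
  have h0 : (g : Matrix (Fin 2) (Fin 2) ℝ) = !![g 0 0, g 0 1; g 1 0, g 1 1] := Matrix.eta_fin_two _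
  change (g : Matrix (Fin 2) (Fin 2) ℝ) = (!![(1 : ℝ), (g 0 0 - 1) / g 1 0; 0, 1] * !![1, 0; g 1 0, 1]) *
    !![1, (g 1 1 - 1) / g 1 0; 0, 1]
  refine h0.trans ?_
  clear h0
  rw [Matrix.mul_fin_two, Matrix.mul_fin_two]
  generalize g 0 0 = a at *
  generalize g 0 1 = b at *
  generalize g 1 0 = c at *
  generalize g 1 1 = d at *
  have h11 : (1 * 1 + (a - 1) / c * c) * 1 + (1 * 0 + (a - 1) / c * 1) * 0 = a := by
    field_simp
    ring
  have h12 : (1 * 1 + (a - 1) / c * c) * ((d - 1) / c) + (1 * 0 + (a - 1) / c * 1) * 1 = b := by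
    field_simp
    linear_combination hd
  have h21 : (0 * 1 + 1 * c) * 1 + (0 * 0 + 1 * 1) * 0 = c := by
    ring
  have h22 : (0 * 1 + 1 * c) * ((d - 1) / c) + (0 * 0 + 1 * 1) * 1 = d := by
    field_simp
    ring
  rw [h11, h12, h21, h22]

omit [CompleteSpace H] in
/-- Equality in the inequality of Cauchy and Schwarz. -/
theorem hm_eq (g : G) (w : H) (h : inner ℂ w (π.r g w) = inner ℂ w w) : π.r g w = w := by
  have h1 : ‖w - π.r g w‖ ^ 2 = 0 := by
    rw [norm_sub_sq (𝕜 := ℂ), h, LinearIsometryEquiv.norm_map, inner_self_eq_norm_sq]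
    ring
  have h2 : w - π.r g w = 0 := by
    rw [← norm_eq_zero]
    exact pow_eq_zero_iff (two_ne_zero) |>.1 h1
  exact (sub_eq_zero.1 h2).symm

omit [CompleteSpace H] in
/-- The lemma of Mautner. -/
theorem hm_mautner (w : H) (hw : ∀ x, π.r (nn x) w = w) (g : G) : π.r g w = w := by
  have hinv : ∀ g, π.r g w = w → π.r g⁻¹ w = w := by
    intro g hg
    have h1 : π.r g⁻¹ (π.r g w) = w := by rw [← hm_mul, inv_mul_cancel, hm_one]
    rwa [hg] at h1
  have hc : Continuous fun g : G => inner ℂ w (π.r g w) := continuous_const.inner (π.cont w)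
  have haa : ∀ s, π.r (aa s) w = w := by
    intro s
    apply hm_eq
    have h1 : ∀ r : ℝ, r ≠ 0 → inner ℂ w (π.r (aa s * hm_nb (r * Real.exp (s / 2))) w) = inner ℂ w (π.r (hm_nb r) w) := by
      intro r hr
      rw [← hm_rel1 r s hr, hm_mul, hm_mul, hw]
      have h2 := hm_adj π (nn ((Real.exp (s / 2) - 1) / r))⁻¹ w (π.r (hm_nb r) w)
      rw [inv_inv, hinv _ (hw _)] at h2
      exact h2.symm
    have h3 : Tendsto (fun r : ℝ => inner ℂ w (π.r (aa s * hm_nb (r * Real.exp (s / 2))) w)) (𝓝[≠] 0)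
        (𝓝 (inner ℂ w (π.r (aa s) w))) := by
      have h4 : Continuous fun r : ℝ => inner ℂ w (π.r (aa s * hm_nb (r * Real.exp (s / 2))) w) :=
        hc.comp (continuous_const.mul (hm_cont_nb.comp (continuous_id.mul continuous_const)))
      have h5 := h4.tendsto 0
      simp only [zero_mul, hm_nb_zero, mul_one] at h5
      exact h5.mono_left nhdsWithin_le_nhds
    have h6 : Tendsto (fun r : ℝ => inner ℂ w (π.r (hm_nb r) w)) (𝓝[≠] 0) (𝓝 (inner ℂ w w)) := by
      have h4 : Continuous fun r : ℝ => inner ℂ w (π.r (hm_nb r) w) := hc.comp hm_cont_nb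
      have h5 := h4.tendsto 0
      simp only [hm_nb_zero, hm_one] at h5
      exact h5.mono_left nhdsWithin_le_nhds
    have h7 : Tendsto (fun r : ℝ => inner ℂ w (π.r (aa s * hm_nb (r * Real.exp (s / 2))) w)) (𝓝[≠] 0)
        (𝓝 (inner ℂ w w)) := by
      refine h6.congr' ?_
      filter_upwards [self_mem_nhdsWithin] with r hr
      exact (h1 r hr).symm
    exact tendsto_nhds_unique h3 h7
  have hnb : ∀ r, π.r (hm_nb r) w = w := by
    intro r
    apply hm_eq
    have h1 : ∀ s : ℝ, inner ℂ w (π.r (hm_nb (r * Real.exp s)) w) = inner ℂ w (π.r (hm_nb r) w) := by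
      intro s
      rw [← hm_rel2, hm_mul, hm_mul, haa]
      have h2 := hm_adj π (aa (-s))⁻¹ w (π.r (hm_nb r) w)
      rw [inv_inv, hinv _ (haa _)] at h2
      exact h2.symm
    have h2 : Tendsto (fun s : ℝ => inner ℂ w (π.r (hm_nb (r * Real.exp s)) w)) atBot (𝓝 (inner ℂ w w)) := by
      have h4 : Continuous fun r : ℝ => inner ℂ w (π.r (hm_nb r) w) := hc.comp hm_cont_nb
      have h5 := h4.tendsto 0
      simp only [hm_nb_zero, hm_one] at h5
      have h6 : Tendsto (fun s : ℝ => r * Real.exp s) atBot (𝓝 0) := by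
        have h7 := Real.tendsto_exp_atBot.const_mul r
        rwa [mul_zero] at h7
      exact h5.comp h6
    have h3 : Tendsto (fun s : ℝ => inner ℂ w (π.r (hm_nb (r * Real.exp s)) w)) atBot
        (𝓝 (inner ℂ w (π.r (hm_nb r) w))) := by
      simp only [h1]
      exact tendsto_const_nhds
    exact tendsto_nhds_unique h3 h2
  have hgen : ∀ g : G, g 1 0 ≠ 0 → π.r g w = w := by
    intro g hg
    rw [hm_gen g hg, hm_mul, hm_mul, hw, hnb, hw]
  by_cases h : g 1 0 = 0
  · have h1 : (hm_nb 1 * g) 1 0 ≠ 0 := by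
      have hd : g 0 0 * g 1 1 - g 0 1 * g 1 0 = 1 := by
        have h := g.2
        rw [Matrix.det_fin_two] at h
        exact h
      have h2 : (hm_nb 1 * g) 1 0 = g 0 0 := by
        rw [Matrix.SpecialLinearGroup.coe_mul, Matrix.mul_apply, Fin.sum_univ_two]
        change (1 : ℝ) * g 0 0 + 1 * g 1 0 = g 0 0
        rw [h]
        ring
      rw [h2]
      intro h3
      rw [h3, h] at hd
      norm_num at hd
    have h2 := hgen _ h1
    rw [hm_mul] at h2
    have h3 : π.r (hm_nb 1) (π.r g w) = π.r (hm_nb 1) w := by rw [h2, hnb]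
    exact (π.r (hm_nb 1)).injective h3
  · exact hgen g h

theorem no_inv (hI : Irred π) (hn : ∃ g v, π.r g v ≠ v) (v : H) (hv : ∀ g, π.r g v = v) : v = 0 := by
  have h1 := hI.irr (Submodule.span ℂ {v}) (Submodule.closed_of_finiteDimensional _) (by
    intro g w hw
    obtain ⟨c, rfl⟩ := Submodule.mem_span_singleton.1 hw
    rw [map_smul, hv]
    exact hw)
  rcases h1 with h1 | h1
  · exact Submodule.span_singleton_eq_bot.1 h1
  · exfalso
    obtain ⟨g, u, hu⟩ := hn
    apply hu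
    have h2 : u ∈ Submodule.span ℂ {v} := by
      rw [h1]
      exact Submodule.mem_top
    obtain ⟨c, rfl⟩ := Submodule.mem_span_singleton.1 h2
    rw [map_smul, hv]

theorem hm (hno : ∀ v, (∀ g, π.r g v = v) → v = 0) (u v : H) :
    Tendsto (fun t => inner ℂ u (π.r (aa t) v)) atTop (𝓝 0) := by
  rw [tendsto_iff_ultrafilter]
  intro U hU
  -- the limits along the ultrafilter
  have hb : ∀ (x : H) (t : ℝ), ‖(inner ℂ (π.r (aa t) v) x : ℂ)‖ ≤ ‖v‖ * ‖x‖ := by
    intro x t
    refine (norm_inner_le_norm _ _).trans ?_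
    rw [LinearIsometryEquiv.norm_map]
  have hex : ∀ x : H, ∃ z : ℂ, Tendsto (fun t => (inner ℂ (π.r (aa t) v) x : ℂ)) U (𝓝 z) := by
    intro x
    have h1 : IsCompact (Metric.closedBall (0 : ℂ) (‖v‖ * ‖x‖)) := isCompact_closedBall _ _
    have h2 : ((U.map fun t => (inner ℂ (π.r (aa t) v) x : ℂ)) : Filter ℂ) ≤
        𝓟 (Metric.closedBall (0 : ℂ) (‖v‖ * ‖x‖)) := by
      rw [Ultrafilter.coe_map, le_principal_iff, mem_map]
      refine Filter.univ_mem' fun t => ?_
      rw [Set.mem_preimage, mem_closedBall_zero_iff]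
      exact hb x t
    obtain ⟨z, _, hz⟩ := h1.ultrafilter_le_nhds _ h2
    exact ⟨z, hz⟩
  choose L hL using hex
  have hLadd : ∀ x y, L (x + y) = L x + L y := by
    intro x y
    refine tendsto_nhds_unique (hL (x + y)) ?_
    have h1 := (hL x).add (hL y)
    refine h1.congr fun t => ?_
    rw [inner_add_right]
  have hLsmul : ∀ (c : ℂ) x, L (c • x) = c • L x := by
    intro c x
    refine tendsto_nhds_unique (hL (c • x)) ?_
    have h1 := (hL x).const_mul c
    refine h1.congr fun t => ?_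
    rw [inner_smul_right]
  have hLb : ∀ x, ‖L x‖ ≤ ‖v‖ * ‖x‖ := fun x =>
    le_of_tendsto (hL x).norm (Filter.Eventually.of_forall fun t => hb x t)
  let L' : H →ₗ[ℂ] ℂ :=
    { toFun := L
      map_add' := hLadd
      map_smul' := hLsmul }
  let L'' : StrongDual ℂ H := L'.mkContinuous ‖v‖ hLb
  let w : H := (InnerProductSpace.toDual ℂ H).symm L''
  have hw : ∀ x, inner ℂ w x = L x := fun x => InnerProductSpace.toDual_symm_apply
  have hwn : ∀ x, π.r (nn x) w = w := by
    intro x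
    refine ext_inner_right ℂ fun y => ?_
    rw [hm_adj, hw, hw]
    refine tendsto_nhds_unique (hL _) ?_
    have h1 : Tendsto (fun t => (inner ℂ (π.r (aa t) (π.r (nn (x * Real.exp (-t))) v - v)) y : ℂ)) U (𝓝 0) := by
      have h2 : Tendsto (fun t : ℝ => ‖π.r (nn (x * Real.exp (-t))) v - v‖ * ‖y‖) atTop (𝓝 0) := by
        have h3 : Tendsto (fun t : ℝ => x * Real.exp (-t)) atTop (𝓝 0) := by
          have h4 := (Real.tendsto_exp_neg_atTop_nhds_zero).const_mul x
          rwa [mul_zero] at h4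
        have h5 : Continuous fun s : ℝ => ‖π.r (nn s) v - v‖ * ‖y‖ :=
          ((((π.cont v).comp cont_nn).sub continuous_const).norm).mul continuous_const
        have h6 := h5.tendsto 0
        simp only [nn_zero, hm_one, sub_self, norm_zero, zero_mul] at h6
        exact h6.comp h3
      refine squeeze_zero_norm (fun t => ?_) (h2.mono_left hU)
      refine (norm_inner_le_norm _ _).trans ?_
      rw [LinearIsometryEquiv.norm_map]
    have h7 := h1.add (hL y)
    rw [zero_add] at h7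
    refine h7.congr fun t => ?_
    rw [map_sub, inner_sub_left, sub_add_cancel, ← hm_mul, ← nn_aa, hm_mul, hm_adj π (nn x)]
  have hw0 : w = 0 := hno w (hm_mautner π w hwn)
  have h1 : L u = 0 := by rw [← hw, hw0, inner_zero_left]
  have h2 := hL u
  rw [h1] at h2
  have h3 := (Complex.continuous_conj.tendsto 0).comp h2
  rw [map_zero] at h3
  refine h3.congr fun t => ?_
  exact inner_conj_symm _ _

theorem hm_sq (t ψ : ℝ) : ∑ i, ∑ j, (aa (-t) * kk ψ * aa t : G) i j ^ 2 =
    2 * Real.cos ψ ^ 2 + Real.sin ψ ^ 2 * (Real.exp t ^ 2 + Real.exp (-t) ^ 2) := by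
  have he : Real.exp (t / 2) * Real.exp (-(t / 2)) = 1 := by
    rw [← Real.exp_add, add_neg_cancel, Real.exp_zero]
  have he2 : Real.exp t = Real.exp (t / 2) * Real.exp (t / 2) := by
    rw [← Real.exp_add, add_halves]
  have he3 : Real.exp (-t) = Real.exp (-(t / 2)) * Real.exp (-(t / 2)) := by
    rw [← Real.exp_add]
    congr 1
    ring
  have e1 : Real.exp (-t / 2) = Real.exp (-(t / 2)) := by rw [neg_div]
  have e2 : Real.exp (-(-t / 2)) = Real.exp (t / 2) := by rw [neg_div, neg_neg]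
  have h0 : ((aa (-t) * kk ψ * aa t : G) : Matrix (Fin 2) (Fin 2) ℝ) =
      !![Real.cos ψ, -Real.sin ψ * Real.exp (-t); Real.sin ψ * Real.exp t, Real.cos ψ] := by
    change (!![Real.exp (-t / 2), 0; 0, Real.exp (-(-t / 2))] *
      !![Real.cos ψ, -Real.sin ψ; Real.sin ψ, Real.cos ψ]) *
      !![Real.exp (t / 2), 0; 0, Real.exp (-(t / 2))] = _
    rw [e1, e2, he2, he3, Matrix.mul_fin_two, Matrix.mul_fin_two]
    generalize Real.exp (t / 2) = a at *
    generalize Real.exp (-(t / 2)) = b at *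
    generalize Real.cos ψ = c
    generalize Real.sin ψ = s
    have h11 : (b * c + 0 * s) * a + (b * -s + 0 * c) * 0 = c := by
      linear_combination c * he
    have h12 : (b * c + 0 * s) * 0 + (b * -s + 0 * c) * b = -s * (b * b) := by
      ring
    have h21 : (0 * c + a * s) * a + (0 * -s + a * c) * 0 = s * (a * a) := by
      ring
    have h22 : (0 * c + a * s) * 0 + (0 * -s + a * c) * b = c := by
      linear_combination c * he
    rw [h11, h12, h21, h22]
  rw [Fin.sum_univ_two, Fin.sum_univ_two, Fin.sum_univ_two, h0]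
  change Real.cos ψ ^ 2 + (-Real.sin ψ * Real.exp (-t)) ^ 2 + ((Real.sin ψ * Real.exp t) ^ 2 + Real.cos ψ ^ 2) = _
  ring

theorem hm2 (hno : ∀ v, (∀ g, π.r g v = v) → v = 0) {m : ℤ} {v : H} (hv : IsWeight π m v) {ψ : ℝ} (hψ : Real.sin ψ ≠ 0) :
    Tendsto (fun t => inner ℂ (π.r (aa t) v) (π.r (kk ψ) (π.r (aa t) v))) atTop (𝓝 0) := by
  have hk : ∀ t : ℝ, ∃ φ t' ψ' : ℝ, 0 ≤ t' ∧ aa (-t) * kk ψ * aa t = kk φ * aa t' * kk ψ' ∧
      2 * Real.cosh t' = 2 * Real.cos ψ ^ 2 + Real.sin ψ ^ 2 * (Real.exp t ^ 2 + Real.exp (-t) ^ 2) := by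
    intro t
    obtain ⟨φ, t', ψ', h1, h2, h3⟩ := kak (aa (-t) * kk ψ * aa t)
    exact ⟨φ, t', ψ', h1, h2, h3.trans (hm_sq t ψ)⟩
  choose φ t' ψ' h1 h2 h3 using hk
  have hs : 0 < Real.sin ψ ^ 2 := by positivity
  -- the parameter tends to infinity
  have ht : Tendsto t' atTop atTop := by
    have h4 : ∀ t, Real.log (Real.sin ψ ^ 2 / 2) + 2 * t ≤ t' t := by
      intro t
      have h5 : Real.cosh (t' t) ≤ Real.exp (t' t) := by
        rw [Real.cosh_eq]
        have h6 : Real.exp (-t' t) ≤ Real.exp (t' t) := Real.exp_le_exp.2 (by linarith [h1 t])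
        linarith
      have h6 : Real.sin ψ ^ 2 / 2 * Real.exp (2 * t) ≤ Real.exp (t' t) := by
        have h7 := h3 t
        have h8 : Real.exp (2 * t) = Real.exp t ^ 2 := by
          rw [sq, ← Real.exp_add]
          congr 1
          ring
        have h9 : 0 ≤ Real.sin ψ ^ 2 * Real.exp (-t) ^ 2 := by positivity
        have h10 : 0 ≤ Real.cos ψ ^ 2 := by positivity
        rw [h8]
        nlinarith
      have h7 : Real.exp (Real.log (Real.sin ψ ^ 2 / 2) + 2 * t) ≤ Real.exp (t' t) := by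
        rw [Real.exp_add, Real.exp_log (by positivity)]
        exact h6
      exact Real.exp_le_exp.1 h7
    refine tendsto_atTop_mono h4 ?_
    exact tendsto_atTop_add_const_left _ _ (tendsto_id.const_mul_atTop two_pos)
  have h4 := (hm π hno v v).comp ht
  rw [tendsto_zero_iff_norm_tendsto_zero] at h4 ⊢
  refine h4.congr fun t => ?_
  have hinv : (aa (-t))⁻¹ = aa t := by
    rw [inv_eq_iff_mul_eq_one, ← aa_add, neg_add_cancel, aa_zero]
  have h5 : (inner ℂ (π.r (aa t) v) (π.r (kk ψ) (π.r (aa t) v)) : ℂ) =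
      inner ℂ v (π.r (aa (-t) * kk ψ * aa t) v) := by
    rw [← hinv, hm_adj, inv_inv, hm_mul, hm_mul, hinv]
  have hkinv : (kk (-φ t))⁻¹ = kk (φ t) := by
    rw [inv_eq_iff_mul_eq_one, ← kk_add, neg_add_cancel, kk_zero]
  have h6 : (inner ℂ v (π.r (aa (-t) * kk ψ * aa t) v) : ℂ) =
      inner ℂ (π.r (kk (-φ t)) v) (π.r (aa (t' t)) (π.r (kk (ψ' t)) v)) := by
    rw [h2, hm_adj, hkinv, hm_mul, hm_mul]
  have hn : ∀ θ : ℝ, ‖Complex.exp ((m : ℂ) * θ * Complex.I)‖ = 1 := by
    intro θ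
    have h7 : (m : ℂ) * θ * Complex.I = ((m * θ : ℝ) : ℂ) * Complex.I := by
      push_cast
      ring
    rw [h7, Complex.norm_exp_ofReal_mul_I]
  rw [h5, h6, hv, hv, map_smul, inner_smul_left, inner_smul_right, norm_mul, norm_mul, RCLike.norm_conj, hn, hn,
    one_mul, one_mul]
  rfl

end MPkt
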