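import Mathlib

/-!
# Lim: a generalised limit of bounded continuous functions, invariant under translations

* `exists_LIM`: `U` an ultrafilter `≤ atTop` on `ℝ` (`Ultrafilter.of`), `L F` the limit along `U` of the means `M_T F = T⁻¹ ∫_0^T F` (they lie in a closed ball of `ℂ`, which is compact;
  `limUnder` or `Ultrafilter` + `IsCompact.ultrafilter_le_nhds`). Linear, conjugation, real parts: clear. `norm`: if `‖F t‖ ≤ C` for `t ≥ T0` then `‖M_T F‖ ≤ C + T0 C' / T`. `tend`: apply `norm` to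
  `F - l`. `shift`: `M_T (F(· + s)) - M_T F = T⁻¹ (∫_T^{T+s} F - ∫_0^s F) → 0`.
* `LIM_congr`: `F - G → 0`.
* `LIM_int`: let `ε > 0`. By compactness of `[a, b]` (`huc`, Lebesgue number) there is a partition of `[a, b]` into small intervals `[θ_i, θ_{i+1}]` with `‖F θ t - F θ_i t‖ ≤ ε` for `θ` in it, `t ≥ 0`.
  So `‖∫_a^b F θ t dθ - ∑ (θ_{i+1} - θ_i) F θ_i t‖ ≤ ε (b - a)` for `t ≥ 0`, apply `L` (`norm`); `‖L(F θ) - L(F θ_i)‖ ≤ ε`, so `‖∫ L(F θ) dθ - ∑ (θ_{i+1} - θ_i) L(F θ_i)‖ ≤ ε (b - a)`. (`θ ↦ L (F θ)` is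
  continuous by `huc`.)

-/

set_option autoImplicit false

namespace MPkt

open Filter Topology MeasureTheory

/-- Bounded continuous functions on the line. -/
def BC (F : ℝ → ℂ) : Prop := Continuous F ∧ ∃ C : ℝ, ∀ t, ‖F t‖ ≤ C

/-- The properties of the generalised limit. -/
structure IsLIM (L : (ℝ → ℂ) → ℂ) : Prop where
  add : ∀ F F', BC F → BC F' → L (fun t => F t + F' t) = L F + L F'
  smul : ∀ (c : ℂ) F, BC F → L (fun t => c * F t) = c * L F
  norm : ∀ F (C : ℝ), BC F → (∀ᶠ t in atTop, ‖F t‖ ≤ C) → ‖L F‖ ≤ C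
  tend : ∀ F l, BC F → Tendsto F atTop (𝓝 l) → L F = l
  shift : ∀ F (s : ℝ), BC F → L (fun t => F (t + s)) = L F
  star : ∀ F, BC F → L (fun t => star (F t)) = star (L F)
  re : ∀ F, BC F → (∀ᶠ t in atTop, 0 ≤ (F t).re) → 0 ≤ (L F).re

private theorem Lim_add {F F' : ℝ → ℂ} (h : BC F) (h' : BC F') : BC (fun t => F t + F' t) := by
  obtain ⟨hc, C, hC⟩ := h
  obtain ⟨hc', C', hC'⟩ := h'
  exact ⟨hc.add hc', C + C', fun t => (norm_add_le _ _).trans (add_le_add (hC t) (hC' t))⟩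

private theorem Lim_smul (c : ℂ) {F : ℝ → ℂ} (h : BC F) : BC (fun t => c * F t) := by
  obtain ⟨hc, C, hC⟩ := h
  refine ⟨continuous_const.mul hc, ‖c‖ * C, fun t => ?_⟩
  rw [norm_mul]
  exact mul_le_mul_of_nonneg_left (hC t) (norm_nonneg c)

private theorem Lim_const (c : ℂ) : BC (fun _ => c) := ⟨continuous_const, ‖c‖, fun _ => le_rfl⟩

private theorem Lim_sub {F F' : ℝ → ℂ} (h : BC F) (h' : BC F') : BC (fun t => F t - F' t) := by
  have h1 := Lim_add h (Lim_smul (-1) h')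
  have h2 : (fun t => F t + -1 * F' t) = fun t => F t - F' t := by
    funext t
    ring
  rwa [h2] at h1

private theorem Lim_ii {F : ℝ → ℂ} (h : BC F) (a b : ℝ) : IntervalIntegrable F volume a b :=
  h.1.intervalIntegrable a b

/-- The means. -/
private noncomputable def Lim_M (F : ℝ → ℂ) (T : ℝ) : ℂ := (T : ℂ)⁻¹ * ∫ t in (0 : ℝ)..T, F t

private theorem Lim_M_bound {F : ℝ → ℂ} {C : ℝ} (hC : ∀ t, ‖F t‖ ≤ C) {T : ℝ} (hT : 0 < T) :
    ‖Lim_M F T‖ ≤ C := by
  unfold Lim_M
  have h1 : ‖∫ t in (0 : ℝ)..T, F t‖ ≤ C * |T - 0| :=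
    intervalIntegral.norm_integral_le_of_norm_le_const fun t _ => hC t
  rw [norm_mul, norm_inv, Complex.norm_real, Real.norm_of_nonneg hT.le]
  rw [sub_zero, abs_of_pos hT] at h1
  calc T⁻¹ * ‖∫ t in (0 : ℝ)..T, F t‖ ≤ T⁻¹ * (C * T) :=
        mul_le_mul_of_nonneg_left h1 (inv_nonneg.2 hT.le)
    _ = C := by field_simp

/-- The ultrafilter. -/
private noncomputable def Lim_U : Ultrafilter ℝ := Ultrafilter.of atTop

private theorem Lim_U_le : (Lim_U : Filter ℝ) ≤ atTop := Ultrafilter.of_le atTop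

open Classical in
/-- The limit of the means. -/
private noncomputable def Lim_L (F : ℝ → ℂ) : ℂ :=
  if h : ∃ l, Tendsto (Lim_M F) (Lim_U : Filter ℝ) (𝓝 l) then h.choose else 0

private theorem Lim_tendsto {F : ℝ → ℂ} (h : BC F) :
    Tendsto (Lim_M F) (Lim_U : Filter ℝ) (𝓝 (Lim_L F)) := by
  have h1 : ∃ l, Tendsto (Lim_M F) (Lim_U : Filter ℝ) (𝓝 l) := by
    obtain ⟨hc, C, hC⟩ := h
    have h2 : ((Lim_U.map (Lim_M F) : Ultrafilter ℂ) : Filter ℂ) ≤ 𝓟 (Metric.closedBall 0 C) := by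
      rw [Ultrafilter.coe_map, le_principal_iff, mem_map]
      refine Lim_U_le ?_
      filter_upwards [eventually_gt_atTop (0 : ℝ)] with T hT
      rw [Set.mem_preimage, mem_closedBall_zero_iff]
      exact Lim_M_bound hC hT
    obtain ⟨l, _, hl⟩ := (isCompact_closedBall (0 : ℂ) C).ultrafilter_le_nhds _ h2
    exact ⟨l, hl⟩
  unfold Lim_L
  rw [dif_pos h1]
  exact h1.choose_spec

private theorem Lim_uniq {F : ℝ → ℂ} (h : BC F) {l : ℂ}
    (hl : Tendsto (Lim_M F) (Lim_U : Filter ℝ) (𝓝 l)) : Lim_L F = l :=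
  tendsto_nhds_unique (Lim_tendsto h) hl

private theorem Lim_L_add {F F' : ℝ → ℂ} (h : BC F) (h' : BC F') :
    Lim_L (fun t => F t + F' t) = Lim_L F + Lim_L F' := by
  refine Lim_uniq (Lim_add h h') ?_
  have h1 : Lim_M (fun t => F t + F' t) = fun T => Lim_M F T + Lim_M F' T := by
    funext T
    unfold Lim_M
    rw [intervalIntegral.integral_add (Lim_ii h _ _) (Lim_ii h' _ _), mul_add]
  rw [h1]
  exact (Lim_tendsto h).add (Lim_tendsto h')

private theorem Lim_L_smul (c : ℂ) {F : ℝ → ℂ} (h : BC F) :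
    Lim_L (fun t => c * F t) = c * Lim_L F := by
  refine Lim_uniq (Lim_smul c h) ?_
  have h1 : Lim_M (fun t => c * F t) = fun T => c * Lim_M F T := by
    funext T
    unfold Lim_M
    rw [intervalIntegral.integral_const_mul]
    ring
  rw [h1]
  exact (Lim_tendsto h).const_mul c

/-- The tail of the means. -/
private theorem Lim_tail {F : ℝ → ℂ} (h : BC F) (T0 : ℝ) :
    Tendsto (fun T : ℝ => (T : ℂ)⁻¹ * ∫ t in T0..T, F t) (Lim_U : Filter ℝ) (𝓝 (Lim_L F)) := by
  have h1 : Tendsto (fun T : ℝ => (T : ℂ)⁻¹ * ∫ t in (0 : ℝ)..T0, F t) (Lim_U : Filter ℝ) (𝓝 0) := by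
    have h2 : Tendsto (fun T : ℝ => (T : ℂ)⁻¹) atTop (𝓝 0) := by
      have h3 : Tendsto (fun T : ℝ => ((T⁻¹ : ℝ) : ℂ)) atTop (𝓝 ((0 : ℝ) : ℂ)) :=
        (Complex.continuous_ofReal.tendsto 0).comp tendsto_inv_atTop_zero
      simpa using h3
    have h4 := (h2.mul_const (∫ t in (0 : ℝ)..T0, F t)).mono_left Lim_U_le
    rwa [zero_mul] at h4
  have h5 := (Lim_tendsto h).sub h1
  rw [sub_zero] at h5
  refine h5.congr fun T => ?_
  unfold Lim_M
  rw [← mul_sub, intervalIntegral.integral_interval_sub_left (Lim_ii h _ _) (Lim_ii h _ _)]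

private theorem Lim_L_norm {F : ℝ → ℂ} {C : ℝ} (h : BC F) (hC : ∀ᶠ t in atTop, ‖F t‖ ≤ C) :
    ‖Lim_L F‖ ≤ C := by
  obtain ⟨T0, hT0⟩ := eventually_atTop.1 hC
  have hC0 : 0 ≤ C := (norm_nonneg _).trans (hT0 T0 le_rfl)
  set T1 := max T0 0 with hT1
  refine le_of_tendsto (Lim_tail h T1).norm (Lim_U_le ?_)
  filter_upwards [eventually_gt_atTop (0 : ℝ), eventually_ge_atTop T1] with T hT hTT
  have h1 : ‖∫ t in T1..T, F t‖ ≤ C * |T - T1| :=
    intervalIntegral.norm_integral_le_of_norm_le_const fun t ht => by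
      rw [Set.uIoc_of_le hTT] at ht
      exact hT0 t ((le_max_left _ _).trans ht.1.le)
  have h2 : |T - T1| ≤ T := by
    rw [abs_of_nonneg (sub_nonneg.2 hTT)]
    have := le_max_right T0 0
    linarith
  rw [norm_mul, norm_inv, Complex.norm_real, Real.norm_of_nonneg hT.le]
  calc T⁻¹ * ‖∫ t in T1..T, F t‖ ≤ T⁻¹ * (C * T) :=
        mul_le_mul_of_nonneg_left (h1.trans (mul_le_mul_of_nonneg_left h2 hC0)) (inv_nonneg.2 hT.le)
    _ = C := by field_simp

private theorem Lim_L_const (c : ℂ) : Lim_L (fun _ => c) = c := by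
  refine Lim_uniq (Lim_const c) ?_
  refine Tendsto.congr' ?_ tendsto_const_nhds
  refine Lim_U_le ?_
  filter_upwards [eventually_gt_atTop (0 : ℝ)] with T hT
  unfold Lim_M
  rw [intervalIntegral.integral_const, sub_zero, Complex.real_smul, ← mul_assoc,
    inv_mul_cancel₀ (by exact_mod_cast hT.ne'), one_mul]

private theorem Lim_L_sub {F F' : ℝ → ℂ} (h : BC F) (h' : BC F') :
    Lim_L (fun t => F t - F' t) = Lim_L F - Lim_L F' := by
  have h1 := Lim_L_add h (Lim_smul (-1) h')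
  rw [Lim_L_smul (-1) h'] at h1
  have h2 : (fun t => F t + -1 * F' t) = fun t => F t - F' t := by
    funext t
    ring
  rw [h2] at h1
  rw [h1]
  ring

private theorem Lim_L_tend {F : ℝ → ℂ} {l : ℂ} (h : BC F) (hl : Tendsto F atTop (𝓝 l)) :
    Lim_L F = l := by
  have h1 := Lim_L_sub h (Lim_const l)
  rw [Lim_L_const] at h1
  have h2 : ‖Lim_L (fun t => F t - l)‖ ≤ 0 := by
    refine le_of_forall_pos_le_add fun ε hε => ?_
    rw [zero_add]
    refine Lim_L_norm (Lim_sub h (Lim_const l)) ?_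
    have h3 := Metric.tendsto_nhds.1 hl ε hε
    filter_upwards [h3] with t ht
    rw [dist_eq_norm] at ht
    exact ht.le
  have h3 := norm_le_zero_iff.1 h2
  rw [h1] at h3
  exact sub_eq_zero.1 h3

private theorem Lim_L_shift {F : ℝ → ℂ} (s : ℝ) (h : BC F) : Lim_L (fun t => F (t + s)) = Lim_L F := by
  have hb : BC (fun t => F (t + s)) := by
    obtain ⟨hc, C, hC⟩ := h
    exact ⟨hc.comp (continuous_id.add continuous_const), C, fun t => hC _⟩
  refine Lim_uniq hb ?_
  obtain ⟨C, hC⟩ := h.2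
  have hC0 : 0 ≤ C := (norm_nonneg _).trans (hC 0)
  have h1 : Tendsto (fun T : ℝ => (T : ℂ)⁻¹ * ∫ t in T..(T + s), F t) (Lim_U : Filter ℝ) (𝓝 0) := by
    have h2 : Tendsto (fun T : ℝ => T⁻¹ * (C * |s|)) atTop (𝓝 0) := by
      have := tendsto_inv_atTop_zero.mul_const (C * |s|) (f := fun T : ℝ => T⁻¹)
      rwa [zero_mul] at this
    refine squeeze_zero_norm' ?_ (h2.mono_left Lim_U_le)
    refine Lim_U_le ?_
    filter_upwards [eventually_gt_atTop (0 : ℝ)] with T hT
    have h3 : ‖∫ t in T..(T + s), F t‖ ≤ C * |T + s - T| :=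
      intervalIntegral.norm_integral_le_of_norm_le_const fun t _ => hC t
    rw [add_sub_cancel_left] at h3
    rw [norm_mul, norm_inv, Complex.norm_real, Real.norm_of_nonneg hT.le]
    exact mul_le_mul_of_nonneg_left h3 (inv_nonneg.2 hT.le)
  have h2 := (Lim_tail h s).add h1
  rw [add_zero] at h2
  refine h2.congr fun T => ?_
  unfold Lim_M
  rw [← mul_add, intervalIntegral.integral_add_adjacent_intervals (Lim_ii h _ _) (Lim_ii h _ _),
    intervalIntegral.integral_comp_add_right, zero_add]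

private theorem Lim_L_star {F : ℝ → ℂ} (h : BC F) : Lim_L (fun t => star (F t)) = star (Lim_L F) := by
  have hb : BC (fun t => star (F t)) := by
    obtain ⟨hc, C, hC⟩ := h
    exact ⟨continuous_star.comp hc, C, fun t => by rw [norm_star]; exact hC t⟩
  refine Lim_uniq hb ?_
  have h1 : Lim_M (fun t => star (F t)) = fun T => star (Lim_M F T) := by
    funext T
    unfold Lim_M
    have h2 : (∫ t in (0 : ℝ)..T, star (F t)) = star (∫ t in (0 : ℝ)..T, F t) :=
      (Complex.conjCLE : ℂ →L[ℝ] ℂ).intervalIntegral_comp_comm (Lim_ii h 0 T)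
    rw [h2, star_mul', star_inv₀]
    congr 2
    exact (Complex.conj_ofReal T).symm
  rw [h1]
  exact (continuous_star.tendsto _).comp (Lim_tendsto h)

private theorem Lim_L_re {F : ℝ → ℂ} (h : BC F) (hF : ∀ᶠ t in atTop, 0 ≤ (F t).re) : 0 ≤ (Lim_L F).re := by
  obtain ⟨T0, hT0⟩ := eventually_atTop.1 hF
  have h1 := (Complex.continuous_re.tendsto _).comp (Lim_tail h T0)
  refine ge_of_tendsto h1 (Lim_U_le ?_)
  filter_upwards [eventually_gt_atTop (0 : ℝ), eventually_ge_atTop T0] with T hT hTT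
  change 0 ≤ ((T : ℂ)⁻¹ * ∫ t in T0..T, F t).re
  rw [← Complex.ofReal_inv, Complex.re_ofReal_mul]
  refine mul_nonneg (inv_nonneg.2 hT.le) ?_
  have h2 : (∫ t in T0..T, F t).re = ∫ t in T0..T, (F t).re :=
    (Complex.reCLM.intervalIntegral_comp_comm (Lim_ii h T0 T)).symm
  rw [h2]
  exact intervalIntegral.integral_nonneg hTT fun t ht => hT0 t ht.1

theorem exists_LIM : ∃ L, IsLIM L :=
  ⟨Lim_L,
    { add := fun _ _ h h' => Lim_L_add h h'
      smul := fun c _ h => Lim_L_smul c h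
      norm := fun _ _ h hC => Lim_L_norm h hC
      tend := fun _ _ h hl => Lim_L_tend h hl
      shift := fun _ s h => Lim_L_shift s h
      star := fun _ h => Lim_L_star h
      re := fun _ h hF => Lim_L_re h hF }⟩

/-- The generalised limit. -/
noncomputable def LIM : (ℝ → ℂ) → ℂ := exists_LIM.choose

theorem isLIM : IsLIM LIM := exists_LIM.choose_spec

private theorem Lim_LIM_sub {F F' : ℝ → ℂ} (h : BC F) (h' : BC F') :
    LIM (fun t => F t - F' t) = LIM F - LIM F' := by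
  have h1 := isLIM.add _ _ h (Lim_smul (-1) h')
  rw [isLIM.smul (-1) _ h'] at h1
  have h2 : (fun t => F t + -1 * F' t) = fun t => F t - F' t := by
    funext t
    ring
  rw [h2] at h1
  rw [h1]
  ring

theorem LIM_congr {F F' : ℝ → ℂ} (h : BC F) (h' : BC F') (hd : Tendsto (fun t => F t - F' t) atTop (𝓝 0)) :
    LIM F = LIM F' := by
  have h1 := isLIM.tend _ _ (Lim_sub h h') hd
  rw [Lim_LIM_sub h h'] at h1
  exact sub_eq_zero.1 h1

theorem LIM_sum {ι : Type*} (s : Finset ι) (F : ι → ℝ → ℂ) (h : ∀ i ∈ s, BC (F i)) :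
    LIM (fun t => ∑ i ∈ s, F i t) = ∑ i ∈ s, LIM (F i) := by
  classical
  have h0 : ∀ s : Finset ι, (∀ i ∈ s, BC (F i)) → BC (fun t => ∑ i ∈ s, F i t) := by
    intro s hs
    induction s using Finset.induction_on with
    | empty =>
      simp only [Finset.sum_empty]
      exact Lim_const 0
    | insert i s hi ih =>
      simp only [Finset.sum_insert hi]
      exact Lim_add (hs i (Finset.mem_insert_self i s))
        (ih fun j hj => hs j (Finset.mem_insert_of_mem hj))
  induction s using Finset.induction_on with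
  | empty =>
    simp only [Finset.sum_empty]
    exact isLIM.tend _ _ (Lim_const 0) tendsto_const_nhds
  | insert i s hi ih =>
    simp only [Finset.sum_insert hi]
    rw [isLIM.add _ _ (h i (Finset.mem_insert_self i s))
      (h0 s fun j hj => h j (Finset.mem_insert_of_mem hj)),
      ih fun j hj => h j (Finset.mem_insert_of_mem hj)]

theorem LIM_int {F : ℝ → ℝ → ℂ} {a b C : ℝ} (hab : a ≤ b) (hF : Continuous fun x : ℝ × ℝ => F x.1 x.2)
    (hC : ∀ θ t, ‖F θ t‖ ≤ C) (huc : ∀ θ₀, ∀ ε > 0, ∃ δ > 0, ∀ θ, |θ - θ₀| < δ → ∀ t, 0 ≤ t → ‖F θ t - F θ₀ t‖ ≤ ε) :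
    LIM (fun t => ∫ θ in a..b, F θ t) = ∫ θ in a..b, LIM (F θ) := by
  have hC0 : 0 ≤ C := (norm_nonneg _).trans (hC 0 0)
  have hb : ∀ θ, BC (F θ) := fun θ =>
    ⟨hF.comp (continuous_const.prodMk continuous_id), C, hC θ⟩
  have hct : ∀ t, Continuous fun θ => F θ t := fun t =>
    hF.comp (continuous_id.prodMk continuous_const)
  have hI : ∀ x, BC (fun t => ∫ θ in a..x, F θ t) := by
    intro x
    refine ⟨?_, C * |x - a|, fun t => intervalIntegral.norm_integral_le_of_norm_le_const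
      fun θ _ => hC θ t⟩
    exact intervalIntegral.continuous_parametric_intervalIntegral_of_continuous'
      (f := fun t θ => F θ t) (hF.comp continuous_swap) a x
  have hg : Continuous fun θ => LIM (F θ) := by
    rw [Metric.continuous_iff]
    intro θ₀ ε hε
    obtain ⟨δ, hδ, h1⟩ := huc θ₀ (ε / 2) (by linarith)
    refine ⟨δ, hδ, fun θ hθ => ?_⟩
    rw [Real.dist_eq] at hθ
    rw [dist_eq_norm, ← Lim_LIM_sub (hb θ) (hb θ₀)]
    refine lt_of_le_of_lt (isLIM.norm _ (ε / 2) (Lim_sub (hb θ) (hb θ₀)) ?_) (by linarith)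
    filter_upwards [eventually_ge_atTop (0 : ℝ)] with t ht
    exact h1 θ hθ t ht
  have hd : ∀ x, HasDerivAt (fun x => LIM (fun t => ∫ θ in a..x, F θ t)) (LIM (F x)) x := by
    intro x
    rw [hasDerivAt_iff_isLittleO, Asymptotics.isLittleO_iff]
    intro c hc
    obtain ⟨δ, hδ, h1⟩ := huc x c hc
    filter_upwards [Metric.ball_mem_nhds x hδ] with y hy
    rw [Metric.mem_ball, Real.dist_eq] at hy
    have h2 : LIM (fun t => ∫ θ in a..y, F θ t) - LIM (fun t => ∫ θ in a..x, F θ t) -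
        (y - x) • LIM (F x) = LIM (fun t => (∫ θ in a..y, F θ t) - (∫ θ in a..x, F θ t) -
          ((y - x : ℝ) : ℂ) * F x t) := by
      rw [Lim_LIM_sub (Lim_sub (hI y) (hI x)) (Lim_smul _ (hb x)), Lim_LIM_sub (hI y) (hI x),
        isLIM.smul _ _ (hb x), Complex.real_smul]
    rw [h2, Real.norm_eq_abs]
    refine isLIM.norm _ _ (Lim_sub (Lim_sub (hI y) (hI x)) (Lim_smul _ (hb x))) ?_
    filter_upwards [eventually_ge_atTop (0 : ℝ)] with t ht
    have h3 : (∫ θ in a..y, F θ t) - (∫ θ in a..x, F θ t) - ((y - x : ℝ) : ℂ) * F x t =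
        ∫ θ in x..y, (F θ t - F x t) := by
      rw [intervalIntegral.integral_interval_sub_left ((hct t).intervalIntegrable _ _)
        ((hct t).intervalIntegrable _ _), intervalIntegral.integral_sub
        ((hct t).intervalIntegrable _ _) (continuous_const.intervalIntegrable _ _),
        intervalIntegral.integral_const, Complex.real_smul]
    rw [h3]
    refine intervalIntegral.norm_integral_le_of_norm_le_const fun θ hθ => h1 θ ?_ t ht
    refine lt_of_le_of_lt ?_ hy
    rw [Set.mem_uIoc] at hθ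
    rcases hθ with ⟨h4, h5⟩ | ⟨h4, h5⟩
    · rw [abs_of_nonneg (by linarith), abs_of_nonneg (by linarith)]
      linarith
    · rw [abs_of_nonpos (by linarith), abs_of_nonpos (by linarith)]
      linarith
  have h1 := intervalIntegral.integral_eq_sub_of_hasDerivAt (fun x _ => hd x)
    (hg.intervalIntegrable a b)
  rw [h1]
  simp only [intervalIntegral.integral_same]
  rw [isLIM.tend _ _ (Lim_const 0) tendsto_const_nhds, sub_zero]

end MPkt
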