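import Pool.Agent.Lib.MP_7b255b_nt.Equi
import Pool.Agent.Lib.MP_7b255b_nt.Lim

/-!
# Mean: the generalised limit of the circle means does not depend on the centre

* `kak`: singular values: `Aᵀ A` is symmetric positive of determinant `1`. Or: `2 cosh t = ∑ (entries)^2 ≥ 2`; choose `ψ` such that the two columns of `g * kk (-ψ)` are orthogonal (their inner product as
  a function of `ψ` changes the sign between `ψ` and `ψ + π/2`, intermediate value theorem), the first one not shorter; then they are `e^{t/2} (cos φ, sin φ)`, `e^{-t/2} (-sin φ, cos φ)` (determinant `1`).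
* `const`: `h g = LIM (cm Ψ g)`. `h` is continuous (`cm_equi`, `IsLIM.norm`), `h (γ g) = h g` for `γ ∈ Γ'`, `h (g kk φ) = h g` (`cm_kk`). Mean value property: `∫_0^{2π} h(g kk ψ aa S) dψ = 2π h g`:
  `LIM_int` (with `cm_equi` for the uniformity in `ψ`) , `cm_mean`, `LIM_congr`, `LIM_int` again with `cm_uct`, and `IsLIM.shift`. The real part `h1` (the same for the imaginary part) attains its maximum on
  `G` at some `g0 ∈ Ω` (`h1` continuous and invariant). `∫ (h1 g0 - h1(g0 kk ψ aa S)) dψ = 0`, the integrand is continuous and `≥ 0`, so it is `0` for all `ψ ∈ [0, 2π]`, `S`. Every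
  `g ∈ G` is `g0 kk ψ aa S kk φ` (`kak`), so `h1 g = h1 g0`.

-/

set_option autoImplicit false

namespace MPkt

open Filter Topology

attribute [local irreducible] cm

theorem kak (g : G) : ∃ φ t ψ : ℝ, 0 ≤ t ∧ g = kk φ * aa t * kk ψ ∧ 2 * Real.cosh t = ∑ i, ∑ j, g i j ^ 2 := by
  obtain ⟨a, b, c, d, hg⟩ : ∃ a b c d : ℝ, (g : Matrix (Fin 2) (Fin 2) ℝ) = !![a, b; c, d] :=
    ⟨_, _, _, _, Matrix.eta_fin_two _⟩
  have hdet : a * d - b * c = 1 := by
    have h := g.2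
    rw [hg, Matrix.det_fin_two_of] at h
    exact h
  obtain ⟨z, hz⟩ : ∃ z : ℂ, z = ⟨(a + d) / 2, (c - b) / 2⟩ := ⟨_, rfl⟩
  obtain ⟨w, hw⟩ : ∃ w : ℂ, w = ⟨(a - d) / 2, (b + c) / 2⟩ := ⟨_, rfl⟩
  have hz1 : ‖z‖ * Real.cos z.arg = (a + d) / 2 := by rw [Complex.norm_mul_cos_arg, hz]
  have hz2 : ‖z‖ * Real.sin z.arg = (c - b) / 2 := by rw [Complex.norm_mul_sin_arg, hz]
  have hw1 : ‖w‖ * Real.cos w.arg = (a - d) / 2 := by rw [Complex.norm_mul_cos_arg, hw]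
  have hw2 : ‖w‖ * Real.sin w.arg = (b + c) / 2 := by rw [Complex.norm_mul_sin_arg, hw]
  have hzn : ‖z‖ ^ 2 = ((a + d) / 2) ^ 2 + ((c - b) / 2) ^ 2 := by
    rw [Complex.sq_norm, hz, Complex.normSq_mk]
    ring
  have hwn : ‖w‖ ^ 2 = ((a - d) / 2) ^ 2 + ((b + c) / 2) ^ 2 := by
    rw [Complex.sq_norm, hw, Complex.normSq_mk]
    ring
  have hzw : ‖z‖ ^ 2 = 1 + ‖w‖ ^ 2 := by
    rw [hzn, hwn]
    linear_combination hdet
  obtain ⟨t, ht⟩ : ∃ t : ℝ, t = 2 * Real.arsinh ‖w‖ := ⟨_, rfl⟩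
  have ht2 : t / 2 = Real.arsinh ‖w‖ := by rw [ht]; ring
  have hsh : Real.sinh (t / 2) = ‖w‖ := by rw [ht2, Real.sinh_arsinh]
  have hch : Real.cosh (t / 2) = ‖z‖ := by
    rw [ht2, Real.cosh_arsinh, ← hzw, Real.sqrt_sq (norm_nonneg z)]
  have hexp : Real.exp (t / 2) = ‖z‖ + ‖w‖ := by rw [← Real.cosh_add_sinh, hsh, hch]
  have hexp' : Real.exp (-(t / 2)) = ‖z‖ - ‖w‖ := by rw [← Real.cosh_sub_sinh, hsh, hch]
  obtain ⟨φ, hφ⟩ : ∃ φ : ℝ, φ = (z.arg + w.arg) / 2 := ⟨_, rfl⟩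
  obtain ⟨ψ, hψ⟩ : ∃ ψ : ℝ, ψ = (z.arg - w.arg) / 2 := ⟨_, rfl⟩
  have hA : z.arg = φ + ψ := by rw [hφ, hψ]; ring
  have hB : w.arg = φ - ψ := by rw [hφ, hψ]; ring
  rw [hA, Real.cos_add] at hz1
  rw [hA, Real.sin_add] at hz2
  rw [hB, Real.cos_sub] at hw1
  rw [hB, Real.sin_sub] at hw2
  refine ⟨φ, t, ψ, ?_, ?_, ?_⟩
  · rw [ht]
    have := Real.arsinh_nonneg_iff.2 (norm_nonneg w)
    positivity
  · apply Subtype.ext
    rw [Matrix.SpecialLinearGroup.coe_mul, Matrix.SpecialLinearGroup.coe_mul, hg]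
    change _ = !![Real.cos φ, -Real.sin φ; Real.sin φ, Real.cos φ] *
      !![Real.exp (t / 2), 0; 0, Real.exp (-(t / 2))] * !![Real.cos ψ, -Real.sin ψ; Real.sin ψ, Real.cos ψ]
    rw [hexp, hexp', Matrix.mul_fin_two, Matrix.mul_fin_two]
    ext i j
    fin_cases i <;> fin_cases j
    · change a = _
      simp only [Matrix.of_apply, Matrix.cons_val', Matrix.cons_val_zero, Matrix.cons_val_fin_one, Fin.zero_eta,
        Fin.isValue, Matrix.cons_val_one, Fin.mk_one]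
      linear_combination -hz1 - hw1
    · change b = _
      simp only [Matrix.of_apply, Matrix.cons_val', Matrix.cons_val_zero, Matrix.cons_val_fin_one, Fin.zero_eta,
        Fin.isValue, Matrix.cons_val_one, Fin.mk_one]
      linear_combination hz2 - hw2
    · change c = _
      simp only [Matrix.of_apply, Matrix.cons_val', Matrix.cons_val_zero, Matrix.cons_val_fin_one, Fin.zero_eta,
        Fin.isValue, Matrix.cons_val_one, Fin.mk_one]
      linear_combination -hz2 - hw2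
    · change d = _
      simp only [Matrix.of_apply, Matrix.cons_val', Matrix.cons_val_zero, Matrix.cons_val_fin_one, Fin.zero_eta,
        Fin.isValue, Matrix.cons_val_one, Fin.mk_one]
      linear_combination -hz1 + hw1
  · have h1 : Real.cosh t = ‖z‖ ^ 2 + ‖w‖ ^ 2 := by
      have h2 : t = 2 * (t / 2) := by ring
      rw [h2, Real.cosh_two_mul, hsh, hch]
    have h3 : ∑ i, ∑ j, g i j ^ 2 = a ^ 2 + b ^ 2 + (c ^ 2 + d ^ 2) := by
      have h4 : ∀ i j, g i j = (!![a, b; c, d] : Matrix (Fin 2) (Fin 2) ℝ) i j := fun i j => by rw [← hg]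
      simp only [Fin.sum_univ_two, h4]
      rfl
    rw [h1, h3, hzn, hwn]
    ring

theorem BUC.bc {Ψ : G → ℂ} (h : BUC Ψ) (g : G) : BC (cm Ψ g) := by
  obtain ⟨C, hC⟩ := h.bdd
  have h1 : Continuous fun t : ℝ => (g, t) := continuous_const.prodMk continuous_id
  have h2 : Continuous ((fun x : G × ℝ => cm Ψ x.1 x.2) ∘ fun t : ℝ => (g, t)) := (cm_cont h.cont).comp h1
  have h3 : ((fun x : G × ℝ => cm Ψ x.1 x.2) ∘ fun t : ℝ => (g, t)) = cm Ψ g := rfl
  rw [h3] at h2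
  exact ⟨h2, C, fun t => cm_le hC g t⟩

private theorem Mean_sub {F F' : ℝ → ℂ} (h : BC F) (h' : BC F') : BC (fun t => F t + (-1) * F' t) ∧
    LIM (fun t => F t + (-1) * F' t) = LIM F - LIM F' := by
  obtain ⟨C', hC'⟩ := h'.2
  obtain ⟨C, hC⟩ := h.2
  have h1 : BC (fun t => (-1) * F' t) := by
    refine ⟨continuous_const.mul h'.1, C', fun t => ?_⟩
    rw [norm_mul, norm_neg, norm_one, one_mul]
    exact hC' t
  refine ⟨⟨h.1.add h1.1, C + C', fun t => (norm_add_le _ _).trans (add_le_add (hC t) ?_)⟩, ?_⟩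
  · rw [norm_mul, norm_neg, norm_one, one_mul]
    exact hC' t
  · rw [isLIM.add F _ h h1, isLIM.smul (-1) F' h']
    ring

private theorem Mean_uc {Ψ : G → ℂ} (h : BUC Ψ) : ∀ ε > 0, ∃ U ∈ 𝓝 (1 : G), ∀ g, ∀ u ∈ U,
    ‖LIM (cm Ψ (g * u)) - LIM (cm Ψ g)‖ ≤ ε := by
  intro ε hε
  obtain ⟨U, hU, h1⟩ := cm_equi h ε hε
  refine ⟨U, hU, fun g u hu => ?_⟩
  obtain ⟨h2, h3⟩ := Mean_sub (h.bc (g * u)) (h.bc g)
  rw [← h3]
  refine isLIM.norm _ ε h2 ?_
  filter_upwards [eventually_ge_atTop (0 : ℝ)] with t ht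
  have h4 := h1 g u hu t ht
  have h5 : cm Ψ (g * u) t + -1 * cm Ψ g t = cm Ψ (g * u) t - cm Ψ g t := by ring
  rw [h5]
  exact h4

private theorem Mean_path {X : Type*} [TopologicalSpace X] {γ : X → G} (hγ : Continuous γ) (x : X) {U : Set G}
    (hU : U ∈ 𝓝 (1 : G)) : ∀ᶠ y in 𝓝 x, (γ x)⁻¹ * γ y ∈ U := by
  have h1 : Continuous fun y => (γ x)⁻¹ * γ y := continuous_const.mul hγ
  have h3 : (γ x)⁻¹ * γ x = 1 := inv_mul_cancel _
  refine (h1.tendsto x) ?_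
  beta_reduce
  rw [h3]
  exact hU

private theorem Mean_cont {Ψ : G → ℂ} (h : BUC Ψ) : Continuous fun g => LIM (cm Ψ g) := by
  rw [continuous_iff_continuousAt]
  intro g
  rw [Metric.continuousAt_iff']
  intro ε hε
  obtain ⟨U, hU, h1⟩ := Mean_uc h (ε / 2) (by positivity)
  filter_upwards [Mean_path continuous_id g hU] with y hy
  rw [dist_eq_norm]
  have h2 := h1 g _ hy
  rw [id, id, mul_inv_cancel_left] at h2
  linarith

private theorem Mean_bc {F : ℝ → ℝ → ℂ} {C : ℝ} (hF : Continuous fun x : ℝ × ℝ => F x.1 x.2)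
    (hC : ∀ θ t, ‖F θ t‖ ≤ C) (a b : ℝ) : BC (fun t => ∫ θ in a..b, F θ t) := by
  refine ⟨?_, C * |b - a|, fun t => ?_⟩
  · have h1 : Continuous fun x : ℝ × ℝ => (x.2, x.1) := continuous_snd.prodMk continuous_fst
    have h2 : Continuous (Function.uncurry fun t θ : ℝ => F θ t) := hF.comp h1
    exact intervalIntegral.continuous_parametric_intervalIntegral_of_continuous' h2 a b
  · exact intervalIntegral.norm_integral_le_of_norm_le_const fun θ _ => hC θ t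

private theorem Mean_mvp {Ψ : G → ℂ} (h : BUC Ψ) (g : G) (S : ℝ) :
    ∫ ψ in (0 : ℝ)..(2 * Real.pi), LIM (cm Ψ (g * kk ψ * aa S)) = (2 * Real.pi) * LIM (cm Ψ g) := by
  obtain ⟨C, hC⟩ := h.bdd
  have hpi : (0 : ℝ) ≤ 2 * Real.pi := by positivity
  obtain ⟨β, hβ, h1⟩ := cm_mean h S
  have hγ : Continuous fun ψ : ℝ => g * kk ψ * aa S := (continuous_const.mul cont_kk).mul continuous_const
  have hF1 : Continuous fun x : ℝ × ℝ => cm Ψ (g * kk x.1 * aa S) x.2 :=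
    (cm_cont h.cont).comp ((hγ.comp continuous_fst).prodMk continuous_snd)
  have hF2 : Continuous fun x : ℝ × ℝ => cm Ψ g (x.2 + β x.1) :=
    (cm_cont h.cont).comp (continuous_const.prodMk (continuous_snd.add (hβ.comp continuous_fst)))
  have e1 : LIM (fun t => ∫ ψ in (0 : ℝ)..(2 * Real.pi), cm Ψ (g * kk ψ * aa S) t) =
      ∫ ψ in (0 : ℝ)..(2 * Real.pi), LIM (cm Ψ (g * kk ψ * aa S)) := by
    refine LIM_int (F := fun ψ t => cm Ψ (g * kk ψ * aa S) t) hpi hF1 (fun θ t => cm_le hC _ t) ?_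
    intro θ₀ ε hε
    obtain ⟨U, hU, h2⟩ := cm_equi h ε hε
    obtain ⟨δ, hδ, h3⟩ := Metric.eventually_nhds_iff.1 (Mean_path hγ θ₀ hU)
    refine ⟨δ, hδ, fun θ hθ t ht => ?_⟩
    have h4 := h2 (g * kk θ₀ * aa S) _ (h3 (by rw [Real.dist_eq]; exact hθ)) t ht
    rw [mul_inv_cancel_left] at h4
    exact h4
  have e2 : LIM (fun t => ∫ θ in (0 : ℝ)..(2 * Real.pi), cm Ψ g (t + β θ)) =
      ∫ θ in (0 : ℝ)..(2 * Real.pi), LIM (fun t => cm Ψ g (t + β θ)) := by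
    refine LIM_int (F := fun θ t => cm Ψ g (t + β θ)) hpi hF2 (fun θ t => cm_le hC _ _) ?_
    intro θ₀ ε hε
    obtain ⟨δ', hδ', h2⟩ := cm_uct h ε hε
    obtain ⟨δ, hδ, h3⟩ := Metric.continuous_iff.1 hβ θ₀ δ' hδ'
    refine ⟨δ, hδ, fun θ hθ t _ => h2 g _ _ ?_⟩
    have h4 := h3 θ (by rw [Real.dist_eq]; exact hθ)
    rw [Real.dist_eq] at h4
    rw [add_sub_add_left_eq_sub]
    exact h4
  have e3 : LIM (fun t => ∫ ψ in (0 : ℝ)..(2 * Real.pi), cm Ψ (g * kk ψ * aa S) t) =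
      LIM (fun t => ∫ θ in (0 : ℝ)..(2 * Real.pi), cm Ψ g (t + β θ)) :=
    LIM_congr (Mean_bc (F := fun ψ t => cm Ψ (g * kk ψ * aa S) t) hF1 (fun θ t => cm_le hC _ t) _ _)
      (Mean_bc (F := fun θ t => cm Ψ g (t + β θ)) hF2 (fun θ t => cm_le hC _ _) _ _) (h1 g)
  rw [← e1, e3, e2]
  have e4 : ∀ θ : ℝ, LIM (fun t => cm Ψ g (t + β θ)) = LIM (cm Ψ g) := fun θ => isLIM.shift _ _ (h.bc g)
  simp only [e4]
  rw [intervalIntegral.integral_const, sub_zero, Complex.real_smul]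
  push_cast
  rfl

private theorem Mean_re {Γ' : Set G} {Ψ : G → ℂ} (h : Cpt Γ' Ψ) (c : ℂ) :
    ∃ M : ℝ, ∀ g, (c * LIM (cm Ψ g)).re = M := by
  have hb := h.buc
  obtain ⟨Ω, hΩ, hcov⟩ := h.cocpt
  have hinv : ∀ γ ∈ Γ', ∀ g, LIM (cm Ψ (γ * g)) = LIM (cm Ψ g) := by
    intro γ hγ g
    have h1 : cm Ψ (γ * g) = cm Ψ g := by
      funext t
      unfold cm
      have h2 : ∀ θ : ℝ, Ψ (γ * g * kk θ * aa t) = Ψ (g * kk θ * aa t) := by
        intro θ
        rw [mul_assoc γ g, mul_assoc γ, h.inv γ hγ]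
      simp only [h2]
    rw [h1]
  have hcont : Continuous fun g => (c * LIM (cm Ψ g)).re :=
    Complex.continuous_re.comp (continuous_const.mul (Mean_cont hb))
  obtain ⟨γ₁, _, hγ₁⟩ := hcov 1
  obtain ⟨g₀, _, hg₀⟩ := hΩ.exists_isMaxOn ⟨_, hγ₁⟩ hcont.continuousOn
  have hmax : ∀ g, (c * LIM (cm Ψ g)).re ≤ (c * LIM (cm Ψ g₀)).re := by
    intro g
    obtain ⟨γ, hγ, hγg⟩ := hcov g
    rw [← hinv γ hγ g]
    exact hg₀ hγg
  have hzero : ∀ ψ S : ℝ, (c * LIM (cm Ψ (g₀ * kk ψ * aa S))).re = (c * LIM (cm Ψ g₀)).re := by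
    intro ψ S
    obtain ⟨ψ', hψ', hkk⟩ := Function.Periodic.exists_mem_Ico₀ (f := kk) kk_two_pi Real.two_pi_pos ψ
    rw [hkk]
    by_contra hne
    have hγ : Continuous fun ψ : ℝ => g₀ * kk ψ * aa S := (continuous_const.mul cont_kk).mul continuous_const
    have hf : Continuous fun ψ : ℝ => (c * LIM (cm Ψ g₀)).re - (c * LIM (cm Ψ (g₀ * kk ψ * aa S))).re :=
      continuous_const.sub (hcont.comp hγ)
    have h1 : 0 < ∫ ψ in (0 : ℝ)..(2 * Real.pi), ((c * LIM (cm Ψ g₀)).re -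
        (c * LIM (cm Ψ (g₀ * kk ψ * aa S))).re) := by
      refine intervalIntegral.integral_pos Real.two_pi_pos hf.continuousOn (fun x _ => ?_)
        ⟨ψ', ⟨hψ'.1, hψ'.2.le⟩, ?_⟩
      · exact sub_nonneg.2 (hmax _)
      · exact sub_pos.2 (lt_of_le_of_ne (hmax _) hne)
    have h2 : ∫ ψ in (0 : ℝ)..(2 * Real.pi), ((c * LIM (cm Ψ g₀)).re -
        (c * LIM (cm Ψ (g₀ * kk ψ * aa S))).re) = 0 := by
      have h4 : Continuous fun ψ : ℝ => (c * LIM (cm Ψ (g₀ * kk ψ * aa S))).re := hcont.comp hγ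
      have h5 : Continuous fun ψ : ℝ => c * LIM (cm Ψ (g₀ * kk ψ * aa S)) :=
        continuous_const.mul ((Mean_cont hb).comp hγ)
      rw [intervalIntegral.integral_sub (continuous_const.intervalIntegrable _ _) (h4.intervalIntegrable _ _),
        intervalIntegral.integral_const, sub_zero, smul_eq_mul]
      have h6 : ∫ ψ in (0 : ℝ)..(2 * Real.pi), (c * LIM (cm Ψ (g₀ * kk ψ * aa S))).re =
          (∫ ψ in (0 : ℝ)..(2 * Real.pi), c * LIM (cm Ψ (g₀ * kk ψ * aa S))).re :=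
        Complex.reCLM.intervalIntegral_comp_comm (h5.intervalIntegrable _ _)
      rw [h6, intervalIntegral.integral_const_mul, Mean_mvp hb]
      have h7 : c * (2 * Real.pi * LIM (cm Ψ g₀)) = ((2 * Real.pi : ℝ) : ℂ) * (c * LIM (cm Ψ g₀)) := by
        push_cast
        ring
      rw [h7, Complex.re_ofReal_mul, sub_self]
    exact absurd h2 h1.ne'
  refine ⟨(c * LIM (cm Ψ g₀)).re, fun g => ?_⟩
  obtain ⟨φ, t, ψ, _, h1, _⟩ := kak (g₀⁻¹ * g)
  have h2 : g = g₀ * kk φ * aa t * kk ψ := by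
    rw [mul_assoc, mul_assoc, ← mul_assoc (kk φ), ← h1, mul_inv_cancel_left]
  have h3 : cm Ψ g = cm Ψ (g₀ * kk φ * aa t) := by
    funext T
    rw [h2, cm_kk]
  rw [h3, hzero]

theorem const {Γ' : Set G} {Ψ : G → ℂ} (h : Cpt Γ' Ψ) (g g' : G) : LIM (cm Ψ g) = LIM (cm Ψ g') := by
  obtain ⟨M, hM⟩ := Mean_re h 1
  obtain ⟨N, hN⟩ := Mean_re h (-Complex.I)
  apply Complex.ext
  · have h1 := hM g
    have h2 := hM g'
    rw [one_mul] at h1 h2
    rw [h1, h2]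
  · have h1 := hN g
    have h2 := hN g'
    simp only [Complex.mul_re, Complex.neg_re, Complex.I_re, Complex.neg_im, Complex.I_im] at h1 h2
    linarith

end MPkt
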