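import Pool.Agent.Lib.MP_7b255b_nt.Four
import Pool.Agent.Lib.MP_7b255b_nt.Mean

/-!
# Mult: the weights of an irreducible unitary representation have multiplicity one

`A_g = P π(g) P`, `P = Pn π n` (a bounded operator, the orthogonal projection on the closed subspace `W` of the vectors of weight `n`).
* `th g = w gᵀ w`, `w = diag(1, -1)` (not in `G`; define `th` on matrices: `[[p, q],[r, s]] ↦ [[p, -r],[-q, s]]`): `th (g h) = th h * th g`, `th (kk θ) = kk θ`, `th (aa t) = aa t`. By `kak` `g = kk φ aa t kk ψ`, `th g = kk ψ aa t kk φ`, so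
  `A_g = e^{in(φ + ψ)} A_{aa t} = A_{th g}`.
* `A_g A_h = (2π)⁻¹ ∫ e^{-inθ} A_{g kk θ h} dθ = (2π)⁻¹ ∫ e^{-inθ} A_{th h kk θ th g} dθ = A_{th h} A_{th g} = A_h A_g`. `A_g^* = A_{g⁻¹}`.
* all `A_g` are scalars on `W`: suppose the self-adjoint operator `T = A_g + A_g^*` or `i (A_g - A_g^*)` is not a scalar on `W`. Its spectrum (on `W`) has two points; continuous functions `f1`, `f2` with `f1 f2 = 0`, not `0` at these points:
  `f1(T) f2(T) = 0`, `f1(T) ≠ 0`, `f2(T) ≠ 0` (`cfc`). Then `W1 = ker f1(T)` is stable under all `A_h` (they commute with `T`), `W1 ≠ 0` and `W1 ≠ W`. The closed subspace of the `u` with `P π(g) u ∈ W1` for all `g` is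
  invariant, it contains `W1`, so it is `H`, and `W ≤ W1`, contradiction.
* so for `0 ≠ v ∈ W` the line `ℂ v` is stable under the `A_g` and by the same argument `W ≤ ℂ v`.

-/

set_option autoImplicit false

namespace MPkt

open Filter Topology

universe u

section op

variable {W : Type*} [NormedAddCommGroup W] [InnerProductSpace ℂ W] [CompleteSpace W]

private theorem Mult_sa (hW : ∃ w : W, w ≠ 0) (T : W →L[ℂ] W) (hT : IsSelfAdjoint T)
    (h : ∀ K : W →L[ℂ] W, (∀ B : W →L[ℂ] W, Commute T B → Commute K B) → K = 0 ∨ ∀ w, K w = 0 → w = 0) :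
    ∃ c : ℂ, T = c • (1 : W →L[ℂ] W) := by
  obtain ⟨w0, hw0⟩ := hW
  have hnt : Nontrivial W := ⟨⟨w0, 0, hw0⟩⟩
  have hne : (spectrum ℝ T).Nonempty := ContinuousFunctionalCalculus.spectrum_nonempty T hT
  by_cases hs : ∃ x ∈ spectrum ℝ T, ∃ y ∈ spectrum ℝ T, x < y
  · exfalso
    obtain ⟨x, hx, y, hy, hxy⟩ := hs
    set m : ℝ := (x + y) / 2 with hm
    have hf : ∀ (f : ℝ → ℝ), Continuous f → (∃ z ∈ spectrum ℝ T, f z ≠ 0) → cfc f T ≠ 0 := by
      rintro f hfc ⟨z, hz, hz0⟩ h0
      have h1 := cfc_map_spectrum (R := ℝ) f T hT hfc.continuousOn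
      rw [h0, spectrum.zero_eq] at h1
      have h2 : f z ∈ ({0} : Set ℝ) := by
        rw [h1]
        exact ⟨z, hz, rfl⟩
      exact hz0 h2
    have hc1 : Continuous fun z : ℝ => max (z - m) 0 := by fun_prop
    have hc2 : Continuous fun z : ℝ => max (m - z) 0 := by fun_prop
    have h1 := hf _ hc1 ⟨y, hy, by
      have : 0 < y - m := by rw [hm]; linarith
      rw [max_eq_left this.le]
      exact this.ne'⟩
    have h2 := hf _ hc2 ⟨x, hx, by
      have : 0 < m - x := by rw [hm]; linarith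
      rw [max_eq_left this.le]
      exact this.ne'⟩
    have h3 : cfc (fun z : ℝ => max (z - m) 0) T * cfc (fun z : ℝ => max (m - z) 0) T = 0 := by
      rw [← cfc_mul _ _ T hc1.continuousOn hc2.continuousOn]
      have h4 : (fun z : ℝ => max (z - m) 0 * max (m - z) 0) = fun _ => 0 := by
        funext z
        rcases le_total z m with h | h
        · rw [max_eq_right (by linarith : z - m ≤ 0), zero_mul]
        · rw [max_eq_right (by linarith : m - z ≤ 0), mul_zero]
      rw [h4, cfc_const_zero ℝ T]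
    rcases h (cfc (fun z : ℝ => max (z - m) 0) T) (fun B hB => Commute.cfc_real hB _) with h5 | h5
    · exact h1 h5
    · apply h2
      ext w
      exact h5 _ (by
        have := congrArg (fun K : W →L[ℂ] W => K w) h3
        exact this)
  · obtain ⟨x, hx⟩ := hne
    have h1 : ∀ z ∈ spectrum ℝ T, z = x := by
      intro z hz
      by_contra hzx
      rcases lt_or_gt_of_ne hzx with h2 | h2
      · exact hs ⟨z, hz, x, hx, h2⟩
      · exact hs ⟨x, hx, z, hz, h2⟩
    refine ⟨(x : ℂ), ?_⟩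
    have h2 : cfc (id : ℝ → ℝ) T = cfc (fun _ : ℝ => x) T := cfc_congr fun z hz => h1 z hz
    rw [cfc_id ℝ T hT, cfc_const x T hT] at h2
    rw [h2, Algebra.algebraMap_eq_smul_one]
    ext w
    simp

private theorem Mult_sc (hW : ∃ w : W, w ≠ 0) {ι : Type*} (B : ι → W →L[ℂ] W) (inv : ι → ι)
    (hadj : ∀ i, star (B i) = B (inv i)) (hcomm : ∀ i j, Commute (B i) (B j))
    (h : ∀ K : W →L[ℂ] W, (∀ i, Commute K (B i)) → K = 0 ∨ ∀ w, K w = 0 → w = 0) (i : ι) :
    ∃ c : ℂ, B i = c • (1 : W →L[ℂ] W) := by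
  have h1 : ∃ c : ℂ, B i + B (inv i) = c • (1 : W →L[ℂ] W) := by
    refine Mult_sa hW _ ?_ fun K hK => h K fun j => ?_
    · show star (B i + B (inv i)) = _
      rw [star_add, hadj i, ← hadj i, star_star, add_comm]
    · exact hK (B j) ((hcomm i j).add_left (hcomm (inv i) j))
  have h2 : ∃ c : ℂ, Complex.I • (B i - B (inv i)) = c • (1 : W →L[ℂ] W) := by
    refine Mult_sa hW _ ?_ fun K hK => h K fun j => ?_
    · show star (Complex.I • (B i - B (inv i))) = _
      rw [star_smul, star_sub, hadj i, ← hadj i, star_star]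
      have h3 : star Complex.I = -Complex.I := Complex.conj_I
      rw [h3, neg_smul, ← smul_neg, neg_sub]
    · exact hK (B j) (((hcomm i j).sub_left (hcomm (inv i) j)).smul_left Complex.I)
  obtain ⟨c, hc⟩ := h1
  obtain ⟨d, hd⟩ := h2
  refine ⟨2⁻¹ * (c - Complex.I * d), ?_⟩
  have h3 : B i = (2⁻¹ : ℂ) • ((B i + B (inv i)) - Complex.I • (Complex.I • (B i - B (inv i)))) := by
    rw [smul_smul, Complex.I_mul_I, neg_smul, one_smul, sub_neg_eq_add, add_add_sub_cancel, ← two_smul ℂ (B i), smul_smul,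
      inv_mul_cancel₀ (two_ne_zero), one_smul]
  rw [h3, hc, hd, smul_smul, ← sub_smul, smul_smul]

end op

/-- The anti-automorphism. -/
private noncomputable def Mult_th (g : G) : G :=
  ⟨!![g 0 0, -g 1 0; -g 0 1, g 1 1], by
    have h := g.2
    rw [Matrix.det_fin_two] at h
    rw [Matrix.det_fin_two_of]
    linear_combination h⟩

private theorem Mult_th_mul (g h : G) : Mult_th (g * h) = Mult_th h * Mult_th g := by
  ext i j
  fin_cases i <;> fin_cases j <;> simp [Mult_th, Matrix.mul_apply, Fin.sum_univ_two] <;> ring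

private theorem Mult_th_kk (θ : ℝ) : Mult_th (kk θ) = kk θ := by
  ext i j
  fin_cases i <;> fin_cases j <;> simp [Mult_th, kk]

private theorem Mult_th_aa (t : ℝ) : Mult_th (aa t) = aa t := by
  ext i j
  fin_cases i <;> fin_cases j <;> simp [Mult_th, aa]

variable {H : Type u} [NormedAddCommGroup H] [InnerProductSpace ℂ H] [CompleteSpace H] {π : URep H}

private theorem Mult_add {n : ℤ} (v w : H) : Pn π n (v + w) = Pn π n v + Pn π n w := by
  refine ext_inner_left ℂ fun x => ?_
  rw [inner_Pn, inner_add_right, inner_add_right, inner_Pn, inner_Pn]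

private theorem Mult_smul {n : ℤ} (c : ℂ) (v : H) : Pn π n (c • v) = c • Pn π n v := by
  refine ext_inner_left ℂ fun x => ?_
  rw [inner_Pn, inner_smul_right, inner_smul_right, inner_Pn]

private theorem Mult_le (n : ℤ) (v : H) : ‖Pn π n v‖ ≤ ‖v‖ := by
  have h1 : inner ℂ (Pn π n v) (Pn π n v) = inner ℂ (Pn π n v) v := by
    rw [inner_Pn, Pn_self π (Pn_weight π n v)]
  have h2 : ‖Pn π n v‖ ^ 2 ≤ ‖Pn π n v‖ * ‖v‖ := by
    have h3 : (‖Pn π n v‖ ^ 2 : ℂ) = inner ℂ (Pn π n v) (Pn π n v) := by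
      rw [inner_self_eq_norm_sq_to_K]
      rfl
    have h4 : ‖(inner ℂ (Pn π n v) (Pn π n v) : ℂ)‖ ≤ ‖Pn π n v‖ * ‖v‖ := by
      rw [h1]
      exact norm_inner_le_norm _ _
    rw [← h3] at h4
    have h5 : ‖(‖Pn π n v‖ ^ 2 : ℂ)‖ = ‖Pn π n v‖ ^ 2 := by
      rw [norm_pow, Complex.norm_real, norm_norm]
    rwa [h5] at h4
  by_contra h3
  push Not at h3
  have h4 : 0 < ‖Pn π n v‖ := lt_of_le_of_lt (norm_nonneg v) h3
  nlinarith

/-- The projection. -/
private noncomputable def Mult_P (π : URep H) (n : ℤ) : H →L[ℂ] H :=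
  LinearMap.mkContinuous
    { toFun := Pn π n
      map_add' := Mult_add
      map_smul' := Mult_smul } 1 fun v => by
        rw [one_mul]
        exact Mult_le n v

private theorem Mult_P_apply (n : ℤ) (v : H) : Mult_P π n v = Pn π n v := rfl

/-- The space of the vectors of weight `n`. -/
private def Mult_W (π : URep H) (n : ℤ) : Submodule ℂ H where
  carrier := {v | IsWeight π n v}
  add_mem' := fun {v w} hv hw θ => by
    rw [map_add, hv θ, hw θ, smul_add]
  zero_mem' := fun θ => by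
    rw [map_zero, smul_zero]
  smul_mem' := fun c v hv θ => by
    rw [map_smul, hv θ, smul_comm]

private theorem Mult_closed (n : ℤ) : IsClosed (Mult_W π n : Set H) := by
  have h : (Mult_W π n : Set H) = ⋂ θ : ℝ, {v | π.r (kk θ) v = Complex.exp ((n : ℂ) * θ * Complex.I) • v} := by
    ext v
    rw [Set.mem_iInter]
    rfl
  rw [h]
  exact isClosed_iInter fun θ => isClosed_eq (π.r (kk θ)).continuous (continuous_const_smul _)

private theorem Mult_kk (n : ℤ) (φ : ℝ) (v : H) :
    Pn π n (π.r (kk φ) v) = Complex.exp ((n : ℂ) * φ * Complex.I) • Pn π n v := by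
  refine ext_inner_left ℂ fun x => ?_
  rw [inner_Pn, inner_smul_right, inner_Pn]
  have h1 : (π.r (kk (-φ))) (Pn π n x) = Complex.exp ((n : ℂ) * ((-φ : ℝ) : ℂ) * Complex.I) • Pn π n x :=
    Pn_weight π n x (-φ)
  have h2 : π.r (kk (-φ)) (π.r (kk φ) v) = v := by
    have h3 : kk (-φ) * kk φ = 1 := by rw [← kk_add, neg_add_cancel, kk_zero]
    have h4 : π.r (kk (-φ) * kk φ) v = v := by rw [h3, map_one]; rfl
    rwa [map_mul] at h4
  rw [← (π.r (kk (-φ))).inner_map_map (Pn π n x) (π.r (kk φ) v), h1, h2, inner_smul_left]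
  congr 1
  rw [← Complex.exp_conj]
  congr 1
  simp only [map_mul, Complex.conj_I, Complex.conj_ofReal, map_intCast]
  push_cast
  ring

private theorem Mult_thP (n : ℤ) (g : G) {u : H} (hu : IsWeight π n u) :
    Pn π n (π.r (Mult_th g) u) = Pn π n (π.r g u) := by
  obtain ⟨φ, t, ψ, -, rfl, -⟩ := kak g
  have h1 : ∀ φ ψ : ℝ, Pn π n (π.r (kk φ * aa t * kk ψ) u) =
      Complex.exp ((n : ℂ) * φ * Complex.I) • Complex.exp ((n : ℂ) * ψ * Complex.I) • Pn π n (π.r (aa t) u) := by
    intro φ ψ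
    rw [map_mul, map_mul]
    show Pn π n (π.r (kk φ) (π.r (aa t) (π.r (kk ψ) u))) = _
    rw [Mult_kk, hu ψ, map_smul, Mult_smul]
  rw [Mult_th_mul, Mult_th_mul, Mult_th_kk, Mult_th_kk, Mult_th_aa, ← mul_assoc, h1, h1, smul_comm]

private theorem Mult_prod (n : ℤ) (g h : G) {u : H} :
    Pn π n (π.r g (Pn π n (π.r h u))) = (2 * Real.pi : ℂ)⁻¹ • ∫ θ in (0 : ℝ)..(2 * Real.pi),
      Complex.exp (-(n * θ * Complex.I)) • Pn π n (π.r (g * kk θ * h) u) := by
  have h1 : Pn π n (π.r h u) = (2 * Real.pi : ℂ)⁻¹ • ∫ θ in (0 : ℝ)..(2 * Real.pi),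
      Complex.exp (-(n * θ * Complex.I)) • π.r (kk θ) (π.r h u) := rfl
  rw [h1, map_smul, Mult_smul]
  congr 1
  let L : H →L[ℂ] H := (Mult_P π n).comp ((π.r g).toContinuousLinearEquiv : H →L[ℂ] H)
  have h2 : ∀ v, L v = Pn π n (π.r g v) := fun _ => rfl
  have h3 : Continuous fun θ : ℝ => Complex.exp (-(n * θ * Complex.I)) • π.r (kk θ) (π.r h u) := by
    refine Continuous.smul (by fun_prop) ?_
    exact (π.cont (π.r h u)).comp cont_kk
  rw [← h2, ← L.intervalIntegral_comp_comm (h3.intervalIntegrable _ _)]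
  refine intervalIntegral.integral_congr fun θ _ => ?_
  show L (Complex.exp (-(n * θ * Complex.I)) • π.r (kk θ) (π.r h u)) = _
  rw [map_smul, h2, map_mul, map_mul]
  rfl

private theorem Mult_comm (n : ℤ) (g h : G) {u : H} (hu : IsWeight π n u) :
    Pn π n (π.r g (Pn π n (π.r h u))) = Pn π n (π.r h (Pn π n (π.r g u))) := by
  have h1 : Pn π n (π.r h (Pn π n (π.r g u))) = Pn π n (π.r (Mult_th h) (Pn π n (π.r (Mult_th g) u))) := by
    rw [Mult_thP n g hu, Mult_thP n h (Pn_weight π n _)]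
  rw [h1, Mult_prod, Mult_prod]
  congr 1
  refine intervalIntegral.integral_congr fun θ _ => ?_
  show Complex.exp (-(n * θ * Complex.I)) • Pn π n (π.r (g * kk θ * h) u) = _
  rw [← Mult_thP n _ hu, Mult_th_mul, Mult_th_mul, Mult_th_kk, ← mul_assoc (Mult_th h)]

/-- A closed subspace of the weight space which is stable under the `P π(g) P` is `0` or the weight space. -/
private theorem Mult_stable (hI : Irred π) (n : ℤ) (W1 : Submodule ℂ H) (hc : IsClosed (W1 : Set H))
    (hne : ∃ u ∈ W1, u ≠ 0) (hst : ∀ g, ∀ u ∈ W1, Pn π n (π.r g u) ∈ W1) : Mult_W π n ≤ W1 := by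
  let L : Submodule ℂ H :=
    { carrier := {u | ∀ g, Pn π n (π.r g u) ∈ W1}
      add_mem' := fun {u v} hu hv g => by
        rw [map_add, Mult_add]
        exact W1.add_mem (hu g) (hv g)
      zero_mem' := fun g => by
        have h := Mult_smul (π := π) (n := n) 0 (0 : H)
        rw [zero_smul, zero_smul] at h
        rw [map_zero, h]
        exact W1.zero_mem
      smul_mem' := fun c u hu g => by
        rw [map_smul, Mult_smul]
        exact W1.smul_mem c (hu g) }
  have hL : ∀ u, u ∈ L ↔ ∀ g, Pn π n (π.r g u) ∈ W1 := fun _ => Iff.rfl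
  have hLc : IsClosed (L : Set H) := by
    have h1 : (L : Set H) = ⋂ g : G, (fun u => Mult_P π n (π.r g u)) ⁻¹' (W1 : Set H) := by
      ext u
      rw [Set.mem_iInter]
      rfl
    rw [h1]
    exact isClosed_iInter fun g => hc.preimage ((Mult_P π n).continuous.comp (π.r g).continuous)
  have hinv : ∀ g, ∀ w ∈ L, π.r g w ∈ L := by
    intro g w hw g'
    have h1 := hw (g' * g)
    rwa [map_mul] at h1
  rcases hI.irr L hLc hinv with h | h
  · obtain ⟨u, hu, hu0⟩ := hne
    have h1 : u ∈ L := fun g => hst g u hu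
    rw [h, Submodule.mem_bot] at h1
    exact absurd h1 hu0
  · intro u hu
    have h1 : u ∈ L := by rw [h]; exact Submodule.mem_top
    have h2 := h1 1
    rw [map_one] at h2
    have h3 : Pn π n u ∈ W1 := h2
    rwa [Pn_self π hu] at h3

theorem multOne' (hI : Irred π) {n : ℤ} {v w : H} (hv : IsWeight π n v) (hw : IsWeight π n w) (h0 : v ≠ 0) :
    ∃ c : ℂ, w = c • v := by
  have hcl : IsClosed (Mult_W π n : Set H) := Mult_closed n
  have hcs : CompleteSpace (Mult_W π n) := hcl.completeSpace_coe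
  have hW0 : ∃ x : Mult_W π n, x ≠ 0 := ⟨⟨v, hv⟩, fun h => h0 (congrArg Subtype.val h)⟩
  -- the operators
  let B : G → (Mult_W π n →L[ℂ] Mult_W π n) := fun g =>
    (((Mult_P π n).comp ((π.r g).toContinuousLinearEquiv : H →L[ℂ] H)).comp (Mult_W π n).subtypeL).codRestrict
      (Mult_W π n) fun x => Pn_weight π n _
  have hB : ∀ g (x : Mult_W π n), ((B g x : Mult_W π n) : H) = Pn π n (π.r g x) := fun _ _ => rfl
  have hadj : ∀ g, star (B g) = B g⁻¹ := by
    intro g
    show ContinuousLinearMap.adjoint (B g) = B g⁻¹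
    refine (ContinuousLinearMap.eq_adjoint_iff _ _).2 ?_ |>.symm
    intro x y
    show inner ℂ ((B g⁻¹ x : Mult_W π n) : H) (y : H) = inner ℂ (x : H) ((B g y : Mult_W π n) : H)
    rw [hB, hB, ← inner_Pn, Pn_self π y.2, inner_Pn, Pn_self π x.2,
      ← (π.r g).inner_map_map]
    have h1 : π.r g (π.r g⁻¹ (x : H)) = x := by
      have h2 : π.r (g * g⁻¹) (x : H) = x := by rw [mul_inv_cancel, map_one]; rfl
      rwa [map_mul] at h2
    rw [h1]
  have hcomm : ∀ g h, Commute (B g) (B h) := by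
    intro g h
    ext x
    exact Mult_comm n g h x.2
  have hK : ∀ K : Mult_W π n →L[ℂ] Mult_W π n, (∀ g, Commute K (B g)) → K = 0 ∨ ∀ x, K x = 0 → x = 0 := by
    intro K hKB
    by_cases hx : ∀ x, K x = 0 → x = 0
    · exact Or.inr hx
    · left
      push Not at hx
      obtain ⟨x, hx1, hx2⟩ := hx
      let W1 : Submodule ℂ H := (LinearMap.ker (K : Mult_W π n →ₗ[ℂ] Mult_W π n)).map (Mult_W π n).subtype
      have hmem : ∀ u, u ∈ W1 ↔ ∃ h : u ∈ Mult_W π n, K ⟨u, h⟩ = 0 := by
        intro u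
        constructor
        · rintro ⟨y, hy, rfl⟩
          exact ⟨y.2, hy⟩
        · rintro ⟨h, hu⟩
          exact ⟨⟨u, h⟩, hu, rfl⟩
      have hW1c : IsClosed (W1 : Set H) := by
        have h1 : IsClosed {y : Mult_W π n | K y = 0} := isClosed_eq K.continuous continuous_const
        have h2 : (W1 : Set H) = Subtype.val '' {y : Mult_W π n | K y = 0} := by
          ext u
          constructor
          · intro hu
            obtain ⟨h, hu'⟩ := (hmem u).1 hu
            exact ⟨⟨u, h⟩, hu', rfl⟩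
          · rintro ⟨y, hy, rfl⟩
            exact (hmem _).2 ⟨y.2, hy⟩
        rw [h2]
        exact hcl.isClosedEmbedding_subtypeVal.isClosedMap _ h1
      have h3 := Mult_stable hI n W1 hW1c
        ⟨x, (hmem _).2 ⟨x.2, hx1⟩, fun h => hx2 (Subtype.ext h)⟩ (fun g u hu => by
          obtain ⟨h, hu'⟩ := (hmem u).1 hu
          refine (hmem _).2 ⟨Pn_weight π n _, ?_⟩
          have h4 := congrArg (fun T : Mult_W π n →L[ℂ] Mult_W π n => T ⟨u, h⟩) (hKB g)
          have h5 : K (B g ⟨u, h⟩) = B g (K ⟨u, h⟩) := h4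
          rw [hu', map_zero] at h5
          exact h5)
      ext y
      obtain ⟨h, hy⟩ := (hmem _).1 (h3 y.2)
      exact congrArg Subtype.val hy
  have hsc := Mult_sc hW0 B (fun g => g⁻¹) hadj hcomm hK
  have h4 := Mult_stable hI n (Submodule.span ℂ {v}) (Submodule.closed_of_finiteDimensional _)
    ⟨v, Submodule.mem_span_singleton_self v, h0⟩ (fun g u hu => by
        obtain ⟨c, rfl⟩ := Submodule.mem_span_singleton.1 hu
        obtain ⟨d, hd⟩ := hsc g
        have h5 : ((B g ⟨v, hv⟩ : Mult_W π n) : H) = d • v := by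
          rw [hd]
          rfl
        rw [hB] at h5
        rw [map_smul, Mult_smul]
        have h6 : Pn π n (π.r g v) = d • v := h5
        rw [h6, smul_smul]
        exact Submodule.smul_mem _ _ (Submodule.mem_span_singleton_self v))
  obtain ⟨c, hc⟩ := Submodule.mem_span_singleton.1 (h4 hw)
  exact ⟨c, hc.symm⟩

theorem multOne (hI : Irred π) : MultOne π := fun _ _ _ _ _ h3 h4 h5 => multOne' hI h3 h4 h5

end MPkt
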