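import Pool.Agent.Lib.MP_7b255b_nt.Thm1
import Pool.Agent.Lib.MP_7b255b_nt.Comm
import Pool.Agent.Lib.MP_7b255b_nt.Mult

/-!
# Main: the theorem

* suppose that for each `β` the `‖η(π(β.hh) e)‖`, `n ≠ 0`, `e` a smooth unit vector of weight `n`, are bounded. `V = {η' ∈ AutSp | ∀ β, ∃ M', ‖η'(π(β.hh) e)‖ ≤ M' for all n ≠ 0, e}` is a subspace of the finite dimensional space `AutSp` (`fin`, `cocpt`), it contains `η` (changed
  to `0` outside of the smooth vectors), so it is not `0`; it is stable under the `TT π s` (`TT_mem`, `hh_mul`). For each prime `p = 1 mod 4`, `p ∤ b` (`gauss_prime`: `GoodP`) fix a system of representatives `s_p`. The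
  operators `TT π s_p` on `V` commute (`TT_comm`), so there is a common eigenvector `η' ≠ 0` (among the nonzero subspaces of `V` stable under all `TT π s_p` take one of minimal dimension; an eigenspace of one of the operators in it is again stable, so every
  operator is a scalar on it). `η'` is an automorphic functional and an eigenfunctional (`reps_sum` for the other systems of representatives). `thm1` for `η'` and its bound `M'` (`g = 1`): contradiction.

-/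

set_option autoImplicit false

namespace MPkt

open Filter Topology

universe u

variable {H : Type u} [NormedAddCommGroup H] [InnerProductSpace ℂ H] [CompleteSpace H] {π : URep H} {b : ℕ}

/-- The Hecke operator as a linear map. -/
noncomputable def Main_T (π : URep H) (s : Finset (Ob b)) : (H → ℂ) →ₗ[ℂ] (H → ℂ) where
  toFun := TT π s
  map_add' η η' := by
    funext v
    simp only [TT, Pi.add_apply, Finset.sum_add_distrib]
  map_smul' c η := by
    funext v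
    simp only [TT, Pi.smul_apply, smul_eq_mul, Finset.mul_sum, RingHom.id_apply]

/-- A common eigenvector. -/
theorem Main_eig {ι : Type*} {E : Type*} [AddCommGroup E] [Module ℂ E] (T : ι → E →ₗ[ℂ] E) (A : Submodule ℂ E)
    [FiniteDimensional ℂ A] (hc : ∀ i j, ∀ x ∈ A, T i (T j x) = T j (T i x)) :
    ∀ (k : ℕ) (W : Submodule ℂ E), W ≤ A → (∃ x ∈ W, x ≠ 0) → (∀ i, ∀ x ∈ W, T i x ∈ W) →
      Module.finrank ℂ W = k → ∃ x ∈ W, x ≠ 0 ∧ ∀ i, ∃ l : ℂ, T i x = l • x := by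
  intro k
  induction k using Nat.strong_induction_on with
  | _ k ih =>
    intro W hWA hW hT hk
    have hfW : FiniteDimensional ℂ W := Submodule.finiteDimensional_of_le hWA
    by_cases hs : ∀ i, ∃ l : ℂ, ∀ x ∈ W, T i x = l • x
    · obtain ⟨x, hx, hx0⟩ := hW
      refine ⟨x, hx, hx0, fun i => ?_⟩
      obtain ⟨l, hl⟩ := hs i
      exact ⟨l, hl x hx⟩
    · push Not at hs
      obtain ⟨i, hi⟩ := hs
      obtain ⟨x₀, hx₀, hx₀0⟩ := hW
      have hnt : Nontrivial W := ⟨⟨⟨x₀, hx₀⟩, 0, fun h => hx₀0 (congrArg Subtype.val h)⟩⟩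
      let f : Module.End ℂ W := (T i).restrict (hT i)
      obtain ⟨μ, hμ⟩ := Module.End.exists_eigenvalue f
      obtain ⟨y, hy⟩ := hμ.exists_hasEigenvector
      let E' : Submodule ℂ E := W ⊓ LinearMap.ker (T i - μ • LinearMap.id)
      have hE : ∀ z, z ∈ E' ↔ z ∈ W ∧ T i z = μ • z := by
        intro z
        rw [Submodule.mem_inf, LinearMap.mem_ker, LinearMap.sub_apply, LinearMap.smul_apply, LinearMap.id_apply,
          sub_eq_zero]
      have hy1 : (y : E) ∈ E' := by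
        rw [hE]
        refine ⟨y.2, ?_⟩
        have h1 := hy.apply_eq_smul
        exact congrArg Subtype.val h1
      have hlt : E' < W := by
        refine lt_of_le_of_ne inf_le_left fun h => ?_
        obtain ⟨z, hz, hz'⟩ := hi μ
        rw [← h] at hz
        exact hz' ((hE z).1 hz).2
      have hlt' : Module.finrank ℂ E' < k := by
        rw [← hk]
        exact Submodule.finrank_lt_finrank_of_lt hlt
      obtain ⟨x, hx, hx0, hx1⟩ := ih _ hlt' E' (hlt.le.trans hWA)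
        ⟨y, hy1, fun h => hy.2 (Subtype.ext h)⟩ (fun j z hz => by
          rw [hE] at hz ⊢
          refine ⟨hT j z hz.1, ?_⟩
          rw [hc i j z (hWA hz.1), hz.2, map_smul]) rfl
      exact ⟨x, hlt.le hx, hx0, hx1⟩

/-- The theorem: there is a point `β.hh` of the commensurator of `Γ` at which the values of `η` at the translates of the unit
vectors of weight `n` are not bounded; this is the point `1` if `η` is an eigenfunctional of the Hecke operators. -/
theorem main (hb : ∀ x y : ℕ, b ≠ x ^ 2 + y ^ 2) (hI : Irred π) (hn : ∃ g v, π.r g v ≠ v) {η : H → ℂ}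
    (hη : IsAut π (Gam b) η) : ∃ β : Ob b, 0 < β.N ∧ (IsEig b π η → β = 1) ∧ ∀ M : ℝ,
    ∃ n : ℤ, n ≠ 0 ∧ ∃ e : H, Smooth π e ∧ IsWeight π n e ∧ ‖e‖ = 1 ∧ M < ‖η (π.r β.hh e)‖ := by
  classical
  by_cases hE : IsEig b π η
  · refine ⟨1, by rw [Ob.N_one]; exact one_pos, fun _ => rfl, fun M => ?_⟩
    obtain ⟨n, hn0, e, h1, h2, h3, h4⟩ := thm1 hb hI hn (multOne hI) hη hE M
    refine ⟨n, hn0, e, h1, h2, h3, ?_⟩
    rw [Ob.hh_one, map_one]
    exact h4
  by_contra hcon0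
  have hcon : ∀ β : Ob b, 0 < β.N → ∃ M : ℝ, ∀ n : ℤ, n ≠ 0 → ∀ e : H, Smooth π e → IsWeight π n e → ‖e‖ = 1 →
      ‖η (π.r β.hh e)‖ ≤ M := by
    intro β hβ
    by_contra h
    push Not at h
    exact hcon0 ⟨β, hβ, fun h1 => absurd h1 hE, h⟩
  have hfin : FiniteDimensional ℂ (AutSp π (Gam b)) := fin hI (multOne hI) (cocpt hb)
  -- the bounded functionals
  let V : Submodule ℂ (H → ℂ) :=
    { carrier := {η' | η' ∈ AutSp π (Gam b) ∧ ∀ β : Ob b, 0 < β.N → ∃ M' : ℝ, ∀ n : ℤ, n ≠ 0 → ∀ e : H,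
        Smooth π e → IsWeight π n e → ‖e‖ = 1 → ‖η' (π.r β.hh e)‖ ≤ M'}
      add_mem' := by
        rintro η₁ η₂ ⟨h1, h2⟩ ⟨h3, h4⟩
        refine ⟨Submodule.add_mem _ h1 h3, fun β hβ => ?_⟩
        obtain ⟨M₁, h2⟩ := h2 β hβ
        obtain ⟨M₂, h4⟩ := h4 β hβ
        refine ⟨M₁ + M₂, fun n hn e h5 h6 h7 => ?_⟩
        rw [Pi.add_apply]
        exact (norm_add_le _ _).trans (add_le_add (h2 n hn e h5 h6 h7) (h4 n hn e h5 h6 h7))
      zero_mem' := ⟨Submodule.zero_mem _, fun _ _ => ⟨0, fun n _ e _ _ _ => by rw [Pi.zero_apply, norm_zero]⟩⟩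
      smul_mem' := by
        rintro c η₁ ⟨h1, h2⟩
        refine ⟨Submodule.smul_mem _ c h1, fun β hβ => ?_⟩
        obtain ⟨M₁, h2⟩ := h2 β hβ
        refine ⟨‖c‖ * M₁, fun n hn e h5 h6 h7 => ?_⟩
        rw [Pi.smul_apply, norm_smul]
        exact mul_le_mul_of_nonneg_left (h2 n hn e h5 h6 h7) (norm_nonneg _) }
  have hVA : V ≤ AutSp π (Gam b) := fun x hx => hx.1
  -- the given functional
  let η₀ : H → ℂ := fun v => if Smooth π v then η v else 0
  have hη₀ : ∀ v, Smooth π v → η₀ v = η v := fun v hv => if_pos hv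
  have hη₀A : η₀ ∈ AutSp π (Gam b) := by
    refine ⟨⟨?_, ?_, ?_⟩, ?_, ?_⟩
    · intro v w hv hw
      rw [hη₀ v hv, hη₀ w hw, hη₀ _ (smooth_add π hv hw), hη.lin.add v w hv hw]
    · intro c v hv
      rw [hη₀ v hv, hη₀ _ (smooth_smul π c hv), hη.lin.smul c v hv]
    · obtain ⟨l, C, h⟩ := hη.lin.bound
      refine ⟨l, C, fun v hv => ?_⟩
      rw [hη₀ v hv]
      exact h v hv
    · intro γ hγ v hv
      rw [hη₀ v hv, hη₀ _ (smooth_r π γ hv), hη.inv γ hγ v hv]
    · intro v hv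
      exact if_neg hv
  have hη₀V : η₀ ∈ V := by
    refine ⟨hη₀A, fun β hβ => ?_⟩
    obtain ⟨M, hM⟩ := hcon β hβ
    refine ⟨M, fun n hn0 e h1 h2 h3 => ?_⟩
    rw [hη₀ _ (smooth_r π β.hh h1)]
    exact hM n hn0 e h1 h2 h3
  have hη₀0 : η₀ ≠ 0 := by
    obtain ⟨v, hv, hv'⟩ := hη.ne
    intro h
    have h1 := congrFun h v
    rw [hη₀ v hv, Pi.zero_apply] at h1
    exact hv' h1
  -- the Hecke operators
  let ι := {x : ℕ × Finset (Ob b) // GoodP b x.1 ∧ IsReps x.1 x.2}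
  let T : ι → (H → ℂ) →ₗ[ℂ] (H → ℂ) := fun i => Main_T π i.1.2
  have hT : ∀ i, ∀ x ∈ V, T i x ∈ V := by
    rintro ⟨⟨p, s⟩, hp, hs⟩ x ⟨hx, hx2⟩
    refine ⟨TT_mem hp.1.pos hs hx, fun β hβ => ?_⟩
    have hsN : ∀ α ∈ s, 0 < α.N := by
      intro α hα
      rw [hs.norm α hα]
      exact_mod_cast hp.1.pos
    have h0 : ∀ α : Ob b, ∃ M' : ℝ, α ∈ s → ∀ n : ℤ, n ≠ 0 → ∀ e : H, Smooth π e → IsWeight π n e → ‖e‖ = 1 →
        ‖x (π.r (α * β).hh e)‖ ≤ M' := by
      intro α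
      by_cases hα : α ∈ s
      · obtain ⟨M', hM'⟩ := hx2 (α * β) (by rw [Ob.N_mul]; exact mul_pos (hsN α hα) hβ)
        exact ⟨M', fun _ => hM'⟩
      · exact ⟨0, fun h => absurd h hα⟩
    choose M' hM' using h0
    refine ⟨∑ α ∈ s, M' α, fun n hn0 e h1 h2 h3 => ?_⟩
    change ‖∑ α ∈ s, x (π.r α.hh (π.r β.hh e))‖ ≤ ∑ α ∈ s, M' α
    refine (norm_sum_le _ _).trans (Finset.sum_le_sum fun α hα => ?_)
    have h5 : π.r α.hh (π.r β.hh e) = π.r (α * β).hh e := by
      rw [Ob.hh_mul (hsN α hα) hβ, map_mul]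
      rfl
    rw [h5]
    exact hM' α hα n hn0 e h1 h2 h3
  have hc : ∀ i j, ∀ x ∈ AutSp π (Gam b), T i (T j x) = T j (T i x) := by
    rintro ⟨⟨p, s⟩, hp, hs⟩ ⟨⟨q, s'⟩, hq, hs'⟩ x hx
    exact TT_comm (not_sq hb) hp hq hs hs' hx
  obtain ⟨η', ⟨hη'A, hM'⟩, hη'0, hη'e⟩ := Main_eig T (AutSp π (Gam b)) hc _ V hVA ⟨η₀, hη₀V, hη₀0⟩ hT rfl
  have hAut : IsAut π (Gam b) η' := by
    refine ⟨hη'A.1, hη'A.2.1, ?_⟩
    by_contra h
    push Not at h
    apply hη'0
    funext v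
    by_cases hv : Smooth π v
    · exact h v hv
    · exact hη'A.2.2 v hv
  have hEig : IsEig b π η' := by
    intro p hp h4 hpb s hs
    obtain ⟨ϖ, h1, h2, h3⟩ := gauss_prime hp h4
    obtain ⟨l, hl⟩ := hη'e ⟨(p, s), ⟨hp, ϖ, h1, h2, h3 b hpb⟩, hs⟩
    exact ⟨l, fun v _ => congrFun hl v⟩
  obtain ⟨M', hM'⟩ := hM' 1 (by rw [Ob.N_one]; exact one_pos)
  obtain ⟨n, hn0, e, h1, h2, h3, h4⟩ := thm1 hb hI hn (multOne hI) hAut hEig M'
  have h5 := hM' n hn0 e h1 h2 h3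
  rw [Ob.hh_one, map_one] at h5
  exact absurd h5 (not_le.2 h4)

end MPkt
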