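import Pool.Agent.Lib.MP_7b255b_nt.Defs

/-!
# The order

`Ob b = {X + Y j}`, `X`, `Y` Gaussian integers, `j ^ 2 = b`, `j X = star X j`. `Ob.N (X + Y j) = |X|^2 - b |Y|^2`,
`mt : Ob b → M_2(ℝ)`, `hh α = mt α / √(N α) ∈ SL(2, ℝ)` if `N α > 0`.
-/

set_option autoImplicit false

namespace MPkt

open Matrix

/-- The order `ℤ[i] + ℤ[i] j`. -/
@[ext] structure Ob (b : ℕ) where
  /-- The first component. -/
  X : GaussianInt
  /-- The second component. -/
  Y : GaussianInt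

namespace Ob

variable {b : ℕ}

instance : Mul (Ob b) := ⟨fun α β => ⟨α.X * β.X + b * (α.Y * star β.Y), α.X * β.Y + α.Y * star β.X⟩⟩

instance : One (Ob b) := ⟨⟨1, 0⟩⟩

theorem mul_X (α β : Ob b) : (α * β).X = α.X * β.X + b * (α.Y * star β.Y) := rfl

theorem mul_Y (α β : Ob b) : (α * β).Y = α.X * β.Y + α.Y * star β.X := rfl

theorem one_X : (1 : Ob b).X = 1 := rfl

theorem one_Y : (1 : Ob b).Y = 0 := rfl

theorem star_nat (n : ℕ) : star (n : GaussianInt) = n := by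
  rw [star_natCast]

instance : Monoid (Ob b) where
  mul_assoc α β γ := by
    ext1
    · simp only [mul_X, mul_Y, star_add, star_mul, star_star]
      ring
    · simp only [mul_X, mul_Y, star_add, star_mul, star_star, star_nat]
      ring
  one_mul α := by
    ext1
    · rw [mul_X, one_X, one_Y, one_mul, zero_mul, mul_zero, add_zero]
    · rw [mul_Y, one_X, one_Y, one_mul, zero_mul, add_zero]
  mul_one α := by
    ext1
    · rw [mul_X, one_X, one_Y, mul_one, star_zero, mul_zero, mul_zero, add_zero]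
    · rw [mul_Y, one_X, one_Y, mul_zero, star_one, mul_one, zero_add]

/-- The conjugate. -/
def bar (α : Ob b) : Ob b := ⟨star α.X, -α.Y⟩

/-- The norm. -/
def N (α : Ob b) : ℤ := α.X.norm - b * α.Y.norm

/-- Multiplication with an integer. -/
def zs (n : ℤ) (α : Ob b) : Ob b := ⟨n * α.X, n * α.Y⟩

/-- The Gaussian integers in the order. -/
def em (δ : GaussianInt) : Ob b := ⟨δ, 0⟩

theorem N_one : (1 : Ob b).N = 1 := by
  unfold N
  rw [one_X, one_Y, Zsqrtd.norm_one, Zsqrtd.norm_zero, mul_zero, sub_zero]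

theorem N_mul (α β : Ob b) : (α * β).N = α.N * β.N := by
  unfold N
  rw [mul_X, mul_Y]
  simp only [Zsqrtd.norm_def, Zsqrtd.re_add, Zsqrtd.im_add, Zsqrtd.re_mul, Zsqrtd.im_mul, Zsqrtd.re_star,
    Zsqrtd.im_star, Zsqrtd.re_natCast, Zsqrtd.im_natCast]
  ring

theorem N_bar (α : Ob b) : α.bar.N = α.N := by
  unfold N bar
  simp only [Zsqrtd.norm_def, Zsqrtd.re_star, Zsqrtd.im_star, Zsqrtd.re_neg, Zsqrtd.im_neg]
  ring

theorem bar_bar (α : Ob b) : α.bar.bar = α := by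
  ext1
  · exact star_star _
  · exact neg_neg _

theorem bar_mul (α β : Ob b) : (α * β).bar = β.bar * α.bar := by
  ext1
  · simp only [mul_X, bar, star_add, star_mul, star_star, star_nat, star_neg]
    ring
  · simp only [mul_Y, bar, star_star]
    ring

theorem mul_bar (α : Ob b) : α * α.bar = zs α.N 1 := by
  ext1
  · simp only [mul_X, bar, zs, one_X, mul_one, star_neg]
    unfold N
    push_cast
    rw [Zsqrtd.norm_eq_mul_conj, Zsqrtd.norm_eq_mul_conj]
    ring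
  · simp only [mul_Y, bar, zs, one_Y, mul_zero, star_star]
    ring

theorem bar_mul_self (α : Ob b) : α.bar * α = zs α.N 1 := by
  have h := mul_bar α.bar
  rwa [bar_bar, N_bar] at h

theorem zs_mul (n : ℤ) (α β : Ob b) : zs n α * β = zs n (α * β) := by
  ext1
  · simp only [mul_X, zs]
    ring
  · simp only [mul_Y, zs]
    ring

theorem mul_zs (n : ℤ) (α β : Ob b) : α * zs n β = zs n (α * β) := by
  have h : star (n : GaussianInt) = n := by rw [star_intCast]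
  ext1
  · simp only [mul_X, zs, star_mul, h]
    ring
  · simp only [mul_Y, zs, star_mul, h]
    ring

theorem N_zs (n : ℤ) (α : Ob b) : (zs n α).N = n ^ 2 * α.N := by
  unfold N zs
  simp only [Zsqrtd.norm_def, Zsqrtd.re_mul, Zsqrtd.im_mul, Zsqrtd.re_intCast, Zsqrtd.im_intCast]
  ring

theorem N_em (δ : GaussianInt) : (em δ : Ob b).N = δ.norm := by
  unfold N em
  rw [Zsqrtd.norm_zero, mul_zero, sub_zero]

theorem em_mul (δ δ' : GaussianInt) : (em (δ * δ') : Ob b) = em δ * em δ' := by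
  ext1
  · simp only [mul_X, em, star_zero, mul_zero, add_zero]
  · simp only [mul_Y, em, mul_zero, zero_mul, add_zero]

theorem em_bar (δ : GaussianInt) : (em δ : Ob b).bar = em (star δ) := by
  ext1
  · rfl
  · exact neg_zero

/-- No integer except `1` and `-1` divides `α`. -/
def Prim (α : Ob b) : Prop := ∀ n : ℤ, (n : GaussianInt) ∣ α.X → (n : GaussianInt) ∣ α.Y → IsUnit n

/-- The matrix of `α`. -/
noncomputable def mt (α : Ob b) : Fin 2 → Fin 2 → ℝ :=
  !![(α.X.re : ℝ) + Real.sqrt b * α.Y.re, -(α.X.im : ℝ) + Real.sqrt b * α.Y.im;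
    (α.X.im : ℝ) + Real.sqrt b * α.Y.im, (α.X.re : ℝ) - Real.sqrt b * α.Y.re]

theorem det_mt (α : Ob b) : (Matrix.of α.mt).det = α.N := by
  have hs : Real.sqrt b * Real.sqrt b = b := Real.mul_self_sqrt (Nat.cast_nonneg b)
  have h : (Matrix.of α.mt) = !![(α.X.re : ℝ) + Real.sqrt b * α.Y.re, -(α.X.im : ℝ) + Real.sqrt b * α.Y.im;
    (α.X.im : ℝ) + Real.sqrt b * α.Y.im, (α.X.re : ℝ) - Real.sqrt b * α.Y.re] := rfl
  rw [h, Matrix.det_fin_two_of]
  unfold N
  rw [Zsqrtd.norm_def, Zsqrtd.norm_def]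
  push_cast
  linear_combination (-(α.Y.re : ℝ) ^ 2 - (α.Y.im : ℝ) ^ 2) * hs

theorem mt_mul (α β : Ob b) : Matrix.of (α * β).mt = Matrix.of α.mt * Matrix.of β.mt := by
  have hs : Real.sqrt b * Real.sqrt b = b := Real.mul_self_sqrt (Nat.cast_nonneg b)
  have h : ∀ α : Ob b, (Matrix.of α.mt) =
    !![(α.X.re : ℝ) + Real.sqrt b * α.Y.re, -(α.X.im : ℝ) + Real.sqrt b * α.Y.im;
    (α.X.im : ℝ) + Real.sqrt b * α.Y.im, (α.X.re : ℝ) - Real.sqrt b * α.Y.re] := fun _ => rfl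
  rw [h, h, h, Matrix.mul_fin_two]
  simp only [mul_X, mul_Y, Zsqrtd.re_add, Zsqrtd.im_add, Zsqrtd.re_mul, Zsqrtd.im_mul, Zsqrtd.re_star,
    Zsqrtd.im_star, Zsqrtd.re_natCast, Zsqrtd.im_natCast]
  push_cast
  generalize (α.X.re : ℝ) = x1
  generalize (α.X.im : ℝ) = x2
  generalize (α.Y.re : ℝ) = x3
  generalize (α.Y.im : ℝ) = x4
  generalize (β.X.re : ℝ) = y1
  generalize (β.X.im : ℝ) = y2
  generalize (β.Y.re : ℝ) = y3
  generalize (β.Y.im : ℝ) = y4
  ext i j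
  fin_cases i <;> fin_cases j <;> simp
  · linear_combination (-x3 * y3 - x4 * y4) * hs
  · linear_combination (-x3 * y4 + x4 * y3) * hs
  · linear_combination (-x4 * y3 + x3 * y4) * hs
  · linear_combination (-x3 * y3 - x4 * y4) * hs

/-- The element of `SL(2, ℝ)` of an element with positive norm. -/
noncomputable def hh (α : Ob b) : G := nrm α.mt

end Ob

/-! ### `nrm` -/

theorem nrm_val {A : Fin 2 → Fin 2 → ℝ} (h : 0 < (Matrix.of A).det) :
    (nrm A : Matrix (Fin 2) (Fin 2) ℝ) = (Real.sqrt (Matrix.of A).det)⁻¹ • Matrix.of A := by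
  unfold nrm
  rw [dif_pos h]

theorem nrm_mul {A B C : Fin 2 → Fin 2 → ℝ} (hA : 0 < (Matrix.of A).det) (hB : 0 < (Matrix.of B).det)
    (hC : Matrix.of C = Matrix.of A * Matrix.of B) : nrm C = nrm A * nrm B := by
  have h1 : 0 < (Matrix.of C).det := by
    rw [hC, Matrix.det_mul]
    exact mul_pos hA hB
  apply Subtype.ext
  rw [nrm_val h1, Matrix.SpecialLinearGroup.coe_mul, nrm_val hA, nrm_val hB, hC, Matrix.det_mul,
    Real.sqrt_mul hA.le, mul_inv, Matrix.smul_mul, Matrix.mul_smul, smul_smul]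

theorem nrm_coe (g : G) : nrm (g : Matrix (Fin 2) (Fin 2) ℝ) = g := by
  have h : (Matrix.of (g : Matrix (Fin 2) (Fin 2) ℝ)).det = 1 := g.2
  apply Subtype.ext
  rw [nrm_val (by rw [h]; exact one_pos), h, Real.sqrt_one, inv_one, one_smul]
  rfl

theorem nrm_smul {A B : Fin 2 → Fin 2 → ℝ} {c : ℝ} (hc : 0 < c) (hA : 0 < (Matrix.of A).det)
    (hB : Matrix.of B = c • Matrix.of A) : nrm B = nrm A := by
  have h0 : (Matrix.of B).det = c ^ 2 * (Matrix.of A).det := by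
    rw [hB, Matrix.det_smul, Fintype.card_fin]
  have h1 : 0 < (Matrix.of B).det := by
    rw [h0]
    positivity
  apply Subtype.ext
  rw [nrm_val h1, nrm_val hA, h0, hB, Real.sqrt_mul (sq_nonneg c), Real.sqrt_sq hc.le, smul_smul, mul_inv,
    mul_assoc, mul_comm _ c, ← mul_assoc, inv_mul_cancel₀ hc.ne', one_mul]

namespace Ob

variable {b : ℕ}

theorem hh_mul {α β : Ob b} (hα : 0 < α.N) (hβ : 0 < β.N) : (α * β).hh = α.hh * β.hh :=
  nrm_mul (by rw [det_mt]; exact_mod_cast hα) (by rw [det_mt]; exact_mod_cast hβ) (mt_mul α β)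

theorem hh_zs {n : ℤ} (hn : 0 < n) {α : Ob b} (hα : 0 < α.N) : (zs n α).hh = α.hh := by
  refine nrm_smul (c := n) (by exact_mod_cast hn) (by rw [det_mt]; exact_mod_cast hα) ?_
  ext i j
  fin_cases i <;> fin_cases j <;> simp [zs, mt, Matrix.of_apply] <;> ring

theorem hh_one : (1 : Ob b).hh = 1 := by
  have h : (1 : Ob b).mt = ((1 : G) : Matrix (Fin 2) (Fin 2) ℝ) := by
    ext i j
    fin_cases i <;> fin_cases j <;> simp [mt, one_X, one_Y]
  unfold hh
  rw [h]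
  exact nrm_coe 1

theorem hh_bar {α : Ob b} (hα : 0 < α.N) : α.bar.hh = α.hh⁻¹ := by
  have h1 : 0 < α.bar.N := by rwa [N_bar]
  have h2 : α.bar.hh * α.hh = 1 := by
    rw [← hh_mul h1 hα, bar_mul_self, hh_zs hα (by rw [N_one]; exact one_pos), hh_one]
  exact eq_inv_of_mul_eq_one_left h2

theorem hh_mem {γ : Ob b} (h : γ.N = 1) : γ.hh ∈ Gam b := by
  refine ⟨γ.X.re, γ.X.im, γ.Y.re, γ.Y.im, ?_⟩
  have h1 : (Matrix.of γ.mt).det = 1 := by rw [det_mt, h, Int.cast_one]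
  unfold hh
  rw [nrm_val (by rw [h1]; exact one_pos), h1, Real.sqrt_one, inv_one, one_smul]
  rfl

theorem exists_hh {g : G} (h : g ∈ Gam b) : ∃ γ : Ob b, γ.N = 1 ∧ γ.hh = g := by
  obtain ⟨x, y, z, w, h⟩ := h
  have h1 : (Matrix.of (⟨⟨x, y⟩, ⟨z, w⟩⟩ : Ob b).mt) = (g : Matrix (Fin 2) (Fin 2) ℝ) := h.symm
  have h2 : (⟨⟨x, y⟩, ⟨z, w⟩⟩ : Ob b).N = 1 := by
    have h3 := det_mt (⟨⟨x, y⟩, ⟨z, w⟩⟩ : Ob b)
    rw [h1] at h3
    have h4 : (g : Matrix (Fin 2) (Fin 2) ℝ).det = 1 := g.2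
    rw [h4] at h3
    exact_mod_cast h3.symm
  refine ⟨_, h2, ?_⟩
  unfold hh
  have h5 : (⟨⟨x, y⟩, ⟨z, w⟩⟩ : Ob b).mt = (g : Matrix (Fin 2) (Fin 2) ℝ) := h1
  rw [h5, nrm_coe]

end Ob

end MPkt
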