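import Pool.Agent.Lib.MP_7b255b_nt.Mean

/-!
# Pos: the generalised limit of the circle means of a function `≥ 0` is positive

`Ψ ≥ 0`, invariant under the rotations on the right, `Ψ g0 > 0`. For `h ∈ G` let `Ψ_h(g) = Ψ(g h)`. For every `g ∈ Ω` there is `h` with `Ψ(g h) > 0` (`h = g⁻¹ g0`); by compactness there are
`h_1, ..., h_r` with `∑_i Ψ(g h_i) ≥ c > 0` for `g ∈ Ω`, so for all `g` (invariance). `cm (Ψ_h) 1 t`: by `kak` `aa t * h = kk φ * aa t' * kk ψ`, `2 cosh t' = e^t (h_{11}^2 + h_{12}^2) + e^{-t} (h_{21}^2 + h_{22}^2)`,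
so `cm (Ψ_h) 1 t = cm Ψ 1 t'` (periodicity and invariance on the right), and `t' - t → s = log(h_{11}^2 + h_{12}^2)`. So `cm Ψ_h 1 t - cm Ψ 1 (t + s) → 0` (`cm_uct`), `LIM (cm Ψ_h 1) = LIM (cm Ψ 1)`
(`LIM_congr`, `shift`). So `c ≤ Re LIM (∑_i cm Ψ_{h_i} 1) = r Re LIM (cm Ψ 1)` (`re` for the function minus `c`, `tend` for constants).

-/

set_option autoImplicit false

namespace MPkt

open Filter Topology

private theorem Pos_cpt {Γ' : Set G} {Ψ : G → ℝ} (h : Cpt Γ' fun g => (Ψ g : ℂ)) (x : G) :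
    Cpt Γ' fun g => (Ψ (g * x) : ℂ) :=
  ⟨h.cocpt, h.cont.comp (continuous_mul_const x), fun γ hγ g => by
    have h1 := h.inv γ hγ (g * x)
    rw [← mul_assoc] at h1
    exact h1⟩

private theorem Pos_row (x : G) : 0 < x 0 0 ^ 2 + x 0 1 ^ 2 := by
  have h1 : (x : Matrix (Fin 2) (Fin 2) ℝ).det = 1 := x.2
  rw [Matrix.det_fin_two] at h1
  have h2 : 0 ≤ x 0 0 ^ 2 + x 0 1 ^ 2 := by positivity
  rcases h2.lt_or_eq with h3 | h3
  · exact h3
  · exfalso
    have h4 : x 0 0 = 0 := by nlinarith [sq_nonneg (x 0 0), sq_nonneg (x 0 1)]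
    have h5 : x 0 1 = 0 := by nlinarith [sq_nonneg (x 0 0), sq_nonneg (x 0 1)]
    have h6 : (x : Matrix (Fin 2) (Fin 2) ℝ) 0 0 = 0 := h4
    have h7 : (x : Matrix (Fin 2) (Fin 2) ℝ) 0 1 = 0 := h5
    rw [h6, h7, zero_mul, zero_mul, sub_zero] at h1
    exact zero_ne_one h1

private theorem Pos_ent (x : G) (t : ℝ) : ∑ i, ∑ j, (aa t * x) i j ^ 2 =
    Real.exp t * (x 0 0 ^ 2 + x 0 1 ^ 2) + Real.exp (-t) * (x 1 0 ^ 2 + x 1 1 ^ 2) := by
  have h0 : ∀ j, (aa t * x) 0 j = Real.exp (t / 2) * x 0 j := by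
    intro j
    change ((aa t * x : G) : Matrix (Fin 2) (Fin 2) ℝ) 0 j = _
    rw [Matrix.SpecialLinearGroup.coe_mul, Matrix.mul_apply, Fin.sum_univ_two]
    simp [aa]
  have h1 : ∀ j, (aa t * x) 1 j = Real.exp (-(t / 2)) * x 1 j := by
    intro j
    change ((aa t * x : G) : Matrix (Fin 2) (Fin 2) ℝ) 1 j = _
    rw [Matrix.SpecialLinearGroup.coe_mul, Matrix.mul_apply, Fin.sum_univ_two]
    simp [aa]
  have h2 : Real.exp (t / 2) ^ 2 = Real.exp t := by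
    rw [← Real.exp_nat_mul]
    congr 1
    push_cast
    ring
  have h3 : Real.exp (-(t / 2)) ^ 2 = Real.exp (-t) := by
    rw [← Real.exp_nat_mul]
    congr 1
    push_cast
    ring
  rw [Fin.sum_univ_two, Fin.sum_univ_two, Fin.sum_univ_two, h0, h0, h1, h1]
  rw [mul_pow, mul_pow, mul_pow, mul_pow, h2, h3]
  ring

private theorem Pos_lim {A D : ℝ} (hA : 0 < A) {τ : ℝ → ℝ} (h0 : ∀ t, 0 ≤ τ t)
    (h : ∀ t, 2 * Real.cosh (τ t) = Real.exp t * A + Real.exp (-t) * D) :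
    Tendsto (fun t => τ t - (t + Real.log A)) atTop (𝓝 0) := by
  have h1 : ∀ t, Real.exp (τ t - t) = A + Real.exp (-(2 * t)) * D - Real.exp (-τ t - t) := by
    intro t
    have h2 := h t
    rw [Real.cosh_eq] at h2
    have h3 : Real.exp (τ t) = Real.exp t * A + Real.exp (-t) * D - Real.exp (-τ t) := by linarith
    have h4 : Real.exp t * Real.exp (-t) = 1 := by rw [← Real.exp_add, add_neg_cancel, Real.exp_zero]
    have h5 : Real.exp (-(2 * t)) = Real.exp (-t) * Real.exp (-t) := by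
      rw [← Real.exp_add]
      congr 1
      ring
    rw [sub_eq_add_neg (τ t) t, Real.exp_add, h3, sub_eq_add_neg (-τ t) t, Real.exp_add, h5]
    linear_combination A * h4
  have h2 : Tendsto (fun t : ℝ => Real.exp (-t)) atTop (𝓝 0) :=
    Real.tendsto_exp_neg_atTop_nhds_zero
  have h3 : Tendsto (fun t : ℝ => Real.exp (-(2 * t))) atTop (𝓝 0) := by
    refine squeeze_zero' (Eventually.of_forall fun t => (Real.exp_pos _).le) ?_ h2
    filter_upwards [eventually_ge_atTop (0 : ℝ)] with t ht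
    exact Real.exp_le_exp.2 (by linarith)
  have h4 : Tendsto (fun t : ℝ => Real.exp (-τ t - t)) atTop (𝓝 0) := by
    refine squeeze_zero (fun t => (Real.exp_pos _).le) (fun t => ?_) h2
    exact Real.exp_le_exp.2 (by linarith [h0 t])
  have h5 : Tendsto (fun t => Real.exp (τ t - t)) atTop (𝓝 A) := by
    have h6 : Tendsto (fun t => A + Real.exp (-(2 * t)) * D - Real.exp (-τ t - t)) atTop (𝓝 (A + 0 * D - 0)) :=
      (tendsto_const_nhds.add (h3.mul_const D)).sub h4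
    rw [zero_mul, add_zero, sub_zero] at h6
    refine h6.congr fun t => ?_
    rw [h1]
  have h6 : Tendsto (fun t => τ t - t) atTop (𝓝 (Real.log A)) := by
    have h7 := (Real.continuousAt_log hA.ne').tendsto.comp h5
    refine h7.congr fun t => ?_
    exact Real.log_exp _
  have h7 := h6.sub_const (Real.log A)
  rw [sub_self] at h7
  refine h7.congr fun t => ?_
  ring

private theorem Pos_shift {Γ' : Set G} {Ψ : G → ℝ} (h : Cpt Γ' fun g => (Ψ g : ℂ))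
    (hk : ∀ g θ, Ψ (g * kk θ) = Ψ g) (x : G) :
    LIM (cm (fun g => (Ψ (g * x) : ℂ)) 1) = LIM (cm (fun g => (Ψ g : ℂ)) 1) := by
  have hA := Pos_row x
  obtain ⟨A, hAdef⟩ : ∃ A : ℝ, A = x 0 0 ^ 2 + x 0 1 ^ 2 := ⟨_, rfl⟩
  obtain ⟨D, hDdef⟩ : ∃ D : ℝ, D = x 1 0 ^ 2 + x 1 1 ^ 2 := ⟨_, rfl⟩
  rw [← hAdef] at hA
  choose φ τ ψ hτ0 hτ1 hτ2 using fun t => kak (aa t * x)
  have hlim : Tendsto (fun t => τ t - (t + Real.log A)) atTop (𝓝 0) := by
    refine Pos_lim hA hτ0 (D := D) fun t => ?_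
    rw [hτ2 t, Pos_ent, hAdef, hDdef]
  have hcm : ∀ t, cm (fun g => (Ψ (g * x) : ℂ)) 1 t = cm (fun g => (Ψ g : ℂ)) 1 (τ t) := by
    intro t
    have h1 : cm (fun g => (Ψ g : ℂ)) (1 * kk (φ t)) (τ t) = cm (fun g => (Ψ g : ℂ)) 1 (τ t) := cm_kk 1 (φ t) (τ t)
    rw [← h1]
    unfold cm
    congr 1
    refine intervalIntegral.integral_congr fun θ _ => ?_
    change ((Ψ (1 * kk θ * aa t * x) : ℝ) : ℂ) = ((Ψ (1 * kk (φ t) * kk θ * aa (τ t)) : ℝ) : ℂ)
    rw [mul_assoc (1 * kk θ) (aa t) x, hτ1 t, ← mul_assoc, hk, one_mul, one_mul, ← mul_assoc, ← kk_add, ← kk_add,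
      add_comm θ (φ t)]
  have hb := h.buc
  have hb' := (Pos_cpt h x).buc
  have hBC : BC (cm (fun g => (Ψ g : ℂ)) 1) := hb.bc 1
  have hBC' : BC (cm (fun g => (Ψ (g * x) : ℂ)) 1) := hb'.bc 1
  have hBCs : BC (fun t => cm (fun g => (Ψ g : ℂ)) 1 (t + Real.log A)) := by
    obtain ⟨hc, C, hC⟩ := hBC
    exact ⟨hc.comp (continuous_id.add continuous_const), C, fun t => hC _⟩
  have hcong : LIM (cm (fun g => (Ψ (g * x) : ℂ)) 1) =
      LIM (fun t => cm (fun g => (Ψ g : ℂ)) 1 (t + Real.log A)) := by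
    refine LIM_congr hBC' hBCs ?_
    rw [Metric.tendsto_nhds]
    intro ε hε
    obtain ⟨δ, hδ, huc⟩ := cm_uct hb (ε / 2) (by linarith)
    have h1 := (Metric.tendsto_nhds.1 hlim) δ hδ
    filter_upwards [h1] with t ht
    rw [dist_zero_right] at ht ⊢
    rw [hcm]
    have h2 := huc 1 (τ t) (t + Real.log A) (by rwa [Real.norm_eq_abs] at ht)
    linarith
  rw [hcong]
  exact isLIM.shift _ _ hBC

theorem pos_LIM {Γ' : Set G} {Ψ : G → ℝ} (h : Cpt Γ' fun g => (Ψ g : ℂ)) (h0 : ∀ g, 0 ≤ Ψ g)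
    (hk : ∀ g θ, Ψ (g * kk θ) = Ψ g) (hne : ∃ g, Ψ g ≠ 0) : 0 < (LIM (cm (fun g => (Ψ g : ℂ)) 1)).re := by
  classical
  obtain ⟨g0, hg0⟩ := hne
  have hg0' : 0 < Ψ g0 := lt_of_le_of_ne (h0 g0) (Ne.symm hg0)
  have hc : Continuous Ψ := Complex.continuous_re.comp h.cont
  have hcx : ∀ x : G, Continuous fun g => Ψ (g * x) := fun x => hc.comp (continuous_mul_const x)
  have hinv : ∀ γ ∈ Γ', ∀ g, Ψ (γ * g) = Ψ g := fun γ hγ g => by
    have h1 := h.inv γ hγ g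
    exact Complex.ofReal_injective h1
  obtain ⟨Ω, hΩ, hΩ'⟩ := h.cocpt
  obtain ⟨S, hS⟩ := hΩ.elim_finite_subcover (fun x : G => {g | 0 < Ψ (g * x)})
    (fun x => isOpen_lt continuous_const (hcx x)) (fun g _ => by
      rw [Set.mem_iUnion]
      refine ⟨g⁻¹ * g0, ?_⟩
      change 0 < Ψ (g * (g⁻¹ * g0))
      rwa [mul_inv_cancel_left])
  have hfc : Continuous fun g => ∑ x ∈ S, Ψ (g * x) := continuous_finsetSum _ fun x _ => hcx x
  have hΩne : Ω.Nonempty := by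
    obtain ⟨γ, _, hγ⟩ := hΩ' 1
    exact ⟨_, hγ⟩
  obtain ⟨g1, hg1, hmin⟩ := hΩ.exists_isMinOn hΩne hfc.continuousOn
  obtain ⟨c, hcdef⟩ : ∃ c : ℝ, c = ∑ x ∈ S, Ψ (g1 * x) := ⟨_, rfl⟩
  have hc0 : 0 < c := by
    have h1 := hS hg1
    rw [Set.mem_iUnion₂] at h1
    obtain ⟨x, hx, hx'⟩ := h1
    rw [hcdef]
    exact Finset.sum_pos' (fun y _ => h0 _) ⟨x, hx, hx'⟩
  have hcall : ∀ g, c ≤ ∑ x ∈ S, Ψ (g * x) := by
    intro g
    obtain ⟨γ, hγ, hγ'⟩ := hΩ' g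
    have h1 := hmin hγ'
    rw [hcdef]
    refine le_trans h1 (le_of_eq (Finset.sum_congr rfl fun x _ => ?_))
    rw [mul_assoc, hinv γ hγ]
  -- the means
  have hcmre : ∀ (x : G) (t : ℝ), cm (fun g => (Ψ (g * x) : ℂ)) 1 t =
      (((2 * Real.pi)⁻¹ * ∫ θ in (0 : ℝ)..(2 * Real.pi), Ψ (1 * kk θ * aa t * x) : ℝ) : ℂ) := by
    intro x t
    unfold cm
    rw [intervalIntegral.integral_ofReal]
    push_cast
    rfl
  have hBCx : ∀ x : G, BC (cm (fun g => (Ψ (g * x) : ℂ)) 1) := fun x => (Pos_cpt h x).buc.bc 1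
  have hBCsum : BC (fun t => ∑ x ∈ S, cm (fun g => (Ψ (g * x) : ℂ)) 1 t) := by
    refine ⟨continuous_finsetSum _ fun x _ => (hBCx x).1, ?_⟩
    choose C hC using fun x => (hBCx x).2
    exact ⟨∑ x ∈ S, C x, fun t => (norm_sum_le _ _).trans (Finset.sum_le_sum fun x _ => hC x t)⟩
  have hBCc : BC (fun _ : ℝ => ((-c : ℝ) : ℂ)) := ⟨continuous_const, _, fun _ => le_rfl⟩
  have hpos : 0 ≤ (LIM (fun t => ∑ x ∈ S, cm (fun g => (Ψ (g * x) : ℂ)) 1 t + ((-c : ℝ) : ℂ))).re := by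
    refine isLIM.re _ ?_ (Eventually.of_forall fun t => ?_)
    · obtain ⟨C, hC⟩ := hBCsum.2
      refine ⟨hBCsum.1.add continuous_const, C + ‖((-c : ℝ) : ℂ)‖, fun t => (norm_add_le _ _).trans ?_⟩
      exact add_le_add (hC t) le_rfl
    · have h1 : ∑ x ∈ S, cm (fun g => (Ψ (g * x) : ℂ)) 1 t + ((-c : ℝ) : ℂ) =
          ((∑ x ∈ S, ((2 * Real.pi)⁻¹ * ∫ θ in (0 : ℝ)..(2 * Real.pi), Ψ (1 * kk θ * aa t * x)) + (-c) : ℝ) : ℂ) := by
        rw [Finset.sum_congr rfl fun x _ => hcmre x t]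
        push_cast
        rfl
      rw [h1, Complex.ofReal_re, ← Finset.mul_sum]
      have hint : ∀ x ∈ S, IntervalIntegrable (fun θ => Ψ (1 * kk θ * aa t * x)) MeasureTheory.volume 0 (2 * Real.pi) := by
        intro x _
        refine Continuous.intervalIntegrable ?_ _ _
        refine (hcx x).comp ?_
        exact (continuous_const.mul cont_kk).mul continuous_const
      have h2 : ∑ x ∈ S, ∫ θ in (0 : ℝ)..(2 * Real.pi), Ψ (1 * kk θ * aa t * x) =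
          ∫ θ in (0 : ℝ)..(2 * Real.pi), ∑ x ∈ S, Ψ (1 * kk θ * aa t * x) :=
        (intervalIntegral.integral_finsetSum hint).symm
      have h3 : ∫ _ in (0 : ℝ)..(2 * Real.pi), c ≤
          ∫ θ in (0 : ℝ)..(2 * Real.pi), ∑ x ∈ S, Ψ (1 * kk θ * aa t * x) := by
        refine intervalIntegral.integral_mono (by positivity) intervalIntegrable_const ?_ fun θ => hcall _
        refine Continuous.intervalIntegrable ?_ _ _
        exact hfc.comp ((continuous_const.mul cont_kk).mul continuous_const)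
      rw [intervalIntegral.integral_const, sub_zero, smul_eq_mul] at h3
      rw [h2]
      have h4 : 0 < 2 * Real.pi := by positivity
      have h5 : c ≤ (2 * Real.pi)⁻¹ * ∫ θ in (0 : ℝ)..(2 * Real.pi), ∑ x ∈ S, Ψ (1 * kk θ * aa t * x) := by
        rw [inv_mul_eq_div, le_div_iff₀ h4, mul_comm]
        exact h3
      linarith
  have hL : LIM (fun t => ∑ x ∈ S, cm (fun g => (Ψ (g * x) : ℂ)) 1 t + ((-c : ℝ) : ℂ)) =
      (S.card : ℂ) * LIM (cm (fun g => (Ψ g : ℂ)) 1) + ((-c : ℝ) : ℂ) := by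
    rw [isLIM.add _ _ hBCsum hBCc, isLIM.tend _ _ hBCc tendsto_const_nhds,
      LIM_sum S (fun x => cm (fun g => (Ψ (g * x) : ℂ)) 1) (fun x _ => hBCx x),
      Finset.sum_congr rfl fun x _ => Pos_shift h hk x, Finset.sum_const, nsmul_eq_mul]
  rw [hL] at hpos
  have h1 : ((S.card : ℂ) * LIM (cm (fun g => (Ψ g : ℂ)) 1) + ((-c : ℝ) : ℂ)).re =
      (S.card : ℝ) * (LIM (cm (fun g => (Ψ g : ℂ)) 1)).re - c := by
    rw [Complex.add_re, Complex.ofReal_re, ← Complex.ofReal_natCast, Complex.re_ofReal_mul]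
    ring
  rw [h1] at hpos
  by_contra hcon
  push Not at hcon
  have h2 : (S.card : ℝ) * (LIM (cm (fun g => (Ψ g : ℂ)) 1)).re ≤ 0 :=
    mul_nonpos_of_nonneg_of_nonpos (Nat.cast_nonneg _) hcon
  linarith

end MPkt
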