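import Pool.Agent.Lib.MP_7b255b_nt.Smo

/-!
# SmI: integrals of smooth vectors

`y = ∫ c(a) π(g(a)) w dμ(a)`. On `pos`: `orb π y A = ∫ c(a) (orb π w)(A g(a)) dμ(a)` (`π.r (nrm A)` is continuous linear, `orb π (π.r g w) A = orb π w (A g)`).
* General lemma: `F_a(A) = (orb π w)(A g(a))`; for every `j` and every compact `L ⊆ pos` the derivatives `iteratedFDeriv ℝ j F_a A`, `A ∈ L`, `g(a) ∈ K`, are bounded by a constant (continuous function
  of `(A, g)` on the compact set `L × K`: `(iteratedFDeriv ℝ j (orb π w) (A g)).compContinuousLinearMap R_g`, and `L K ⊆ pos`). By induction on `j` (`hasFDerivAt_integral_of_dominated_of_fderiv_le`, in a small closed ball around a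
  point of `pos`): `A ↦ ∫ c(a) F_a(A) dμ` is `j` times differentiable on `pos` with `iteratedFDeriv ℝ j (...) A = ∫ c(a) iteratedFDeriv ℝ j F_a A dμ` and this is continuous in `A`; so it is `C^∞` on the open set `pos`.
  (A convenient way: prove for all normed spaces `E'` and all `f : (Fin 2 → Fin 2 → ℝ) → E'` which are `C^∞` on `pos`, by induction on `j`, that `A ↦ ∫ c(a) f(A g(a)) dμ` is `C^j` on `pos`, with derivative
  `A ↦ ∫ c(a) (fderiv f (A g(a))) ∘ R_{g(a)} dμ`; the last function has the same form with values in `E →L E'` if one writes it as a finite sum over matrix entries of `R_{g(a)}`: `c(a)` replaced by `c(a) g(a)_{ij}`, and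
  `f` by `A ↦ fderiv f A ∘ (fixed linear map)`.)
* `η`: `J(v) = (iteratedFDeriv ℝ j (orb π v) e1)_{j ≤ l}` is a linear map from the smooth vectors to a Banach space `𝒥` (a finite product), `|η v| ≤ C ‖J v‖`; so `η` factors over the range of `J` and extends by Hahn-Banach to a
  continuous linear functional `Λ` on `𝒥` (`exists_extension_norm_eq` for complex subspaces; `𝒥` is a complex normed space). `J(y) = ∫ c(a) J(π(g(a)) w) dμ` by the first part, so
  `η(y) = Λ(J(y)) = ∫ c(a) Λ(J(π(g(a)) w)) dμ = ∫ c(a) η(π(g(a)) w) dμ`.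

-/

set_option autoImplicit false

namespace MPkt

open Filter Topology MeasureTheory

universe u

variable {H : Type u} [NormedAddCommGroup H] [InnerProductSpace ℂ H] [CompleteSpace H] (π : URep H)
  {α : Type*} [MeasurableSpace α] (μ : Measure α) {c : α → ℂ} {g : α → G}

/-- Right multiplication, as a function of a matrix. -/
private noncomputable def SmI_L : (Fin 2 → Fin 2 → ℝ) →ₗ[ℝ] ((Fin 2 → Fin 2 → ℝ) →L[ℝ] (Fin 2 → Fin 2 → ℝ)) where
  toFun B := LinearMap.toContinuousLinearMap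
    { toFun := fun A i j => ∑ k, A i k * B k j
      map_add' := fun A A' => by
        funext i j
        simp only [Pi.add_apply, add_mul, Finset.sum_add_distrib]
      map_smul' := fun c A => by
        funext i j
        simp only [Pi.smul_apply, smul_eq_mul, mul_assoc, Finset.mul_sum, RingHom.id_apply] }
  map_add' B B' := by
    ext A i j
    simp [mul_add, Finset.sum_add_distrib]
  map_smul' c B := by
    ext A i j
    simp
    ring

/-- Right multiplication. -/
private noncomputable def SmI_R (h : G) : (Fin 2 → Fin 2 → ℝ) →L[ℝ] (Fin 2 → Fin 2 → ℝ) :=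
  SmI_L (h : Matrix (Fin 2) (Fin 2) ℝ)

private theorem SmI_R_of (h : G) (A : Fin 2 → Fin 2 → ℝ) :
    Matrix.of (SmI_R h A) = Matrix.of A * (h : Matrix (Fin 2) (Fin 2) ℝ) := by
  ext i j
  rw [Matrix.mul_apply]
  rfl

private theorem SmI_R_cont : Continuous SmI_R := by
  have h1 : Continuous SmI_L := SmI_L.continuous_of_finiteDimensional
  exact h1.comp continuous_subtype_val

private theorem SmI_R_pos (h : G) {A : Fin 2 → Fin 2 → ℝ} (hA : A ∈ pos) : SmI_R h A ∈ pos := by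
  show 0 < (Matrix.of (SmI_R h A)).det
  rw [SmI_R_of, Matrix.det_mul, h.2, mul_one]
  exact hA

private theorem SmI_orb (π : URep H) (h : G) (w : H) {A : Fin 2 → Fin 2 → ℝ} (hA : A ∈ pos) :
    orb π (π.r h w) A = orb π w (SmI_R h A) := by
  have h1 : nrm (SmI_R h A) = nrm A * h := by
    have h2 : nrm (SmI_R h A) = nrm A * nrm (h : Matrix (Fin 2) (Fin 2) ℝ) := by
      refine nrm_mul hA ?_ (SmI_R_of h A)
      have h3 : (Matrix.of (h : Matrix (Fin 2) (Fin 2) ℝ)).det = 1 := h.2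
      rw [h3]
      exact one_pos
    rw [h2, nrm_coe]
  unfold orb
  rw [h1, map_mul]
  rfl

private theorem SmI_iter (π : URep H) (h : G) {w : H} (hw : Smooth π w) (n : ℕ) {A : Fin 2 → Fin 2 → ℝ} (hA : A ∈ pos) :
    iteratedFDeriv ℝ n (orb π (π.r h w)) A =
      (iteratedFDeriv ℝ n (orb π w) (SmI_R h A)).compContinuousLinearMap fun _ => SmI_R h := by
  have ho := isOpen_pos
  have h1 : SmI_R h ⁻¹' pos ∈ 𝓝 A := (ho.preimage (SmI_R h).continuous).mem_nhds (SmI_R_pos h hA)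
  have h2 : (SmI_R h ⁻¹' pos) = pos := by
    ext B
    show 0 < (Matrix.of (SmI_R h B)).det ↔ _
    rw [SmI_R_of, Matrix.det_mul, h.2, mul_one]
    rfl
  rw [← iteratedFDerivWithin_of_isOpen n ho hA, ← iteratedFDerivWithin_of_isOpen n ho (SmI_R_pos h hA)]
  have h3 := (SmI_R h).iteratedFDerivWithin_comp_right hw ho.uniqueDiffOn (by rw [h2]; exact ho.uniqueDiffOn)
    (SmI_R_pos h hA) (i := n) (by exact_mod_cast le_top)
  rw [h2] at h3
  rw [← h3]
  exact iteratedFDerivWithin_congr (fun B hB => SmI_orb π h w hB) hA n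

private theorem SmI_joint (π : URep H) {w : H} (hw : Smooth π w) (n : ℕ) :
    ContinuousOn (fun x : G × (Fin 2 → Fin 2 → ℝ) => iteratedFDeriv ℝ n (orb π (π.r x.1 w)) x.2) (Set.univ ×ˢ pos) := by
  have ho := isOpen_pos
  have h1 : ContinuousOn (iteratedFDeriv ℝ n (orb π w)) pos := by
    have h2 := ContDiffOn.continuousOn_iteratedFDerivWithin hw (m := n) (by exact_mod_cast le_top) ho.uniqueDiffOn
    exact h2.congr fun x hx => (iteratedFDerivWithin_of_isOpen n ho hx).symm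
  have h3 : Continuous fun x : G × (Fin 2 → Fin 2 → ℝ) => SmI_R x.1 x.2 :=
    (SmI_R_cont.comp continuous_fst).clm_apply continuous_snd
  have h4 : ContinuousOn (fun x : G × (Fin 2 → Fin 2 → ℝ) => iteratedFDeriv ℝ n (orb π w) (SmI_R x.1 x.2))
      (Set.univ ×ˢ pos) := h1.comp h3.continuousOn fun x hx => SmI_R_pos x.1 hx.2
  have h5 : Continuous fun x : G × (Fin 2 → Fin 2 → ℝ) =>
      ContinuousMultilinearMap.compContinuousLinearMapContinuousMultilinear ℝ (fun _ : Fin n => Fin 2 → Fin 2 → ℝ)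
        (fun _ : Fin n => Fin 2 → Fin 2 → ℝ) H fun _ => SmI_R x.1 :=
    (ContinuousMultilinearMap.cont _).comp (continuous_pi fun _ => SmI_R_cont.comp continuous_fst)
  refine (h5.continuousOn.clm_apply h4).congr fun x hx => ?_
  exact SmI_iter π x.1 hw n hx.2

section gen

variable {Φ : G → (Fin 2 → Fin 2 → ℝ) → H}

private theorem SmI_step (hc : Integrable c μ) (hg : StronglyMeasurable g) {K : Set G} (hK : IsCompact K)
    (hgK : ∀ a, c a ≠ 0 → g a ∈ K)
    (hΦ : ∀ n : ℕ, ContinuousOn (fun x : G × (Fin 2 → Fin 2 → ℝ) => iteratedFDeriv ℝ n (Φ x.1) x.2) (Set.univ ×ˢ pos))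
    (hd : ∀ h, ContDiffOn ℝ ((⊤ : ℕ∞) : WithTop ℕ∞) (Φ h) pos) (n : ℕ) {A : Fin 2 → Fin 2 → ℝ} (hA : A ∈ pos) :
    HasFDerivAt (fun x => ∫ a, c a • iteratedFDeriv ℝ n (Φ (g a)) x ∂μ)
      (∫ a, c a • fderiv ℝ (iteratedFDeriv ℝ n (Φ (g a))) A ∂μ) A := by
  have ho := isOpen_pos
  -- the derivatives of the derivatives
  have hD : ContinuousOn (fun x : G × (Fin 2 → Fin 2 → ℝ) => fderiv ℝ (iteratedFDeriv ℝ n (Φ x.1)) x.2)
      (Set.univ ×ˢ pos) := by
    have h1 := (continuousMultilinearCurryLeftEquiv ℝ (fun _ : Fin (n + 1) => Fin 2 → Fin 2 → ℝ) H).continuous.comp_continuousOn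
      (hΦ (n + 1))
    refine h1.congr fun x _ => ?_
    simp only [Function.comp_apply, iteratedFDeriv_succ_eq_comp_left]
    exact (LinearIsometryEquiv.apply_symm_apply _ _).symm
  have hD1 : ContinuousOn (fun x : G × (Fin 2 → Fin 2 → ℝ) => ‖fderiv ℝ (iteratedFDeriv ℝ n (Φ x.1)) x.2‖)
      (Set.univ ×ˢ pos) := by
    refine (hΦ (n + 1)).norm.congr fun x _ => ?_
    exact norm_fderiv_iteratedFDeriv
  obtain ⟨r, hr, hball⟩ := Metric.isOpen_iff.1 ho A hA
  have hcb : Metric.closedBall A (r / 2) ⊆ pos :=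
    (Metric.closedBall_subset_ball (by linarith)).trans hball
  have hcpt : IsCompact (K ×ˢ Metric.closedBall A (r / 2)) := hK.prod (isCompact_closedBall A (r / 2))
  have hsub : K ×ˢ Metric.closedBall A (r / 2) ⊆ (Set.univ : Set G) ×ˢ pos :=
    Set.prod_mono (Set.subset_univ _) hcb
  obtain ⟨B, hB⟩ := (hcpt.image_of_continuousOn (hD1.mono hsub)).bddAbove
  obtain ⟨B0, hB0⟩ := (hcpt.image_of_continuousOn ((hΦ n).mono hsub).norm).bddAbove
  have hsl : ∀ {x : Fin 2 → Fin 2 → ℝ}, x ∈ pos → Continuous fun h : G => iteratedFDeriv ℝ n (Φ h) x := by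
    intro x hx
    have h1 : ContinuousOn (fun h : G => iteratedFDeriv ℝ n (Φ h) x) Set.univ :=
      (hΦ n).comp (f := fun h : G => (h, x)) (by fun_prop) fun h _ => ⟨Set.mem_univ _, hx⟩
    exact continuousOn_univ.1 h1
  have hsl' : Continuous fun h : G => fderiv ℝ (iteratedFDeriv ℝ n (Φ h)) A := by
    have h1 : ContinuousOn (fun h : G => fderiv ℝ (iteratedFDeriv ℝ n (Φ h)) A) Set.univ :=
      hD.comp (f := fun h : G => (h, A)) (by fun_prop) fun h _ => ⟨Set.mem_univ _, hA⟩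
    exact continuousOn_univ.1 h1
  refine hasFDerivAt_integral_of_dominated_of_fderiv_le (𝕜 := ℝ) (s := Metric.closedBall A (r / 2))
    (F := fun x a => c a • iteratedFDeriv ℝ n (Φ (g a)) x)
    (F' := fun x a => c a • fderiv ℝ (iteratedFDeriv ℝ n (Φ (g a))) x) (bound := fun a => ‖c a‖ * B)
    (Metric.closedBall_mem_nhds A (by linarith)) ?_ ?_ ?_ ?_ ?_ ?_
  · filter_upwards [ho.mem_nhds hA] with x hx
    exact hc.aestronglyMeasurable.smul ((hsl hx).comp_stronglyMeasurable hg).aestronglyMeasurable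
  · refine Integrable.mono' (g := fun a => ‖c a‖ * B0) (hc.norm.mul_const _)
      (hc.aestronglyMeasurable.smul ((hsl hA).comp_stronglyMeasurable hg).aestronglyMeasurable)
      (Filter.Eventually.of_forall fun a => ?_)
    rw [norm_smul]
    by_cases h0 : c a = 0
    · rw [h0, norm_zero, zero_mul, zero_mul]
    · exact mul_le_mul_of_nonneg_left (hB0 ⟨(g a, A), ⟨hgK a h0, Metric.mem_closedBall_self (by linarith)⟩, rfl⟩)
        (norm_nonneg _)
  · exact hc.aestronglyMeasurable.smul (hsl'.comp_stronglyMeasurable hg).aestronglyMeasurable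
  · refine Filter.Eventually.of_forall fun a x hx => ?_
    rw [norm_smul]
    by_cases h0 : c a = 0
    · rw [h0, norm_zero, zero_mul, zero_mul]
    · exact mul_le_mul_of_nonneg_left (hB ⟨(g a, x), ⟨hgK a h0, hx⟩, rfl⟩) (norm_nonneg _)
  · exact hc.norm.mul_const _
  · refine Filter.Eventually.of_forall fun a x hx => ?_
    have h1 : ContDiffAt ℝ ((⊤ : ℕ∞) : WithTop ℕ∞) (Φ (g a)) x := (hd (g a)).contDiffAt (ho.mem_nhds (hcb hx))
    have h2 : DifferentiableAt ℝ (iteratedFDeriv ℝ n (Φ (g a))) x :=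
      h1.differentiableAt_iteratedFDeriv (by exact_mod_cast WithTop.coe_lt_top _)
    exact h2.hasFDerivAt.const_smul (c a)

private theorem SmI_gen (hc : Integrable c μ) (hg : StronglyMeasurable g) {K : Set G} (hK : IsCompact K)
    (hgK : ∀ a, c a ≠ 0 → g a ∈ K)
    (hΦ : ∀ n : ℕ, ContinuousOn (fun x : G × (Fin 2 → Fin 2 → ℝ) => iteratedFDeriv ℝ n (Φ x.1) x.2) (Set.univ ×ˢ pos))
    (hd : ∀ h, ContDiffOn ℝ ((⊤ : ℕ∞) : WithTop ℕ∞) (Φ h) pos) (n : ℕ) : ∀ A ∈ pos,
    iteratedFDeriv ℝ n (fun x => ∫ a, c a • Φ (g a) x ∂μ) A = ∫ a, c a • iteratedFDeriv ℝ n (Φ (g a)) A ∂μ := by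
  have ho := isOpen_pos
  induction n with
  | zero =>
    intro A hA
    simp only [iteratedFDeriv_zero_eq_comp, Function.comp_apply]
    refine ((continuousMultilinearCurryFin0 ℝ (Fin 2 → Fin 2 → ℝ) H).symm.toContinuousLinearEquiv.integral_comp_comm
      fun a => c a • Φ (g a) A).symm.trans ?_
    refine integral_congr_ae (Filter.Eventually.of_forall fun a => ?_)
    ext m
    rfl
  | succ n ih =>
    intro A hA
    have h1 : (iteratedFDeriv ℝ n fun x => ∫ a, c a • Φ (g a) x ∂μ) =ᶠ[𝓝 A]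
        fun x => ∫ a, c a • iteratedFDeriv ℝ n (Φ (g a)) x ∂μ := by
      filter_upwards [ho.mem_nhds hA] with x hx
      exact ih x hx
    simp only [iteratedFDeriv_succ_eq_comp_left, Function.comp_apply]
    rw [h1.fderiv_eq, (SmI_step μ hc hg hK hgK hΦ hd n hA).fderiv]
    refine (ContinuousLinearEquiv.integral_comp_comm (𝕜 := ℝ)
      (E := (Fin 2 → Fin 2 → ℝ) →L[ℝ] ContinuousMultilinearMap ℝ (fun _ : Fin n => Fin 2 → Fin 2 → ℝ) H)
      (F := ContinuousMultilinearMap ℝ (fun _ : Fin (n + 1) => Fin 2 → Fin 2 → ℝ) H)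
      (continuousMultilinearCurryLeftEquiv ℝ (fun _ : Fin (n + 1) => Fin 2 → Fin 2 → ℝ)
      H).symm.toContinuousLinearEquiv
        fun a => c a • fderiv ℝ (iteratedFDeriv ℝ n (Φ (g a))) A).symm.trans ?_
    refine integral_congr_ae (Filter.Eventually.of_forall fun a => ?_)
    ext m
    rfl

end gen

private theorem SmI_orb_int (π : URep H) (w : H) (A : Fin 2 → Fin 2 → ℝ) :
    orb π (∫ a, c a • π.r (g a) w ∂μ) A = ∫ a, c a • orb π (π.r (g a) w) A ∂μ := by
  unfold orb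
  refine ((π.r (nrm A)).toLinearIsometry.integral_comp_comm fun a => c a • π.r (g a) w).symm.trans ?_
  refine integral_congr_ae (Filter.Eventually.of_forall fun a => ?_)
  exact map_smul (π.r (nrm A)) (c a) (π.r (g a) w)

private theorem SmI_iter_int (π : URep H) (hc : Integrable c μ) (hg : StronglyMeasurable g) {K : Set G} (hK : IsCompact K)
    (hgK : ∀ a, c a ≠ 0 → g a ∈ K) {w : H} (hw : Smooth π w) (n : ℕ) {A : Fin 2 → Fin 2 → ℝ} (hA : A ∈ pos) :
    iteratedFDeriv ℝ n (orb π (∫ a, c a • π.r (g a) w ∂μ)) A =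
      ∫ a, c a • iteratedFDeriv ℝ n (orb π (π.r (g a) w)) A ∂μ := by
  have h1 : orb π (∫ a, c a • π.r (g a) w ∂μ) = fun A => ∫ a, c a • orb π (π.r (g a) w) A ∂μ :=
    funext fun A => SmI_orb_int μ π w A
  rw [h1]
  exact SmI_gen μ (Φ := fun h => orb π (π.r h w)) hc hg hK hgK (SmI_joint π hw) (fun h => smooth_r π h hw) n A hA

theorem int_smooth (hc : Integrable c μ) (hg : StronglyMeasurable g) {K : Set G} (hK : IsCompact K)
    (hgK : ∀ a, c a ≠ 0 → g a ∈ K) {w : H} (hw : Smooth π w) : Smooth π (∫ a, c a • π.r (g a) w ∂μ) := by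
  have ho := isOpen_pos
  refine contDiffOn_of_differentiableOn fun m _ A hA => ?_
  have h1 := SmI_step μ (Φ := fun h => orb π (π.r h w)) hc hg hK hgK (SmI_joint π hw) (fun h => smooth_r π h hw) m hA
  refine (h1.differentiableAt.differentiableWithinAt (s := pos)).congr (fun x hx => ?_) ?_
  · rw [iteratedFDerivWithin_of_isOpen m ho hx]
    exact SmI_iter_int μ π hc hg hK hgK hw m hx
  · rw [iteratedFDerivWithin_of_isOpen m ho hA]
    exact SmI_iter_int μ π hc hg hK hgK hw m hA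

/-- The space of the smooth vectors. -/
private def SmI_S (π : URep H) : Submodule ℂ H where
  carrier := {v | Smooth π v}
  add_mem' := fun hv hw => smooth_add π hv hw
  zero_mem' := smooth_zero π
  smul_mem' := fun c _ hv => smooth_smul π c hv

private theorem SmI_e1 : e1 ∈ pos := by
  show 0 < (Matrix.of e1).det
  have h : Matrix.of e1 = 1 := rfl
  rw [h, Matrix.det_one]
  exact one_pos

private theorem SmI_at (π : URep H) {v : H} (hv : Smooth π v) (j : ℕ) : ContDiffAt ℝ (j : WithTop ℕ∞) (orb π v) e1 :=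
  (ContDiffOn.contDiffAt hv (isOpen_pos.mem_nhds SmI_e1)).of_le (by exact_mod_cast le_top)

/-- The jets. -/
private noncomputable def SmI_J (π : URep H) (l : ℕ) : SmI_S π →ₗ[ℂ]
    ((j : Fin (l + 1)) → ContinuousMultilinearMap ℝ (fun _ : Fin (j : ℕ) => Fin 2 → Fin 2 → ℝ) H) where
  toFun v j := iteratedFDeriv ℝ (j : ℕ) (orb π v) e1
  map_add' v w := by
    funext j
    have h1 : orb π ((v + w : SmI_S π) : H) = orb π v + orb π w := by
      funext A
      exact map_add (π.r (nrm A)) (v : H) w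
    rw [h1]
    exact iteratedFDeriv_add_apply (SmI_at π v.2 j) (SmI_at π w.2 j)
  map_smul' c v := by
    funext j
    have h1 : orb π ((c • v : SmI_S π) : H) = c • orb π v := by
      funext A
      exact map_smul (π.r (nrm A)) c (v : H)
    rw [h1]
    exact iteratedFDeriv_const_smul_apply (SmI_at π v.2 j)

private theorem SmI_ext (π : URep H) {η : H → ℂ} (hη : IsLin π η) : ∃ (l : ℕ)
    (Λ : ((j : Fin (l + 1)) → ContinuousMultilinearMap ℝ (fun _ : Fin (j : ℕ) => Fin 2 → Fin 2 → ℝ) H) →L[ℂ] ℂ),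
    ∀ v : SmI_S π, Λ (SmI_J π l v) = η v := by
  obtain ⟨l, C, hC⟩ := hη.bound
  have hb : ∀ v : SmI_S π, ‖η v‖ ≤ |C| * (l + 1) * ‖SmI_J π l v‖ := by
    intro v
    have h1 : jet π l (v : H) ≤ (l + 1) * ‖SmI_J π l v‖ := by
      unfold jet
      have h2 : ∀ j ∈ Finset.range (l + 1), ‖iteratedFDeriv ℝ j (orb π (v : H)) e1‖ ≤ ‖SmI_J π l v‖ := by
        intro j hj
        exact norm_le_pi_norm (SmI_J π l v) ⟨j, Finset.mem_range.1 hj⟩
      refine (Finset.sum_le_card_nsmul _ _ _ h2).trans ?_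
      rw [Finset.card_range, nsmul_eq_mul]
      push_cast
      exact le_rfl
    have h0 : 0 ≤ jet π l (v : H) := Finset.sum_nonneg fun _ _ => norm_nonneg _
    calc ‖η v‖ ≤ C * jet π l (v : H) := hC v v.2
      _ ≤ |C| * jet π l (v : H) := mul_le_mul_of_nonneg_right (le_abs_self C) h0
      _ ≤ |C| * ((l + 1) * ‖SmI_J π l v‖) := mul_le_mul_of_nonneg_left h1 (abs_nonneg C)
      _ = |C| * (l + 1) * ‖SmI_J π l v‖ := by ring
  let ηS : SmI_S π →ₗ[ℂ] ℂ :=
    { toFun := fun v => η v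
      map_add' := fun v w => hη.add v w v.2 w.2
      map_smul' := fun c v => hη.smul c v v.2 }
  have hker : LinearMap.ker (SmI_J π l) ≤ LinearMap.ker ηS := by
    intro v hv
    rw [LinearMap.mem_ker] at hv ⊢
    have h1 := hb v
    rw [hv, norm_zero, mul_zero] at h1
    exact norm_le_zero_iff.1 h1
  let f0 : LinearMap.range (SmI_J π l) →ₗ[ℂ] ℂ :=
    ((LinearMap.ker (SmI_J π l)).liftQ ηS hker) ∘ₗ (SmI_J π l).quotKerEquivRange.symm.toLinearMap
  have hf0 : ∀ (v : SmI_S π) (h : SmI_J π l v ∈ LinearMap.range (SmI_J π l)), f0 ⟨SmI_J π l v, h⟩ = η v := by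
    intro v h
    show ((LinearMap.ker (SmI_J π l)).liftQ ηS hker) ((SmI_J π l).quotKerEquivRange.symm ⟨SmI_J π l v, h⟩) = η v
    rw [LinearMap.quotKerEquivRange_symm_apply_image]
    rfl
  have hf1 : ∀ x : LinearMap.range (SmI_J π l), ‖f0 x‖ ≤ |C| * (l + 1) * ‖x‖ := by
    rintro ⟨x, v, rfl⟩
    rw [hf0]
    exact hb v
  obtain ⟨Λ, hΛ, -⟩ := exists_extension_norm_eq (LinearMap.range (SmI_J π l)) (f0.mkContinuous _ hf1)
  refine ⟨l, Λ, fun v => ?_⟩
  have h1 := hΛ ⟨SmI_J π l v, ⟨v, rfl⟩⟩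
  exact h1.trans (hf0 v _)

theorem int_eta (hc : Integrable c μ) (hg : StronglyMeasurable g) {K : Set G} (hK : IsCompact K)
    (hgK : ∀ a, c a ≠ 0 → g a ∈ K) {w : H} (hw : Smooth π w) {η : H → ℂ} (hη : IsLin π η) :
    η (∫ a, c a • π.r (g a) w ∂μ) = ∫ a, c a * η (π.r (g a) w) ∂μ := by
  obtain ⟨l, Λ, hΛ⟩ := SmI_ext π hη
  have hy := int_smooth π μ hc hg hK hgK hw
  have h1 := hΛ ⟨_, hy⟩
  have h2 : ∀ a, η (π.r (g a) w) = Λ (SmI_J π l ⟨_, smooth_r π (g a) hw⟩) := fun a => (hΛ ⟨_, smooth_r π (g a) hw⟩).symm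
  have hi : ∀ j : Fin (l + 1), Integrable
      (fun a => (c a • SmI_J π l ⟨_, smooth_r π (g a) hw⟩ : (j : Fin (l + 1)) →
        ContinuousMultilinearMap ℝ (fun _ : Fin (j : ℕ) => Fin 2 → Fin 2 → ℝ) H) j) μ := by
    intro j
    have hcpt : IsCompact (K ×ˢ ({e1} : Set (Fin 2 → Fin 2 → ℝ))) := hK.prod isCompact_singleton
    have hsub : K ×ˢ ({e1} : Set (Fin 2 → Fin 2 → ℝ)) ⊆ (Set.univ : Set G) ×ˢ pos :=
      Set.prod_mono (Set.subset_univ _) (Set.singleton_subset_iff.2 SmI_e1)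
    obtain ⟨B0, hB0⟩ := (hcpt.image_of_continuousOn ((SmI_joint π hw j).mono hsub).norm).bddAbove
    have hsl : Continuous fun h : G => iteratedFDeriv ℝ (j : ℕ) (orb π (π.r h w)) e1 := by
      have h1 : ContinuousOn (fun h : G => iteratedFDeriv ℝ (j : ℕ) (orb π (π.r h w)) e1) Set.univ :=
        (SmI_joint π hw j).comp (f := fun h : G => (h, e1)) (by fun_prop) fun h _ => ⟨Set.mem_univ _, SmI_e1⟩
      exact continuousOn_univ.1 h1
    refine Integrable.mono' (g := fun a => ‖c a‖ * B0) (hc.norm.mul_const _)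
      (hc.aestronglyMeasurable.smul (hsl.comp_stronglyMeasurable hg).aestronglyMeasurable)
      (Filter.Eventually.of_forall fun a => ?_)
    show ‖c a • iteratedFDeriv ℝ (j : ℕ) (orb π (π.r (g a) w)) e1‖ ≤ _
    rw [norm_smul]
    by_cases h0 : c a = 0
    · rw [h0, norm_zero, zero_mul, zero_mul]
    · exact mul_le_mul_of_nonneg_left (hB0 ⟨(g a, e1), ⟨hgK a h0, rfl⟩, rfl⟩) (norm_nonneg _)
  have h3 : SmI_J π l ⟨_, hy⟩ = ∫ a, c a • SmI_J π l ⟨_, smooth_r π (g a) hw⟩ ∂μ := by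
    funext j
    rw [eval_integral hi]
    exact SmI_iter_int μ π hc hg hK hgK hw j SmI_e1
  rw [← h1, h3, ← ContinuousLinearMap.integral_comp_comm Λ (Integrable.of_eval hi)]
  refine integral_congr_ae (Filter.Eventually.of_forall fun a => ?_)
  show Λ (c a • SmI_J π l ⟨_, smooth_r π (g a) hw⟩) = c a * η (π.r (g a) w)
  rw [map_smul, h2 a, smul_eq_mul]

end MPkt
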