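import Pool.Agent.Lib.MP_7b255b_nt.UC
import Pool.Agent.Lib.MP_7b255b_nt.Ob

/-!
# Smo: smooth vectors

* `orb` is linear in `v`. `smooth_r`: `orb π (π.r g v) A = orb π v (A g)` for `A ∈ pos` (`nrm_mul`, `nrm_coe`), `A ↦ A g` is linear and maps `pos` to `pos`, which is open.
* `jet_cont`: on `pos` `orb π (π.r g v)` is the composition of `orb π v` with the linear map `R_g : A ↦ A g`, so (`iteratedFDeriv` depends only on the germ at `e1`; `ContinuousLinearMap.iteratedFDeriv_comp_right` in the version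
  for `iteratedFDerivWithin` / open sets) `iteratedFDeriv ℝ j (orb π (π.r g v)) e1 = (iteratedFDeriv ℝ j (orb π v) g).compContinuousLinearMap (fun _ => R_g)`, continuous in `g`.
  So `g ↦ jet π l (π.r g v - π.r g0 v)` tends to `0` for `g → g0`: `orb π (π.r g v - π.r g0 v) = orb π (π.r g v) - orb π (π.r g0 v)`, `iteratedFDeriv_sub` (at the point `e1`, `ContDiffAt`).
* `eta_cont`: `|η(π g v) - η(π g0 v)| = |η(π g v - π g0 v)| ≤ C jet l (...)`.

-/

set_option autoImplicit false

namespace MPkt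

open Filter Topology

universe u

variable {H : Type u} [NormedAddCommGroup H] [InnerProductSpace ℂ H] (π : URep H)

private theorem Smo_det (A : Fin 2 → Fin 2 → ℝ) : (Matrix.of A).det = A 0 0 * A 1 1 - A 0 1 * A 1 0 := by
  rw [Matrix.det_fin_two]
  rfl

theorem isOpen_pos : IsOpen pos := by
  have h : Continuous fun A : Fin 2 → Fin 2 → ℝ => (Matrix.of A).det := by
    simp only [Smo_det]
    fun_prop
  exact isOpen_lt continuous_const h

private theorem Smo_e1 : e1 ∈ pos := by
  have h : (Matrix.of e1).det = 1 := Matrix.det_one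
  change 0 < (Matrix.of e1).det
  rw [h]
  exact one_pos

/-- `A ↦ a A b` -/
private noncomputable def SmoM (a b : G) : (Fin 2 → Fin 2 → ℝ) →L[ℝ] (Fin 2 → Fin 2 → ℝ) :=
  LinearMap.toContinuousLinearMap
    { toFun := fun A => Matrix.of.symm ((a : Matrix (Fin 2) (Fin 2) ℝ) * Matrix.of A * (b : Matrix (Fin 2) (Fin 2) ℝ))
      map_add' := fun A B => by
        have h : Matrix.of (A + B) = Matrix.of A + Matrix.of B := rfl
        rw [h, Matrix.mul_add, Matrix.add_mul]
        rfl
      map_smul' := fun c A => by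
        have h : Matrix.of (c • A) = c • Matrix.of A := rfl
        rw [h, Matrix.mul_smul, Matrix.smul_mul]
        rfl }

private theorem SmoM_of (a b : G) (A : Fin 2 → Fin 2 → ℝ) : Matrix.of (SmoM a b A) =
    (a : Matrix (Fin 2) (Fin 2) ℝ) * Matrix.of A * (b : Matrix (Fin 2) (Fin 2) ℝ) := rfl

private theorem SmoM_det (a b : G) (A : Fin 2 → Fin 2 → ℝ) : (Matrix.of (SmoM a b A)).det = (Matrix.of A).det := by
  rw [SmoM_of, Matrix.det_mul, Matrix.det_mul, a.2, b.2, one_mul, mul_one]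

private theorem SmoM_pos (a b : G) : SmoM a b ⁻¹' pos = pos := by
  ext A
  change 0 < (Matrix.of (SmoM a b A)).det ↔ 0 < (Matrix.of A).det
  rw [SmoM_det]

private theorem SmoM_nrm (a b : G) {A : Fin 2 → Fin 2 → ℝ} (hA : A ∈ pos) : nrm (SmoM a b A) = a * nrm A * b := by
  have h1 : 0 < (Matrix.of A).det := hA
  have h2 : 0 < (Matrix.of (SmoM a b A)).det := by rwa [SmoM_det]
  apply Subtype.ext
  rw [nrm_val h2, SmoM_det, SmoM_of, Matrix.SpecialLinearGroup.coe_mul, Matrix.SpecialLinearGroup.coe_mul, nrm_val h1,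
    Matrix.mul_smul, Matrix.smul_mul]

private theorem SmoM_mem (a b : G) {A : Fin 2 → Fin 2 → ℝ} (hA : A ∈ pos) : SmoM a b A ∈ pos := by
  have h : A ∈ SmoM a b ⁻¹' pos := by rwa [SmoM_pos]
  exact h

private theorem SmoM_inv_e1 (g : G) : SmoM g⁻¹ g e1 = e1 := by
  have h1 : Matrix.of (SmoM g⁻¹ g e1) = Matrix.of e1 := by
    have h2 : (Matrix.of e1 : Matrix (Fin 2) (Fin 2) ℝ) = 1 := rfl
    rw [SmoM_of, h2, mul_one, ← Matrix.SpecialLinearGroup.coe_mul, inv_mul_cancel]
    rfl
  exact h1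

private theorem Smo_r_mul (g h : G) (v : H) : π.r (g * h) v = π.r g (π.r h v) := by
  rw [map_mul]
  rfl

private theorem Smo_orb_r (g : G) (v : H) : Set.EqOn (orb π (π.r g v)) (orb π v ∘ SmoM 1 g) pos := by
  intro A hA
  change π.r (nrm A) (π.r g v) = π.r (nrm (SmoM 1 g A)) v
  rw [SmoM_nrm 1 g hA, one_mul, Smo_r_mul]

/-- the operator as a real linear isometry -/
private noncomputable def SmoI (g : G) : H ≃ₗᵢ[ℝ] H :=
  { (π.r g).toLinearEquiv.restrictScalars ℝ with norm_map' := fun v => (π.r g).norm_map v }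

private theorem SmoI_apply (g : G) (v : H) : SmoI π g v = π.r g v := rfl

private theorem Smo_orb_c (g : G) (v : H) :
    Set.EqOn (orb π (π.r g v)) (SmoI π g ∘ (orb π v ∘ SmoM g⁻¹ g)) pos := by
  intro A hA
  change π.r (nrm A) (π.r g v) = SmoI π g (π.r (nrm (SmoM g⁻¹ g A)) v)
  rw [SmoM_nrm g⁻¹ g hA, SmoI_apply, ← Smo_r_mul, ← Smo_r_mul]
  congr 1
  group

private theorem Smo_orb_add (v w : H) : orb π (v + w) = orb π v + orb π w := by
  funext A
  exact map_add (π.r (nrm A)) v w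

private theorem Smo_orb_sub (v w : H) : orb π (v - w) = orb π v - orb π w := by
  funext A
  exact map_sub (π.r (nrm A)) v w

private theorem Smo_orb_smul (c : ℂ) (v : H) : orb π (c • v) = fun A => c • orb π v A := by
  funext A
  exact map_smul (π.r (nrm A)) c v

theorem smooth_add {v w : H} (hv : Smooth π v) (hw : Smooth π w) : Smooth π (v + w) := by
  unfold Smooth
  rw [Smo_orb_add]
  exact ContDiffOn.add hv hw

theorem smooth_smul (c : ℂ) {v : H} (hv : Smooth π v) : Smooth π (c • v) := by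
  unfold Smooth
  rw [Smo_orb_smul]
  exact ContDiffOn.const_smul c hv

theorem smooth_zero : Smooth π 0 := by
  unfold Smooth
  have h : orb π 0 = fun _ => (0 : H) := by
    funext A
    exact map_zero (π.r (nrm A))
  rw [h]
  exact contDiffOn_const

theorem smooth_r (g : G) {v : H} (hv : Smooth π v) : Smooth π (π.r g v) := by
  unfold Smooth
  have h1 : ContDiffOn ℝ ((⊤ : ℕ∞) : WithTop ℕ∞) (orb π v ∘ SmoM 1 g) pos :=
    ContDiffOn.comp (g := orb π v) (t := pos) hv (SmoM 1 g).contDiff.contDiffOn fun A hA => SmoM_mem 1 g hA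
  exact h1.congr (Smo_orb_r π g v)

private theorem smooth_sub {v w : H} (hv : Smooth π v) (hw : Smooth π w) : Smooth π (v - w) := by
  unfold Smooth
  rw [Smo_orb_sub]
  exact ContDiffOn.sub hv hw

theorem IsLin.sub {η : H → ℂ} (h : IsLin π η) {v w : H} (hv : Smooth π v) (hw : Smooth π w) : η (v - w) = η v - η w := by
  have h1 : v - w = v + (-1 : ℂ) • w := by
    rw [neg_one_smul, sub_eq_add_neg]
  rw [h1, h.add v _ hv (smooth_smul π _ hw), h.smul _ w hw]
  ring

theorem IsLin.zero {η : H → ℂ} (h : IsLin π η) : η 0 = 0 := by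
  have h1 := h.smul 0 0 (smooth_zero π)
  rwa [zero_smul, zero_mul] at h1

private theorem Smo_jet (l : ℕ) (v : H) : jet π l v =
    ∑ j ∈ Finset.range (l + 1), ‖iteratedFDerivWithin ℝ j (orb π v) pos e1‖ := by
  unfold jet
  refine Finset.sum_congr rfl fun j _ => ?_
  rw [iteratedFDerivWithin_of_isOpen j isOpen_pos Smo_e1]

private theorem jet_nonneg (l : ℕ) (v : H) : 0 ≤ jet π l v :=
  Finset.sum_nonneg fun _ _ => norm_nonneg _

private theorem Smo_it {v : H} (hv : Smooth π v) (a b : G) (j : ℕ) {A : Fin 2 → Fin 2 → ℝ} (hA : A ∈ pos) :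
    iteratedFDerivWithin ℝ j (orb π v ∘ SmoM a b) pos A =
      (iteratedFDerivWithin ℝ j (orb π v) pos (SmoM a b A)).compContinuousLinearMap fun _ => SmoM a b := by
  have h1 := (SmoM a b).iteratedFDerivWithin_comp_right (n := ((⊤ : ℕ∞) : WithTop ℕ∞)) (s := pos) (f := orb π v) hv
    isOpen_pos.uniqueDiffOn (by rw [SmoM_pos]; exact isOpen_pos.uniqueDiffOn) (x := A) (SmoM_mem a b hA) (i := j)
    (by exact_mod_cast le_top)
  rwa [SmoM_pos] at h1

private theorem jet_r (g : G) (l : ℕ) : ∃ K : ℝ, ∀ v, Smooth π v → jet π l (π.r g v) ≤ K * jet π l v := by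
  refine ⟨(1 + ‖SmoM g⁻¹ g‖) ^ l, fun v hv => ?_⟩
  rw [Smo_jet, Smo_jet, Finset.mul_sum]
  refine Finset.sum_le_sum fun j hj => ?_
  rw [iteratedFDerivWithin_congr (Smo_orb_c π g v) Smo_e1 j,
    LinearIsometryEquiv.norm_iteratedFDerivWithin_comp_left _ _ isOpen_pos.uniqueDiffOn Smo_e1, Smo_it π hv _ _ _ Smo_e1,
    SmoM_inv_e1]
  refine (ContinuousMultilinearMap.norm_compContinuousLinearMap_le _ _).trans ?_
  rw [Finset.prod_const, Finset.card_univ, Fintype.card_fin, mul_comm]
  refine mul_le_mul_of_nonneg_right ?_ (norm_nonneg _)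
  have h1 : ‖SmoM g⁻¹ g‖ ^ j ≤ (1 + ‖SmoM g⁻¹ g‖) ^ j :=
    pow_le_pow_left₀ (norm_nonneg _) (by linarith) j
  have h2 : (1 + ‖SmoM g⁻¹ g‖) ^ j ≤ (1 + ‖SmoM g⁻¹ g‖) ^ l :=
    pow_le_pow_right₀ (by linarith [norm_nonneg (SmoM g⁻¹ g)]) (by rw [Finset.mem_range] at hj; omega)
  exact h1.trans h2

/-- Translates are continuous functionals. -/
theorem IsLin.r {η : H → ℂ} (h : IsLin π η) (g : G) : IsLin π fun v => η (π.r g v) := by
  obtain ⟨l, C, hC⟩ := h.bound
  obtain ⟨K, hK⟩ := jet_r π g l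
  refine ⟨fun v w hv hw => ?_, fun c v hv => ?_, l, |C| * K, fun v hv => ?_⟩
  · rw [map_add, h.add _ _ (smooth_r π g hv) (smooth_r π g hw)]
  · rw [map_smul, h.smul _ _ (smooth_r π g hv)]
  · refine (hC _ (smooth_r π g hv)).trans ?_
    refine (mul_le_mul_of_nonneg_right (le_abs_self C) (jet_nonneg π l _)).trans ?_
    rw [mul_assoc]
    exact mul_le_mul_of_nonneg_left (hK v hv) (abs_nonneg C)

private theorem SmoM_cont : Continuous fun g : G => SmoM 1 g := by
  rw [continuous_clm_apply]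
  intro A
  have h1 : Continuous fun g : G => ((1 : G) : Matrix (Fin 2) (Fin 2) ℝ) * Matrix.of A * (g : Matrix (Fin 2) (Fin 2) ℝ) :=
    Continuous.matrix_mul continuous_const continuous_subtype_val
  exact h1

private theorem jet_cont {v : H} (hv : Smooth π v) (j : ℕ) :
    Continuous fun g : G => iteratedFDerivWithin ℝ j (orb π (π.r g v)) pos e1 := by
  have h1 : ∀ g : G, iteratedFDerivWithin ℝ j (orb π (π.r g v)) pos e1 =
      ContinuousMultilinearMap.compContinuousLinearMapContinuousMultilinear ℝ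
        (fun _ : Fin j => Fin 2 → Fin 2 → ℝ) (fun _ : Fin j => Fin 2 → Fin 2 → ℝ) H (fun _ => SmoM 1 g)
        (iteratedFDerivWithin ℝ j (orb π v) pos (SmoM 1 g e1)) := by
    intro g
    rw [iteratedFDerivWithin_congr (Smo_orb_r π g v) Smo_e1 j, Smo_it π hv _ _ _ Smo_e1]
    rfl
  have h2 : ContinuousOn (iteratedFDerivWithin ℝ j (orb π v) pos) pos :=
    ContDiffOn.continuousOn_iteratedFDerivWithin (n := ((⊤ : ℕ∞) : WithTop ℕ∞)) hv (by exact_mod_cast le_top) isOpen_pos.uniqueDiffOn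
  have h3 : Continuous fun g : G => SmoM 1 g e1 := SmoM_cont.clm_apply continuous_const
  have h4 : Continuous fun g : G => iteratedFDerivWithin ℝ j (orb π v) pos (SmoM 1 g e1) :=
    h2.comp_continuous h3 fun g => SmoM_mem 1 g Smo_e1
  have h5 : Continuous fun g : G => ContinuousMultilinearMap.compContinuousLinearMapContinuousMultilinear ℝ
        (fun _ : Fin j => Fin 2 → Fin 2 → ℝ) (fun _ : Fin j => Fin 2 → Fin 2 → ℝ) H (fun _ => SmoM 1 g) :=
    (ContinuousMultilinearMap.compContinuousLinearMapContinuousMultilinear ℝ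
        (fun _ : Fin j => Fin 2 → Fin 2 → ℝ) (fun _ : Fin j => Fin 2 → Fin 2 → ℝ) H).cont.comp
      (continuous_pi fun _ => SmoM_cont)
  rw [funext h1]
  exact h5.clm_apply h4

/-- The functions `g ↦ η(π(g) v)` are continuous. -/
theorem eta_cont {η : H → ℂ} (h : IsLin π η) {v : H} (hv : Smooth π v) : Continuous fun g => η (π.r g v) := by
  obtain ⟨l, C, hC⟩ := h.bound
  rw [continuous_iff_continuousAt]
  intro g0
  have hjet : ∀ g, jet π l (π.r g v - π.r g0 v) = ∑ j ∈ Finset.range (l + 1),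
      ‖iteratedFDerivWithin ℝ j (orb π (π.r g v)) pos e1 - iteratedFDerivWithin ℝ j (orb π (π.r g0 v)) pos e1‖ := by
    intro g
    rw [Smo_jet]
    refine Finset.sum_congr rfl fun j _ => ?_
    have h1 : ContDiffWithinAt ℝ j (orb π (π.r g v)) pos e1 :=
      ((smooth_r π g hv).contDiffWithinAt Smo_e1).of_le (by exact_mod_cast le_top)
    have h2 : ContDiffWithinAt ℝ j (orb π (π.r g0 v)) pos e1 :=
      ((smooth_r π g0 hv).contDiffWithinAt Smo_e1).of_le (by exact_mod_cast le_top)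
    rw [Smo_orb_sub, iteratedFDerivWithin_sub_apply h1 h2 isOpen_pos.uniqueDiffOn Smo_e1]
  have hlim : Tendsto (fun g => |C| * jet π l (π.r g v - π.r g0 v)) (𝓝 g0) (𝓝 0) := by
    have h1 : Continuous fun g => |C| * jet π l (π.r g v - π.r g0 v) := by
      rw [funext fun g => congrArg (|C| * ·) (hjet g)]
      exact continuous_const.mul (continuous_finsetSum _ fun j _ => ((jet_cont π hv j).sub continuous_const).norm)
    have h2 : |C| * jet π l (π.r g0 v - π.r g0 v) = 0 := by
      rw [hjet g0]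
      simp
    have h3 := h1.tendsto g0
    rwa [h2] at h3
  rw [ContinuousAt, tendsto_iff_norm_sub_tendsto_zero]
  refine squeeze_zero (fun _ => norm_nonneg _) (fun g => ?_) hlim
  rw [← h.sub π (smooth_r π g hv) (smooth_r π g0 hv)]
  refine (hC _ (smooth_sub π (smooth_r π g hv) (smooth_r π g0 hv))).trans ?_
  exact mul_le_mul_of_nonneg_right (le_abs_self C) (jet_nonneg π l _)

end MPkt
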