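import Pool.Agent.Lib.MP_7b255b_nt.HM
import Pool.Agent.Lib.MP_7b255b_nt.Four
import Pool.Agent.Lib.MP_7b255b_nt.BB
import Pool.Agent.Lib.MP_7b255b_nt.Eig

/-!
# Thm1: Hecke eigenfunctionals

Suppose `‖η e‖ ≤ M` for all smooth unit vectors `e` of weight `n ≠ 0`, `M ≥ 0` (replace `M` by `max M 0`). So `‖η e‖ ≤ M ‖e‖` for all smooth weight vectors of weight `n ≠ 0`.
* `eta_zero`: there are `m` and a smooth unit vector `v` of weight `m` with `η v ≠ 0`. `f g = η (π.r g v)`: `IsF b m f` (`eta_cont`, `smooth_r`).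
* `w_t = π.r (aa t) v`. `b1 ψ = LIM (t ↦ E1 π η w_t ψ)`, `b2 ψ = LIM (t ↦ ⟪w_t, π(kk ψ) w_t⟫)`. `E1 π η w_t ψ = cm (g ↦ star (f g) * f (kk ψ * g)) 1 t` is bounded and continuous in `t` (`BC`): `cm_le`, `cm_cont`
  (`f` is bounded: `F2_cpt` with `α = β = 1`, or a `Cpt` for `f` itself). If `kk ψ = (em δ).hh` it is `cm (F2 f 1 (em δ)) 1 t`, so `b1 ψ = BB f 1 (em δ) = B c(em δ)`, `B = (BB f 1 1).re`, `BB_pos`.
* `b2 0 = 1` (`tend`), `b2 ψ = 0` for `sin ψ ≠ 0` (`hm2`, `no_inv`).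
* `four_ineq` for `w = w_t` and `R` with `R(n) ≥ 0`; take `LIM` (`isLIM.re` for the difference, linearity, `isLIM.smul`, `isLIM.add`): `(ev R b1).re ≤ M ^ 2 (ev R b2).re + 0`, because `η (Pn 0 w_t) → 0`: if there is a smooth unit vector `e0` of
  weight `0`: `Pn 0 w_t = c_t e0` (`MultOne`), `c_t = ⟪e0, Pn 0 w_t⟫ = ⟪Pn 0 e0, w_t⟫ = ⟪e0, w_t⟫ → 0` (`hm`), `η(Pn 0 w_t) = c_t η(e0)`, which is continuous and bounded in `t`; otherwise `Pn 0 w_t = 0`.
* `sphF`, `sph_hecke`, `riesz` with `M ^ 2` for `M`.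

-/

set_option autoImplicit false

namespace MPkt

open Filter Topology

universe u

variable {H : Type u} [NormedAddCommGroup H] [InnerProductSpace ℂ H] [CompleteSpace H] {π : URep H} {b : ℕ}

/-- `η` is an eigenfunctional of the Hecke operators `T_p`, `p = 1 mod 4`, `p ∤ b`. -/
def IsEig (b : ℕ) (π : URep H) (η : H → ℂ) : Prop :=
  ∀ p : ℕ, p.Prime → p % 4 = 1 → ¬ p ∣ b → ∀ s : Finset (Ob b), IsReps p s →
    ∃ l : ℂ, ∀ v, Smooth π v → ∑ β ∈ s, η (π.r β.hh v) = l * η v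

omit [CompleteSpace H] in
private theorem Thm1_mul (g h : G) (v : H) : π.r (g * h) v = π.r g (π.r h v) := by
  rw [map_mul]
  rfl

omit [CompleteSpace H] in
private theorem Thm1_one (v : H) : π.r 1 v = v := by
  rw [map_one]
  rfl

omit [CompleteSpace H] in
private theorem Thm1_wsmul {n : ℤ} {e : H} (he : IsWeight π n e) (c : ℂ) : IsWeight π n (c • e) := by
  intro θ
  rw [map_smul, he θ, smul_comm]

omit [CompleteSpace H] in
private theorem Thm1_unit {e : H} (he : e ≠ 0) : ‖((‖e‖⁻¹ : ℝ) : ℂ) • e‖ = 1 := by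
  rw [norm_smul, Complex.norm_real, norm_inv, norm_norm]
  exact inv_mul_cancel₀ (norm_ne_zero_iff.2 he)

/-- the generalised limit of the values at a trigonometric polynomial -/
private theorem Thm1_ev (R : List (ℂ × ℝ)) (F : ℝ → ℝ → ℂ) (hF : ∀ ψ, BC (F ψ)) :
    BC (fun t => ev R fun ψ => F ψ t) ∧ LIM (fun t => ev R fun ψ => F ψ t) = ev R fun ψ => LIM (F ψ) := by
  induction R with
  | nil =>
    have h1 : (fun t : ℝ => ev [] fun ψ => F ψ t) = fun _ => (0 : ℂ) := by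
      funext t
      simp [ev]
    have h2 : BC (fun _ : ℝ => (0 : ℂ)) := ⟨continuous_const, 0, fun _ => by rw [norm_zero]⟩
    rw [h1]
    refine ⟨h2, ?_⟩
    rw [isLIM.tend _ 0 h2 tendsto_const_nhds]
    simp [ev]
  | cons x R ih =>
    obtain ⟨h1, h2⟩ := ih
    have h3 : (fun t : ℝ => ev (x :: R) fun ψ => F ψ t) =
        fun t => x.1 * F x.2 t + (fun t => ev R fun ψ => F ψ t) t := by
      funext t
      simp [ev]
    have h4 : BC (fun t => x.1 * F x.2 t) := by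
      obtain ⟨hc, C, hC⟩ := hF x.2
      refine ⟨continuous_const.mul hc, ‖x.1‖ * C, fun t => ?_⟩
      rw [norm_mul]
      exact mul_le_mul_of_nonneg_left (hC t) (norm_nonneg _)
    rw [h3]
    refine ⟨?_, ?_⟩
    · obtain ⟨hc, C, hC⟩ := h1
      obtain ⟨hc', C', hC'⟩ := h4
      exact ⟨hc'.add hc, C' + C, fun t => (norm_add_le _ _).trans (add_le_add (hC' t) (hC t))⟩
    · rw [isLIM.add _ _ h4 h1, isLIM.smul _ _ (hF x.2), h2]
      simp [ev]

private theorem Thm1_BCadd {F F' : ℝ → ℂ} (h : BC F) (h' : BC F') : BC (fun t => F t + F' t) := by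
  obtain ⟨hc, C, hC⟩ := h
  obtain ⟨hc', C', hC'⟩ := h'
  exact ⟨hc.add hc', C + C', fun t => (norm_add_le _ _).trans (add_le_add (hC t) (hC' t))⟩

private theorem Thm1_BCmul {F : ℝ → ℂ} (c : ℂ) (h : BC F) : BC (fun t => c * F t) := by
  obtain ⟨hc, C, hC⟩ := h
  refine ⟨continuous_const.mul hc, ‖c‖ * C, fun t => ?_⟩
  rw [norm_mul]
  exact mul_le_mul_of_nonneg_left (hC t) (norm_nonneg _)

omit [CompleteSpace H] in
private theorem Thm1_isF {η : H → ℂ} (hη : IsAut π (Gam b) η) {m : ℤ} {v : H} (hv : Smooth π v) (hw : IsWeight π m v)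
    (hne : η v ≠ 0) : IsF b m fun g => η (π.r g v) where
  cont := eta_cont π hη.lin hv
  inv := by
    intro γ hγ g
    rw [Thm1_mul]
    exact hη.inv γ hγ _ (smooth_r π g hv)
  wt := by
    intro g θ
    rw [Thm1_mul, hw θ, map_smul]
    exact hη.lin.smul _ _ (smooth_r π g hv)
  ne := ⟨1, by
    rw [Thm1_one]
    exact hne⟩

private theorem Thm1_cmc {Ψ : G → ℂ} (h : Continuous Ψ) : Continuous (cm Ψ 1) := by
  have hp : Continuous (fun t : ℝ => ((1 : G), t)) := continuous_const.prodMk continuous_id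
  have h2 : Continuous (fun t : ℝ => cm Ψ ((1 : G), t).1 ((1 : G), t).2) := (cm_cont h).comp hp
  exact h2

/-- the component of weight zero -/
private theorem Thm1_zero {η : H → ℂ} (hm' : MultOne π) (hη : IsLin π η) {v : H} (hv : Smooth π v) : ∃ e0 : H,
    ∀ t : ℝ, η (Pn π 0 (π.r (aa t) v)) = inner ℂ e0 (π.r (aa t) v) * η e0 := by
  by_cases h : ∃ e0 : H, Smooth π e0 ∧ IsWeight π 0 e0 ∧ ‖e0‖ = 1
  · obtain ⟨e0, hs, hw, h1⟩ := h
    refine ⟨e0, fun t => ?_⟩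
    have hne : e0 ≠ 0 := by
      rintro rfl
      rw [norm_zero] at h1
      exact zero_ne_one h1
    have hsm : Smooth π (Pn π 0 (π.r (aa t) v)) := Pn_smooth π 0 (smooth_r π (aa t) hv)
    obtain ⟨c, hc⟩ := hm' 0 e0 _ hs hsm hw (Pn_weight π 0 _) hne
    have h2 : inner ℂ e0 (Pn π 0 (π.r (aa t) v)) = c := by
      rw [hc, inner_smul_right, inner_self_eq_norm_sq_to_K, h1]
      simp
    rw [inner_Pn, Pn_self π hw] at h2
    rw [hc, hη.smul _ _ hs, h2]
  · refine ⟨0, fun t => ?_⟩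
    have h1 : Pn π 0 (π.r (aa t) v) = 0 := by
      by_contra hne
      refine h ⟨_, smooth_smul π _ (Pn_smooth π 0 (smooth_r π (aa t) hv)), Thm1_wsmul (Pn_weight π 0 _) _,
        Thm1_unit hne⟩
    rw [h1, IsLin.zero π hη, mul_zero]

theorem thm1 (hb : ∀ x y : ℕ, b ≠ x ^ 2 + y ^ 2) (hI : Irred π) (hn : ∃ g v, π.r g v ≠ v) (hm : MultOne π) {η : H → ℂ}
    (hη : IsAut π (Gam b) η) (he : IsEig b π η) (M : ℝ) :
    ∃ n : ℤ, n ≠ 0 ∧ ∃ e : H, Smooth π e ∧ IsWeight π n e ∧ ‖e‖ = 1 ∧ M < ‖η e‖ := by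
  by_contra hcon
  push Not at hcon
  obtain ⟨M', hM'⟩ : ∃ M' : ℝ, M' = max M 0 := ⟨_, rfl⟩
  have hM1 : ∀ n : ℤ, n ≠ 0 → ∀ e, Smooth π e → IsWeight π n e → ‖η e‖ ≤ M' * ‖e‖ := by
    intro n hn0 e hs hw
    by_cases h0 : e = 0
    · rw [h0, IsLin.zero π hη.lin, norm_zero, norm_zero, mul_zero]
    · have h1 := hcon n hn0 _ (smooth_smul π ((‖e‖⁻¹ : ℝ) : ℂ) hs) (Thm1_wsmul hw _) (Thm1_unit h0)
      rw [hη.lin.smul _ _ hs, norm_mul, Complex.norm_real, norm_inv, norm_norm, inv_mul_eq_div,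
        div_le_iff₀ (norm_pos_iff.2 h0)] at h1
      refine h1.trans (mul_le_mul_of_nonneg_right ?_ (norm_nonneg _))
      rw [hM']
      exact le_max_left _ _
  -- a weight vector
  obtain ⟨m, v, hv, hw, hv1, hne⟩ : ∃ (m : ℤ) (v : H), Smooth π v ∧ IsWeight π m v ∧ ‖v‖ = 1 ∧ η v ≠ 0 := by
    by_contra hc
    obtain ⟨u, hu, hu'⟩ := hη.ne
    refine hu' (eta_zero π hη.lin (fun n e hs hwe => ?_) hu)
    by_contra hne
    have h0 : e ≠ 0 := by
      rintro rfl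
      exact hne (IsLin.zero π hη.lin)
    refine hc ⟨n, _, smooth_smul π ((‖e‖⁻¹ : ℝ) : ℂ) hs, Thm1_wsmul hwe _, Thm1_unit h0, ?_⟩
    rw [hη.lin.smul _ _ hs]
    refine mul_ne_zero ?_ hne
    rw [Complex.ofReal_ne_zero]
    exact inv_ne_zero (norm_ne_zero_iff.2 h0)
  obtain ⟨f, hfdef⟩ : ∃ f : G → ℂ, f = fun g => η (π.r g v) := ⟨_, rfl⟩
  have hf : IsF b m f := by
    rw [hfdef]
    exact Thm1_isF hη hv hw hne
  have hfa : ∀ g h : G, η (π.r g (π.r h v)) = f (g * h) := by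
    intro g h
    rw [hfdef]
    change _ = η (π.r (g * h) v)
    rw [Thm1_mul]
  have hno : ∀ v, (∀ g, π.r g v = v) → v = 0 := no_inv π hI hn
  -- boundedness
  obtain ⟨C, hC⟩ : ∃ C : ℝ, ∀ g, ‖f g‖ ≤ C := by
    have h1 : 0 < (1 : Ob b).N := by rw [Ob.N_one]; exact one_pos
    obtain ⟨C, hC⟩ := (F2_cpt hb hf h1 h1).buc.bdd
    refine ⟨1 + C, fun g => ?_⟩
    have h2 := hC g
    unfold F2 at h2
    rw [Ob.hh_one, one_mul, norm_mul, norm_star] at h2
    nlinarith [norm_nonneg (f g), sq_nonneg (‖f g‖ - 1)]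
  -- the functions
  let w : ℝ → H := fun t => π.r (aa t) v
  have hws : ∀ t, Smooth π (w t) := fun t => smooth_r π (aa t) hv
  have hwn : ∀ t, ‖w t‖ = 1 := fun t => by
    change ‖π.r (aa t) v‖ = 1
    rw [LinearIsometryEquiv.norm_map, hv1]
  have hwc : Continuous w := (π.cont v).comp cont_aa
  let Φ : ℝ → G → ℂ := fun ψ g => star (f g) * f (kk ψ * g)
  have hE1 : ∀ ψ t, E1 π η (w t) ψ = cm (Φ ψ) 1 t := by
    intro ψ t
    unfold E1 cm
    congr 1
    refine intervalIntegral.integral_congr fun θ _ => ?_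
    change star (η (π.r (kk θ) (π.r (aa t) v))) * η (π.r (kk ψ * kk θ) (π.r (aa t) v)) =
      star (f (1 * kk θ * aa t)) * f (kk ψ * (1 * kk θ * aa t))
    rw [hfa, hfa, one_mul, mul_assoc (kk ψ)]
  have hΦc : ∀ ψ, Continuous (Φ ψ) := fun ψ =>
    (continuous_star.comp hf.cont).mul (hf.cont.comp (continuous_const.mul continuous_id))
  have hBC1 : ∀ ψ, BC (fun t => E1 π η (w t) ψ) := by
    intro ψ
    have h1 : (fun t => E1 π η (w t) ψ) = cm (Φ ψ) 1 := funext fun t => hE1 ψ t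
    rw [h1]
    refine ⟨Thm1_cmc (hΦc ψ), C * C, fun t => ?_⟩
    refine cm_le (fun g => ?_) 1 t
    change ‖star (f g) * f (kk ψ * g)‖ ≤ C * C
    rw [norm_mul, norm_star]
    exact mul_le_mul (hC _) (hC _) (norm_nonneg _) ((norm_nonneg _).trans (hC g))
  have hBC2 : ∀ ψ, BC (fun t => inner ℂ (w t) (π.r (kk ψ) (w t))) := by
    intro ψ
    refine ⟨hwc.inner ((π.r (kk ψ)).continuous.comp hwc), 1, fun t => ?_⟩
    refine (norm_inner_le_norm _ _).trans ?_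
    rw [LinearIsometryEquiv.norm_map (π.r (kk ψ)) (w t), hwn, mul_one]
  -- the weight zero part
  obtain ⟨e0, he0⟩ := Thm1_zero hm hη.lin hv
  have hr0 : Tendsto (fun t => η (Pn π 0 (w t))) atTop (𝓝 0) := by
    have h1 := (MPkt.hm π hno e0 v).mul_const (η e0)
    rw [zero_mul] at h1
    exact h1.congr fun t => (he0 t).symm
  have hrc : Continuous (fun t => η (Pn π 0 (w t))) := by
    have h1 : (fun t => η (Pn π 0 (w t))) = fun t => inner ℂ e0 (w t) * η e0 := funext fun t => he0 t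
    rw [h1]
    exact (continuous_const.inner hwc).mul continuous_const
  have hrb : ∀ t, ‖η (Pn π 0 (w t))‖ ≤ ‖e0‖ * ‖η e0‖ := by
    intro t
    change ‖η (Pn π 0 (π.r (aa t) v))‖ ≤ _
    rw [he0 t, norm_mul]
    refine mul_le_mul_of_nonneg_right ?_ (norm_nonneg _)
    refine (norm_inner_le_norm _ _).trans ?_
    rw [LinearIsometryEquiv.norm_map, hv1, mul_one]
  obtain ⟨hB0, hB1⟩ := BB_pos hb hf
  obtain ⟨B, hB⟩ : ∃ B : ℝ, B = (BB f (1 : Ob b) 1).re := ⟨_, rfl⟩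
  have hBB : BB f (1 : Ob b) 1 = (B : ℂ) := by
    apply Complex.ext
    · rw [Complex.ofReal_re, hB]
    · rw [Complex.ofReal_im, hB1]
  rw [← hB] at hB0
  refine riesz hb (c := fun α => BB f 1 α / BB f (1 : Ob b) 1) (sphF hb hf) ?_
    (b1 := fun ψ => LIM fun t => E1 π η (w t) ψ)
    (b2 := fun ψ => LIM fun t => inner ℂ (w t) (π.r (kk ψ) (w t))) (B := B) (M := M' ^ 2) hB0 ?_ ?_ ?_ ?_
  · intro p hp h4 hpb s hs
    obtain ⟨l, hl⟩ := he p hp h4 hpb s hs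
    refine ⟨l, fun α hα => ?_⟩
    refine sph_hecke hb hf (fun β hβ => ?_) (fun g => ?_) hα
    · rw [hs.norm β hβ]
      exact_mod_cast hp.pos
    · have h1 := hl (π.r g v) (smooth_r π g hv)
      rw [Finset.sum_congr rfl fun β _ => hfa β.hh g] at h1
      rw [h1, hfdef]
  · intro ψ δ hδ hψ
    have h1 : (fun t => E1 π η (w t) ψ) = cm (F2 f 1 (Ob.em δ : Ob b)) 1 := by
      have h2 : Φ ψ = F2 f 1 (Ob.em δ : Ob b) := by
        funext g
        unfold F2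
        rw [Ob.hh_one, one_mul, ← hψ]
      rw [← h2]
      exact funext fun t => hE1 ψ t
    change LIM (fun t => E1 π η (w t) ψ) = B * (BB f 1 (Ob.em δ) / BB f (1 : Ob b) 1)
    rw [h1, hBB]
    have h3 : (B : ℂ) ≠ 0 := by
      rw [Complex.ofReal_ne_zero]
      exact hB0.ne'
    rw [mul_div_cancel₀ _ h3]
    rfl
  · refine isLIM.tend _ 1 (hBC2 0) ?_
    have h1 : (fun t => inner ℂ (w t) (π.r (kk 0) (w t))) = fun _ => (1 : ℂ) := by
      funext t
      rw [kk_zero, Thm1_one, inner_self_eq_norm_sq_to_K, hwn]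
      simp
    rw [h1]
    exact tendsto_const_nhds
  · intro ψ hψ
    exact isLIM.tend _ 0 (hBC2 ψ) (hm2 π hno hw hψ)
  · intro R hR
    obtain ⟨h1, h2⟩ := Thm1_ev R (fun ψ t => E1 π η (w t) ψ) hBC1
    obtain ⟨h3, h4⟩ := Thm1_ev R (fun ψ t => inner ℂ (w t) (π.r (kk ψ) (w t))) hBC2
    obtain ⟨K, hK⟩ : ∃ K : ℝ, K = (ev R fun _ => 1).re := ⟨_, rfl⟩
    have h5 : BC (fun t => ((‖η (Pn π 0 (w t))‖ ^ 2 * K : ℝ) : ℂ)) := by
      refine ⟨Complex.continuous_ofReal.comp ((hrc.norm.pow 2).mul continuous_const),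
        (‖e0‖ * ‖η e0‖) ^ 2 * |K|, fun t => ?_⟩
      rw [Complex.norm_real, norm_mul, norm_pow, norm_norm, Real.norm_eq_abs]
      exact mul_le_mul_of_nonneg_right (pow_le_pow_left₀ (norm_nonneg _) (hrb t) 2) (abs_nonneg _)
    have h6 : LIM (fun t => ((‖η (Pn π 0 (w t))‖ ^ 2 * K : ℝ) : ℂ)) = 0 := by
      refine isLIM.tend _ 0 h5 ?_
      have h7 : Tendsto (fun t => ‖η (Pn π 0 (w t))‖ ^ 2 * K) atTop (𝓝 (0 ^ 2 * K)) := by
        have h8 := hr0.norm
        rw [norm_zero] at h8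
        exact (h8.pow 2).mul_const K
      have h9 := (Complex.continuous_ofReal.tendsto _).comp h7
      have h10 : ((0 ^ 2 * K : ℝ) : ℂ) = 0 := by
        rw [zero_pow two_ne_zero, zero_mul, Complex.ofReal_zero]
      rw [h10] at h9
      exact h9
    have h7 : 0 ≤ (LIM (fun t => (((M' ^ 2 : ℝ) : ℂ) * (ev R fun ψ => inner ℂ (w t) (π.r (kk ψ) (w t))) +
        ((‖η (Pn π 0 (w t))‖ ^ 2 * K : ℝ) : ℂ)) + (-1) * (ev R fun ψ => E1 π η (w t) ψ))).re := by
      refine isLIM.re _ (Thm1_BCadd (Thm1_BCadd (Thm1_BCmul _ h3) h5) (Thm1_BCmul _ h1))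
        (Eventually.of_forall fun t => ?_)
      have h8 := four_ineq π hη.lin (hws t) hM1 R hR
      rw [← hK] at h8
      rw [Complex.add_re, Complex.add_re, Complex.re_ofReal_mul, Complex.ofReal_re, neg_one_mul, Complex.neg_re]
      have h9 : (ev R fun ψ => E1 π η (w t) ψ) = ev R (E1 π η (w t)) := rfl
      rw [h9]
      linarith
    rw [isLIM.add _ _ (Thm1_BCadd (Thm1_BCmul _ h3) h5) (Thm1_BCmul _ h1), isLIM.add _ _ (Thm1_BCmul _ h3) h5,
      isLIM.smul _ _ h3, isLIM.smul _ _ h1, h2, h4, h6, add_zero, Complex.add_re, Complex.re_ofReal_mul,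
      neg_one_mul, Complex.neg_re] at h7
    linarith

end MPkt
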