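import Pool.Agent.Lib.MP_7b255b_nt.Ob

/-!
# Uni: strong approximation at the split primes, elementary

`δ` a Gaussian integer, coprime to `star δ` and to `b`; `b` is not a square. Pell's equation gives an element of norm `1`
which is unipotent modulo `δ`; its powers and the Chinese remainder theorem give all elementary matrices.
-/

set_option autoImplicit false

namespace MPkt

variable {b : ℕ} {δ : GaussianInt}

theorem Uni_split (δ : GaussianInt) : ∀ (n : ℕ) (z : GaussianInt), z.norm.natAbs = n → z ≠ 0 →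
    ∃ (κ μ : GaussianInt) (N : ℕ), z = κ * μ ∧ κ ∣ δ ^ N ∧ IsCoprime μ δ := by
  intro n
  induction n using Nat.strong_induction_on with
  | _ n ih =>
    intro z hn hz
    by_cases hc : IsCoprime z δ
    · exact ⟨1, z, 0, (one_mul z).symm, one_dvd _, hc⟩
    · obtain ⟨z', hz'⟩ := EuclideanDomain.gcd_dvd_left z δ
      have hd : ¬ IsUnit (EuclideanDomain.gcd z δ) := fun h => hc (EuclideanDomain.gcd_isUnit_iff.1 h)
      have hz0 : z' ≠ 0 := by
        rintro rfl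
        rw [mul_zero] at hz'
        exact hz hz'
      have hd0 : EuclideanDomain.gcd z δ ≠ 0 := by
        intro h
        rw [h, zero_mul] at hz'
        exact hz hz'
      have hlt : z'.norm.natAbs < n := by
        have h1 : z.norm.natAbs = (EuclideanDomain.gcd z δ).norm.natAbs * z'.norm.natAbs := by
          rw [← Int.natAbs_mul, ← Zsqrtd.norm_mul, ← hz']
        have h2 : (EuclideanDomain.gcd z δ).norm.natAbs ≠ 1 := fun h => hd (Zsqrtd.norm_eq_one_iff.1 h)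
        have h3 : (EuclideanDomain.gcd z δ).norm.natAbs ≠ 0 := by
          rw [Int.natAbs_ne_zero]
          exact fun h => hd0 ((Zsqrtd.norm_eq_zero_iff (by norm_num) _).1 h)
        have h4 : z'.norm.natAbs ≠ 0 := by
          rw [Int.natAbs_ne_zero]
          exact fun h => hz0 ((Zsqrtd.norm_eq_zero_iff (by norm_num) _).1 h)
        have h5 : 2 ≤ (EuclideanDomain.gcd z δ).norm.natAbs := by omega
        rw [← hn, h1]
        have h6 : 1 * z'.norm.natAbs < (EuclideanDomain.gcd z δ).norm.natAbs * z'.norm.natAbs :=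
          Nat.mul_lt_mul_of_pos_right (by omega) (by omega)
        rwa [one_mul] at h6
      obtain ⟨κ, μ, N, h1, h2, h3⟩ := ih _ hlt z' rfl hz0
      refine ⟨EuclideanDomain.gcd z δ * κ, μ, N + 1, ?_, ?_, h3⟩
      · rw [mul_assoc, ← h1, ← hz']
      · rw [pow_succ, mul_comm]
        exact mul_dvd_mul h2 (EuclideanDomain.gcd_dvd_right z δ)

theorem split (δ : GaussianInt) {z : GaussianInt} (hz : z ≠ 0) : ∃ (κ μ : GaussianInt) (N : ℕ),
    z = κ * μ ∧ κ ∣ δ ^ N ∧ IsCoprime μ δ := Uni_split δ _ z rfl hz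

theorem int_rep (h1 : IsCoprime δ (star δ)) (z : GaussianInt) : ∃ k : ℤ, δ ∣ z - k := by
  obtain ⟨u, v, h⟩ := h1
  have h2 : δ.re * (u.re + v.re) + δ.im * (v.im - u.im) = 1 := by
    have h3 := congrArg Zsqrtd.re h
    simp only [Zsqrtd.re_add, Zsqrtd.re_mul, Zsqrtd.re_star, Zsqrtd.im_star, Zsqrtd.re_one] at h3
    linear_combination h3
  refine ⟨z.re + z.im * (δ.im * (u.re + v.re) - δ.re * (v.im - u.im)),
    ⟨z.im * (v.im - u.im), z.im * (u.re + v.re)⟩, ?_⟩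
  ext
  · simp only [Zsqrtd.re_sub, Zsqrtd.re_mul, Zsqrtd.re_intCast]
    ring
  · simp only [Zsqrtd.im_sub, Zsqrtd.im_mul, Zsqrtd.im_intCast]
    linear_combination -z.im * h2

theorem Uni_pos (hb : ¬ IsSquare b) : 0 < b := by
  rcases Nat.eq_zero_or_pos b with h | h
  · exact absurd (h ▸ ⟨0, rfl⟩) hb
  · exact h

theorem pell (hb : ¬ IsSquare b) {M : ℕ} (hM : 0 < M) :
    ∃ x z : ℤ, x ^ 2 - b * z ^ 2 = 1 ∧ z ≠ 0 ∧ (M : ℤ) ∣ x - 1 ∧ (M : ℤ) ∣ z := by
  have hb0 := Uni_pos hb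
  have h1 : ¬ IsSquare ((b * M ^ 2 : ℕ) : ℤ) := by
    intro h
    have h' : IsSquare (b * M ^ 2) := by exact_mod_cast h
    obtain ⟨c, hc⟩ := h'
    have h2 : M ^ 2 ∣ c ^ 2 := ⟨b, by rw [pow_two c, ← hc]; ring⟩
    obtain ⟨t, rfl⟩ := (Nat.pow_dvd_pow_iff (by norm_num)).1 h2
    refine hb ⟨t, ?_⟩
    have h3 : M ^ 2 * b = M ^ 2 * (t * t) := by
      calc M ^ 2 * b = b * M ^ 2 := by ring
        _ = M * t * (M * t) := hc
        _ = M ^ 2 * (t * t) := by ring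
    exact Nat.eq_of_mul_eq_mul_left (by positivity) h3
  obtain ⟨x0, y, h2, h3⟩ := Pell.exists_of_not_isSquare (d := ((b * M ^ 2 : ℕ) : ℤ)) (by positivity) h1
  have hb1 : (0 : ℤ) < b := by exact_mod_cast hb0
  have hM1 : (0 : ℤ) < M := by exact_mod_cast hM
  push_cast at h2
  have hx0 : x0 ≠ 0 := by
    rintro rfl
    have h4 : (0 : ℤ) ≤ b * M ^ 2 * y ^ 2 := by positivity
    linarith
  refine ⟨x0 ^ 2 + b * (M * y) ^ 2, 2 * x0 * (M * y), ?_, ?_, ?_, ?_⟩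
  · linear_combination (x0 ^ 2 - b * M ^ 2 * y ^ 2 + 1) * h2
  · exact mul_ne_zero (mul_ne_zero two_ne_zero hx0) (mul_ne_zero hM1.ne' h3)
  · exact ⟨2 * b * M * y ^ 2, by linear_combination h2⟩
  · exact ⟨2 * x0 * y, by ring⟩

theorem Uni_ne (h1 : IsCoprime δ (star δ)) : δ ≠ 0 := by
  rintro rfl
  rw [star_zero] at h1
  exact not_isCoprime_zero_zero h1

/-- The powers of an element which is unipotent modulo `δ`. -/
theorem Uni_pow {g : Ob b} (hN : g.N = 1) (hX : δ ∣ g.X - 1) (hX' : δ ∣ star g.X - 1) (hY : δ ∣ star g.Y) (n : ℕ) :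
    (g ^ n).N = 1 ∧ δ ∣ (g ^ n).X - 1 ∧ δ ∣ star (g ^ n).X - 1 ∧ δ ∣ star (g ^ n).Y ∧
      δ ∣ (g ^ n).Y - n * g.Y := by
  induction n with
  | zero =>
    rw [pow_zero, Ob.one_X, Ob.one_Y, star_one, star_zero, Nat.cast_zero, zero_mul, sub_self, sub_self]
    exact ⟨Ob.N_one, dvd_zero _, dvd_zero _, dvd_zero _, dvd_zero _⟩
  | succ n ih =>
    obtain ⟨e1, ⟨x1, e2⟩, ⟨x2, e3⟩, ⟨x3, e4⟩, ⟨x4, e5⟩⟩ := ih
    obtain ⟨y1, f1⟩ := hX
    obtain ⟨y2, f2⟩ := hX'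
    obtain ⟨y3, f3⟩ := hY
    rw [pow_succ, Ob.mul_X, Ob.mul_Y, star_add, star_mul, star_mul, star_add, star_mul, star_mul, star_mul,
      star_star, star_star, Ob.star_nat]
    have e2' : (g ^ n).X = 1 + δ * x1 := by linear_combination e2
    have e3' : star (g ^ n).X = 1 + δ * x2 := by linear_combination e3
    have f1' : g.X = 1 + δ * y1 := by linear_combination f1
    have f2' : star g.X = 1 + δ * y2 := by linear_combination f2
    refine ⟨?_, ?_, ?_, ?_, ?_⟩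
    · rw [Ob.N_mul, e1, hN, one_mul]
    · refine ⟨x1 * g.X + y1 + b * ((g ^ n).Y * y3), ?_⟩
      rw [e2', f3, f1']
      ring
    · refine ⟨x2 * star g.X + y2 + b * (g.Y * x3), ?_⟩
      rw [e3', e4, f2']
      ring
    · refine ⟨y3 * star (g ^ n).X + g.X * x3, ?_⟩
      rw [f3, e4]
      ring
    · refine ⟨x1 * g.Y + x4 + (g ^ n).Y * y2, ?_⟩
      rw [e2', f2']
      push_cast
      linear_combination e5

theorem e12 (hb : ¬ IsSquare b) (h1 : IsCoprime δ (star δ)) (h2 : IsCoprime δ (b : GaussianInt)) (c : GaussianInt) :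
    ∃ γ : Ob b, γ.N = 1 ∧ δ ∣ γ.X - 1 ∧ δ ∣ star γ.X - 1 ∧ δ ∣ b * γ.Y - c ∧ δ ∣ star γ.Y := by
  have hδ := Uni_ne h1
  have hM : 0 < δ.norm.natAbs := by
    rw [Int.natAbs_pos]
    exact fun h => hδ ((Zsqrtd.norm_eq_zero_iff (by norm_num) _).1 h)
  have hMδ : δ ∣ ((δ.norm.natAbs : ℤ) : GaussianInt) := by
    rw [Int.natAbs_of_nonneg (GaussianInt.norm_nonneg δ), Zsqrtd.norm_eq_mul_conj]
    exact dvd_mul_right _ _
  obtain ⟨x, z, h3, h4, h5, h6⟩ := pell hb hM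
  have hz : (z : GaussianInt) ≠ 0 := by exact_mod_cast h4
  obtain ⟨κ, μ, N, h7, h8, h9⟩ := split δ hz
  have hδz : δ ∣ (z : GaussianInt) := hMδ.trans (by exact_mod_cast (Int.cast_dvd_cast _ _ h6 : ((_ : ℤ) : GaussianInt) ∣ _))
  have hδx : δ ∣ (x : GaussianInt) - 1 := by
    have h10 := hMδ.trans (Int.cast_dvd_cast (α := GaussianInt) _ _ h5)
    rwa [Int.cast_sub, Int.cast_one] at h10
  have hδκ : δ ∣ κ := by
    rw [h7] at hδz
    exact h9.symm.dvd_of_dvd_mul_right hδz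
  obtain ⟨g, hg⟩ : ∃ g : Ob b, g = ⟨(x : GaussianInt), star κ * μ⟩ := ⟨_, rfl⟩
  have hgX : g.X = x := by rw [hg]
  have hgY : g.Y = star κ * μ := by rw [hg]
  have hgN : g.N = 1 := by
    unfold Ob.N
    rw [hgX, hgY, Zsqrtd.norm_mul, Zsqrtd.norm_conj, ← Zsqrtd.norm_mul, ← h7, Zsqrtd.norm_intCast, Zsqrtd.norm_intCast]
    linear_combination h3
  have hX : δ ∣ g.X - 1 := by rw [hgX]; exact hδx
  have hX' : δ ∣ star g.X - 1 := by rw [hgX, star_intCast]; exact hδx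
  have hY : δ ∣ star g.Y := by
    rw [hgY, star_mul, star_star]
    exact hδκ.mul_left _
  have hcop : IsCoprime ((b : GaussianInt) * g.Y) δ := by
    refine IsCoprime.mul_left h2.symm ?_
    rw [hgY]
    refine IsCoprime.mul_left ?_ h9
    have h10 : star κ ∣ (star δ) ^ N := by
      obtain ⟨w, hw⟩ := h8
      exact ⟨star w, by rw [← star_pow, hw, star_mul, mul_comm]⟩
    exact IsCoprime.of_isCoprime_of_dvd_left (h1.symm.pow_left) h10
  obtain ⟨u, v, huv⟩ := hcop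
  obtain ⟨k, hk⟩ := int_rep h1 (u * c)
  -- a natural number in the class of `k`
  obtain ⟨n, hn⟩ : ∃ n : ℕ, δ ∣ u * c - (n : GaussianInt) := by
    obtain ⟨n, hn⟩ : ∃ n : ℕ, (n : ℤ) = k + δ.norm.natAbs * |k| := by
      have h10 : 0 ≤ k + δ.norm.natAbs * |k| := by
        have h11 : (1 : ℤ) ≤ δ.norm.natAbs := by exact_mod_cast hM
        have h12 := neg_abs_le k
        nlinarith [abs_nonneg k]
      exact ⟨(k + δ.norm.natAbs * |k|).toNat, Int.toNat_of_nonneg h10⟩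
    refine ⟨n, ?_⟩
    have h10 : (n : GaussianInt) = (k : GaussianInt) + ((δ.norm.natAbs : ℤ) : GaussianInt) * ((|k| : ℤ) : GaussianInt) := by
      rw [← Int.cast_mul, ← Int.cast_add, ← hn, Int.cast_natCast]
    rw [h10, ← sub_sub]
    exact dvd_sub hk (hMδ.mul_right _)
  obtain ⟨e1, e2, e3, e4, e5⟩ := Uni_pow hgN hX hX' hY n
  refine ⟨g ^ n, e1, e2, e3, ?_, e4⟩
  obtain ⟨w1, e5⟩ := e5
  obtain ⟨w2, hn⟩ := hn
  refine ⟨b * w1 - b * g.Y * w2 - v * c, ?_⟩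
  linear_combination (b : GaussianInt) * e5 - (b : GaussianInt) * g.Y * hn + c * huv

theorem e21 (hb : ¬ IsSquare b) (h1 : IsCoprime δ (star δ)) (h2 : IsCoprime δ (b : GaussianInt)) (c : GaussianInt) :
    ∃ γ : Ob b, γ.N = 1 ∧ δ ∣ γ.X - 1 ∧ δ ∣ star γ.X - 1 ∧ δ ∣ γ.Y ∧ δ ∣ star γ.Y - c := by
  obtain ⟨γ, e1, e2, e3, e4, e5⟩ := e12 hb h1 h2 (b * c)
  refine ⟨⟨γ.X, star γ.Y⟩, ?_, e2, e3, e5, ?_⟩
  · refine Eq.trans ?_ e1
    unfold Ob.N
    rw [Zsqrtd.norm_conj]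
  · rw [← mul_sub] at e4
    change δ ∣ star (star γ.Y) - c
    rw [star_star]
    exact h2.dvd_of_dvd_mul_left e4

/-- Stable range. -/
theorem Uni_stable (h0 : δ ≠ 0) {s t u v : GaussianInt} (h : δ ∣ s * u + t * v - 1) :
    ∃ l : GaussianInt, IsCoprime (s + l * t) δ := by
  by_cases hs : s = 0
  · subst hs
    refine ⟨1, ?_⟩
    obtain ⟨w, hw⟩ := h
    exact ⟨v, -w, by linear_combination hw⟩
  · obtain ⟨κ, μ, N, h1, h2, h3⟩ := split s h0
    refine ⟨μ, isCoprime_of_prime_dvd (fun h4 => h0 h4.2) fun p hp h4 h5 => ?_⟩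
    have hpμ : p ∣ s → ¬ p ∣ μ := fun h6 h7 => hp.not_isUnit (h3.isUnit_of_dvd' h7 h6)
    have h6 : p ∣ s := by
      have h7 := h5
      rw [h1] at h7
      rcases hp.dvd_or_dvd h7 with h8 | h8
      · exact hp.dvd_of_dvd_pow (h8.trans h2)
      · exact (dvd_add_left (h8.mul_right t)).1 h4
    have h7 : p ∣ μ * t := (dvd_add_right h6).1 h4
    rcases hp.dvd_or_dvd h7 with h8 | h8
    · exact hpμ h6 h8
    · have h9 : p ∣ s * u + t * v := dvd_add (h6.mul_right _) (h8.mul_right _)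
      have h10 : p ∣ 1 := by
        have h11 := dvd_sub h9 (h5.trans h)
        rwa [sub_sub_cancel] at h11
      exact hp.not_isUnit (isUnit_of_dvd_one h10)

/-- The first columns of the elements of norm `1` modulo `δ` are all unimodular columns. -/
theorem trans (hb : ¬ IsSquare b) (h1 : IsCoprime δ (star δ)) (h2 : IsCoprime δ (b : GaussianInt))
    {s t u v : GaussianInt} (h : δ ∣ s * u + t * v - 1) :
    ∃ γ : Ob b, γ.N = 1 ∧ δ ∣ γ.X - s ∧ δ ∣ star γ.Y - t := by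
  -- the columns which occur
  obtain ⟨R, hR⟩ : ∃ R : GaussianInt → GaussianInt → Prop, ∀ s t, R s t ↔
      ∃ γ : Ob b, γ.N = 1 ∧ δ ∣ γ.X - s ∧ δ ∣ star γ.Y - t := ⟨_, fun s t => Iff.rfl⟩
  have hE12 : ∀ s t c, R s t → R (s + c * t) t := fun s t c h3 => by
    rw [hR] at h3 ⊢
    obtain ⟨β, e1, ⟨x1, e2⟩, ⟨x2, e3⟩⟩ := h3
    obtain ⟨γ, f1, ⟨y1, f2⟩, ⟨y2, f3⟩, ⟨y3, f4⟩, ⟨y4, f5⟩⟩ := e12 hb h1 h2 c
    refine ⟨γ * β, by rw [Ob.N_mul, e1, f1, one_mul], ?_, ?_⟩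
    · rw [Ob.mul_X]
      refine ⟨y1 * β.X + x1 + y3 * star β.Y + c * x2, ?_⟩
      linear_combination β.X * f2 + e2 + star β.Y * f4 + c * e3
    · rw [Ob.mul_Y, star_add, star_mul, star_mul, star_star]
      refine ⟨y2 * star β.Y + x2 + y4 * β.X, ?_⟩
      linear_combination star β.Y * f3 + e3 + β.X * f5
  have hE21 : ∀ s t c, R s t → R s (t + c * s) := fun s t c h3 => by
    rw [hR] at h3 ⊢
    obtain ⟨β, e1, ⟨x1, e2⟩, ⟨x2, e3⟩⟩ := h3
    obtain ⟨γ, f1, ⟨y1, f2⟩, ⟨y2, f3⟩, ⟨y3, f4⟩, ⟨y4, f5⟩⟩ := e21 hb h1 h2 c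
    refine ⟨γ * β, by rw [Ob.N_mul, e1, f1, one_mul], ?_, ?_⟩
    · rw [Ob.mul_X]
      refine ⟨y1 * β.X + x1 + b * (y3 * star β.Y), ?_⟩
      linear_combination β.X * f2 + e2 + b * star β.Y * f4
    · rw [Ob.mul_Y, star_add, star_mul, star_mul, star_star]
      refine ⟨y2 * star β.Y + x2 + y4 * β.X + c * x1, ?_⟩
      linear_combination star β.Y * f3 + e3 + β.X * f5 + c * e2
  have hcl : ∀ s t s' t', δ ∣ s - s' → δ ∣ t - t' → R s t → R s' t' := fun s t s' t' h3 h4 h5 => by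
    rw [hR] at h5 ⊢
    obtain ⟨β, e1, e2, e3⟩ := h5
    refine ⟨β, e1, ?_, ?_⟩
    · have h6 := dvd_add e2 h3
      rwa [sub_add_sub_cancel] at h6
    · have h6 := dvd_add e3 h4
      rwa [sub_add_sub_cancel] at h6
  have h0 : R 1 0 := by
    rw [hR]
    refine ⟨1, Ob.N_one, ?_, ?_⟩
    · rw [Ob.one_X, sub_self]
      exact dvd_zero _
    · rw [Ob.one_Y, star_zero, sub_self]
      exact dvd_zero _
  obtain ⟨l, u', v', hl⟩ := Uni_stable (Uni_ne h1) h
  have r1 : R 1 1 := by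
    have h3 := hE21 1 0 1 h0
    rwa [zero_add, one_mul] at h3
  have r2 : R (s + l * t) 1 := by
    have h3 := hE12 1 1 (s + l * t - 1) r1
    rwa [mul_one, add_sub_cancel] at h3
  have r3 : R (s + l * t) t := by
    refine hcl _ _ _ _ ?_ ?_ (hE21 _ _ ((t - 1) * u') r2)
    · rw [sub_self]
      exact dvd_zero _
    · refine ⟨-(v' * (t - 1)), ?_⟩
      linear_combination (t - 1) * hl
  have r4 : R s t := by
    have h3 := hE12 _ _ (-l) r3
    have h4 : s + l * t + -l * t = s := by ring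
    rwa [h4] at h3
  exact (hR s t).1 r4

end MPkt
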